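import Pool.Agent.Lib.MP_dee884_lc.H3.Spec

/-!
# MP_dee884_lc, H3: homomorphic images with bounded alphabets as tracks
-/

namespace MPdee884H3

open MPdee884H1 MPdee884H2 Pool.Agent.Lin

namespace BA_aux

/-- a word is not longer than its image under a non-erasing homomorphism -/
theorem len_le {α β : Type} (h : β → List α) (hh : ∀ b, h b ≠ []) (w : List β) :
    w.length ≤ (w.flatMap h).length := by
  induction w with
  | nil => simp
  | cons b w ih =>
    have h1 : 1 ≤ (h b).length := List.length_pos_iff.2 (hh b)
    rw [List.flatMap_cons, List.length_append, List.length_cons]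
    omega

/-- the letters with the numbers `i` -/
def dec {β : Type} {m : ℕ} (e : β ≃ Fin m) (k : ℕ) (i : Fin (k + 2)) : List β :=
  if h : i.1 < m then [e.symm ⟨i.1, h⟩] else []

/-- the number of a letter -/
def num {β : Type} {m : ℕ} (e : β ≃ Fin m) (k : ℕ) (hm : m ≤ k) (b : β) : Fin (k + 2) :=
  ⟨(e b).1, by have := (e b).2; omega⟩

theorem dec_num {β : Type} {m : ℕ} (e : β ≃ Fin m) (k : ℕ) (hm : m ≤ k) (b : β) :
    dec e k (num e k hm b) = [b] := by
  unfold dec num
  rw [dif_pos (e b).2]
  simp

theorem dec_last {β : Type} {m : ℕ} (e : β ≃ Fin m) (k : ℕ) (hm : m ≤ k) :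
    dec e k (Fin.last (k + 1)) = [] := by
  unfold dec
  rw [dif_neg]
  simp only [Fin.val_last]
  omega

/-- the track of numbers -/
def track {β : Type} {m : ℕ} (e : β ≃ Fin m) (k : ℕ) (hm : m ≤ k) (w : List β) (n : ℕ) :
    List (Fin (k + 2)) :=
  w.map (num e k hm) ++ List.replicate (n - w.length) (Fin.last (k + 1))

theorem track_len {β : Type} {m : ℕ} (e : β ≃ Fin m) (k : ℕ) (hm : m ≤ k) (w : List β) (n : ℕ)
    (hn : w.length ≤ n) : (track e k hm w n).length = n := by
  unfold track
  rw [List.length_append, List.length_map, List.length_replicate]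
  omega

theorem track_dec {β : Type} {m : ℕ} (e : β ≃ Fin m) (k : ℕ) (hm : m ≤ k) (w : List β) (n : ℕ) :
    (track e k hm w n).flatMap (dec e k) = w := by
  unfold track
  rw [List.flatMap_append]
  have h1 : ∀ w : List β, (w.map (num e k hm)).flatMap (dec e k) = w := by
    intro w
    induction w with
    | nil => rfl
    | cons b w ih => rw [List.map_cons, List.flatMap_cons, dec_num, ih]; rfl
  have h2 : ∀ j : ℕ, (List.replicate j (Fin.last (k + 1))).flatMap (dec e k) = [] := by
    intro j
    induction j with
    | zero => rfl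
    | succ j ih => rw [List.replicate_succ, List.flatMap_cons, dec_last e k hm, ih]; rfl
  rw [h1, h2, List.append_nil]

end BA_aux

open BA_aux in
theorem tBA : S_BA := by
  rintro k X ⟨β, hβ, L, h, hk, hL, hh, hX⟩
  have e : β ≃ Fin (Nat.card β) := Finite.equivFin β
  have key : ∀ v : List (Bool × Fin (k + 2)),
      v.flatMap (fun p => (dec e k p.2).flatMap h) = (v.flatMap (fun p => dec e k p.2)).flatMap h :=
    fun v => (List.flatMap_assoc).symm
  refine ⟨{v | v.flatMap (fun p => dec e k p.2) ∈ L} ∩
    {v | v.flatMap (fun p => (dec e k p.2).flatMap h) = v.flatMap (fun p => [p.1])},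
    LINTIME.inter (lin_inv _ hL) ?_, ?_⟩
  · have h1 := lintime_eq (MP.hom (fun p : Bool × Fin (k + 2) => (dec e k p.2).flatMap h))
      (MP.hom (fun p : Bool × Fin (k + 2) => [p.1]))
    simpa only [MP.hom_val] using h1
  · ext x
    constructor
    · intro hx
      obtain ⟨w, hw, hwx⟩ := (hX x).1 hx
      have hlen : w.length ≤ x.length := by
        rw [← hwx]
        exact len_le h hh w
      have hz := track_len e k hk w x.length hlen
      have hfst : (x.zip (track e k hk w x.length)).map Prod.fst = x :=
        List.map_fst_zip (by rw [hz])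
      have hsnd : (x.zip (track e k hk w x.length)).map Prod.snd = track e k hk w x.length :=
        List.map_snd_zip (by rw [hz])
      have hd : (x.zip (track e k hk w x.length)).flatMap (fun p => dec e k p.2) = w := by
        have h2 := track_dec e k hk w x.length
        rw [← hsnd, List.flatMap_map] at h2
        exact h2
      refine ⟨x.zip (track e k hk w x.length), hfst, ?_, ?_⟩
      · rw [Set.mem_ofPred_eq, hd]
        exact hw
      · rw [Set.mem_ofPred_eq, key, hd, hwx, flatMap_single, hfst]
    · rintro ⟨v, hv, hv1, hv2⟩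
      rw [Set.mem_ofPred_eq] at hv1 hv2
      refine (hX x).2 ⟨_, hv1, ?_⟩
      rw [← key, hv2, flatMap_single, hv]

end MPdee884H3
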