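import Pool.Agent.Lib.MP_dee884_lc.H3.Spec

/-!
# MP_dee884_lc, H3: conditions on marked words which are recognised in the classes `Cls`
-/

namespace MPdee884H3

open MPdee884H1 MPdee884H2 Pool.Agent.Lin

/-! ### closure properties of the classes -/

section

variable {ρ : Type} {B : ρ → Type} {E : (i : ρ) → Set (List (B i × Bool))} {k : ℕ}

theorem cls_mono {j : ℕ} {A : Type} {L : Set (List A)} (h : Cls E k j A L) :
    Cls E k (j + 1) A L := by
  induction h with
  | cf L h => exact Cls.cf L h
  | tape L h => exact Cls.tape L h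
  | slice i f u => exact Cls.slice i f u
  | compl L _ ih => exact Cls.compl _ ih
  | union L M _ _ ih1 ih2 => exact Cls.union _ _ ih1 ih2
  | ex M _ ih => exact Cls.ex M ih

theorem cls_le {j j' : ℕ} {A : Type} {L : Set (List A)} (h : Cls E k j A L) (hj : j ≤ j') :
    Cls E k j' A L := by
  induction hj with
  | refl => exact h
  | step _ ih => exact cls_mono ih

theorem cls_inter {j : ℕ} {A : Type} {L M : Set (List A)} (h1 : Cls E k j A L)
    (h2 : Cls E k j A M) : Cls E k j A (L ∩ M) := by
  have h := (Cls.union _ _ (h1.compl) (h2.compl)).compl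
  have e : (Lᶜ ∪ Mᶜ)ᶜ = L ∩ M := by
    ext x
    simp
  rwa [e] at h

theorem cls_univ (hR : S_RegL) (j : ℕ) (A : Type) : Cls E k j A Set.univ := by
  have h := hR (X := A) (Q := Unit) (fun q _ => q) () Set.univ
  have e : {w : List A | w.foldl (fun (q : Unit) _ => q) () ∈ (Set.univ : Set Unit)} =
      Set.univ := by
    ext x
    simp
  rw [e] at h
  exact Cls.tape _ h

theorem cls_iInter (hR : S_RegL) {j : ℕ} {A : Type} {ι : Type} [Finite ι]
    (V : ι → Set (List A)) (h : ∀ i, Cls E k j A (V i)) :
    Cls E k j A {w | ∀ i, w ∈ V i} := by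
  classical
  have := Fintype.ofFinite ι
  have key : ∀ s : Finset ι, Cls E k j A {w | ∀ i ∈ s, w ∈ V i} := by
    intro s
    induction s using Finset.induction_on with
    | empty =>
      have e : {w : List A | ∀ i ∈ (∅ : Finset ι), w ∈ V i} = Set.univ := by
        ext x
        simp
      rw [e]
      exact cls_univ hR j A
    | insert i s _ ih =>
      have e : {w : List A | ∀ i' ∈ insert i s, w ∈ V i'} = V i ∩ {w | ∀ i ∈ s, w ∈ V i} := by
        ext x
        simp
      rw [e]
      exact cls_inter (h i) ih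
  have e : {w : List A | ∀ i, w ∈ V i} = {w | ∀ i ∈ (Finset.univ : Finset ι), w ∈ V i} := by
    ext x
    simp
  rw [e]
  exact key _

/-- the words of `L` which are shorter than `m` -/
theorem cls_short (hR : S_RegL) (j : ℕ) {A : Type} [Finite A] (L : Set (List A)) (m : ℕ) :
    Cls E k j A {x | x ∈ L ∧ x.length < m} := by
  have hf : Finite {u : List A // u.length ≤ m} := (List.finite_length_le A m).to_subtype
  let δ : {u : List A // u.length ≤ m} → A → {u : List A // u.length ≤ m} :=
    fun u a => ⟨(u.1 ++ [a]).take m, by simp⟩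
  have key : ∀ x : List A, (x.foldl δ ⟨[], by simp⟩).1 = x.take m := by
    intro x
    induction x using List.reverseRecOn with
    | nil => simp
    | append_singleton x a ih =>
      rw [List.foldl_append, List.foldl_cons, List.foldl_nil]
      show ((x.foldl δ ⟨[], by simp⟩).1 ++ [a]).take m = _
      rw [ih]
      rcases Nat.lt_or_ge x.length m with h | h
      · rw [List.take_of_length_le (l := x) (by omega)]
      · rw [List.take_append_of_le_length (by simp; omega),
          List.take_append_of_le_length h, List.take_take, Nat.min_self]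
  have h := hR δ ⟨[], by simp⟩ {u | u.1 ∈ L ∧ u.1.length < m}
  have e : {w : List A | w.foldl δ ⟨[], by simp⟩ ∈
      ({u | u.1 ∈ L ∧ u.1.length < m} : Set {u : List A // u.length ≤ m})} =
      {x | x ∈ L ∧ x.length < m} := by
    ext x
    simp only [Set.mem_ofPred_eq]
    rw [key]
    constructor
    · rintro ⟨h1, h2⟩
      have h3 : x.length < m := by
        rw [List.length_take] at h2
        omega
      rw [List.take_of_length_le (by omega)] at h1
      exact ⟨h1, h3⟩
    · rintro ⟨h1, h2⟩
      rw [List.take_of_length_le (by omega)]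
      exact ⟨h1, h2⟩
  rw [e] at h
  exact Cls.tape _ h

end

/-! ### recognised conditions -/

/-- A property `P` of words and block lengths is recognised in `C_j`, for words marked by `mk` with
`K` blocks. -/
def RgC {ρ : Type} {B : ρ → Type} (E : (i : ρ) → Set (List (B i × Bool))) (k j : ℕ)
    {X : Type} (K : ℕ) (mk : X → Bool) (P : List X → ℕ → Prop) : Prop :=
  ∃ V : Set (List X), Cls E k j X V ∧
    ∀ (w : List X) (b : ℕ), Mk K b (w.map mk) → (w ∈ V ↔ P w b)

section

variable {ρ : Type} {B : ρ → Type} {E : (i : ρ) → Set (List (B i × Bool))} {k j : ℕ}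
  {X : Type} {K : ℕ} {mk : X → Bool}

theorem RgC.of {P : List X → ℕ → Prop} (h : Rg K mk P) : RgC E k j K mk P := by
  obtain ⟨V, h1, h2⟩ := h
  exact ⟨V, Cls.tape _ h1, h2⟩

theorem RgC.congr {P P' : List X → ℕ → Prop} (h : RgC E k j K mk P)
    (e : ∀ (w : List X) (b : ℕ), Mk K b (w.map mk) → (P' w b ↔ P w b)) :
    RgC E k j K mk P' := by
  obtain ⟨V, h1, h2⟩ := h
  exact ⟨V, h1, fun w b hw => (h2 w b hw).trans (e w b hw).symm⟩

theorem RgC.le {j' : ℕ} {P : List X → ℕ → Prop} (h : RgC E k j K mk P) (hj : j ≤ j') :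
    RgC E k j' K mk P := by
  obtain ⟨V, h1, h2⟩ := h
  exact ⟨V, cls_le h1 hj, h2⟩

theorem RgC.not {P : List X → ℕ → Prop} (h : RgC E k j K mk P) :
    RgC E k j K mk (fun w b => ¬ P w b) := by
  obtain ⟨V, h1, h2⟩ := h
  exact ⟨Vᶜ, Cls.compl _ h1, fun w b hw => not_congr (h2 w b hw)⟩

theorem RgC.and {P P' : List X → ℕ → Prop} (h : RgC E k j K mk P) (h' : RgC E k j K mk P') :
    RgC E k j K mk (fun w b => P w b ∧ P' w b) := by
  obtain ⟨V, h1, h2⟩ := h
  obtain ⟨V', h1', h2'⟩ := h'
  exact ⟨V ∩ V', cls_inter h1 h1', fun w b hw => and_congr (h2 w b hw) (h2' w b hw)⟩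

theorem RgC.true (hR : S_RegL) : RgC E k j K mk (fun _ _ => True) :=
  ⟨Set.univ, cls_univ hR j X, fun _ _ _ => by simp⟩

theorem RgC.all (hR : S_RegL) {ι : Type} [Finite ι] {P : ι → List X → ℕ → Prop}
    (h : ∀ i, RgC E k j K mk (P i)) : RgC E k j K mk (fun w b => ∀ i, P i w b) := by
  choose V h1 h2 using h
  exact ⟨{w | ∀ i, w ∈ V i}, cls_iInter hR V h1, fun w b hw => forall_congr' fun i => h2 i w b hw⟩

theorem RgC.some (hR : S_RegL) {ι : Type} [Finite ι] {P : ι → List X → ℕ → Prop}
    (h : ∀ i, RgC E k j K mk (P i)) : RgC E k j K mk (fun w b => ∃ i, P i w b) := by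
  refine ((RgC.all hR (fun i => (h i).not)).not).congr ?_
  intro w b _
  push Not
  rfl

theorem RgC.imp (hR : S_RegL) {p : Prop} {P : List X → ℕ → Prop}
    (h : p → RgC E k j K mk P) : RgC E k j K mk (fun w b => p → P w b) := by
  by_cases hp : p
  · refine (h hp).congr ?_
    intro w b _
    exact ⟨fun h => h hp, fun h _ => h⟩
  · refine (RgC.true hR).congr ?_
    intro w b _
    exact ⟨fun _ => trivial, fun _ h => absurd h hp⟩

theorem RgC.andc (hR : S_RegL) {p : Prop} {P : List X → ℕ → Prop}
    (h : p → RgC E k j K mk P) : RgC E k j K mk (fun w b => p ∧ P w b) := by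
  by_cases hp : p
  · refine (h hp).congr ?_
    intro w b _
    exact ⟨fun h => h.2, fun h => ⟨hp, h⟩⟩
  · refine (RgC.true hR).not.congr ?_
    intro w b _
    exact ⟨fun h => absurd h.1 hp, fun h => absurd trivial h⟩

theorem RgC.ex {P : List (X × Fin k) → ℕ → Prop}
    (h : RgC E k j K (fun p : X × Fin k => mk p.1) P) :
    RgC E k (j + 1) K mk (fun w b => ∃ v : List (X × Fin k), v.map Prod.fst = w ∧ P v b) := by
  obtain ⟨V, h1, h2⟩ := h
  refine ⟨{x | ∃ v : List (X × Fin k), v.map Prod.fst = x ∧ v ∈ V}, Cls.ex V h1, ?_⟩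
  intro w b hw
  refine exists_congr fun v => and_congr_right fun hv => ?_
  refine h2 v b ?_
  have e : v.map (fun p : X × Fin k => mk p.1) = w.map mk := by
    rw [← hv, List.map_map]
    rfl
  rw [e]
  exact hw

end

/-! ### tracks -/

/-- the bit of a letter of a track -/
def bit {k : ℕ} (i : Fin k) : Bool := decide (i.1 ≠ 0)

theorem track {X : Type} {k : ℕ} (hk : 2 ≤ k) (w : List X) (u : List Bool)
    (h : u.length = w.length) : ∃ v : List (X × Fin k), v.map Prod.fst = w ∧
      v.map (fun p => bit p.2) = u := by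
  refine ⟨w.zip (u.map (fun b => if b = true then (⟨1, by omega⟩ : Fin k) else ⟨0, by omega⟩)),
    ?_, ?_⟩
  · rw [List.map_fst_zip]
    simp [h]
  · have e : (fun p : X × Fin k => bit p.2) = bit ∘ Prod.snd := rfl
    rw [e, ← List.map_map, List.map_snd_zip (by simp [h]), List.map_map]
    conv_rhs => rw [← List.map_id u]
    refine List.map_congr_left ?_
    intro b _
    cases b <;> simp [bit]

/-- marks exist -/
theorem marks (K n : ℕ) (hK : 1 ≤ K) (hn : K * K ≤ n) :
    ∃ (b : ℕ) (m : List Bool), m.length = n ∧ Mk K b m := by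
  have h1 : K * (n / K) + n % K = n := Nat.div_add_mod n K
  have h2 : n % K < K := Nat.mod_lt _ hK
  have h3 : K ≤ n / K := (Nat.le_div_iff_mul_le hK).mpr hn
  refine ⟨n / K, (List.range n).map (fun t => decide (n / K ∣ t)), by simp, by omega, ?_, ?_, ?_⟩
  · simp only [List.length_map, List.length_range]
    omega
  · simp only [List.length_map, List.length_range]
    omega
  · intro t ht
    simp only [List.length_map, List.length_range] at ht
    simp [ht]

theorem Mk.pos {K b : ℕ} {m : List Bool} (h : Mk K b m) : 1 ≤ b := h.1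

/-! ### codes -/

theorem codes (Λ : Type) [Finite Λ] [Nonempty Λ] : ∃ (l : ℕ) (dec : List Bool → Λ)
    (enc : Λ → List Bool), 1 ≤ l ∧ (∀ a, (enc a).length = l) ∧ ∀ a, dec (enc a) = a := by
  classical
  obtain ⟨n, ⟨f⟩⟩ := Finite.exists_equiv_fin Λ
  let enc : Λ → List Bool := fun a => List.ofFn (fun i : Fin n => decide (i = f a))
  have hinj : Function.Injective enc := by
    intro a a' h
    have h1 := List.ofFn_injective h
    have h2 := congrFun h1 (f a)
    simp only [decide_true] at h2
    exact f.injective (of_decide_eq_true h2.symm)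
  have a0 : Λ := Classical.arbitrary Λ
  refine ⟨n, Function.invFun enc, enc, ?_, fun a => by simp [enc], Function.leftInverse_invFun hinj⟩
  have := (f a0).2
  omega

end MPdee884H3
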