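import Pool.Agent.Lib.MP_dee884_lc.H2.Defs

/-!
# MP_dee884_lc: the classes `D_j(A)`
-/

namespace MPdee884H3

open MPdee884H1 MPdee884H2 Pool.Agent.Lin

/-- The class `D_j(A)`: as `C_j(A)` (see `Cls`), with the languages in `LINTIME` on each level:
Boolean closure of the context-free languages, of the languages accepted in linear time with one
work tape, of the languages in `LINTIME`, of the slices of the languages `E i`, and (`j > 0`) of the
languages `{x : some word over A × [k] above x is in M}`, `M` in `D_(j-1)(A × [k])`. -/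
inductive ClsL {ρ : Type} {B : ρ → Type} (E : (i : ρ) → Set (List (B i × Bool))) (k : ℕ) :
    ℕ → (A : Type) → Set (List A) → Prop
  | cf {j : ℕ} {A : Type} (L : Language A) : L.IsContextFree → ClsL E k j A {x | x ∈ L}
  | tape {j : ℕ} {A : Type} (L : Set (List A)) : OneTape L → ClsL E k j A L
  | lin {j : ℕ} {A : Type} (L : Set (List A)) : LINTIME L → ClsL E k j A L
  | slice {j : ℕ} {A : Type} (i : ρ) (f : A → B i) (u : List Bool) :
      ClsL E k j A {x | (x.map f).zip (pad u x.length) ∈ E i}
  | compl {j : ℕ} {A : Type} (L : Set (List A)) : ClsL E k j A L → ClsL E k j A Lᶜ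
  | union {j : ℕ} {A : Type} (L M : Set (List A)) : ClsL E k j A L → ClsL E k j A M →
      ClsL E k j A (L ∪ M)
  | ex {j : ℕ} {A : Type} (M : Set (List (A × Fin k))) : ClsL E k j (A × Fin k) M →
      ClsL E k (j + 1) A {x | ∃ v : List (A × Fin k), v.map Prod.fst = x ∧ v ∈ M}

end MPdee884H3
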