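import Pool.Agent.Lib.MP_dee884_lc.H3.Spec

/-! Module Code (MP_dee884_lc, H3): existence of a bit track with given slots. -/

namespace MPdee884H3

open MPdee884H1 MPdee884H2 Pool.Agent.Lin

namespace Code_aux

open Classical in
/-- the code of the letter with the number `m` -/
noncomputable def cod {Λ I : Type} (l : ℕ) (enc : Λ → List Bool) (b : ℕ) (idx : I → ℕ)
    (W : I → List Λ) (m : ℕ) : List Bool :=
  if h : ∃ i, idx i = m / b then
    ((W h.choose)[m % b]?).elim (List.replicate l false) enc
  else List.replicate l false

theorem cod_length {Λ I : Type} {l : ℕ} {enc : Λ → List Bool} (he : ∀ a, (enc a).length = l)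
    (b : ℕ) (idx : I → ℕ) (W : I → List Λ) (m : ℕ) : (cod l enc b idx W m).length = l := by
  unfold cod
  split_ifs with h
  · cases (W h.choose)[m % b]? with
    | none => simp
    | some a => simpa using he a
  · simp

/-- the track -/
noncomputable def trk {Λ I : Type} (l : ℕ) (enc : Λ → List Bool) (b : ℕ) (idx : I → ℕ)
    (W : I → List Λ) (n : ℕ) : List Bool :=
  (List.range n).map (fun t => (cod l enc b idx W (t / l)).getD (t % l) false)

theorem trk_cut {Λ I : Type} {l : ℕ} (hl : 1 ≤ l) {enc : Λ → List Bool}
    (he : ∀ a, (enc a).length = l) (b : ℕ) (idx : I → ℕ) (W : I → List Λ) (n m : ℕ)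
    (hm : m * l + l ≤ n) :
    ((trk l enc b idx W n).drop (m * l)).take l = cod l enc b idx W m := by
  have hlen := cod_length he b idx W m
  apply List.ext_getElem
  · rw [List.length_take, List.length_drop, hlen]
    simp only [trk, List.length_map, List.length_range]
    omega
  · intro j h1 h2
    have hj : j < l := hlen ▸ h2
    rw [List.getElem_take, List.getElem_drop]
    simp only [trk, List.getElem_map, List.getElem_range]
    have e1 : (m * l + j) / l = m := by
      rw [Nat.add_comm, Nat.add_mul_div_right _ _ (by omega), Nat.div_eq_of_lt hj, Nat.zero_add]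
    have e2 : (m * l + j) % l = j := by
      rw [Nat.add_comm, Nat.add_mul_mod_self_right, Nat.mod_eq_of_lt hj]
    rw [e1, e2, List.getD_eq_getElem _ _ h2]

end Code_aux

open Code_aux in
theorem tCode : S_Code := by
  intro Λ I l dec enc hl he hd b P n hn idx hidx hP W hW
  refine ⟨trk l enc b idx W n, by simp [trk], fun i => ?_⟩
  apply List.ext_getElem
  · simp [slot, hW i]
  · intro o h1 h2
    have ho : o < b := hW i ▸ h2
    have hb : 0 < b := by omega
    simp only [slot, List.getElem_map, List.getElem_range]
    have hm : (idx i * b + o) * l + l ≤ n := by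
      have a1 : idx i * b + o + 1 ≤ P * b := by
        have := Nat.mul_le_mul_right b (hP i)
        rw [Nat.succ_mul] at this
        omega
      have a2 := Nat.mul_le_mul_right l a1
      rw [Nat.add_mul (idx i * b + o) 1 l, Nat.one_mul] at a2
      omega
    have e1 : (idx i * b + o) / b = idx i := by
      rw [Nat.add_comm, Nat.add_mul_div_right _ _ hb, Nat.div_eq_of_lt ho, Nat.zero_add]
    have e2 : (idx i * b + o) % b = o := by
      rw [Nat.add_comm, Nat.add_mul_mod_self_right, Nat.mod_eq_of_lt ho]
    unfold lt
    rw [trk_cut hl he b idx W n _ hm]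
    have hc : cod l enc b idx W (idx i * b + o) = enc ((W i)[o]) := by
      have hex : ∃ j, idx j = (idx i * b + o) / b := ⟨i, e1.symm⟩
      unfold cod
      rw [dif_pos hex, e2]
      have hch : hex.choose = i := hidx (hex.choose_spec.trans e1)
      rw [hch, List.getElem?_eq_getElem h2]
      rfl
    rw [hc, hd]

end MPdee884H3

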