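import Pool.Agent.Lib.MP_dee884_lc.H3.Spec

/-!
# MP_dee884_lc, H3: completeness, the computation gives good local data (`tCpl`)
-/

set_option autoImplicit false

namespace MPdee884H3

open MPdee884H1 MPdee884H2 Pool.Agent.Lin

namespace Cpl_aux

section

variable {K : Type} {Γ : K → Type}

theorem bc_length {M : TM K Γ} (c : AC M) (k : K) (b : ℕ) (β : ℤ) : (bc c k b β).length = b := by
  simp [bc]

theorem run_succ (M : TM K Γ) (τ : (k : K) → ℤ → Option (Γ k)) (w b : ℕ) :
    (astep M)^[b] (run M τ (w * b)) = run M τ ((w + 1) * b) := by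
  unfold run
  rw [← Function.iterate_add_apply, Nat.add_mul, one_mul, Nat.add_comm]

theorem sh0 (g : ℤ) : sh g 0 = g - 1 := by
  simp [sh]

theorem sh1 (g : ℤ) : sh g 1 = g := by
  simp [sh]

theorem sh2 (g : ℤ) : sh g 2 = g + 1 := by
  simp only [sh]
  norm_num
  ring

theorem win_eq {M : TM K Γ} (c : AC M) (k : K) (b : ℕ) (g : ℤ) :
    bc c k b (sh g 0) ++ bc c k b (sh g 1) ++ bc c k b (sh g 2) = win c k b g := by
  rw [sh0, sh1, sh2, win]

/-- the position of the head and its block -/
theorem head_pos (M : TM K Γ) (τ : (k : K) → ℤ → Option (Γ k)) (b : ℕ) (hb : 1 ≤ b) (k : K)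
    (w : ℕ) : hd M τ b k w * b ≤ (run M τ (w * b)).2.2 k ∧
      (run M τ (w * b)).2.2 k < (hd M τ b k w + 1) * b := by
  have hb' : (0 : ℤ) < (b : ℤ) := by exact_mod_cast hb
  exact ⟨Int.ediv_mul_le _ hb'.ne', Int.lt_ediv_add_one_mul_self _ hb'⟩

theorem fl {M : TM K Γ} (c : AC M) (k : K) (b : ℕ) (β : ℤ)
    (h : ∀ o : ℕ, o < b → c.2.2 k ≠ β * b + o) : ∀ a ∈ bc c k b β, a.2 = false := by
  intro a ha
  rw [bc, List.mem_map] at ha
  obtain ⟨o, ho, rfl⟩ := ha
  rw [List.mem_range] at ho
  change decide (c.2.2 k = β * b + o) = false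
  exact decide_eq_false (h o ho)

end

end Cpl_aux

open Cpl_aux in
theorem tCpl : S_Mov → S_Win → S_Cpl := by
  intro hMov hWin K Γ M τ b hb J
  obtain ⟨h0, -, h3, h4⟩ := hMov M τ b hb
  refine ⟨fun u k e => bc (run M τ ((u + 1) * b)) k b (sh (hd M τ b k u) e), fun v => ?_⟩
  refine ⟨⟨fun w k e => bc (run M τ (w * b)) k b (sh (hd M τ b k w) e),
    fun w => trc M (run M τ (w * b)) b,
    fun u k e => bc (run M τ ((u + 1) * b)) k b (sh (hd M τ b k u) e)⟩, ⟨?_, ?_⟩⟩
  · intro w _
    have hW := (hWin M b (run M τ (w * b)) (fun k => hd M τ b k w) hb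
      (fun k => head_pos M τ b hb k w) (trc M (run M τ (w * b)) b)
      ((astep M)^[b] (run M τ (w * b))).1
      (fun k => win ((astep M)^[b] (run M τ (w * b))) k b (hd M τ b k w))
      (by simp [trc])).2 ⟨rfl, rfl, fun k => rfl⟩
    rw [run_succ] at hW
    refine ⟨?_, ?_, ?_, ?_, ?_, ?_, ?_, ?_, ?_, ?_, ?_⟩
    · intro k e
      exact bc_length _ _ _ _
    · simp [trc]
    · intro k e
      exact bc_length _ _ _ _
    · intro k
      have h5 := hW.2 k
      rw [← win_eq, ← win_eq] at h5
      exact h5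
    · intro k
      refine fl _ _ _ _ ?_
      intro o ho
      have h5 := (head_pos M τ b hb k w).1
      rw [sh0]
      have ho' : (o : ℤ) < b := by exact_mod_cast ho
      intro h6
      nlinarith
    · intro k
      refine fl _ _ _ _ ?_
      intro o ho
      have h5 := (head_pos M τ b hb k w).2
      rw [sh2]
      intro h6
      have ho' : (0 : ℤ) ≤ o := Int.natCast_nonneg o
      nlinarith
    · intro hw k
      subst hw
      change ((bc (run M τ (0 * b)) k b (sh (hd M τ b k 0) 1))[0]?).map Prod.snd = some true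
      rw [h0, sh1, Nat.zero_mul, bc, List.getElem?_map]
      have h5 : (List.range b)[0]? = some 0 := by
        rw [List.getElem?_range (by omega)]
      rw [h5]
      change some (decide ((run M τ 0).2.2 k = 0 * (b : ℤ) + ((0 : ℕ) : ℤ))) = some true
      simp [run]
    · exact hW.1
    · intro k e u hu _ e' he'
      change bc (run M τ (w * b)) k b (sh (hd M τ b k w) e) =
        bc (run M τ ((u + 1) * b)) k b (sh (hd M τ b k u) e')
      rw [he']
      exact (h3 k _ u w hu.1 hu.2.2).symm
    · intro k e u hu _ e' he'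
      change bc (run M τ (w * b)) k b (sh (hd M τ b k w) e) =
        bc (run M τ ((u + 1) * b)) k b (sh (hd M τ b k u) e')
      rw [he']
      exact (h3 k _ u w hu.1 hu.2.2).symm
    · intro k e hn
      exact h4 k _ w hn
  · intro _ k e
    rfl

end MPdee884H3
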