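import Pool.Agent.Lib.MP_dee884_lc.H3.Cl

/-!
# MP_dee884_lc, H3: the slots, the local conditions are recognised
-/

namespace MPdee884H3

open MPdee884H1 MPdee884H2 Pool.Agent.Lin

/-! ### congruence of the local conditions -/

theorem isPr_congr {g g' : ℕ → ℤ} {β : ℤ} {u w N : ℕ} (hw : w ≤ N)
    (h : ∀ t, t < N → g t = g' t) (hp : IsPr g β u w) : IsPr g' β u w := by
  obtain ⟨h1, h2, h3⟩ := hp
  refine ⟨h1, ?_, ?_⟩
  · rw [← h u (by omega)]
    exact h2
  · intro t ht1 ht2
    rw [← h t (by omega)]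
    exact h3 t ht1 ht2

theorem noPr_congr {g g' : ℕ → ℤ} {β : ℤ} {w N : ℕ} (hw : w ≤ N)
    (h : ∀ t, t < N → g t = g' t) (hp : NoPr g β w) : NoPr g' β w := by
  intro t ht
  rw [← h t (by omega)]
  exact hp t ht

theorem anc_le {K : Type} {h : K → ℕ → ℤ} {J : Finset ℕ} {v w : ℕ} (ha : Anc (Ed h) J v w) :
    w ≤ v := by
  induction ha with
  | self => exact le_rfl
  | step u w _ he _ ih =>
    obtain ⟨k, e, h1, _, _⟩ := he
    omega

theorem anc_congr {K : Type} {h h' : K → ℕ → ℤ} {J : Finset ℕ} {v w N : ℕ} (hv : v < N)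
    (hh : ∀ k t, t < N → h k t = h' k t) (ha : Anc (Ed h) J v w) : Anc (Ed h') J v w := by
  induction ha with
  | self => exact Anc.self
  | step u w hw he hu ih =>
    refine Anc.step u w ih ?_ hu
    obtain ⟨k, e, hp⟩ := he
    have hwN : w < N := lt_of_le_of_lt (anc_le hw) hv
    refine ⟨k, e, ?_⟩
    rw [← hh k w hwN]
    exact isPr_congr (le_of_lt hwN) (hh k) hp

theorem good_congr {K : Type} {Γ : K → Type} {M : TM K Γ} {τ : (k : K) → ℤ → Option (Γ k)}
    {b : ℕ} {h h' : K → ℕ → ℤ} {q q' : ℕ → M.S} {J : Finset ℕ}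
    {Y Y' : ℕ → (k : K) → Fin 3 → List (Option (Γ k) × Bool)} {d d' : Dat M} {v N : ℕ}
    (hv : v < N) (hh : ∀ k t, t < N → h k t = h' k t) (hq : ∀ t, t ≤ N → q t = q' t)
    (hY : ∀ u ∈ J, ∀ k e, Y u k e = Y' u k e)
    (hd : ∀ w, Anc (Ed h) J v w → (∀ k e, d.sc w k e = d'.sc w k e) ∧ d.rc w = d'.rc w ∧
      ∀ k e, d.ec w k e = d'.ec w k e)
    (G : Good M τ b h q J Y d v) : Good M τ b h' q' J Y' d' v := by
  have hh' : ∀ k t, t < N → h' k t = h k t := fun k t ht => (hh k t ht).symm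
  have hA : ∀ w, Anc (Ed h') J v w → Anc (Ed h) J v w := fun w hw => anc_congr hv hh' hw
  refine ⟨?_, ?_⟩
  · intro w hw
    have hw' := hA w hw
    have hwN : w < N := lt_of_le_of_lt (anc_le hw) hv
    have L := G.loc w hw'
    obtain ⟨e1, e2, e3⟩ := hd w hw'
    have key : ∀ (k : K) (e : Fin 3) (u : ℕ), IsPr (h' k) (sh (h' k w) e) u w →
        IsPr (h k) (sh (h k w) e) u w := by
      intro k e u hu
      rw [hh k w hwN]
      exact isPr_congr (le_of_lt hwN) (hh' k) hu
    constructor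
    · intro k e
      rw [← e1]
      exact L.lsc k e
    · rw [← e2]
      exact L.lrc
    · intro k e
      rw [← e3]
      exact L.lec k e
    · intro k
      rw [← e1, ← e1, ← e1, ← e2, ← e3, ← e3, ← e3]
      exact L.sim k
    · intro k
      rw [← e1]
      exact L.fl0 k
    · intro k
      rw [← e1]
      exact L.fl2 k
    · intro h0 k
      rw [← e1]
      exact L.fl1 h0 k
    · rw [← e2, ← hq w (by omega), ← hq (w + 1) (by omega)]
      exact L.chn
    · intro k e u hu huJ e' he'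
      have huN : u < N := lt_trans hu.1 hwN
      rw [hh' k w hwN, hh' k u huN] at he'
      rw [← e1, ← hY u huJ]
      exact L.prY k e u (key k e u hu) huJ e' he'
    · intro k e u hu huJ e' he'
      have huN : u < N := lt_trans hu.1 hwN
      rw [hh' k w hwN, hh' k u huN] at he'
      have hu2 : Anc (Ed h) J v u := Anc.step u w hw' ⟨k, e, key k e u hu⟩ huJ
      rw [← e1, ← (hd u hu2).2.2 k e']
      exact L.prE k e u (key k e u hu) huJ e' he'
    · intro k e hn
      have hn' : NoPr (h k) (sh (h k w) e) w := by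
        rw [hh k w hwN]
        exact noPr_congr (le_of_lt hwN) (hh' k) hn
      rw [← e1, hh' k w hwN]
      exact L.prI k e hn'
  · intro hvJ k e
    rw [← (hd v Anc.self).2.2 k e, ← hY v hvJ]
    exact G.top hvJ k e

/-! ### ranks and slots -/

/-- the rank of `w` in `A` -/
def rk (A : Finset ℕ) (w : ℕ) : ℕ := (A.filter (fun t => t < w)).card

theorem rk_lt {A : Finset ℕ} {w : ℕ} (h : w ∈ A) : rk A w < A.card := by
  refine Finset.card_lt_card ?_
  exact Finset.filter_ssubset.mpr ⟨w, h, by simp⟩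

theorem rk_mono {A : Finset ℕ} {u w : ℕ} (hu : u ∈ A) (h : u < w) : rk A u < rk A w := by
  refine Finset.card_lt_card ⟨?_, ?_⟩
  · intro t ht
    simp only [Finset.mem_filter] at ht ⊢
    exact ⟨ht.1, by omega⟩
  · intro hsub
    have h1 : u ∈ A.filter (fun t => t < w) := by
      simp only [Finset.mem_filter]
      exact ⟨hu, h⟩
    have h2 := hsub h1
    simp at h2

theorem rk_inj {A : Finset ℕ} {u w : ℕ} (hu : u ∈ A) (hw : w ∈ A) (h : rk A u = rk A w) :
    u = w := by
  rcases lt_trichotomy u w with h1 | h1 | h1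
  · have := rk_mono hu h1
    omega
  · exact h1
  · have := rk_mono hw h1
    omega

theorem mul_step (r s n : ℕ) (h : r < s) : r * n + n ≤ s * n := by
  have : (r + 1) * n ≤ s * n := Nat.mul_le_mul_right n h
  rwa [Nat.add_mul, Nat.one_mul] at this

/-- numbers for the slots: `κ` tapes with the numbers `idx`, `2 P0` slots -/
structure Prm (K : Type) where
  κ : ℕ
  P0 : ℕ
  idx : K → ℕ
  hidx : ∀ k, idx k < κ
  inj : Function.Injective idx

variable {K : Type}

/-- slot for the block `e` of the tape `k` at the end of the segment `u` -/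
def Prm.yS (p : Prm K) (J : Finset ℕ) (u : ℕ) (k : K) (e : Fin 3) : ℕ :=
  rk J u * (3 * p.κ) + (3 * p.idx k + e.1)

/-- the first slot for the segment `w` -/
def Prm.zB (p : Prm K) (A : Finset ℕ) (w : ℕ) : ℕ := p.P0 + rk A w * (6 * p.κ + 1)

/-- slots for the blocks at the beginning -/
def Prm.zS (p : Prm K) (A : Finset ℕ) (w : ℕ) (k : K) (e : Fin 3) : ℕ :=
  p.zB A w + (3 * p.idx k + e.1)

/-- slot for the record -/
def Prm.zR (p : Prm K) (A : Finset ℕ) (w : ℕ) : ℕ := p.zB A w + 3 * p.κ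

/-- slots for the blocks at the end -/
def Prm.zE (p : Prm K) (A : Finset ℕ) (w : ℕ) (k : K) (e : Fin 3) : ℕ :=
  p.zB A w + (3 * p.κ + 1 + (3 * p.idx k + e.1))

theorem Prm.yS_lt (p : Prm K) {J : Finset ℕ} (hJ : J.card * (3 * p.κ) ≤ p.P0) {u : ℕ}
    (hu : u ∈ J) (k : K) (e : Fin 3) : p.yS J u k e < p.P0 := by
  have h1 := mul_step _ _ (3 * p.κ) (rk_lt hu)
  have h2 := p.hidx k
  have h3 := e.2
  unfold Prm.yS
  omega

theorem Prm.zB_lt (p : Prm K) {A : Finset ℕ} (hA : A.card * (6 * p.κ + 1) ≤ p.P0) {w : ℕ}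
    (hw : w ∈ A) : p.zB A w + (6 * p.κ + 1) ≤ 2 * p.P0 := by
  have h1 := mul_step _ _ (6 * p.κ + 1) (rk_lt hw)
  unfold Prm.zB
  omega

theorem Prm.zB_mono (p : Prm K) {A : Finset ℕ} {u w : ℕ} (hu : u ∈ A) (h : u < w) :
    p.zB A u + (6 * p.κ + 1) ≤ p.zB A w := by
  have h1 := mul_step _ _ (6 * p.κ + 1) (rk_mono hu h)
  unfold Prm.zB
  omega

theorem Prm.zB_ge (p : Prm K) (A : Finset ℕ) (w : ℕ) : p.P0 ≤ p.zB A w := by
  unfold Prm.zB
  omega

/-- the positions of the slots of one segment -/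
def Prm.pos (p : Prm K) : (K × Fin 3) ⊕ (Unit ⊕ (K × Fin 3)) → ℕ
  | Sum.inl (k, e) => 3 * p.idx k + e.1
  | Sum.inr (Sum.inl _) => 3 * p.κ
  | Sum.inr (Sum.inr (k, e)) => 3 * p.κ + 1 + (3 * p.idx k + e.1)

theorem Prm.pos_lt (p : Prm K) (i : (K × Fin 3) ⊕ (Unit ⊕ (K × Fin 3))) :
    p.pos i < 6 * p.κ + 1 := by
  rcases i with ⟨k, e⟩ | ⟨⟨⟩⟩ | ⟨k, e⟩
  · have h2 := p.hidx k
    have h3 := e.2
    simp only [Prm.pos]
    omega
  · simp only [Prm.pos]
    omega
  · have h2 := p.hidx k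
    have h3 := e.2
    simp only [Prm.pos]
    omega

theorem Prm.idx_inj (p : Prm K) {k k' : K} {e e' : Fin 3}
    (h : 3 * p.idx k + e.1 = 3 * p.idx k' + e'.1) : (k, e) = (k', e') := by
  have h3 := e.2
  have h4 := e'.2
  have h1 : p.idx k = p.idx k' := by omega
  have h2 : e = e' := Fin.ext (by omega)
  rw [p.inj h1, h2]

theorem Prm.pos_inj (p : Prm K) : Function.Injective p.pos := by
  intro i i' h
  rcases i with ⟨k, e⟩ | ⟨⟨⟩⟩ | ⟨k, e⟩ <;> rcases i' with ⟨k', e'⟩ | ⟨⟨⟩⟩ | ⟨k', e'⟩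
  · simp only [Prm.pos] at h
    rw [p.idx_inj h]
  · have h2 := p.hidx k
    have h3 := e.2
    simp only [Prm.pos] at h
    omega
  · have h2 := p.hidx k
    have h3 := e.2
    simp only [Prm.pos] at h
    omega
  · have h2 := p.hidx k'
    have h3 := e'.2
    simp only [Prm.pos] at h
    omega
  · rfl
  · simp only [Prm.pos] at h
    omega
  · have h2 := p.hidx k'
    have h3 := e'.2
    simp only [Prm.pos] at h
    omega
  · simp only [Prm.pos] at h
    omega
  · simp only [Prm.pos] at h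
    rw [p.idx_inj (by omega : 3 * p.idx k + e.1 = 3 * p.idx k' + e'.1)]

theorem div_uniq {a a' r r' n : ℕ} (hr : r < n) (hr' : r' < n) (h : a * n + r = a' * n + r') :
    a = a' ∧ r = r' := by
  have h1 : a = a' := by
    rcases lt_trichotomy a a' with h2 | h2 | h2
    · have := mul_step a a' n h2
      omega
    · exact h2
    · have := mul_step a' a n h2
      omega
  subst h1
  exact ⟨rfl, by omega⟩

/-- the slots of the word `z` -/
def Prm.zI (p : Prm K) (A : Finset ℕ)
    (i : {w // w ∈ A} × ((K × Fin 3) ⊕ (Unit ⊕ (K × Fin 3)))) : ℕ :=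
  p.zB A i.1.1 + p.pos i.2

theorem Prm.zI_inj (p : Prm K) (A : Finset ℕ) : Function.Injective (p.zI A) := by
  rintro ⟨⟨w, hw⟩, i⟩ ⟨⟨w', hw'⟩, i'⟩ h
  simp only [Prm.zI, Prm.zB] at h
  obtain ⟨h1, h2⟩ := div_uniq (p.pos_lt i) (p.pos_lt i')
    (by omega : rk A w * (6 * p.κ + 1) + p.pos i = rk A w' * (6 * p.κ + 1) + p.pos i')
  have h3 := rk_inj hw hw' h1
  subst h3
  rw [p.pos_inj h2]

theorem Prm.zI_lt (p : Prm K) {A : Finset ℕ} (hA : A.card * (6 * p.κ + 1) ≤ p.P0)
    (i : {w // w ∈ A} × ((K × Fin 3) ⊕ (Unit ⊕ (K × Fin 3)))) : p.zI A i < 2 * p.P0 := by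
  have h1 := p.zB_lt hA i.1.2
  have h2 := p.pos_lt i.2
  unfold Prm.zI
  omega

/-- the slots of the word `y` -/
def Prm.yI (p : Prm K) (J : Finset ℕ) (i : {u // u ∈ J} × (K × Fin 3)) : ℕ :=
  p.yS J i.1.1 i.2.1 i.2.2

theorem Prm.yI_inj (p : Prm K) (J : Finset ℕ) : Function.Injective (p.yI J) := by
  rintro ⟨⟨w, hw⟩, k, e⟩ ⟨⟨w', hw'⟩, k', e'⟩ h
  simp only [Prm.yI, Prm.yS] at h
  have a1 := p.hidx k
  have a2 := e.2
  have a3 := p.hidx k'
  have a4 := e'.2
  obtain ⟨h1, h2⟩ := div_uniq (by omega : 3 * p.idx k + e.1 < 3 * p.κ)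
    (by omega : 3 * p.idx k' + e'.1 < 3 * p.κ) h
  have h3 := rk_inj hw hw' h1
  subst h3
  rw [p.idx_inj h2]

/-! ### letters -/

section

variable {Γ : K → Type}

/-- the letters: a state, symbols, a flag -/
abbrev Ltr (M : TM K Γ) : Type := M.S × ((k : K) → Option (Γ k)) × Bool

/-- the letter as a record -/
def asRec {M : TM K Γ} (a : Ltr M) : RL M := (a.1, a.2.1)

/-- the letter as a cell of the tape `k` -/
def asCell {M : TM K Γ} (k : K) (a : Ltr M) : Option (Γ k) × Bool := (a.2.1 k, a.2.2)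

/-- the letter for a record -/
def mkRec {M : TM K Γ} (r : RL M) : Ltr M := (r.1, r.2, false)

open Classical in
/-- the letter for a cell -/
noncomputable def mkCell (M : TM K Γ) (k : K) (c : Option (Γ k) × Bool) : Ltr M :=
  (M.start, Function.update (fun _ => none) k c.1, c.2)

theorem asRec_mkRec {M : TM K Γ} (r : RL M) : asRec (mkRec r) = r := rfl

theorem asCell_mkCell (M : TM K Γ) (k : K) (c : Option (Γ k) × Bool) :
    asCell k (mkCell M k c) = c := by
  unfold asCell mkCell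
  simp only [Function.update_self]

/-- the words read from the track `u` in the slots of `y` -/
def ofY (M : TM K Γ) (p : Prm K) (l : ℕ) (dec : List Bool → Ltr M) (J : Finset ℕ)
    (u : List Bool) (b : ℕ) : ℕ → (k : K) → Fin 3 → List (Option (Γ k) × Bool) :=
  fun t k e => (slot l dec u b (p.yS J t k e)).map (asCell k)

/-- the data read from the track `u` in the slots of `z` -/
def ofZ (M : TM K Γ) (p : Prm K) (l : ℕ) (dec : List Bool → Ltr M) (A : Finset ℕ)
    (u : List Bool) (b : ℕ) : Dat M :=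
  ⟨fun w k e => (slot l dec u b (p.zS A w k e)).map (asCell k),
    fun w => (slot l dec u b (p.zR A w)).map asRec,
    fun w k e => (slot l dec u b (p.zE A w k e)).map (asCell k)⟩

end

theorem slot_length {Λ : Type} (l : ℕ) (dec : List Bool → Λ) (u : List Bool) (b s : ℕ) :
    (slot l dec u b s).length = b := by
  simp [slot]

theorem range_map_eq {Z : Type} (f g : ℕ → Z) (b : ℕ) :
    (List.range b).map f = (List.range b).map g ↔ ∀ i < b, f i = g i := by
  constructor
  · intro h i hi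
    have h1 := congrArg (fun l => l[i]?) h
    simpa [hi] using h1
  · intro h
    refine List.map_congr_left ?_
    intro i hi
    exact h i (List.mem_range.mp hi)

theorem slot_eq_iff {Λ : Type} (l : ℕ) (dec : List Bool → Λ) (u u' : List Bool) (b s s' : ℕ) :
    slot l dec u b s = slot l dec u' b s' ↔
      ∀ i < b, lt l dec u (s * b + i) = lt l dec u' (s' * b + i) :=
  range_map_eq _ _ _

end MPdee884H3
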