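import Pool.Agent.Lib.MP_dee884_lc.H2.Defs

/-!
# MP_dee884_lc, H3: definitions

Transducers, conditions on marked words, computations cut into time segments and tape blocks.
-/

namespace MPdee884H3

open MPdee884H1 MPdee884H2 Pool.Agent.Lin

/-! ### transducers and one-tape languages -/

/-- the output of a sequential transducer which prints at most one letter per step -/
def seqOut {Q X Y : Type} (δ : Q → X → Q × Option Y) : Q → List X → List Y
  | _, [] => []
  | q, a :: w => (δ q a).2.toList ++ seqOut δ (δ q a).1 w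

/-- the words `u v` (letters of `u` on the left, of `v` on the right side of `Y1 ⊕ Y2`), `v` not
longer than `u`, such that `ρ` holds for the pairs of letters with the same number, `ρe` for the
other letters of `u` -/
def PairLe {Y1 Y2 : Type} (ρ : Y1 → Y2 → Prop) (ρe : Y1 → Prop) : Set (List (Y1 ⊕ Y2)) :=
  {w | ∃ (u : List Y1) (v : List Y2), w = u.map Sum.inl ++ v.map Sum.inr ∧
    v.length ≤ u.length ∧ (∀ (i : ℕ) (a : Y1) (b : Y2), u[i]? = some a → v[i]? = some b → ρ a b) ∧
    ∀ (i : ℕ) (a : Y1), v.length ≤ i → u[i]? = some a → ρe a}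

/-- an operation on a tape: the symbol which is read, the symbol which is printed, the move -/
abbrev Op (G : Type) : Type := Option G × Option G × Dir

/-- `SimR R g p g' p'`: the operations `R` are possible on the tape `g` with the head in the cell
`p`, the head does not leave the tape, the result is the tape `g'` with the head in the cell `p'` -/
inductive SimR {G : Type} : List (Op G) → List (Option G) → ℕ → List (Option G) → ℕ → Prop
  | nil (g : List (Option G)) (p : ℕ) : p < g.length → SimR [] g p g p
  | cons (a b : Option G) (d : Dir) (R : List (Op G)) (g g' : List (Option G)) (p p1 p' : ℕ) :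
      g[p]? = some a → (p1 : ℤ) = p + d.toInt → SimR R (g.set p b) p1 g' p' →
      SimR ((a, b, d) :: R) g p g' p'

/-- the tape `g` with a flag at the cell `p` -/
def flag {G : Type} (g : List (Option G)) (p : ℕ) : List (Option G × Bool) :=
  g.mapIdx (fun i a => (a, decide (i = p)))

/-- the operations `R` lead from the flagged tape `s` to the flagged tape `e` -/
def SimW {G : Type} (s : List (Option G × Bool)) (R : List (Op G))
    (e : List (Option G × Bool)) : Prop :=
  ∃ (g g' : List (Option G)) (p p' : ℕ), s = flag g p ∧ e = flag g' p' ∧ SimR R g p g' p'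

/-- the words `s R e` with `SimW s R e` -/
def SimL (G : Type) : Set (List ((Option G × Bool) ⊕ (Op G ⊕ (Option G × Bool)))) :=
  {w | ∃ (s : List (Option G × Bool)) (R : List (Op G)) (e : List (Option G × Bool)),
    w = s.map Sum.inl ++ (R.map (fun r => Sum.inr (Sum.inl r)) ++
      e.map (fun r => Sum.inr (Sum.inr r))) ∧ SimW s R e}

/-! ### marked words -/

/-- `Mk K b m`: the marks `m` divide the positions into `K` blocks of length `b ≥ 1` and a rest of
length at most `b`; the first position of each block (and of the rest) is marked. -/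
def Mk (K b : ℕ) (m : List Bool) : Prop :=
  1 ≤ b ∧ K * b ≤ m.length ∧ m.length ≤ K * b + b ∧
    ∀ t : ℕ, t < m.length → m[t]? = some (decide (b ∣ t))

/-- A property `P` of words and block lengths is recognised, for words marked by `mk` with `K`
blocks, by a language which is accepted with one work tape. -/
def Rg {X : Type} (K : ℕ) (mk : X → Bool) (P : List X → ℕ → Prop) : Prop :=
  ∃ V : Set (List X), OneTape V ∧ ∀ (w : List X) (b : ℕ), Mk K b (w.map mk) → (w ∈ V ↔ P w b)

/-- the letter with the number `m` which is coded by the bits `u`, `l` bits per letter -/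
def lt {Λ : Type} (l : ℕ) (dec : List Bool → Λ) (u : List Bool) (m : ℕ) : Λ :=
  dec ((u.drop (m * l)).take l)

/-- the word of length `b` in the slot `s` of the track `u` (`l` blocks of marks per slot) -/
def slot {Λ : Type} (l : ℕ) (dec : List Bool → Λ) (u : List Bool) (b s : ℕ) : List Λ :=
  (List.range b).map (fun i => lt l dec u (s * b + i))

/-! ### computations with absolute tapes -/

section

variable {K : Type} {Γ : K → Type}

/-- configurations: state, tapes, positions of the heads -/
abbrev AC (M : TM K Γ) : Type := M.S × ((k : K) → ℤ → Option (Γ k)) × (K → ℤ)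

/-- the step function; the machine stops in the halting states -/
def stp (M : TM K Γ) (q : M.S) (v : (k : K) → Option (Γ k)) :
    M.S × ((k : K) → Option (Γ k) × Dir) :=
  if M.out q = none then M.step q v else (q, fun k => (v k, Dir.stay))

/-- the scanned symbols -/
def scn {M : TM K Γ} (c : AC M) : (k : K) → Option (Γ k) := fun k => c.2.1 k (c.2.2 k)

/-- one step -/
def astep (M : TM K Γ) (c : AC M) : AC M :=
  ((stp M c.1 (scn c)).1,
    fun k => Function.update (c.2.1 k) (c.2.2 k) ((stp M c.1 (scn c)).2 k).1,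
    fun k => c.2.2 k + ((stp M c.1 (scn c)).2 k).2.toInt)

/-- the configuration at the time `t` -/
def run (M : TM K Γ) (τ : (k : K) → ℤ → Option (Γ k)) (t : ℕ) : AC M :=
  (astep M)^[t] (M.start, τ, fun _ => 0)

/-- records of one step: the state and the scanned symbols -/
abbrev RL (M : TM K Γ) : Type := M.S × ((k : K) → Option (Γ k))

/-- the operation on the tape `k` -/
def opk (M : TM K Γ) (k : K) (r : RL M) : Op (Γ k) :=
  (r.2 k, ((stp M r.1 r.2).2 k).1, ((stp M r.1 r.2).2 k).2)

/-- the record of the `b` steps from the configuration `c` -/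
def trc (M : TM K Γ) (c : AC M) (b : ℕ) : List (RL M) :=
  (List.range b).map (fun t => (((astep M)^[t] c).1, scn ((astep M)^[t] c)))

open Classical in
/-- the automaton which checks the states of a record -/
noncomputable def chD (M : TM K Γ) (s : Option M.S) (r : RL M) : Option M.S :=
  if s = some r.1 then some (stp M r.1 r.2).1 else none

/-- the cell `i` of the tape `k`: the symbol, and whether the head is there -/
def cel {M : TM K Γ} (c : AC M) (k : K) (i : ℤ) : Option (Γ k) × Bool :=
  (c.2.1 k i, decide (c.2.2 k = i))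

/-- the block `β` of the tape `k`, blocks of length `b` -/
def bc {M : TM K Γ} (c : AC M) (k : K) (b : ℕ) (β : ℤ) : List (Option (Γ k) × Bool) :=
  (List.range b).map (fun o : ℕ => cel c k (β * b + o))

/-- the window: the blocks `β - 1`, `β`, `β + 1` of the tape `k` -/
def win {M : TM K Γ} (c : AC M) (k : K) (b : ℕ) (β : ℤ) : List (Option (Γ k) × Bool) :=
  bc c k b (β - 1) ++ bc c k b β ++ bc c k b (β + 1)

/-- the block of the head of the tape `k` at the beginning of the time segment `w` -/
def hd (M : TM K Γ) (τ : (k : K) → ℤ → Option (Γ k)) (b : ℕ) (k : K) (w : ℕ) : ℤ :=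
  (run M τ (w * b)).2.2 k / (b : ℤ)

end

/-! ### the graph of the time segments -/

/-- `g w` is the block of the head at the beginning of the segment `w`; the segment `u` is the last
segment before `w` in which the block `β` may be used -/
def IsPr (g : ℕ → ℤ) (β : ℤ) (u w : ℕ) : Prop :=
  u < w ∧ |g u - β| ≤ 1 ∧ ∀ t : ℕ, u < t → t < w → 2 ≤ |g t - β|

/-- the block `β` is not used before `w` -/
def NoPr (g : ℕ → ℤ) (β : ℤ) (w : ℕ) : Prop := ∀ t : ℕ, t < w → 2 ≤ |g t - β|

/-- `e = 0, 1, 2`: the blocks `g - 1`, `g`, `g + 1` -/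
def sh (g : ℤ) (e : Fin 3) : ℤ := g + (e.1 : ℤ) - 1

/-- the edges: the segment `w` needs a block from the segment `u` -/
def Ed {K : Type} (h : K → ℕ → ℤ) (u w : ℕ) : Prop :=
  ∃ (k : K) (e : Fin 3), IsPr (h k) (sh (h k w) e) u w

/-- the ancestors of `v`, the search stops at the nodes of `J` -/
inductive Anc (R : ℕ → ℕ → Prop) (J : Finset ℕ) (v : ℕ) : ℕ → Prop
  | self : Anc R J v v
  | step (u w : ℕ) : Anc R J v w → R u w → u ∉ J → Anc R J v u

/-! ### local data -/

/-- the data of the segments `w`: the three blocks at the beginning, the record, the three blocks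
at the end -/
structure Dat {K : Type} {Γ : K → Type} (M : TM K Γ) where
  sc : ℕ → (k : K) → Fin 3 → List (Option (Γ k) × Bool)
  rc : ℕ → List (RL M)
  ec : ℕ → (k : K) → Fin 3 → List (Option (Γ k) × Bool)

/-- the conditions on the data of one segment `w` -/
structure Loc {K : Type} {Γ : K → Type} (M : TM K Γ) (τ : (k : K) → ℤ → Option (Γ k)) (b : ℕ)
    (h : K → ℕ → ℤ) (q : ℕ → M.S) (J : Finset ℕ)
    (Y : ℕ → (k : K) → Fin 3 → List (Option (Γ k) × Bool)) (d : Dat M) (w : ℕ) : Prop where
  lsc : ∀ k e, (d.sc w k e).length = b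
  lrc : (d.rc w).length = b
  lec : ∀ k e, (d.ec w k e).length = b
  sim : ∀ k, SimW (d.sc w k 0 ++ d.sc w k 1 ++ d.sc w k 2) ((d.rc w).map (opk M k))
    (d.ec w k 0 ++ d.ec w k 1 ++ d.ec w k 2)
  fl0 : ∀ k, ∀ a ∈ d.sc w k 0, a.2 = false
  fl2 : ∀ k, ∀ a ∈ d.sc w k 2, a.2 = false
  fl1 : w = 0 → ∀ k, ((d.sc w k 1)[0]?).map Prod.snd = some true
  chn : (d.rc w).foldl (chD M) (some (q w)) = some (q (w + 1))
  prY : ∀ k e u, IsPr (h k) (sh (h k w) e) u w → u ∈ J → ∀ e' : Fin 3,
    sh (h k u) e' = sh (h k w) e → d.sc w k e = Y u k e'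
  prE : ∀ k e u, IsPr (h k) (sh (h k w) e) u w → u ∉ J → ∀ e' : Fin 3,
    sh (h k u) e' = sh (h k w) e → d.sc w k e = d.ec u k e'
  prI : ∀ k e, NoPr (h k) (sh (h k w) e) w → (d.sc w k e).map Prod.fst =
    (List.range b).map (fun o : ℕ => τ k (sh (h k w) e * b + o))

/-- the conditions on the data for the node `v` -/
structure Good {K : Type} {Γ : K → Type} (M : TM K Γ) (τ : (k : K) → ℤ → Option (Γ k)) (b : ℕ)
    (h : K → ℕ → ℤ) (q : ℕ → M.S) (J : Finset ℕ)
    (Y : ℕ → (k : K) → Fin 3 → List (Option (Γ k) × Bool)) (d : Dat M) (v : ℕ) : Prop where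
  loc : ∀ w, Anc (Ed h) J v w → Loc M τ b h q J Y d w
  top : v ∈ J → ∀ k e, d.ec v k e = Y v k e

end MPdee884H3
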