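import Pool.Agent.Lib.MP_dee884_lc.H3.Spec2

namespace MPdee884H3

open MPdee884H1 MPdee884H2 Pool.Agent.Lin

namespace Desc_aux

theorem bern (k : ℕ) : ∀ n : ℕ, (n + 1) * k ^ n ≤ (k + 1) ^ (n + 1) := by
  have h : ∀ n : ℕ, (n + 1) * k ^ n + k ^ (n + 1) ≤ (k + 1) ^ (n + 1) := by
    intro n
    induction n with
    | zero => simp [add_comm]
    | succ n ih =>
      calc (n + 1 + 1) * k ^ (n + 1) + k ^ (n + 1 + 1)
          ≤ (k + 1) * ((n + 1) * k ^ n + k ^ (n + 1)) := by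
            have e : (k + 1) * ((n + 1) * k ^ n + k ^ (n + 1)) =
              ((n + 1 + 1) * k ^ (n + 1) + k ^ (n + 1 + 1)) + (n + 1) * k ^ n := by ring
            rw [e]
            exact Nat.le_add_right _ _
        _ ≤ (k + 1) * (k + 1) ^ (n + 1) := Nat.mul_le_mul_left _ ih
        _ = (k + 1) ^ (n + 1 + 1) := by ring
  intro n
  exact (Nat.le_add_right _ _).trans (h n)

end Desc_aux

theorem tDesc : S_Desc := by
  intro k hk
  refine ⟨(k + 1) ^ (k * k + 1) + 2, Nat.le_add_left _ _, ?_⟩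
  intro K hK
  have hex : ∃ s, K ≤ (k + 1) ^ s :=
    ⟨K, (Nat.lt_pow_self (by omega : 1 < k + 1)).le⟩
  classical
  obtain ⟨s, hs, hmin⟩ : ∃ s, K ≤ (k + 1) ^ s ∧ ∀ t, t < s → (k + 1) ^ t < K := by
    refine ⟨Nat.find hex, Nat.find_spec hex, fun t ht => ?_⟩
    have := Nat.find_min hex ht
    omega
  have hs1 : k * k + 1 < s := by
    by_contra hcon
    have h1 : (k + 1) ^ s ≤ (k + 1) ^ (k * k + 1) :=
      Nat.pow_le_pow_right (Nat.succ_pos k) (by omega)
    omega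
  refine ⟨s, by omega, hs, ?_⟩
  have h2 := hmin (s - 1) (by omega)
  refine lt_of_le_of_lt ?_ h2
  obtain ⟨n, rfl⟩ : ∃ n, s = n + 2 := ⟨s - 2, by omega⟩
  have e1 : n + 2 - 1 = n + 1 := by omega
  rw [e1]
  refine le_trans ?_ (Desc_aux.bern k n)
  have h3 : k * k ≤ n + 1 := by omega
  calc k ^ (n + 2) = k * k * k ^ n := by ring
    _ ≤ (n + 1) * k ^ n := Nat.mul_le_mul_right _ h3

end MPdee884H3
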