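import Pool.Agent.Lib.MP_dee884_lc.H3.Spec

/-!
# MP_dee884_lc, H3: comparison of two slots
-/

namespace MPdee884H3

open MPdee884H1 MPdee884H2 Pool.Agent.Lin

namespace EqS_aux

/-- the relabelling -/
private def rl {Λ : Type} (_ : Unit) (x : Unit ⊕ (Bool × Λ)) : Unit × Option (Λ ⊕ Λ) :=
  match x with
  | Sum.inl _ => ((), none)
  | Sum.inr (false, a) => ((), some (Sum.inl a))
  | Sum.inr (true, a) => ((), some (Sum.inr a))

private theorem rl_true {Λ : Type} (v : List Λ) :
    seqOut (rl (Λ := Λ)) () (v.map (fun a => Sum.inr (true, a))) = v.map Sum.inr := by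
  induction v with
  | nil => rfl
  | cons a v ih =>
    rw [List.map_cons, List.map_cons]
    change [Sum.inr a] ++ seqOut rl () (v.map (fun a => Sum.inr (true, a))) = _
    rw [ih]
    rfl

private theorem rl_out {Λ : Type} (u v : List Λ) :
    seqOut (rl (Λ := Λ)) () (u.map (fun a => Sum.inr (false, a)) ++
      v.map (fun a => Sum.inr (true, a))) = u.map Sum.inl ++ v.map Sum.inr := by
  induction u with
  | nil => exact rl_true v
  | cons a u ih =>
    rw [List.map_cons, List.map_cons]
    change [Sum.inl a] ++ seqOut rl () (u.map (fun a => Sum.inr (false, a)) ++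
      v.map (fun a => Sum.inr (true, a))) = _
    rw [ih]
    rfl

private theorem uniq {Y1 Y2 : Type} {u u' : List Y1} {v v' : List Y2}
    (h : u.map (Sum.inl : Y1 → Y1 ⊕ Y2) ++ v.map Sum.inr = u'.map Sum.inl ++ v'.map Sum.inr) :
    u = u' ∧ v = v' := by
  have hl : ∀ (a : List Y1) (b : List Y2),
      (a.map (Sum.inl : Y1 → Y1 ⊕ Y2) ++ b.map Sum.inr).filterMap Sum.getLeft? = a := by
    intro a b
    rw [List.filterMap_append, List.filterMap_map, List.filterMap_map]
    have h1 : (Sum.getLeft? ∘ (Sum.inl : Y1 → Y1 ⊕ Y2)) = some := rfl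
    have h2 : (Sum.getLeft? ∘ (Sum.inr : Y2 → Y1 ⊕ Y2)) = fun _ => none := rfl
    rw [h1, h2, List.filterMap_some]
    simp
  have hr : ∀ (a : List Y1) (b : List Y2),
      (a.map (Sum.inl : Y1 → Y1 ⊕ Y2) ++ b.map Sum.inr).filterMap Sum.getRight? = b := by
    intro a b
    rw [List.filterMap_append, List.filterMap_map, List.filterMap_map]
    have h1 : (Sum.getRight? ∘ (Sum.inl : Y1 → Y1 ⊕ Y2)) = fun _ => none := rfl
    have h2 : (Sum.getRight? ∘ (Sum.inr : Y2 → Y1 ⊕ Y2)) = some := rfl
    rw [h1, h2, List.filterMap_some]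
    simp
  constructor
  · rw [← hl u v, h, hl]
  · rw [← hr u v, h, hr]

private theorem slot_get {Λ : Type} (l : ℕ) (dec : List Bool → Λ) (u : List Bool) (b s i : ℕ)
    (hi : i < b) : (slot l dec u b s)[i]? = some (lt l dec u (s * b + i)) := by
  unfold slot
  rw [List.getElem?_map, List.getElem?_range hi]
  rfl

private theorem slot_len {Λ : Type} (l : ℕ) (dec : List Bool → Λ) (u : List Bool) (b s : ℕ) :
    (slot l dec u b s).length = b := by
  unfold slot
  rw [List.length_map, List.length_range]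

end EqS_aux

open EqS_aux

theorem tEqS : S_TR → S_Pair → S_Scan → S_EqS := by
  intro hTR hPair hScan X Λ _ K l mk f1 f2 dec ρ s1 s2 hl hs hK
  have h1 : (s1 + 1) * l ≤ s2 * l := Nat.mul_le_mul_right l hs
  have h2 : s2 * l ≤ (s2 + 1) * l := Nat.mul_le_mul_right l (Nat.le_succ _)
  obtain ⟨Q, hQ, δ, q0, hδ⟩ := hScan (A := Unit) (Tg := Bool) K l mk (fun _ => ())
    (fun t x => if t then f2 x else f1 x) dec [Sum.inr (s1, false), Sum.inr (s2, true)] hl
    (by
      refine List.pairwise_cons.2 ⟨?_, List.pairwise_singleton _ _⟩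
      intro i hi
      rw [List.mem_singleton] at hi
      subst hi
      exact h1)
    (by
      intro i hi
      rw [List.mem_cons, List.mem_singleton] at hi
      rcases hi with rfl | rfl
      · change (s1 + 1) * l ≤ K
        omega
      · exact hK)
  refine ⟨{w | seqOut δ q0 w ∈ {y | seqOut rl () y ∈ PairLe ρ (fun _ => True)}},
    hTR δ q0 _ (hTR rl () _ (hPair ρ (fun _ => True))), ?_⟩
  intro w b hw
  rw [Set.mem_ofPred_eq, Set.mem_ofPred_eq, hδ w b hw]
  have h3 : [Sum.inr (s1, false), Sum.inr (s2, true)].flatMap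
      (outIt l (fun _ : X => ()) (fun (t : Bool) x => if t then f2 x else f1 x) dec w b) =
      (slot l dec (w.map f1) b s1).map (fun a => Sum.inr (false, a)) ++
      (slot l dec (w.map f2) b s2).map (fun a => Sum.inr (true, a)) := by
    rw [List.flatMap_cons, List.flatMap_cons, List.flatMap_nil, List.append_nil]
    rfl
  rw [h3, rl_out]
  constructor
  · rintro ⟨u, v, huv, -, h4, -⟩ i hi
    obtain ⟨rfl, rfl⟩ := uniq huv
    exact h4 i _ _ (slot_get l dec _ b s1 i hi) (slot_get l dec _ b s2 i hi)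
  · intro h4
    refine ⟨_, _, rfl, by rw [slot_len, slot_len], ?_, fun _ _ _ _ => trivial⟩
    intro i a c ha hc
    have hi : i < b := by
      by_contra hcon
      rw [List.getElem?_eq_none (by rw [slot_len]; omega)] at ha
      exact absurd ha (by simp)
    rw [slot_get l dec _ b s1 i hi] at ha
    rw [slot_get l dec _ b s2 i hi] at hc
    rw [← Option.some.inj ha, ← Option.some.inj hc]
    exact h4 i hi

end MPdee884H3
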