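import Pool.Agent.Lib.MP_dee884_lc.H3.Spec2

namespace MPdee884H3

open MPdee884H1 MPdee884H2 Pool.Agent.Lin

namespace Gsm_aux

section

variable {α Q : Type} {K : Type} {Γ : K → Type}

/-- the word printed on one tape -/
def gk {G : Type} (δ : Q → α → Q) (W : Q → Option α → List G) : Q → List α → List G
  | q, [] => W q none
  | q, a :: w => W q (some a) ++ gk δ W (δ q a) w

/-- the pass of a transducer -/
def gpass [Finite α] [Finite Q] (δ : Q → α → Q) (q0 : Q)
    (W : Q → (k : K) → Option α → List (Γ k)) (N : ℕ) : TM (Unit ⊕ K) (GI α Γ) where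
  S := Q ⊕ ((Q × Option α × Fin (N + 1)) ⊕ Unit)
  fin := inferInstance
  start := Sum.inl q0
  out := fun q => match q with
    | Sum.inr (Sum.inr _) => some true
    | _ => none
  step := fun q v => match q with
    | Sum.inl q => (Sum.inr (Sum.inl (q, v (Sum.inl ()), 0)), fun k => (v k, Dir.stay))
    | Sum.inr (Sum.inl (q, o, r)) =>
      if h : r.val < N then
        (Sum.inr (Sum.inl (q, o, ⟨r.val + 1, by omega⟩)), fun k => match k with
          | Sum.inl u => (v (Sum.inl u), Dir.stay)
          | Sum.inr k => match (W q k o)[r.val]? with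
            | some g => (some g, Dir.right)
            | none => (v (Sum.inr k), Dir.stay))
      else match o with
        | some a => (Sum.inl (δ q a), fun k => (v k, match k with
          | Sum.inl _ => Dir.right
          | Sum.inr _ => Dir.stay))
        | none => (Sum.inr (Sum.inr ()), fun k => (v k, Dir.stay))
    | Sum.inr (Sum.inr _) => (Sum.inr (Sum.inr ()), fun k => (v k, Dir.stay))

variable [Finite α] [Finite Q] (δ : Q → α → Q) (q0 : Q)
  (W : Q → (k : K) → Option α → List (Γ k)) (N : ℕ)

theorem gpass_write (hN : ∀ q k o, (W q k o).length ≤ N) (q : Q) (o : Option α) (t : Tp α)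
    (w : (k : K) → List (Γ k)) :
    ∀ d r : ℕ, (hr : r < N + 1) → r + d = N →
    Steps (gpass δ q0 W N) d
      (Sum.inr (Sum.inl (q, o, ⟨r, hr⟩)), joinT (fun _ => t) fun k =>
        tp (w k ++ (W q k o).take r) (w k ++ (W q k o).take r).length)
      (Sum.inr (Sum.inl (q, o, ⟨N, Nat.lt_succ_self N⟩)), joinT (fun _ => t) fun k =>
        tp (w k ++ W q k o) (w k ++ W q k o).length) := by
  intro d
  induction d with
  | zero =>
    intro r hr hd
    have h1 : r = N := by omega
    subst h1
    have h2 : ∀ k, (W q k o).take r = W q k o := fun k => List.take_of_length_le (hN q k o)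
    simp only [h2]
    exact Steps.zero _
  | succ d ih =>
    intro r hr hd
    refine Steps.succ d _ _ rfl ?_
    have h1 : r < N := by omega
    have h2 : (gpass δ q0 W N).next (Sum.inr (Sum.inl (q, o, ⟨r, hr⟩)), joinT (fun _ => t)
        fun k => tp (w k ++ (W q k o).take r) (w k ++ (W q k o).take r).length) =
        (Sum.inr (Sum.inl (q, o, ⟨r + 1, by omega⟩)), joinT (fun _ => t) fun k =>
        tp (w k ++ (W q k o).take (r + 1)) (w k ++ (W q k o).take (r + 1)).length) := by
      simp only [TM.next, gpass, h1, dif_pos]
      refine Prod.ext rfl ?_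
      funext k
      rcases k with k | k
      · exact wm_stay _
      · simp only [joinT]
        rcases h3 : (W q k o)[r]? with _ | g
        · have h4 : (W q k o).length ≤ r := by
            rcases lt_or_ge r (W q k o).length with h | h
            · rw [List.getElem?_eq_getElem h] at h3
              simp at h3
            · exact h
          rw [List.take_of_length_le h4, List.take_of_length_le (by omega)]
          exact wm_stay _
        · have h4 : (W q k o).take (r + 1) = (W q k o).take r ++ [g] := by
            rw [List.take_add_one, h3]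
            rfl
          rw [h4, ← List.append_assoc]
          exact tp_write _ _
    rw [h2]
    exact ih (r + 1) (by omega) (by omega)

theorem gpass_main (hN : ∀ q k o, (W q k o).length ≤ N) : ∀ (z y : List α) (q : Q)
    (w : (k : K) → List (Γ k)),
    Steps (gpass δ q0 W N) ((N + 2) * (z.length + 1))
      (Sum.inl q, joinT (fun _ => tp (y ++ z) y.length) fun k => tp (w k) (w k).length)
      (Sum.inr (Sum.inr ()), joinT (fun _ => tp (y ++ z) (y ++ z).length) fun k =>
        tp (w k ++ gk δ (fun q o => W q k o) q z)
          (w k ++ gk δ (fun q o => W q k o) q z).length) := by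
  intro z
  induction z with
  | nil =>
    intro y q w
    have h0 : (N + 2) * (([] : List α).length + 1) = 1 + (N + 1) := by simp; ring
    rw [h0]
    refine (Steps.one (c' := (Sum.inr (Sum.inl (q, none, 0)),
      joinT (fun _ => tp (y ++ []) y.length) fun k => tp (w k) (w k).length)) rfl ?_).trans ?_
    · simp only [TM.next, gpass]
      refine Prod.ext ?_ ?_
      · have h1 : (tp y (y.length : ℤ)) 0 = none := by
          rw [tp_head]
          simp
        simp [joinT, h1]
      · funext k
        exact wm_stay _
    · have h2 := gpass_write δ q0 W N hN q none (tp (y ++ []) y.length) w N 0 (by omega)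
        (by omega)
      simp only [List.take_zero, List.append_nil] at h2
      simp only [List.append_nil, gk]
      refine h2.trans (Steps.one rfl ?_)
      simp only [TM.next, gpass, lt_irrefl, dif_neg, not_false_eq_true]
      refine Prod.ext rfl ?_
      funext k
      exact wm_stay _
  | cons a z ih =>
    intro y q w
    have h0 : (N + 2) * ((a :: z).length + 1) = 1 + (N + 1) + (N + 2) * (z.length + 1) := by
      simp only [List.length_cons]
      ring
    rw [h0]
    have e1 : y ++ a :: z = (y ++ [a]) ++ z := by simp
    have h3 := ih (y ++ [a]) (δ q a) (fun k => w k ++ W q k (some a))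
    have e2 : ∀ k, w k ++ W q k (some a) ++ gk δ (fun q o => W q k o) (δ q a) z =
        w k ++ gk δ (fun q o => W q k o) q (a :: z) := by
      intro k
      simp only [gk, List.append_assoc]
    simp only [e2] at h3
    rw [← e1] at h3
    refine Steps.trans ?_ h3
    refine (Steps.one (c' := (Sum.inr (Sum.inl (q, some a, 0)),
      joinT (fun _ => tp (y ++ a :: z) y.length) fun k => tp (w k) (w k).length)) rfl ?_).trans ?_
    · simp only [TM.next, gpass]
      refine Prod.ext ?_ ?_
      · have h1 : (tp (y ++ a :: z) (y.length : ℤ)) 0 = some a := by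
          rw [tp_head]
          simp
        simp [joinT, h1]
      · funext k
        exact wm_stay _
    · have h2 := gpass_write δ q0 W N hN q (some a) (tp (y ++ a :: z) y.length) w N 0 (by omega)
        (by omega)
      simp only [List.take_zero, List.append_nil] at h2
      refine h2.trans (Steps.one rfl ?_)
      simp only [TM.next, gpass, lt_irrefl, dif_neg, not_false_eq_true]
      refine Prod.ext rfl ?_
      funext k
      rcases k with k | k
      · refine (tp_right (y ++ a :: z) (y.length : ℤ)).trans ?_
        simp [joinT]
      · exact wm_stay _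

theorem runs_gpass (hN : ∀ q k o, (W q k o).length ≤ N) (x : List α)
    (w : (k : K) → List (Γ k)) :
    Runs (gpass δ q0 W N) (joinT (fun _ => tp x 0) fun k => tp (w k) (w k).length)
      ((N + 2) * (x.length + 1))
      (joinT (fun _ => tp x x.length) fun k =>
        tp (w k ++ gk δ (fun q o => W q k o) q0 x)
          (w k ++ gk δ (fun q o => W q k o) q0 x).length) true := by
  have h := gpass_main δ q0 W N hN x [] q0 w
  simp only [List.nil_append, List.length_nil, Nat.cast_zero] at h
  exact ⟨_, h, rfl⟩

end

section

variable {α Q : Type}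

theorem gk_nil {G : Type} (δ : Q → α → Q) (W : Q → Option α → List G)
    (h : ∀ q o, W q o = []) : ∀ (x : List α) (q : Q), gk δ W q x = [] := by
  intro x
  induction x with
  | nil => intro q; exact h q none
  | cons a x ih => intro q; simp only [gk, h, ih, List.append_nil]

theorem gk_len {G : Type} (δ : Q → α → Q) (W : Q → Option α → List G) (N : ℕ)
    (h : ∀ q o, (W q o).length ≤ N) : ∀ (x : List α) (q : Q),
    (gk δ W q x).length ≤ N * (x.length + 1) := by
  intro x
  induction x with
  | nil => intro q; simpa [gk] using h q none
  | cons a x ih =>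
    intro q
    simp only [gk, List.length_append, List.length_cons]
    have h1 := h q (some a)
    have h2 := ih (δ q a)
    nlinarith

/-- the words printed -/
def wd {X Y : Type} (δ : Q → X → Q × List Y) (fin : Q → List Y) (q : Q) : Option X → List Y
  | some a => (δ q a).2
  | none => fin q

theorem gk_gout {X Y G : Type} (δ : Q → X → Q × List Y) (fin : Q → List Y) (f : Y → G) :
    ∀ (x : List X) (q : Q), gk (fun q a => (δ q a).1) (fun q o => (wd δ fin q o).map f) q x =
      (gout δ fin q x).map f := by
  intro x
  induction x with
  | nil => intro q; rfl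
  | cons a x ih =>
    intro q
    show (wd δ fin q (some a)).map f ++ gk (fun q a => (δ q a).1)
      (fun q o => (wd δ fin q o).map f) (δ q a).1 x = ((δ q a).2 ++ gout δ fin (δ q a).1 x).map f
    rw [ih, List.map_append]
    rfl

end

end Gsm_aux

open Gsm_aux in
theorem tGsm : S_Gsm := by
  classical
  rintro Q X Y _ _ δ fin q0 V ⟨K, hK, Γ, hΓ, k0, emb, he, M, c, hM⟩
  obtain ⟨N, hN⟩ := Finite.exists_le fun p : Q × Option X => (wd δ fin p.1 p.2).length
  let W : Q → (k : K) → Option X → List (Γ k) := fun q k o =>
    Function.update (fun _ => []) k0 ((wd δ fin q o).map emb) k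
  have hW0 : ∀ q o, W q k0 o = (wd δ fin q o).map emb := by
    intro q o
    simp only [W, Function.update_self]
  have hW1 : ∀ q k o, k ≠ k0 → W q k o = [] := by
    intro q k o hk
    simp only [W]
    rw [Function.update_of_ne hk]
  have hWN : ∀ q k o, (W q k o).length ≤ N := by
    intro q k o
    by_cases hk : k = k0
    · subst hk
      rw [hW0, List.length_map]
      exact hN (q, o)
    · rw [hW1 q k o hk]
      exact Nat.zero_le _
  have hG0 : ∀ x : List X, gk (fun q a => (δ q a).1) (fun q o => W q k0 o) q0 x =
      (gout δ fin q0 x).map emb := by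
    intro x
    simp only [hW0]
    exact gk_gout δ fin emb x q0
  have hG1 : ∀ (x : List X) (k : K), k ≠ k0 →
      gk (fun q a => (δ q a).1) (fun q o => W q k o) q0 x = [] := fun x k hk =>
    gk_nil _ _ (fun q o => hW1 q k o hk) x q0
  have hlen : ∀ x : List X, (gout δ fin q0 x).length ≤ N * (x.length + 1) := by
    intro x
    have h1 := gk_len (fun q a => (δ q a).1) (fun q o => W q k0 o) N (fun q o => hWN q k0 o) x q0
    rw [hG0, List.length_map] at h1
    exact h1
  refine ⟨Unit ⊕ K, inferInstance, GI X Γ, ?_, Sum.inl (), fun a => a, fun a b h => h,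
    (gpass (fun q a => (δ q a).1) q0 W N).bind (fun _ => (rew (Sum.inr k0)).bind
      (fun _ => M.liftR)), (N + 2) + (N + 2) + c * (N + 1) + 2, fun x => ?_⟩
  · rintro (k | k)
    · exact (inferInstance : Finite X)
    · exact (hΓ k)
  · obtain ⟨n, hn, τ', b, hr, hb⟩ := hM (gout δ fin q0 x)
    have r1 := runs_gpass (fun q a => (δ q a).1) q0 W N hWN x (fun _ => [])
    simp only [List.nil_append, List.length_nil, Nat.cast_zero] at r1
    have r2 := rew_inr (α := X) (Γ := Γ) (fun _ => tp x x.length)
      (fun k => tp (gk (fun q a => (δ q a).1) (fun q o => W q k o) q0 x)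
        ((gk (fun q a => (δ q a).1) (fun q o => W q k o) q0 x).length : ℤ))
      (fun k => tp (gk (fun q a => (δ q a).1) (fun q o => W q k o) q0 x) 0) k0
      (gk (fun q a => (δ q a).1) (fun q o => W q k0 o) q0 x) rfl rfl (by
        intro k hk
        simp only [hG1 x k hk, List.length_nil, Nat.cast_zero])
    have e2 : (fun k => tp (gk (fun q a => (δ q a).1) (fun q o => W q k o) q0 x) 0) =
        inp k0 ((gout δ fin q0 x).map emb) := by
      funext k
      by_cases hk : k = k0
      · subst hk
        rw [hG0, inp_self, tp_zero]
      · rw [hG1 x k hk, inp_ne _ _ _ hk, tp_zero]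
    rw [e2] at r2
    have r3 := r1.bind (N := fun _ => (rew (Sum.inr k0)).bind (fun _ => M.liftR))
      (r2.bind (N := fun _ => M.liftR) (hr.liftR (fun _ => tp x x.length)))
    refine ⟨(N + 2) * (x.length + 1) + 1 + ((gk (fun q a => (δ q a).1)
      (fun q o => W q k0 o) q0 x).length + 2 + 1 + n), ?_,
      joinT (fun _ => tp x x.length) τ', b, ?_, hb⟩
    rotate_left
    · have e1 : (inp (Γ := GI X Γ) (Sum.inl ()) (x.map fun a => a)) =
          joinT (fun _ => tp x 0) fun k => tp ([] : List (Γ k)) 0 := by
        funext k
        rcases k with k | k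
        · refine (inp_self (Γ := GI X Γ) (Sum.inl ()) (x.map fun a => a)).trans ?_
          simp [joinT, tp_zero]
        · refine (inp_ne (Γ := GI X Γ) (Sum.inl ()) (x.map fun a => a) (Sum.inr k)
            (by simp)).trans ?_
          simp [joinT, tp_zero]
      exact (congrArg (fun τ => Runs ((gpass (fun q a => (δ q a).1) q0 W N).bind
        (fun _ => (rew (Sum.inr k0)).bind (fun _ => M.liftR))) τ
        ((N + 2) * (x.length + 1) + 1 + ((gk (fun q a => (δ q a).1)
          (fun q o => W q k0 o) q0 x).length + 2 + 1 + n))
        (joinT (fun _ => tp x x.length) τ') b) e1).mpr r3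
    · rw [hG0, List.length_map]
      have h1 := hlen x
      have h2 : c * ((gout δ fin q0 x).length + 1) ≤ c * ((N + 1) * (x.length + 1)) := by
        refine Nat.mul_le_mul_left c ?_
        nlinarith [Nat.zero_le x.length]
      have h3 := hn.trans h2
      have h4 : ((N + 2) + (N + 2) + c * (N + 1) + 2) * (x.length + 1) =
        (N + 2) * (x.length + 1) + N * (x.length + 1) + 2 * (x.length + 1) +
          c * ((N + 1) * (x.length + 1)) + 2 * (x.length + 1) := by ring
      rw [h4]
      omega

end MPdee884H3
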