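import Pool.Agent.Lib.MP_dee884_lc.H3.Spec

/-!
# MP_dee884_lc, H3, module MkL: the language of marked words is a finite intersection
-/

namespace MPdee884H3

open MPdee884H1 MPdee884H2 Pool.Agent.Lin

namespace MkL_aux

/-- a block: a mark followed by `a` letters without mark -/
def blk (a : ℕ) : List Bool := true :: List.replicate a false

/-- the concatenation of blocks -/
def flt (as : List ℕ) : List Bool := (as.map blk).flatten

/-- every word of marks is a word without marks followed by blocks -/
theorem decomp (m : List Bool) : ∃ (z : ℕ) (as : List ℕ), m = List.replicate z false ++ flt as := by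
  induction m with
  | nil => exact ⟨0, [], rfl⟩
  | cons x m ih =>
    obtain ⟨z, as, h⟩ := ih
    cases x with
    | false => exact ⟨z + 1, as, by rw [h, List.replicate_succ]; rfl⟩
    | true => exact ⟨0, z :: as, by rw [h]; simp [flt, blk]⟩

/-- the number of positions at which `n` marks have been seen, starting with `c` marks -/
def occ : ℕ → List Bool → ℕ → ℕ
  | _, [], _ => 0
  | c, x :: m, n => (if (if x = true then c + 1 else c) = n then 1 else 0) +
      occ (if x = true then c + 1 else c) m n

theorem occ_zero (m : List Bool) : ∀ (c n : ℕ), n < c → occ c m n = 0 := by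
  induction m with
  | nil => intro c n _; rfl
  | cons x m ih =>
    intro c n h
    cases x with
    | false => simp [occ, ih c n h, (show c ≠ n by omega)]
    | true => simp [occ, ih (c + 1) n (by omega), (show c + 1 ≠ n by omega)]

theorem occ_rep (a : ℕ) (m : List Bool) (c n : ℕ) :
    occ c (List.replicate a false ++ m) n = (if c = n then a else 0) + occ c m n := by
  induction a with
  | zero => simp
  | succ a ih =>
    rw [List.replicate_succ, List.cons_append]
    simp only [occ, Bool.false_eq_true, if_false, ih]
    split_ifs <;> omega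

theorem flt_cons (a : ℕ) (as : List ℕ) :
    flt (a :: as) = true :: (List.replicate a false ++ flt as) := by
  simp [flt, blk]

theorem occ_flt0 (as : List ℕ) (c : ℕ) : occ c (flt as) c = 0 := by
  cases as with
  | nil => rfl
  | cons a as =>
    rw [flt_cons]
    simp only [occ, if_true]
    rw [occ_zero _ _ _ (Nat.lt_succ_self c)]
    simp

theorem occ_flt (as : List ℕ) : ∀ (c n : ℕ), occ c (flt as) (c + 1 + n) =
    ((as[n]?).map (fun a => a + 1)).getD 0 := by
  induction as with
  | nil => intro c n; rfl
  | cons a as ih =>
    intro c n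
    rw [flt_cons]
    simp only [occ, if_true, occ_rep]
    cases n with
    | zero =>
      rw [Nat.add_zero, occ_flt0]
      simp
      omega
    | succ n =>
      have h := ih (c + 1) n
      rw [show c + 1 + (n + 1) = c + 1 + 1 + n by omega, h, if_neg (by omega), if_neg (by omega)]
      simp

/-! ### the standard words -/

theorem len_flt_rep (K b r : ℕ) (hb : 1 ≤ b) :
    (flt (List.replicate K (b - 1) ++ (if r = 0 then [] else [r - 1]))).length = K * b + r := by
  induction K with
  | zero =>
    by_cases h : r = 0
    · simp [h, flt]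
    · simp [h, flt, blk]
      omega
  | succ K ih =>
    rw [List.replicate_succ, List.cons_append, flt_cons, List.length_cons, List.length_append, ih,
      List.length_replicate, Nat.add_mul]
    omega

theorem get_blk (b a t : ℕ) (m : List Bool) (ha : a < b) (ht : t < a + 1) :
    (true :: (List.replicate a false ++ m))[t]? = some (decide (b ∣ t)) := by
  cases t with
  | zero => simp
  | succ t =>
    rw [List.getElem?_cons_succ, List.getElem?_append_left (by simp; omega),
      List.getElem?_replicate, if_pos (by omega)]
    have h : ¬ b ∣ t + 1 := fun h => by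
      have := Nat.le_of_dvd (Nat.succ_pos t) h
      omega
    simp [h]

theorem get_std (K b r : ℕ) (hb : 1 ≤ b) (hr : r ≤ b) : ∀ t : ℕ, t < K * b + r →
    (flt (List.replicate K (b - 1) ++ (if r = 0 then [] else [r - 1])))[t]? =
      some (decide (b ∣ t)) := by
  induction K with
  | zero =>
    intro t ht
    have h : r ≠ 0 := by omega
    rw [if_neg h, List.replicate_zero, List.nil_append, flt_cons]
    exact get_blk b (r - 1) t _ (by omega) (by omega)
  | succ K ih =>
    intro t ht
    rw [List.replicate_succ, List.cons_append, flt_cons]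
    by_cases h : t < b
    · exact get_blk b (b - 1) t _ (by omega) (by omega)
    · obtain ⟨t, rfl⟩ : ∃ s, t = s + b := ⟨t - b, by omega⟩
      have h1 := ih t (by rw [Nat.add_mul] at ht; omega)
      have h2 : ∀ m : List Bool, (true :: (List.replicate (b - 1) false ++ m))[t + b]? = m[t]? := by
        intro m
        rw [show t + b = (t + (b - 1)) + 1 by omega, List.getElem?_cons_succ,
          List.getElem?_append_right (by simp)]
        simp
      rw [h2, h1]
      simp

theorem mk_iff (K b : ℕ) (m : List Bool) : Mk K b m ↔ 1 ≤ b ∧ ∃ r, r ≤ b ∧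
    m = flt (List.replicate K (b - 1) ++ (if r = 0 then [] else [r - 1])) := by
  constructor
  · rintro ⟨hb, h1, h2, h3⟩
    refine ⟨hb, m.length - K * b, by omega, ?_⟩
    have hl := len_flt_rep K b (m.length - K * b) hb
    apply List.ext_getElem?
    intro t
    by_cases ht : t < m.length
    · rw [h3 t ht, get_std K b _ hb (by omega) t (by omega)]
    · rw [List.getElem?_eq_none (by omega), List.getElem?_eq_none (by omega)]
  · rintro ⟨hb, r, hr, rfl⟩
    have hl := len_flt_rep K b r hb
    refine ⟨hb, by omega, by omega, fun t ht => ?_⟩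
    rw [hl] at ht
    exact get_std K b r hb hr t ht

/-! ### the automaton and the transducers -/

section

variable {X : Type} (K : ℕ) (mk : X → Bool)

/-- the counter of the transducers -/
def nx (c : Fin (K + 3)) (x : X) : Fin (K + 3) :=
  if mk x = true then ⟨min (c.1 + 1) (K + 2), by omega⟩ else c

/-- the automaton: `K + 2` is also the error state -/
def dR (c : Fin (K + 3)) (x : X) : Fin (K + 3) :=
  if mk x = true then ⟨min (c.1 + 1) (K + 2), by omega⟩ else
    if c.1 = 0 then ⟨K + 2, by omega⟩ else c

/-- the transducer which prints the lengths of the blocks `j` and `j + 1` -/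
def dT (j : ℕ) (c : Fin (K + 3)) (x : X) : Fin (K + 3) × Option (Unit ⊕ Unit) :=
  (nx K mk c x, if (nx K mk c x).1 = j + 1 then some (Sum.inl ()) else
    if (nx K mk c x).1 = j + 2 then some (Sum.inr ()) else none)

theorem out_dT (j : ℕ) (hj : j < K) (w : List X) : ∀ (c : Fin (K + 3)) (C : ℕ),
    c.1 = min C (K + 2) → seqOut (dT K mk j) c w =
      List.replicate (occ C (w.map mk) (j + 1)) (Sum.inl ()) ++
        List.replicate (occ C (w.map mk) (j + 2)) (Sum.inr ()) := by
  induction w with
  | nil => intro c C _; rfl
  | cons x w ih =>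
    intro c C hc
    have key : ∀ C' : ℕ, (if mk x = true then C + 1 else C) = C' →
        (nx K mk c x).1 = min C' (K + 2) := by
      intro C' hC'
      unfold nx
      by_cases hx : mk x = true
      · rw [if_pos hx] at hC' ⊢
        simp only
        omega
      · rw [if_neg hx] at hC' ⊢
        omega
    simp only [seqOut, List.map_cons, occ]
    generalize hC' : (if mk x = true then C + 1 else C) = C'
    have h1 := key C' hC'
    have h2 := ih (nx K mk c x) C' h1
    have h3 : (dT K mk j c x).1 = nx K mk c x := rfl
    rw [h3, h2]
    by_cases e1 : C' = j + 1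
    · have e : (dT K mk j c x).2 = some (Sum.inl ()) := by
        simp only [dT]
        rw [if_pos (by omega)]
      rw [e, if_pos e1, if_neg (by omega), Nat.zero_add, Nat.add_comm 1, List.replicate_succ]
      rfl
    · by_cases e2 : C' = j + 2
      · have e : (dT K mk j c x).2 = some (Sum.inr ()) := by
          simp only [dT]
          rw [if_neg (by omega), if_pos (by omega)]
        rw [e, if_neg e1, if_pos e2, Nat.zero_add, occ_zero _ _ _ (by omega), Nat.add_comm 1,
          List.replicate_succ]
        rfl
      · have e : (dT K mk j c x).2 = none := by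
          simp only [dT]
          rw [if_neg (by omega), if_neg (by omega)]
        rw [e, if_neg e1, if_neg e2, Nat.zero_add, Nat.zero_add]
        rfl

theorem fold_top (w : List X) (c : Fin (K + 3)) (hc : c.1 = K + 2) :
    (w.foldl (dR K mk) c).1 = K + 2 := by
  induction w generalizing c with
  | nil => exact hc
  | cons x w ih =>
    refine ih _ ?_
    unfold dR
    split_ifs with h1 h2
    · simp only
      omega
    · rfl
    · exact hc

theorem fold_flt : ∀ (as : List ℕ) (w : List X) (c : Fin (K + 3)),
    w.map mk = flt as → (w.foldl (dR K mk) c).1 = min (c.1 + as.length) (K + 2) := by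
  have hrep : ∀ (a : ℕ) (w : List X) (c : Fin (K + 3)) (m : List Bool), c.1 ≠ 0 →
      w.map mk = List.replicate a false ++ m → ∃ w' : List X, w'.map mk = m ∧
        w.foldl (dR K mk) c = w'.foldl (dR K mk) c := by
    intro a
    induction a with
    | zero => intro w c m _ h; exact ⟨w, by simpa using h, rfl⟩
    | succ a ih =>
      intro w c m hc h
      rw [List.replicate_succ, List.cons_append] at h
      cases w with
      | nil => simp at h
      | cons x w =>
        rw [List.map_cons, List.cons.injEq] at h
        obtain ⟨w', h1, h2⟩ := ih w c m hc h.2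
        refine ⟨w', h1, ?_⟩
        rw [List.foldl_cons]
        have : dR K mk c x = c := by
          unfold dR
          rw [if_neg (by rw [h.1]; simp), if_neg hc]
        rw [this, h2]
  intro as
  induction as with
  | nil =>
    intro w c h
    have : w = [] := by
      cases w with
      | nil => rfl
      | cons x w => simp [flt] at h
    subst this
    simp
    omega
  | cons a as ih =>
    intro w c h
    rw [flt_cons] at h
    cases w with
    | nil => simp at h
    | cons x w =>
      rw [List.map_cons, List.cons.injEq] at h
      rw [List.foldl_cons]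
      have hx : dR K mk c x = ⟨min (c.1 + 1) (K + 2), by omega⟩ := by
        unfold dR
        rw [if_pos h.1]
      rw [hx]
      obtain ⟨w', h1, h2⟩ := hrep a w ⟨min (c.1 + 1) (K + 2), by omega⟩ (flt as)
        (by simp only; omega) h.2
      rw [h2, ih w' _ h1, List.length_cons]
      simp only
      omega

theorem fold_start (w : List X) (z : ℕ) (as : List ℕ)
    (h : w.map mk = List.replicate z false ++ flt as) :
    (w.foldl (dR K mk) 0).1 ∈ ({K, K + 1} : Set ℕ) ↔
      z = 0 ∧ (as.length = K ∨ as.length = K + 1) := by
  cases z with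
  | zero =>
    rw [fold_flt K mk as w 0 (by simpa using h)]
    simp only [Set.mem_insert_iff, Set.mem_singleton_iff, Fin.val_zero, true_and]
    omega
  | succ z =>
    rw [List.replicate_succ, List.cons_append] at h
    cases w with
    | nil => simp at h
    | cons x w =>
      rw [List.map_cons, List.cons.injEq] at h
      have hx : (dR K mk 0 x).1 = K + 2 := by
        unfold dR
        rw [if_neg (by rw [h.1]; simp)]
        simp
      rw [List.foldl_cons, fold_top K mk w _ hx]
      simp only [Set.mem_insert_iff, Set.mem_singleton_iff]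
      omega

end

theorem pairLe_rep (A B : ℕ) (p : Prop) :
    (List.replicate A (Sum.inl ()) ++ List.replicate B (Sum.inr ()) : List (Unit ⊕ Unit)) ∈
      PairLe (fun _ _ => True) (fun _ => p) ↔ B ≤ A ∧ (A ≤ B ∨ p) := by
  constructor
  · rintro ⟨u, v, h, h1, _, h3⟩
    have hA : A = u.length := by
      have := congrArg (List.countP Sum.isLeft) h
      simpa [List.countP_append, List.countP_replicate, List.countP_map, Function.comp_def]
        using this
    have hB : B = v.length := by
      have := congrArg (List.countP Sum.isRight) h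
      simpa [List.countP_append, List.countP_replicate, List.countP_map, Function.comp_def]
        using this
    refine ⟨by omega, ?_⟩
    by_cases hAB : A ≤ B
    · exact Or.inl hAB
    · refine Or.inr (h3 B () (by omega) ?_)
      rw [List.getElem?_eq_getElem (by omega)]
  · rintro ⟨h1, h2⟩
    refine ⟨List.replicate A (), List.replicate B (), by simp, by simpa using h1,
      fun _ _ _ _ _ => trivial, fun i a hi ha => ?_⟩
    rcases h2 with h2 | h2
    · rw [List.length_replicate] at hi
      rw [List.getElem?_eq_none (by simp; omega)] at ha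
      exact absurd ha (by simp)
    · exact h2

/-- the length of the block `n` -/
def vl (as : List ℕ) (n : ℕ) : ℕ := ((as[n]?).map (fun a => a + 1)).getD 0

theorem vl_lt (K b : ℕ) (t : List ℕ) (hb : 1 ≤ b) (n : ℕ) (hn : n < K) :
    vl (List.replicate K (b - 1) ++ t) n = b := by
  unfold vl
  rw [List.getElem?_append_left (by simpa using hn), List.getElem?_replicate, if_pos hn]
  simp
  omega

theorem vl_eq (K b r : ℕ) :
    vl (List.replicate K (b - 1) ++ (if r = 0 then [] else [r - 1])) K = r := by
  unfold vl
  rw [List.getElem?_append_right (by simp)]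
  by_cases h : r = 0
  · simp [h]
  · simp [h]
    omega

theorem eq_std (K : ℕ) (hK : 1 ≤ K) (as : List ℕ) (hl : as.length = K ∨ as.length = K + 1)
    (h : ∀ j : ℕ, j < K → vl as (j + 1) ≤ vl as j ∧ (vl as j ≤ vl as (j + 1) ∨ j + 1 = K)) :
    1 ≤ vl as 0 ∧ vl as K ≤ vl as 0 ∧ as = List.replicate K (vl as 0 - 1) ++
      (if vl as K = 0 then [] else [vl as K - 1]) := by
  have h1 : ∀ n : ℕ, n < K → vl as n = vl as 0 := by
    intro n
    induction n with
    | zero => intro _; rfl
    | succ n ih =>
      intro hn
      have h2 := ih (by omega)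
      obtain ⟨h3, h4⟩ := h n (by omega)
      rcases h4 with h4 | h4 <;> omega
  have hget : ∀ n : ℕ, n < as.length → as[n]? = some (vl as n - 1) ∧ 1 ≤ vl as n := by
    intro n hn
    unfold vl
    rw [List.getElem?_eq_getElem hn]
    simp
  have h5 := (hget 0 (by omega)).2
  have h6 : vl as K ≤ vl as 0 := by
    have h7 := (h (K - 1) (by omega)).1
    have h8 := h1 (K - 1) (by omega)
    rw [show K - 1 + 1 = K by omega] at h7
    omega
  refine ⟨h5, h6, List.ext_getElem? fun n => ?_⟩
  by_cases hn : n < K
  · rw [(hget n (by omega)).1, h1 n hn, List.getElem?_append_left (by simpa using hn),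
      List.getElem?_replicate, if_pos hn]
  · rw [List.getElem?_append_right (by simp; omega), List.length_replicate]
    rcases hl with hl | hl
    · have h9 : vl as K = 0 := by
        unfold vl
        rw [List.getElem?_eq_none (by omega)]
        rfl
      rw [if_pos h9, List.getElem?_eq_none (by omega)]
      rfl
    · obtain ⟨h10, h11⟩ := hget K (by omega)
      rw [if_neg (by omega)]
      by_cases hn2 : n = K
      · subst hn2
        rw [h10]
        simp
      · rw [List.getElem?_eq_none (by omega), List.getElem?_eq_none (by simp; omega)]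

end MkL_aux

open MkL_aux

theorem tMkL : S_TR → S_Pair → S_RegL → S_MkL := by
  intro hTR hPair hRegL X K mk hK
  refine ⟨Option (Fin K), inferInstance, fun i => match i with
    | none => {w | w.foldl (dR K mk) 0 ∈ {c : Fin (K + 3) | c.1 ∈ ({K, K + 1} : Set ℕ)}}
    | some j => {w | seqOut (dT K mk j.1) 0 w ∈
        (PairLe (fun _ _ => True) (fun _ => j.1 + 1 = K) : Set (List (Unit ⊕ Unit)))},
    fun i => ?_, fun w => ?_⟩
  · rcases i with _ | j
    · exact hRegL (dR K mk) 0 _
    · exact hTR (dT K mk j.1) 0 _ (hPair _ _)
  · have hnone : ∀ (z : ℕ) (as : List ℕ), w.map mk = List.replicate z false ++ flt as →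
        ((w ∈ {w : List X | w.foldl (dR K mk) 0 ∈
        {c : Fin (K + 3) | c.1 ∈ ({K, K + 1} : Set ℕ)}}) ↔
        z = 0 ∧ (as.length = K ∨ as.length = K + 1)) := fold_start K mk w
    have hsome : ∀ as : List ℕ, w.map mk = flt as → ∀ j : Fin K,
        ((w ∈ {w : List X | seqOut (dT K mk j.1) 0 w ∈
        (PairLe (fun _ _ => True) (fun _ => j.1 + 1 = K) : Set (List (Unit ⊕ Unit)))}) ↔
        vl as (j.1 + 1) ≤ vl as j.1 ∧ (vl as j.1 ≤ vl as (j.1 + 1) ∨ j.1 + 1 = K)) := by
      intro as h2 j
      have h1 := out_dT K mk j.1 j.2 w 0 0 (by simp)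
      have e1 : occ 0 (flt as) (j.1 + 1) = vl as j.1 := by
        have e := occ_flt as 0 j.1
        rw [show 0 + 1 + j.1 = j.1 + 1 by omega] at e
        exact e
      have e2 : occ 0 (flt as) (j.1 + 2) = vl as (j.1 + 1) := by
        have e := occ_flt as 0 (j.1 + 1)
        rw [show 0 + 1 + (j.1 + 1) = j.1 + 2 by omega] at e
        exact e
      rw [h2, e1, e2] at h1
      rw [← pairLe_rep, ← h1]
      exact Iff.rfl
    constructor
    · rintro ⟨b, hb⟩
      obtain ⟨hb1, r, hr, hw⟩ := (mk_iff K b _).1 hb
      intro i
      rcases i with _ | j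
      · refine (hnone 0 _ (by rw [hw]; rfl)).2 ⟨rfl, ?_⟩
        by_cases h : r = 0
        · simp [h]
        · simp [h]
      · refine (hsome _ hw j).2 ?_
        have hj := j.2
        rw [vl_lt K b _ hb1 j.1 hj]
        by_cases h : j.1 + 1 = K
        · rw [h, vl_eq]
          exact ⟨hr, Or.inr rfl⟩
        · rw [vl_lt K b _ hb1 (j.1 + 1) (by omega)]
          exact ⟨le_refl _, Or.inl (le_refl _)⟩
    · intro h
      obtain ⟨z, as, hm⟩ := decomp (w.map mk)
      obtain ⟨hz, hl⟩ := (hnone z as hm).1 (h none)
      have hm' : w.map mk = flt as := by rw [hm, hz]; rfl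
      obtain ⟨h1, h2, h3⟩ := eq_std K hK as hl
        (fun j hj => (hsome as hm' ⟨j, hj⟩).1 (h (some ⟨j, hj⟩)))
      refine ⟨vl as 0, (mk_iff K _ _).2 ⟨h1, vl as K, h2, ?_⟩⟩
      rw [hm', ← h3]

end MPdee884H3
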