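import Pool.Agent.Lib.MP_dee884_lc.H3.Spec

/-!
# MP_dee884_lc, H3: movement of the heads and unchanged blocks
-/

set_option autoImplicit false

namespace MPdee884H3

open MPdee884H1 MPdee884H2 Pool.Agent.Lin

namespace Mov_aux

variable {K : Type} {Γ : K → Type}

theorem dir_abs (d : Dir) : |d.toInt| ≤ 1 := by
  cases d <;> simp [Dir.toInt]

theorem move {M : TM K Γ} (c : AC M) (k : K) (m : ℕ) :
    |((astep M)^[m] c).2.2 k - c.2.2 k| ≤ m := by
  induction m generalizing c with
  | zero => simp
  | succ m ih =>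
    rw [Function.iterate_succ_apply]
    have h1 := ih (astep M c)
    have h2 : |(astep M c).2.2 k - c.2.2 k| ≤ 1 := by
      have h3 : (astep M c).2.2 k - c.2.2 k = ((stp M c.1 (scn c)).2 k).2.toInt := by
        change c.2.2 k + ((stp M c.1 (scn c)).2 k).2.toInt - c.2.2 k = _
        ring
      rw [h3]
      exact dir_abs _
    have h4 := abs_add_le (((astep M)^[m] (astep M c)).2.2 k - (astep M c).2.2 k)
      ((astep M c).2.2 k - c.2.2 k)
    rw [sub_add_sub_cancel] at h4
    push_cast
    linarith

theorem cell {M : TM K Γ} (c : AC M) (k : K) (i : ℤ) (m : ℕ)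
    (h : ∀ s : ℕ, s < m → ((astep M)^[s] c).2.2 k ≠ i) :
    ((astep M)^[m] c).2.1 k i = c.2.1 k i := by
  induction m with
  | zero => rfl
  | succ m ih =>
    rw [Function.iterate_succ_apply']
    have h1 := ih (fun s hs => h s (by omega))
    have h2 := h m (by omega)
    rw [← h1]
    change Function.update (((astep M)^[m] c).2.1 k) (((astep M)^[m] c).2.2 k) _ i = _
    rw [Function.update_of_ne (Ne.symm h2)]

theorem far {p b β i s : ℤ} (hb : 1 ≤ b) (h : 2 ≤ |p / b - β|) (h1 : β * b ≤ i)
    (h2 : i < β * b + b) (hs : |s - p| ≤ b) : s ≠ i := by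
  intro hsi
  subst hsi
  have hm := Int.emod_add_mul_ediv p b
  have hm1 := Int.emod_nonneg p (show b ≠ 0 by omega)
  have hm2 := Int.emod_lt_of_pos p (show 0 < b by omega)
  rw [abs_le] at hs
  rcases le_abs.1 h with h3 | h3
  · have h4 : β + 2 ≤ p / b := by omega
    have h5 : b * (β + 2) ≤ b * (p / b) := Int.mul_le_mul_of_nonneg_left h4 (by omega)
    have h6 : b * (β + 2) = β * b + 2 * b := by ring
    omega
  · have h4 : p / b ≤ β - 2 := by omega
    have h5 : b * (p / b) ≤ b * (β - 2) := Int.mul_le_mul_of_nonneg_left h4 (by omega)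
    have h6 : b * (β - 2) = β * b - 2 * b := by ring
    omega

theorem seg {M : TM K Γ} (c : AC M) (k : K) (b : ℕ) (β : ℤ) (hb : 1 ≤ b)
    (h : 2 ≤ |c.2.2 k / (b : ℤ) - β|) : bc ((astep M)^[b] c) k b β = bc c k b β := by
  rw [bc, bc]
  refine List.map_congr_left fun o ho => ?_
  rw [List.mem_range] at ho
  have h0 : ∀ s : ℕ, s ≤ b → ((astep M)^[s] c).2.2 k ≠ β * b + o := by
    intro s hs
    refine far (b := (b : ℤ)) (by omega) h (by omega) (by omega) ?_
    have := move c k s
    omega
  have h1 := cell c k (β * b + o) b (fun s hs => h0 s hs.le)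
  have h2 := h0 b le_rfl
  have h3 := h0 0 (Nat.zero_le _)
  change c.2.2 k ≠ β * b + o at h3
  rw [cel, cel, h1, decide_eq_false h2, decide_eq_false h3]

theorem run_succ (M : TM K Γ) (τ : (k : K) → ℤ → Option (Γ k)) (b t : ℕ) :
    run M τ ((t + 1) * b) = (astep M)^[b] (run M τ (t * b)) := by
  rw [run, run, ← Function.iterate_add_apply]
  congr 1
  ring

end Mov_aux

open Mov_aux

theorem tMov : S_Mov := by
  intro K Γ M τ b hb
  refine ⟨fun k => ?_, fun k w => ?_, fun k β u w huw h => ?_, fun k β w h => ?_⟩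
  · rw [hd, Nat.zero_mul]
    change (0 : ℤ) / (b : ℤ) = 0
    simp
  · rw [hd, hd, run_succ]
    have h1 := move (run M τ (w * b)) k b
    generalize ((astep M)^[b] (run M τ (w * b))).2.2 k = q at h1
    generalize (run M τ (w * b)).2.2 k = p at h1
    have hbz : (1 : ℤ) ≤ b := by exact_mod_cast hb
    have hm := Int.emod_add_mul_ediv p b
    have hm1 := Int.emod_nonneg p (show (b : ℤ) ≠ 0 by omega)
    have hm2 := Int.emod_lt_of_pos p (show (0 : ℤ) < b by omega)
    have hn := Int.emod_add_mul_ediv q b
    have hn1 := Int.emod_nonneg q (show (b : ℤ) ≠ 0 by omega)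
    have hn2 := Int.emod_lt_of_pos q (show (0 : ℤ) < b by omega)
    rw [abs_le] at h1 ⊢
    constructor
    · by_contra hcon
      have h4 : q / b ≤ p / b - 2 := by omega
      have h5 : (b : ℤ) * (q / b) ≤ b * (p / b - 2) := Int.mul_le_mul_of_nonneg_left h4 (by omega)
      have h6 : (b : ℤ) * (p / b - 2) = b * (p / b) - 2 * b := by ring
      omega
    · by_contra hcon
      have h4 : p / b + 2 ≤ q / b := by omega
      have h5 : (b : ℤ) * (p / b + 2) ≤ b * (q / b) := Int.mul_le_mul_of_nonneg_left h4 (by omega)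
      have h6 : (b : ℤ) * (p / b + 2) = b * (p / b) + 2 * b := by ring
      omega
  · induction w with
    | zero => omega
    | succ w ih =>
      rcases Nat.lt_or_ge u w with h1 | h1
      · rw [ih h1 (fun t h2 h3 => h t h2 (by omega)), run_succ,
          seg _ k b β hb (h w h1 (by omega))]
      · have h2 : u = w := by omega
        rw [h2]
  · have h1 : bc (run M τ (w * b)) k b β = bc (run M τ 0) k b β := by
      induction w with
      | zero => rw [Nat.zero_mul]
      | succ w ih =>
        rw [run_succ, seg _ k b β hb (h w (by omega))]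
        exact ih (fun t ht => h t (by omega))
    rw [h1, bc, List.map_map]
    rfl


end MPdee884H3
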