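import Pool.Agent.Lib.MP_dee884_lc.H3.Spec

/-!
# MP_dee884_lc, H3: a machine with one work tape which compares two words
-/

set_option autoImplicit false

namespace MPdee884H3

open MPdee884H1 MPdee884H2 Pool.Agent.Lin

namespace Pair_aux

/-- the states -/
inductive St
  | W | L | C | E | F
  deriving DecidableEq

instance finSt : Finite St :=
  Finite.intro (α := St) (n := 5)
    { toFun := fun s => match s with
        | St.W => 0
        | St.L => 1
        | St.C => 2
        | St.E => 3
        | St.F => 4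
      invFun := fun i => match i with
        | 0 => St.W
        | 1 => St.L
        | 2 => St.C
        | 3 => St.E
        | 4 => St.F
      left_inv := fun s => by cases s <;> rfl
      right_inv := fun i => by fin_cases i <;> rfl }

variable {Y1 Y2 : Type}

/-- the transitions -/
inductive Tr (ρ : Y1 → Y2 → Prop) (ρe : Y1 → Prop) :
    St → Option (Y1 ⊕ Y2) → Option Y1 → St → Option Y1 → Dir → Prop
  | w (y : Y1) (g : Option Y1) : Tr ρ ρe St.W (some (Sum.inl y)) g St.W (some y) Dir.right
  | wl (g : Option Y1) : Tr ρ ρe St.W none g St.L g Dir.left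
  | l (y : Y1) : Tr ρ ρe St.L none (some y) St.L (some y) Dir.left
  | lc : Tr ρ ρe St.L none none St.C none Dir.right
  | c (y : Y1) (y' : Y2) : ρ y y' →
      Tr ρ ρe St.C (some (Sum.inr y')) (some y) St.C (some y) Dir.right
  | ce (g : Option Y1) : Tr ρ ρe St.C none g St.E g Dir.stay
  | e (y : Y1) : ρe y → Tr ρ ρe St.E none (some y) St.E (some y) Dir.right
  | ef : Tr ρ ρe St.E none none St.F none Dir.stay

variable (ρ : Y1 → Y2 → Prop) (ρe : Y1 → Prop)

/-- the machine -/
def Ma [Finite Y1] : NTM (Y1 ⊕ Y2) where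
  S := St
  G := Y1
  finS := inferInstance
  finG := inferInstance
  start := St.W
  acc := fun q => q = St.F
  tr := Tr ρ ρe

/-- the tape with the word `s` in the cells `0, 1, …` -/
def tpp (s : List Y1) : ℤ → Option Y1 := fun i => if 0 ≤ i then s[i.toNat]? else none

theorem tpp_nat (s : List Y1) (j : ℕ) : tpp s (j : ℤ) = s[j]? := by
  simp [tpp]

theorem tpp_nil : tpp ([] : List Y1) = fun _ => none := by
  funext i; simp [tpp]

theorem tpp_app (s : List Y1) (x : Y1) :
    Function.update (tpp s) (s.length : ℤ) (some x) = tpp (s ++ [x]) := by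
  funext i
  by_cases h : i = (s.length : ℤ)
  · subst h
    rw [Function.update_self, tpp_nat]
    simp
  · rw [Function.update_of_ne h]
    unfold tpp
    by_cases h0 : 0 ≤ i
    · rw [if_pos h0, if_pos h0]
      rcases lt_or_ge i.toNat s.length with h1 | h1
      · rw [List.getElem?_append_left h1]
      · have h2 : s.length < i.toNat := by omega
        rw [List.getElem?_eq_none h1, List.getElem?_eq_none (by simp; omega)]
    · rw [if_neg h0, if_neg h0]

/-- the words `v` which are accepted from the cell `j` of the tape with the word `u` -/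
def Gd (u : List Y1) (j : ℕ) (v : List Y2) : Prop :=
  j + v.length ≤ u.length ∧
    (∀ (i : ℕ) (a : Y1) (b : Y2), u[j + i]? = some a → v[i]? = some b → ρ a b) ∧
    ∀ (i : ℕ) (a : Y1), j + v.length ≤ i → u[i]? = some a → ρe a

variable [Finite Y1]

/-- acceptance -/
def AM (n : ℕ) (x : List (Y1 ⊕ Y2)) (q : St) (p : ℤ) (t : ℤ → Option Y1) : Prop :=
  NTM.Acc (Ma ρ ρe) n x q p t

omit [Finite Y1] in
theorem inv0 {A : Type} (M : NTM A) {n : ℕ} {x : List A} {q : M.S} {p : ℤ}
    {t : ℤ → Option M.G} (h : NTM.Acc M n x q p t) : (n = 0 ∧ x = [] ∧ M.acc q) ∨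
      ∃ (m : ℕ) (a : Option A) (y : List A) (q' : M.S) (b : Option M.G) (d : Dir),
        n = m + 1 ∧ x = a.toList ++ y ∧ M.tr q a (t p) q' b d ∧
        NTM.Acc M m y q' (p + d.toInt) (Function.update t p b) := by
  cases h with
  | done _ _ _ h1 => exact Or.inl ⟨rfl, rfl, h1⟩
  | step m a y _ q' _ _ b d h1 h2 => exact Or.inr ⟨m, a, y, q', b, d, rfl, rfl, h1, h2⟩

variable {ρ ρe}

theorem inv {n : ℕ} {x : List (Y1 ⊕ Y2)} {q : St} {p : ℤ} {t : ℤ → Option Y1}
    (h : AM ρ ρe n x q p t) : (n = 0 ∧ x = [] ∧ q = St.F) ∨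
      ∃ (m : ℕ) (a : Option (Y1 ⊕ Y2)) (y : List (Y1 ⊕ Y2)) (q' : St) (b : Option Y1) (d : Dir),
        n = m + 1 ∧ x = a.toList ++ y ∧ Tr ρ ρe q a (t p) q' b d ∧
        AM ρ ρe m y q' (p + d.toInt) (Function.update t p b) :=
  inv0 (Ma ρ ρe) h

theorem sndF {n : ℕ} {x : List (Y1 ⊕ Y2)} {p : ℤ} {t : ℤ → Option Y1}
    (h : AM ρ ρe n x St.F p t) : x = [] := by
  rcases inv h with ⟨_, h1, _⟩ | ⟨m, a, y, q', b, d, _, _, h1, _⟩
  · exact h1
  · cases h1

theorem sndE : ∀ (n : ℕ) (x : List (Y1 ⊕ Y2)) (u : List Y1) (j : ℕ), j ≤ u.length →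
    AM ρ ρe n x St.E (j : ℤ) (tpp u) → x = [] ∧
      ∀ (i : ℕ) (a : Y1), j ≤ i → u[i]? = some a → ρe a := by
  intro n
  induction n with
  | zero =>
    intro x u j hj h
    rcases inv h with ⟨_, _, h1⟩ | ⟨m, a, y, q', b, d, h1, _⟩
    · cases h1
    · omega
  | succ n ih =>
    intro x u j hj h
    rcases inv h with ⟨h1, _⟩ | ⟨m, a, y, q', b, d, h1, h2, h3, h4⟩
    · omega
    · obtain rfl : m = n := by omega
      generalize hg : tpp u (j : ℤ) = g at h3
      cases h3 with
      | e x0 h0 =>
        rw [← hg, Function.update_eq_self] at h4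
        rw [tpp_nat] at hg
        obtain ⟨h5, h6⟩ := List.getElem?_eq_some_iff.1 hg
        obtain ⟨h7, h8⟩ := ih y u (j + 1) h5 (by simpa [Dir.toInt] using h4)
        refine ⟨by rw [h2, h7]; rfl, fun i a hi ha => ?_⟩
        rcases Nat.eq_or_lt_of_le hi with h9 | h9
        · subst h9
          rw [hg] at ha
          cases ha
          exact h0
        · exact h8 i a h9 ha
      | ef =>
        rw [tpp_nat] at hg
        have h5 := List.getElem?_eq_none_iff.1 hg
        refine ⟨by rw [h2, sndF h4]; rfl, fun i a hi ha => ?_⟩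
        have := (List.getElem?_eq_some_iff.1 ha).1
        omega

theorem sndC : ∀ (n : ℕ) (x : List (Y1 ⊕ Y2)) (u : List Y1) (j : ℕ), j ≤ u.length →
    AM ρ ρe n x St.C (j : ℤ) (tpp u) → ∃ v : List Y2, x = v.map Sum.inr ∧ Gd ρ ρe u j v := by
  intro n
  induction n with
  | zero =>
    intro x u j hj h
    rcases inv h with ⟨_, _, h1⟩ | ⟨m, a, y, q', b, d, h1, _⟩
    · cases h1
    · omega
  | succ n ih =>
    intro x u j hj h
    rcases inv h with ⟨h1, _⟩ | ⟨m, a, y, q', b, d, h1, h2, h3, h4⟩
    · omega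
    · obtain rfl : m = n := by omega
      generalize hg : tpp u (j : ℤ) = g at h3
      cases h3 with
      | c x0 x1 h0 =>
        rw [← hg, Function.update_eq_self] at h4
        rw [tpp_nat] at hg
        obtain ⟨h5, h6⟩ := List.getElem?_eq_some_iff.1 hg
        obtain ⟨v, h7, h8, h9, h10⟩ := ih y u (j + 1) h5 (by simpa [Dir.toInt] using h4)
        refine ⟨x1 :: v, by rw [h2, h7]; rfl, by rw [List.length_cons]; omega, ?_, ?_⟩
        · intro i a b ha hb
          cases i with
          | zero =>
            rw [Nat.add_zero, hg] at ha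
            rw [List.getElem?_cons_zero] at hb
            cases ha
            cases hb
            exact h0
          | succ i =>
            rw [List.getElem?_cons_succ] at hb
            refine h9 i a b ?_ hb
            rw [← ha]
            congr 1
            omega
        · intro i a hi ha
          rw [List.length_cons] at hi
          exact h10 i a (by omega) ha
      | ce =>
        rw [← hg, Function.update_eq_self] at h4
        obtain ⟨h5, h6⟩ := sndE m y u j hj (by simpa [Dir.toInt] using h4)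
        refine ⟨[], by rw [h2, h5]; rfl, by simpa using hj, ?_, ?_⟩
        · intro i a b _ hb
          simp at hb
        · intro i a hi ha
          exact h6 i a (by simpa using hi) ha

theorem sndL : ∀ (n : ℕ) (x : List (Y1 ⊕ Y2)) (u : List Y1) (p : ℤ), -1 ≤ p → p < u.length →
    AM ρ ρe n x St.L p (tpp u) → ∃ v : List Y2, x = v.map Sum.inr ∧ Gd ρ ρe u 0 v := by
  intro n
  induction n with
  | zero =>
    intro x u p _ _ h
    rcases inv h with ⟨_, _, h1⟩ | ⟨m, a, y, q', b, d, h1, _⟩
    · cases h1
    · omega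
  | succ n ih =>
    intro x u p hp0 hp h
    rcases inv h with ⟨h1, _⟩ | ⟨m, a, y, q', b, d, h1, h2, h3, h4⟩
    · omega
    · obtain rfl : m = n := by omega
      generalize hg : tpp u p = g at h3
      cases h3 with
      | l x0 =>
        rw [← hg, Function.update_eq_self] at h4
        have h5 : 0 ≤ p := by
          by_contra h6
          unfold tpp at hg
          rw [if_neg h6] at hg
          cases hg
        rw [h2]
        exact ih y u _ (by simp only [Dir.toInt]; omega) (by simp only [Dir.toInt]; omega) h4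
      | lc =>
        rw [← hg, Function.update_eq_self] at h4
        have h5 : p = -1 := by
          by_contra h6
          obtain ⟨j, rfl⟩ : ∃ j : ℕ, p = j := ⟨p.toNat, by omega⟩
          rw [tpp_nat, List.getElem?_eq_none_iff] at hg
          omega
        subst h5
        rw [h2]
        exact sndC m y u 0 (Nat.zero_le _) (by simpa [Dir.toInt] using h4)

theorem sndW : ∀ (n : ℕ) (x : List (Y1 ⊕ Y2)) (u : List Y1),
    AM ρ ρe n x St.W (u.length : ℤ) (tpp u) → ∃ (s : List Y1) (v : List Y2),
      x = s.map Sum.inl ++ v.map Sum.inr ∧ Gd ρ ρe (u ++ s) 0 v := by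
  intro n
  induction n with
  | zero =>
    intro x u h
    rcases inv h with ⟨_, _, h1⟩ | ⟨m, a, y, q', b, d, h1, _⟩
    · cases h1
    · omega
  | succ n ih =>
    intro x u h
    rcases inv h with ⟨h1, _⟩ | ⟨m, a, y, q', b, d, h1, h2, h3, h4⟩
    · omega
    · obtain rfl : m = n := by omega
      generalize hg : tpp u (u.length : ℤ) = g at h3
      cases h3 with
      | w y0 =>
        rw [tpp_app] at h4
        obtain ⟨s, v, h6, h7⟩ := ih y (u ++ [y0]) (by simpa [Dir.toInt] using h4)
        refine ⟨y0 :: s, v, by rw [h2, h6]; rfl, ?_⟩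
        rw [List.append_assoc] at h7
        exact h7
      | wl =>
        rw [← hg, Function.update_eq_self] at h4
        obtain ⟨v, h5, h6⟩ := sndL m y u _ (by simp only [Dir.toInt]; omega)
          (by simp only [Dir.toInt]; omega) h4
        exact ⟨[], v, by rw [h2, h5]; rfl, by rw [List.append_nil]; exact h6⟩

/-! ### completeness -/

/-- one step -/
theorem stp1 {n : ℕ} {a : Option (Y1 ⊕ Y2)} {y : List (Y1 ⊕ Y2)} {q q' : St} {p : ℤ}
    {t : ℤ → Option Y1} {b : Option Y1} {d : Dir} (h : Tr ρ ρe q a (t p) q' b d)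
    (h' : AM ρ ρe n y q' (p + d.toInt) (Function.update t p b)) :
    AM ρ ρe (n + 1) (a.toList ++ y) q p t :=
  NTM.Acc.step (M := Ma ρ ρe) n a y q q' p t b d h h'

theorem cE : ∀ (k : ℕ) (u : List Y1) (j : ℕ), u.length = j + k →
    (∀ (i : ℕ) (a : Y1), j ≤ i → u[i]? = some a → ρe a) →
    AM ρ ρe (k + 1) [] St.E (j : ℤ) (tpp u) := by
  intro k
  induction k with
  | zero =>
    intro u j h _
    have h1 : tpp u (j : ℤ) = none := by rw [tpp_nat, List.getElem?_eq_none_iff]; omega
    refine stp1 (a := none) (y := []) (by rw [h1]; exact Tr.ef) ?_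
    exact NTM.Acc.done (M := Ma ρ ρe) _ _ _ rfl
  | succ k ih =>
    intro u j h h0
    have h1 : j < u.length := by omega
    have h2 : tpp u (j : ℤ) = some u[j] := by rw [tpp_nat]; exact List.getElem?_eq_getElem h1
    refine stp1 (a := none) (y := []) (by
      rw [h2]; exact Tr.e _ (h0 j _ le_rfl (List.getElem?_eq_getElem h1))) ?_
    rw [← h2, Function.update_eq_self]
    have h3 : (j : ℤ) + Dir.right.toInt = ((j + 1 : ℕ) : ℤ) := by simp [Dir.toInt]
    rw [h3]
    exact ih u (j + 1) (by omega) fun i a hi ha => h0 i a (by omega) ha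

theorem cC : ∀ (v : List Y2) (u : List Y1) (j : ℕ), Gd ρ ρe u j v →
    AM ρ ρe (u.length - j + 2) (v.map Sum.inr) St.C (j : ℤ) (tpp u) := by
  intro v
  induction v with
  | nil =>
    rintro u j ⟨h1, _, h3⟩
    rw [List.length_nil, Nat.add_zero] at h1
    refine stp1 (a := none) (y := []) (Tr.ce _) ?_
    rw [Function.update_eq_self]
    have h4 : (j : ℤ) + Dir.stay.toInt = (j : ℤ) := by simp [Dir.toInt]
    rw [h4]
    exact cE (u.length - j) u j (by omega) fun i a hi ha => h3 i a (by simpa using hi) ha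
  | cons b v ih =>
    rintro u j ⟨h1, h2, h3⟩
    rw [List.length_cons] at h1
    have h4 : j < u.length := by omega
    have h5 : tpp u (j : ℤ) = some u[j] := by rw [tpp_nat]; exact List.getElem?_eq_getElem h4
    have h6 : u.length - j + 2 = (u.length - (j + 1) + 2) + 1 := by omega
    rw [h6]
    refine stp1 (a := some (Sum.inr b)) (y := v.map Sum.inr) (by
      rw [h5]
      exact Tr.c _ _ (h2 0 _ _ (by rw [Nat.add_zero]; exact List.getElem?_eq_getElem h4) rfl)) ?_
    rw [← h5, Function.update_eq_self]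
    have h7 : (j : ℤ) + Dir.right.toInt = ((j + 1 : ℕ) : ℤ) := by simp [Dir.toInt]
    rw [h7]
    refine ih u (j + 1) ⟨by omega, ?_, ?_⟩
    · intro i a b' ha hb
      refine h2 (i + 1) a b' ?_ (by rw [List.getElem?_cons_succ]; exact hb)
      rw [← ha]
      congr 1
      omega
    · intro i a hi ha
      exact h3 i a (by rw [List.length_cons]; omega) ha

theorem cL : ∀ (j : ℕ) (n : ℕ) (x : List (Y1 ⊕ Y2)) (u : List Y1), j ≤ u.length →
    AM ρ ρe n x St.C 0 (tpp u) → AM ρ ρe (n + j + 1) x St.L ((j : ℤ) - 1) (tpp u) := by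
  intro j
  induction j with
  | zero =>
    intro n x u _ h
    have h1 : tpp u (((0 : ℕ) : ℤ) - 1) = none := by simp [tpp]
    refine stp1 (a := none) (by rw [h1]; exact Tr.lc) ?_
    rw [← h1, Function.update_eq_self]
    simpa [Dir.toInt] using h
  | succ j ih =>
    intro n x u hj h
    have h1 : j < u.length := by omega
    have h2 : tpp u (((j + 1 : ℕ) : ℤ) - 1) = some u[j] := by
      have : (((j + 1 : ℕ) : ℤ) - 1) = (j : ℤ) := by push_cast; ring
      rw [this, tpp_nat]; exact List.getElem?_eq_getElem h1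
    refine stp1 (a := none) (by rw [h2]; exact Tr.l _) ?_
    rw [← h2, Function.update_eq_self]
    have h5 : (((j + 1 : ℕ) : ℤ) - 1) + Dir.left.toInt = (j : ℤ) - 1 := by
      simp only [Dir.toInt]; push_cast; ring
    rw [h5]
    exact ih n x u (by omega) h

theorem cW : ∀ (l g : List Y1) (n : ℕ) (x : List (Y1 ⊕ Y2)),
    AM ρ ρe n x St.L (((g ++ l).length : ℤ) - 1) (tpp (g ++ l)) →
    AM ρ ρe (n + l.length + 1) (l.map Sum.inl ++ x) St.W (g.length : ℤ) (tpp g) := by
  intro l
  induction l with
  | nil =>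
    intro g n x h
    rw [List.append_nil] at h
    refine stp1 (a := none) (Tr.wl _) ?_
    rw [Function.update_eq_self]
    exact h
  | cons a l ih =>
    intro g n x h
    have h0 : g ++ a :: l = g ++ [a] ++ l := by simp
    rw [h0] at h
    have h1 := ih (g ++ [a]) n x h
    have h2 : n + (a :: l).length + 1 = (n + l.length + 1) + 1 := by
      rw [List.length_cons]; omega
    rw [h2]
    refine stp1 (a := some (Sum.inl a)) (y := l.map Sum.inl ++ x) (Tr.w a _) ?_
    rw [tpp_app]
    simpa [Dir.toInt] using h1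

end Pair_aux

open Pair_aux in
theorem tPair : S_Pair := by
  intro Y1 Y2 _ ρ ρe
  refine ⟨Ma ρ ρe, 4, ?_, ?_⟩
  · rintro x ⟨u, v, hx, h1, h2, h3⟩
    have h4 : Gd ρ ρe u 0 v := by
      refine ⟨by omega, ?_, ?_⟩
      · intro i a b ha hb
        rw [Nat.zero_add] at ha
        exact h2 i a b ha hb
      · intro i a hi ha
        exact h3 i a (by omega) ha
    have h5 := cL u.length _ _ u le_rfl (cC v u 0 h4)
    have h6 := cW u [] _ _ h5
    refine ⟨u.length - 0 + 2 + u.length + 1 + u.length + 1, ?_, ?_⟩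
    · rw [hx]
      simp only [List.length_append, List.length_map]
      omega
    · rw [hx]
      have h9 : tpp ([] : List Y1) = fun _ => none := tpp_nil
      rw [h9] at h6
      exact h6
  · intro n x h
    have h9 : tpp ([] : List Y1) = fun _ => none := tpp_nil
    have h1 : AM ρ ρe n x St.W ((([] : List Y1).length : ℕ) : ℤ) (tpp ([] : List Y1)) := by
      rw [h9]
      exact h
    obtain ⟨s, v, h2, h3, h4, h5⟩ := sndW n x [] h1
    rw [List.nil_append] at h3 h4 h5
    refine ⟨s, v, h2, by omega, ?_, ?_⟩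
    · intro i a b ha hb
      refine h4 i a b ?_ hb
      rw [Nat.zero_add]
      exact ha
    · intro i a hi ha
      exact h5 i a (by omega) ha

end MPdee884H3
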