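import Pool.Agent.Lib.MP_dee884_lc.H3.Spec

/-!
# MP_dee884_lc, H3: noncrossing arcs join at most `2 R` pairs of intervals
-/

namespace MPdee884H3

open MPdee884H1 MPdee884H2 Pool.Agent.Lin

theorem tPrs : S_Prs := by
  classical
  intro B N R hB hN E hE hX
  have hB0 : 0 < B := hB
  -- the joined pairs
  let Jn : ℕ → ℕ → Prop := fun i j => i < j ∧ ∃ u w, E u w ∧ u / B = i ∧ w / B = j
  have hlt : ∀ i j, Jn i j → i < R ∧ j < R := by
    rintro i j ⟨hij, u, w, h, rfl, rfl⟩
    have hw : w / B < R := by
      apply Nat.div_lt_of_lt_mul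
      have := (hE u w h).2
      calc w < N := this
        _ ≤ R * B := hN
        _ = B * R := Nat.mul_comm _ _
    exact ⟨lt_trans hij hw, hw⟩
  let P : Finset (ℕ × ℕ) := (Finset.range R ×ˢ Finset.range R).filter (fun p => Jn p.1 p.2)
  have hP : ∀ p, p ∈ P ↔ p.1 < p.2 ∧ ∃ u w, E u w ∧ u / B = p.1 ∧ w / B = p.2 := by
    intro p
    constructor
    · intro h
      exact (Finset.mem_filter.1 h).2
    · intro h
      have h2 := hlt p.1 p.2 h
      exact Finset.mem_filter.2 ⟨Finset.mem_product.2
        ⟨Finset.mem_range.2 h2.1, Finset.mem_range.2 h2.2⟩, h⟩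
  refine ⟨P, hP, ?_⟩
  let P2 : Finset (ℕ × ℕ) := P.filter (fun p => ∃ i1, i1 < p.1 ∧ Jn i1 p.2)
  let P1 : Finset (ℕ × ℕ) := P.filter (fun p => ¬ ∃ i1, i1 < p.1 ∧ Jn i1 p.2)
  have hcard : P.card = P2.card + P1.card :=
    (Finset.card_filter_add_card_filter_not (s := P) _).symm
  have h1 : P1.card ≤ R := by
    have : P1.card ≤ (Finset.range R).card := by
      apply Finset.card_le_card_of_injOn (fun p => p.2)
      · intro p hp
        have hp' := Finset.mem_filter.1 (Finset.mem_coe.1 hp)
        have := hlt p.1 p.2 ((hP p).1 hp'.1)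
        exact Finset.mem_coe.2 (Finset.mem_range.2 this.2)
      · rintro ⟨a, b⟩ hp ⟨c, d⟩ hq hpq
        have hp' := Finset.mem_filter.1 (Finset.mem_coe.1 hp)
        have hq' := Finset.mem_filter.1 (Finset.mem_coe.1 hq)
        simp only at hpq
        subst hpq
        rcases lt_trichotomy a c with h | h | h
        · exact absurd ⟨a, h, (hP (a, b)).1 hp'.1⟩ hq'.2
        · rw [h]
        · exact absurd ⟨c, h, (hP (c, b)).1 hq'.1⟩ hp'.2
    simpa using this
  have h2 : P2.card ≤ R := by
    have key : ∀ i j j', Jn i j → Jn i j' → (∃ i1, i1 < i ∧ Jn i1 j) → ¬ j < j' := by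
      rintro i j j' hij ⟨_, u, w', hw', hu, hwj'⟩ ⟨i1, hi1, _, u1, w1, hw1, hu1, hwj⟩ hjj
      have a1 : u1 < u := by
        by_contra hc
        have := Nat.div_le_div_right (c := B) (not_lt.1 hc)
        omega
      have a2 : u < w1 := by
        by_contra hc
        have := Nat.div_le_div_right (c := B) (not_lt.1 hc)
        have := hij.1
        omega
      have a3 : w1 < w' := by
        by_contra hc
        have := Nat.div_le_div_right (c := B) (not_lt.1 hc)
        omega
      exact hX u w' u1 w1 hw' hw1 a1 a2 a3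
    have : P2.card ≤ (Finset.range R).card := by
      apply Finset.card_le_card_of_injOn (fun p => p.1)
      · intro p hp
        have hp' := Finset.mem_filter.1 (Finset.mem_coe.1 hp)
        have := hlt p.1 p.2 ((hP p).1 hp'.1)
        exact Finset.mem_coe.2 (Finset.mem_range.2 this.1)
      · rintro ⟨a, b⟩ hp ⟨c, d⟩ hq hpq
        have hp' := Finset.mem_filter.1 (Finset.mem_coe.1 hp)
        have hq' := Finset.mem_filter.1 (Finset.mem_coe.1 hq)
        simp only at hpq
        subst hpq
        rcases lt_trichotomy b d with h | h | h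
        · exact absurd h (key a b d ((hP (a, b)).1 hp'.1) ((hP (a, d)).1 hq'.1) hp'.2)
        · rw [h]
        · exact absurd h (key a d b ((hP (a, d)).1 hq'.1) ((hP (a, b)).1 hp'.1) hq'.2)
    simpa using this
  omega

end MPdee884H3
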