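import Pool.Agent.Lib.MP_dee884_lc.H3.Spec

namespace MPdee884H3
open MPdee884H1 MPdee884H2 Pool.Agent.Lin

namespace Rch_aux

def lay (Pd : ℕ → Finset ℕ) (a : ℕ) : ℕ → Finset ℕ
  | 0 => {a}
  | j + 1 => lay Pd a j ∪ (lay Pd a j).biUnion Pd

theorem lay_card (Pd : ℕ → Finset ℕ) (a G : ℕ) (h : ∀ i, (Pd i).card ≤ G) (j : ℕ) :
    (lay Pd a j).card ≤ (G + 1) ^ j := by
  induction j with
  | zero => simp [lay]
  | succ j ih =>
    have h1 : ((lay Pd a j).biUnion Pd).card ≤ (lay Pd a j).card * G :=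
      Finset.card_biUnion_le_card_mul _ _ _ (fun i _ => h i)
    calc (lay Pd a (j + 1)).card
        ≤ (lay Pd a j).card + ((lay Pd a j).biUnion Pd).card := Finset.card_union_le _ _
      _ ≤ (lay Pd a j).card + (lay Pd a j).card * G := by omega
      _ = (lay Pd a j).card * (G + 1) := by ring
      _ ≤ (G + 1) ^ j * (G + 1) := Nat.mul_le_mul_right _ ih
      _ = (G + 1) ^ (j + 1) := by ring

theorem lay_mono (Pd : ℕ → Finset ℕ) (a : ℕ) {i j : ℕ} (h : i ≤ j) :
    lay Pd a i ⊆ lay Pd a j := by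
  induction j, h using Nat.le_induction with
  | base => exact Finset.Subset.refl _
  | succ n _ ih => exact ih.trans Finset.subset_union_left

theorem reach {B L : ℕ} (E : ℕ → ℕ → Prop) (Pd : ℕ → Finset ℕ)
    (hlt : ∀ u w, E u w → u < w)
    (hE : ∀ u w, E u w → u / B = w / B ∨ (u + L ≤ w ∧ u / B ∈ Pd (w / B))) (v u : ℕ)
    (h : Relation.ReflTransGen E u v) :
    ∃ j, u / B ∈ lay Pd (v / B) j ∧ u + j * L ≤ v := by
  induction h using Relation.ReflTransGen.head_induction_on with
  | refl => exact ⟨0, by simp [lay], by omega⟩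
  | head h1 _ ih =>
    rename_i a c
    obtain ⟨j, hj, hv⟩ := ih
    have h2 := hlt _ _ h1
    rcases hE _ _ h1 with h3 | ⟨h3, h4⟩
    · exact ⟨j, by rw [h3]; exact hj, by omega⟩
    · refine ⟨j + 1, ?_, ?_⟩
      · exact Finset.mem_union_right _ (Finset.mem_biUnion.2 ⟨_, hj, h4⟩)
      · have : (j + 1) * L = j * L + L := by ring
        omega

end Rch_aux

open Rch_aux

theorem tRch : S_Rch := by
  classical
  intro B N L G hB hL E Pd hPd hE1 hE v hv
  refine ⟨(Finset.range (v + 1)).filter (fun u => Relation.ReflTransGen E u v), ?_, ?_⟩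
  · intro u
    rw [Finset.mem_filter, Finset.mem_range]
    refine ⟨fun h => h.2, fun h => ⟨?_, h⟩⟩
    obtain ⟨j, _, h2⟩ := reach E Pd (fun a b h => (hE1 a b h).1) hE v u h
    omega
  · have hsub : (Finset.range (v + 1)).filter (fun u => Relation.ReflTransGen E u v) ⊆
        (lay Pd (v / B) (N / L)).biUnion (fun i => Finset.Ico (i * B) ((i + 1) * B)) := by
      intro u hu
      rw [Finset.mem_filter] at hu
      obtain ⟨j, h1, h2⟩ := reach E Pd (fun a b h => (hE1 a b h).1) hE v u hu.2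
      have h3 : j ≤ N / L := by
        rw [Nat.le_div_iff_mul_le (by omega)]
        omega
      refine Finset.mem_biUnion.2 ⟨u / B, lay_mono Pd _ h3 h1, ?_⟩
      rw [Finset.mem_Ico]
      refine ⟨Nat.div_mul_le_self u B, ?_⟩
      have := Nat.lt_succ_self (u / B)
      exact (Nat.div_lt_iff_lt_mul (by omega)).1 this
    refine (Finset.card_le_card hsub).trans ?_
    refine (Finset.card_biUnion_le_card_mul _ _ B (fun i _ => ?_)).trans ?_
    · rw [Nat.card_Ico]
      have : (i + 1) * B = i * B + B := by ring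
      omega
    · rw [mul_comm]
      exact Nat.mul_le_mul_left _ (lay_card Pd _ G hPd _)

end MPdee884H3
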