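import Pool.Agent.Lib.MP_dee884_lc.H3.Spec

/-!
# MP_dee884_lc, H3: regular languages are one-work-tape languages
-/

namespace MPdee884H3

open MPdee884H1 MPdee884H2 Pool.Agent.Lin

/-- the machine which does not move and does not print -/
private def regM {X Q : Type} [Finite Q] (δ : Q → X → Q) (q0 : Q) (F : Set Q) : NTM X where
  S := Q
  G := Unit
  finS := inferInstance
  finG := inferInstance
  start := q0
  acc := fun q => q ∈ F
  tr := fun q a g q' g' d => ∃ x, a = some x ∧ q' = δ q x ∧ g' = g ∧ d = Dir.stay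

private theorem regM_complete {X Q : Type} [Finite Q] (δ : Q → X → Q) (q0 : Q) (F : Set Q)
    (w : List X) : ∀ q : Q, w.foldl δ q ∈ F → ∀ (p : ℤ) (t : ℤ → Option Unit),
      (regM δ q0 F).Acc w.length w q p t := by
  induction w with
  | nil =>
    intro q hq p t
    exact NTM.Acc.done (M := regM δ q0 F) q p t hq
  | cons x w ih =>
    intro q hq p t
    have h := ih (δ q x) hq (p + Dir.stay.toInt) (Function.update t p (t p))
    have htr : (regM δ q0 F).tr q (some x) (t p) (δ q x) (t p) Dir.stay :=
      ⟨x, rfl, rfl, rfl, rfl⟩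
    exact NTM.Acc.step (M := regM δ q0 F) w.length (some x) w q (δ q x) p t (t p) Dir.stay htr h

private theorem regM_sound {X Q : Type} [Finite Q] (δ : Q → X → Q) (q0 : Q) (F : Set Q)
    {n : ℕ} {w : List X} {q : (regM δ q0 F).S} {p : ℤ} {t : ℤ → Option (regM δ q0 F).G}
    (h : (regM δ q0 F).Acc n w q p t) : w.foldl δ q ∈ F := by
  induction h with
  | done q p t hq => exact hq
  | step n a x q q' p t b d htr _ ih =>
    obtain ⟨y, rfl, rfl, rfl, rfl⟩ := htr
    exact ih

/-- Regular languages are accepted in linear time with one work tape. -/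
theorem tRegL : S_RegL := by
  intro X Q _ δ q0 F
  refine ⟨regM δ q0 F, 1, ?_, ?_⟩
  · intro w hw
    exact ⟨w.length, by omega, regM_complete δ q0 F w q0 hw 0 (fun _ => none)⟩
  · intro n w hw
    exact regM_sound δ q0 F hw

end MPdee884H3
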