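import Pool.Agent.Lib.MP_dee884_lc.H3.Spec

namespace MPdee884H3

open MPdee884H1 MPdee884H2 Pool.Agent.Lin

theorem tRegS : S_TR → S_RegL → S_Scan → S_RegS := by
  intro hTR hReg hScan X Λ Q _ K l mk f dec δ q0 F s hl hs
  obtain ⟨Q', hQ', δ', q0', hδ⟩ := hScan (X := X) (A := Unit) (Tg := Unit) (Λ := Λ) K l mk
    (fun _ => ()) (fun _ => f) dec [Sum.inr (s, ())] hl (List.pairwise_singleton _ _) (by
      intro i hi
      rw [List.mem_singleton] at hi
      subst hi
      exact hs)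
  let δ2 : Q → Unit ⊕ (Unit × Λ) → Q := fun q y => match y with
    | Sum.inl _ => q
    | Sum.inr (_, a) => δ q a
  refine ⟨{w | seqOut δ' q0' w ∈ {v : List (Unit ⊕ (Unit × Λ)) | v.foldl δ2 q0 ∈ F}},
    hTR δ' q0' _ (hReg δ2 q0 F), ?_⟩
  intro w b hw
  have h1 := hδ w b hw
  simp only [Set.mem_ofPred_eq]
  rw [h1]
  simp only [List.flatMap_cons, List.flatMap_nil, List.append_nil, outIt, List.foldl_map, δ2]

end MPdee884H3
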