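import Pool.Agent.Lib.MP_dee884_lc.H3.Spec

/-!
# MP_dee884_lc, H3: absolute tapes
-/

set_option autoImplicit false

namespace MPdee884H3

open MPdee884H1 MPdee884H2 Pool.Agent.Lin

namespace Run_aux

variable {K : Type} {Γ : K → Type}

/-- The configuration with the tapes relative to the heads. -/
def rel {M : TM K Γ} (c : AC M) : M.S × ((k : K) → Tp (Γ k)) :=
  (c.1, fun k i => c.2.1 k (i + c.2.2 k))

theorem rel_scn {M : TM K Γ} (c : AC M) : (fun k => (rel c).2 k 0) = scn c := by
  funext k
  change c.2.1 k (0 + c.2.2 k) = c.2.1 k (c.2.2 k)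
  rw [zero_add]

theorem next_rel {M : TM K Γ} (c : AC M) (h : M.out c.1 = none) :
    M.next (rel c) = rel (astep M c) := by
  have h1 : stp M c.1 (scn c) = M.step c.1 (scn c) := by
    rw [stp, if_pos h]
  refine Prod.ext ?_ ?_
  · change (M.step c.1 (fun k => (rel c).2 k 0)).1 = (stp M c.1 (scn c)).1
    rw [rel_scn, h1]
  · funext k i
    change wm ((rel c).2 k) ((M.step c.1 fun k => (rel c).2 k 0).2 k).1
        ((M.step c.1 fun k => (rel c).2 k 0).2 k).2 i =
      Function.update (c.2.1 k) (c.2.2 k) ((stp M c.1 (scn c)).2 k).1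
        (i + (c.2.2 k + ((stp M c.1 (scn c)).2 k).2.toInt))
    rw [rel_scn, h1]
    generalize ((M.step c.1 (scn c)).2 k).1 = b
    generalize ((M.step c.1 (scn c)).2 k).2 = d
    rw [wm, Function.update_apply]
    by_cases h2 : i + d.toInt = 0
    · rw [if_pos h2, if_pos (by omega)]
    · rw [if_neg h2, if_neg (by omega)]
      change c.2.1 k (i + d.toInt + c.2.2 k) = _
      have h3 : i + d.toInt + c.2.2 k = i + (c.2.2 k + d.toInt) := by ring
      rw [h3]

theorem astep_halt {M : TM K Γ} (c : AC M) (h : M.out c.1 ≠ none) : astep M c = c := by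
  have h1 : stp M c.1 (scn c) = (c.1, fun k => (scn c k, Dir.stay)) := by
    rw [stp, if_neg h]
  obtain ⟨q, τ, p⟩ := c
  rw [astep, h1]
  refine Prod.ext rfl (Prod.ext ?_ ?_)
  · funext k
    exact Function.update_eq_self _ _
  · funext k
    exact add_zero _

theorem steps_rel {M : TM K Γ} (n : ℕ) (c0 c' : M.S × ((k : K) → Tp (Γ k)))
    (h : Steps M n c0 c') : ∀ c : AC M, rel c = c0 → rel ((astep M)^[n] c) = c' := by
  induction h with
  | zero c0 => intro c hc; exact hc
  | succ n c0 c' ho _ ih =>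
    intro c hc
    subst hc
    rw [Function.iterate_succ_apply]
    exact ih _ (next_rel c ho).symm

theorem iter_halt {M : TM K Γ} (c : AC M) (h : M.out c.1 ≠ none) (m : ℕ) :
    (astep M)^[m] c = c := by
  induction m with
  | zero => rfl
  | succ m ih => rw [Function.iterate_succ_apply, astep_halt c h, ih]

end Run_aux

open Run_aux

theorem tRun : S_Run := by
  intro K Γ M τ τ' n b h T hT
  obtain ⟨q, hs, hq⟩ := h
  have h0 : rel ((M.start, τ, fun _ => 0) : AC M) = (M.start, τ) := by
    refine Prod.ext rfl ?_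
    funext k i
    change τ k (i + 0) = τ k i
    rw [add_zero]
  have h1 := steps_rel n _ _ hs _ h0
  have h2 : ((astep M)^[n] ((M.start, τ, fun _ => 0) : AC M)).1 = q :=
    congrArg Prod.fst h1
  have h3 : M.out ((astep M)^[n] ((M.start, τ, fun _ => 0) : AC M)).1 = some b := by
    rw [h2, hq]
  obtain ⟨m, rfl⟩ := Nat.exists_eq_add_of_le hT
  have h4 : run M τ (n + m) = (astep M)^[n] (M.start, τ, fun _ => 0) := by
    rw [run, Nat.add_comm, Function.iterate_add_apply]
    exact iter_halt _ (by rw [h3]; exact Option.some_ne_none b) m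
  rw [h4, h3]

end MPdee884H3
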