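import Pool.Agent.Lib.MP_dee884_lc.H3.Spec

/-!
# MP_dee884_lc, H3: a transducer which scans items in marked words
-/

namespace MPdee884H3

open MPdee884H1 MPdee884H2 Pool.Agent.Lin

namespace Scan_aux

/-! ### restriction of a transducer to a closed set of states -/

/-- restriction of a transducer to a closed set of states -/
def restr {Q X Y : Type} (δ : Q → X → Q × Option Y) (R : Q → Prop)
    (hR : ∀ q x, R q → R (δ q x).1) : {q // R q} → X → {q // R q} × Option Y :=
  fun q x => (⟨(δ q.1 x).1, hR q.1 x q.2⟩, (δ q.1 x).2)

theorem restr_out {Q X Y : Type} (δ : Q → X → Q × Option Y) (R : Q → Prop)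
    (hR : ∀ q x, R q → R (δ q x).1) (w : List X) :
    ∀ q : {q // R q}, seqOut (restr δ R hR) q w = seqOut δ q.1 w := by
  induction w with
  | nil => intro q; rfl
  | cons x w ih =>
    intro q
    have h := ih (restr δ R hR q x).1
    simp only [seqOut, h]
    rfl

/-! ### the item of a block -/

variable {X A Tg Λ : Type}

/-- the item which contains the block `c` -/
def lk (l : ℕ) (I : List (Item Tg)) (c : ℕ) : Option (Item Tg) :=
  I.find? (fun it => decide (lo l it ≤ c ∧ c < hi l it))

theorem lk_mem {l : ℕ} {I : List (Item Tg)} (hI : I.Pairwise (fun i j => hi l i ≤ lo l j))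
    {it : Item Tg} (hit : it ∈ I) {c : ℕ} (h1 : lo l it ≤ c) (h2 : c < hi l it) :
    lk l I c = some it := by
  induction I with
  | nil => simp at hit
  | cons a I ih =>
    rw [List.pairwise_cons] at hI
    rcases List.mem_cons.1 hit with rfl | hit
    · simp [lk, h1, h2]
    · have hn : ¬ (lo l a ≤ c ∧ c < hi l a) := by
        intro h
        have := hI.1 it hit
        omega
      rw [lk, List.find?_cons_of_neg (by simpa using hn)]
      exact ih hI.2 hit

theorem lk_some {l : ℕ} {I : List (Item Tg)} {it : Item Tg} {c : ℕ} (h : lk l I c = some it) :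
    it ∈ I ∧ lo l it ≤ c ∧ c < hi l it := by
  have h1 := List.mem_of_find?_eq_some h
  have h2 := List.find?_some h
  simp only [decide_eq_true_eq] at h2
  exact ⟨h1, h2⟩

theorem lk_none {l : ℕ} {I : List (Item Tg)} {c : ℕ} (h : ∀ it ∈ I, c < lo l it) :
    lk l I c = none := by
  rw [lk, List.find?_eq_none]
  intro it hit
  have := h it hit
  simp only [decide_eq_true_eq]
  omega

theorem lk_cons {l : ℕ} {a : Item Tg} {I : List (Item Tg)} {c : ℕ} (h : hi l a ≤ c) :
    lk l (a :: I) c = lk l I c := by
  rw [lk, List.find?_cons_of_neg]
  · rfl
  · simp only [decide_eq_true_eq]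
    omega

/-! ### the output at a position -/

/-- the output when the letter number `i` is read -/
def outAt (l : ℕ) (fx : X → A) (g : Tg → X → Bool) (dec : List Bool → Λ) (w : List X) (b : ℕ)
    (I : List (Item Tg)) (i : ℕ) : List (A ⊕ (Tg × Λ)) :=
  match lk l I (i / b) with
  | none => []
  | some (Sum.inl _) => ((w.map fx)[i]?).toList.map Sum.inl
  | some (Sum.inr (_, t)) => if (i + 1) % l = 0 then
      [Sum.inr (t, dec (((w.map (g t)).drop (i + 1 - l)).take l))] else []

theorem outAt_none {l : ℕ} {fx : X → A} {g : Tg → X → Bool} {dec : List Bool → Λ} {w : List X}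
    {b : ℕ} {I : List (Item Tg)} {i : ℕ} (h : lk l I (i / b) = none) :
    outAt l fx g dec w b I i = [] := by
  simp only [outAt, h]

theorem outAt_inl {l : ℕ} {fx : X → A} {g : Tg → X → Bool} {dec : List Bool → Λ} {w : List X}
    {b : ℕ} {I : List (Item Tg)} {i β : ℕ} (h : lk l I (i / b) = some (Sum.inl β)) :
    outAt l fx g dec w b I i = ((w.map fx)[i]?).toList.map Sum.inl := by
  simp only [outAt, h]

theorem outAt_inr {l : ℕ} {fx : X → A} {g : Tg → X → Bool} {dec : List Bool → Λ} {w : List X}
    {b : ℕ} {I : List (Item Tg)} {i s : ℕ} {t : Tg} (h : lk l I (i / b) = some (Sum.inr (s, t))) :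
    outAt l fx g dec w b I i = if (i + 1) % l = 0 then
      [Sum.inr (t, dec (((w.map (g t)).drop (i + 1 - l)).take l))] else [] := by
  simp only [outAt, h]

theorem range'_add (a n m : ℕ) :
    List.range' a (n + m) = List.range' a n ++ List.range' (a + n) m := by
  rw [List.range'_append_1]

theorem flatMap_range'_nil {Y : Type} (f : ℕ → List Y) (a n : ℕ)
    (h : ∀ i, a ≤ i → i < a + n → f i = []) : (List.range' a n).flatMap f = [] := by
  rw [List.flatMap_eq_nil_iff]
  intro i hi
  rw [List.mem_range'_1] at hi
  exact h i hi.1 hi.2

theorem flatMap_range'_congr {Y : Type} (f f' : ℕ → List Y) (a n : ℕ)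
    (h : ∀ i, a ≤ i → i < a + n → f i = f' i) :
    (List.range' a n).flatMap f = (List.range' a n).flatMap f' := by
  apply List.flatMap_congr
  intro i hi
  rw [List.mem_range'_1] at hi
  exact h i hi.1 hi.2

theorem flatMap_groups {Y : Type} (f : ℕ → List Y) (l : ℕ) (hl : 1 ≤ l) (a : ℕ) (b : ℕ)
    (h : ∀ i, a * l ≤ i → i < (a + b) * l → (i + 1) % l ≠ 0 → f i = []) :
    (List.range' (a * l) (b * l)).flatMap f =
      (List.range b).flatMap (fun m => f ((a + m) * l + (l - 1))) := by
  induction b with
  | zero => simp
  | succ b ih =>
    have e1 : (b + 1) * l = b * l + l := by ring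
    have e2 : a * l + b * l = (a + b) * l := by ring
    rw [e1, range'_add, List.flatMap_append, List.range_succ, List.flatMap_append, ih, e2]
    · obtain ⟨l', rfl⟩ : ∃ l', l = l' + 1 := ⟨l - 1, by omega⟩
      rw [range'_add _ l' 1, List.flatMap_append, flatMap_range'_nil]
      · simp
      · intro i h1 h2
        apply h i
        · refine le_trans ?_ h1
          exact Nat.mul_le_mul_right _ (by omega)
        · have : (a + (b + 1)) * (l' + 1) = (a + b) * (l' + 1) + (l' + 1) := by ring
          omega
        · obtain ⟨r, rfl⟩ : ∃ r, i = (a + b) * (l' + 1) + r := ⟨i - (a + b) * (l' + 1), by omega⟩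
          have e3 : (a + b) * (l' + 1) + r + 1 = (r + 1) + (l' + 1) * (a + b) := by ring
          rw [e3, Nat.add_mul_mod_self_left, Nat.mod_eq_of_lt (by omega)]
          omega
    · intro i h1 h2 h3
      apply h i h1 _ h3
      refine lt_of_lt_of_le h2 ?_
      exact Nat.mul_le_mul_right _ (by omega)

theorem flatMap_raw {Y Z : Type} (u : List Y) (e : Y → Z) (a n : ℕ) :
    (List.range' a n).flatMap (fun i => (u[i]?).toList.map e) = ((u.drop a).take n).map e := by
  induction n generalizing a with
  | zero => simp
  | succ n ih =>
    rw [List.range'_succ, List.flatMap_cons, ih]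
    by_cases h : a < u.length
    · rw [List.getElem?_eq_getElem h, List.drop_eq_getElem_cons h, List.take_succ_cons,
        List.map_cons]
      rfl
    · rw [List.getElem?_eq_none (by omega), List.drop_eq_nil_of_le (by omega : u.length ≤ a),
        List.drop_eq_nil_of_le (by omega : u.length ≤ a + 1)]
      simp

/-- the outputs of all positions from the block `c` on -/
theorem flatMap_outAt {K l : ℕ} (hl : 1 ≤ l) (fx : X → A) (g : Tg → X → Bool)
    (dec : List Bool → Λ) (w : List X) (b : ℕ) (hb : 1 ≤ b) (hw1 : K * b ≤ w.length)
    (hw2 : w.length ≤ K * b + b) (I : List (Item Tg)) :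
    ∀ c : ℕ, I.Pairwise (fun i j => hi l i ≤ lo l j) → (∀ i ∈ I, okIt K l i) →
      (∀ i ∈ I, c ≤ lo l i) →
      (List.range' (c * b) (w.length - c * b)).flatMap (outAt l fx g dec w b I) =
        I.flatMap (outIt l fx g dec w b) := by
  induction I with
  | nil =>
    intro c _ _ _
    rw [List.flatMap_nil]
    apply flatMap_range'_nil
    intro i _ _
    exact outAt_none rfl
  | cons a I ih =>
    intro c hI hok hc
    have hI0 := hI
    rw [List.pairwise_cons] at hI
    have hca : c ≤ lo l a := hc a (by simp)
    have hoka : okIt K l a := hok a (by simp)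
    have hloK : lo l a ≤ K := by
      rcases a with β | ⟨s, t⟩
      · exact hoka
      · have h1 : (s + 1) * l ≤ K := hoka
        have h2 : s * l ≤ (s + 1) * l := Nat.mul_le_mul_right _ (by omega)
        exact le_trans h2 h1
    have hcb : c * b ≤ lo l a * b := Nat.mul_le_mul_right _ hca
    have hlob : lo l a * b ≤ w.length := le_trans (Nat.mul_le_mul_right _ hloK) hw1
    have hlohi : lo l a ≤ hi l a := by
      rcases a with β | ⟨s, t⟩
      · exact Nat.le_succ _
      · exact Nat.mul_le_mul_right _ (by omega)
    have hlohib : lo l a * b ≤ hi l a * b := Nat.mul_le_mul_right _ hlohi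
    -- the three parts
    have e0 : w.length - c * b = (lo l a * b - c * b) +
        ((min (hi l a * b) w.length - lo l a * b) + (w.length - hi l a * b)) := by omega
    have e1 : c * b + (lo l a * b - c * b) = lo l a * b := by omega
    rw [e0, range'_add, range'_add, e1, List.flatMap_append, List.flatMap_append,
      List.flatMap_cons]
    have p1 : (List.range' (c * b) (lo l a * b - c * b)).flatMap
        (outAt l fx g dec w b (a :: I)) = [] := by
      apply flatMap_range'_nil
      intro i h1 h2
      apply outAt_none
      apply lk_none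
      have h3 : i / b < lo l a := by
        rw [Nat.div_lt_iff_lt_mul (by omega)]
        omega
      intro it hit
      rcases List.mem_cons.1 hit with rfl | hit
      · exact h3
      · have := hI.1 it hit
        omega
    have p3 : (List.range' (lo l a * b + (min (hi l a * b) w.length - lo l a * b))
        (w.length - hi l a * b)).flatMap (outAt l fx g dec w b (a :: I)) =
        I.flatMap (outIt l fx g dec w b) := by
      rw [← ih (hi l a) hI.2 (fun i hi => hok i (List.mem_cons_of_mem _ hi)) hI.1]
      by_cases h : hi l a * b ≤ w.length
      · have e2 : lo l a * b + (min (hi l a * b) w.length - lo l a * b) = hi l a * b := by omega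
        rw [e2]
        apply flatMap_range'_congr
        intro i h1 _
        have h3 : hi l a ≤ i / b := by
          rw [Nat.le_div_iff_mul_le (by omega)]
          omega
        simp only [outAt, lk_cons h3]
      · have e2 : w.length - hi l a * b = 0 := by omega
        rw [e2]
        simp
    rw [p1, p3, List.nil_append]
    congr 1
    rcases a with β | ⟨s, t⟩
    · -- a raw block
      have e3 : hi l (Sum.inl β : Item Tg) * b = β * b + b := by
        show (β + 1) * b = β * b + b
        ring
      have e4 : lo l (Sum.inl β : Item Tg) * b = β * b := rfl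
      rw [e3, e4]
      rw [e4] at hlob
      rw [flatMap_range'_congr _ (fun i => ((w.map fx)[i]?).toList.map Sum.inl)]
      · rw [flatMap_raw]
        show _ = (((w.map fx).drop (β * b)).take b).map Sum.inl
        congr 1
        apply List.take_eq_take_iff.2
        simp only [List.length_drop, List.length_map]
        omega
      · intro i h1 h2
        apply outAt_inl (β := β)
        apply lk_mem hI0 (by simp)
        · show β ≤ i / b
          rw [Nat.le_div_iff_mul_le (by omega)]
          exact h1
        · show i / b < β + 1
          rw [Nat.div_lt_iff_lt_mul (by omega)]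
          have : (β + 1) * b = β * b + b := by ring
          omega
    · -- a slot
      have e3 : hi l (Sum.inr (s, t) : Item Tg) * b = (s * b) * l + b * l := by
        show (s + 1) * l * b = (s * b) * l + b * l
        ring
      have e4 : lo l (Sum.inr (s, t) : Item Tg) * b = (s * b) * l := by
        show s * l * b = (s * b) * l
        ring
      have h5 : (s * b) * l + b * l ≤ w.length := by
        rw [← e3]
        exact le_trans (Nat.mul_le_mul_right _ hoka) hw1
      have hfind : ∀ i, (s * b) * l ≤ i → i < (s * b + b) * l →
          lk l (Sum.inr (s, t) :: I) (i / b) = some (Sum.inr (s, t)) := by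
        intro i h1 h2
        apply lk_mem hI0 (by simp)
        · rw [Nat.le_div_iff_mul_le (by omega), e4]
          exact h1
        · rw [Nat.div_lt_iff_lt_mul (by omega), e3]
          have : (s * b + b) * l = (s * b) * l + b * l := by ring
          omega
      rw [e3, e4, show min (s * b * l + b * l) w.length - s * b * l = b * l by omega,
        flatMap_groups _ l hl (s * b) b]
      · show _ = ((List.range b).map (fun i => lt l dec (w.map (g t)) (s * b + i))).map
          (fun a => Sum.inr (t, a))
        rw [List.map_map, List.map_eq_flatMap]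
        apply List.flatMap_congr
        intro m hm
        rw [List.mem_range] at hm
        have h6 : (s * b + m) * l + l ≤ (s * b + b) * l := by
          have : (s * b + m) * l + l = (s * b + m + 1) * l := by ring
          rw [this]
          exact Nat.mul_le_mul_right _ (by omega)
        have h7 : (s * b) * l ≤ (s * b + m) * l := Nat.mul_le_mul_right _ (by omega)
        rw [outAt_inr (hfind _ (by omega) (by omega))]
        have e5 : (s * b + m) * l + (l - 1) + 1 = (s * b + m) * l + l := by omega
        rw [e5, if_pos (by
          rw [show (s * b + m) * l + l = l * (s * b + m + 1) by ring]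
          exact Nat.mul_mod_right _ _), show (s * b + m) * l + l - l = (s * b + m) * l by omega]
        rfl
      · intro i h1 h2 h3
        rw [outAt_inr (hfind i h1 h2), if_neg h3]

/-! ### the transducer -/

/-- the transducer: number of marks seen and buffer -/
def dl (K l : ℕ) (mk : X → Bool) (fx : X → A) (g : Tg → X → Bool) (dec : List Bool → Λ)
    (I : List (Item Tg)) (q : ℕ × List Bool) (x : X) :
    (ℕ × List Bool) × Option (A ⊕ (Tg × Λ)) :=
  match lk l I (min (q.1 + if mk x = true then 1 else 0) (K + 2) - 1) with
  | none => ((min (q.1 + if mk x = true then 1 else 0) (K + 2), []), none)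
  | some (Sum.inl _) => ((min (q.1 + if mk x = true then 1 else 0) (K + 2), []),
      some (Sum.inl (fx x)))
  | some (Sum.inr (_, t)) => if q.2.length + 1 = l then
      ((min (q.1 + if mk x = true then 1 else 0) (K + 2), []),
        some (Sum.inr (t, dec (q.2 ++ [g t x])))) else
      ((min (q.1 + if mk x = true then 1 else 0) (K + 2), q.2 ++ [g t x]), none)

/-- the states which are used -/
def ok (K l : ℕ) (q : ℕ × List Bool) : Prop := q.1 < K + 3 ∧ q.2.length < l

theorem ok_dl (K l : ℕ) (hl : 1 ≤ l) (mk : X → Bool) (fx : X → A) (g : Tg → X → Bool)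
    (dec : List Bool → Λ) (I : List (Item Tg)) (q : ℕ × List Bool) (x : X) (h : ok K l q) :
    ok K l (dl K l mk fx g dec I q x).1 := by
  obtain ⟨_, h2⟩ := h
  unfold dl
  split
  · exact ⟨by simp only; omega, by simp only [List.length_nil]; omega⟩
  · exact ⟨by simp only; omega, by simp only [List.length_nil]; omega⟩
  · split
    · exact ⟨by simp only; omega, by simp only [List.length_nil]; omega⟩
    · exact ⟨by simp only; omega, by
        simp only [List.length_append, List.length_singleton]; omega⟩

theorem finite_ok (K l : ℕ) : Finite {q : ℕ × List Bool // ok K l q} := by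
  have h : ({q : ℕ × List Bool | ok K l q}).Finite := by
    have h1 : ({n : ℕ | n < K + 3}).Finite := Set.finite_lt_nat _
    have h2 : ({u : List Bool | u.length < l}).Finite := List.finite_length_lt Bool l
    refine (h1.prod h2).subset ?_
    intro q hq
    exact ⟨hq.1, hq.2⟩
  exact h.to_subtype

/-- the buffer before the letter number `i` is read -/
def buf (l : ℕ) (g : Tg → X → Bool) (w : List X) (b : ℕ) (I : List (Item Tg)) : ℕ → List Bool
  | 0 => []
  | i + 1 => match lk l I (i / b) with
    | some (Sum.inr (_, t)) => ((w.map (g t)).take (i + 1)).drop (i + 1 - (i + 1) % l)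
    | _ => []

theorem buf_eq {l : ℕ} (g : Tg → X → Bool) (w : List X) (b : ℕ) (hb : 1 ≤ b)
    {I : List (Item Tg)} (hI : I.Pairwise (fun i j => hi l i ≤ lo l j)) {i s : ℕ} {t : Tg}
    (h : lk l I (i / b) = some (Sum.inr (s, t))) :
    buf l g w b I i = ((w.map (g t)).take i).drop (i - i % l) := by
  obtain ⟨hm, h1, h2⟩ := lk_some h
  cases i with
  | zero => simp [buf]
  | succ i =>
    by_cases h3 : s * l ≤ i / b
    · have h4 : lk l I (i / b) = some (Sum.inr (s, t)) := by
        apply lk_mem hI hm h3
        refine lt_of_le_of_lt ?_ h2
        exact Nat.div_le_div_right (by omega)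
      simp only [buf, h4]
    · have h5 : i + 1 = s * l * b := by
        have h6 : i < s * l * b := by
          rw [← Nat.div_lt_iff_lt_mul (by omega)]
          omega
        have h7 : s * l * b ≤ i + 1 := by
          have h8 : s * l ≤ (i + 1) / b := h1
          rwa [Nat.le_div_iff_mul_le (by omega)] at h8
        omega
      have h9 : (i + 1) % l = 0 := by
        rw [h5, show s * l * b = l * (s * b) by ring]
        exact Nat.mul_mod_right _ _
      have h10 : ∀ u : List Bool, (u.take (i + 1)).drop (i + 1 - (i + 1) % l) = [] := by
        intro u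
        rw [h9]
        apply List.drop_eq_nil_of_le
        simp
      rw [h10]
      simp only [buf]
      split
      · exact h10 _
      · rfl

theorem count_succ (i b : ℕ) (hb : 1 ≤ b) (y : Bool) (hy : y = decide (b ∣ i)) :
    (i + b - 1) / b + (if y = true then 1 else 0) = i / b + 1 := by
  have h1 : (i + b - 1 + 1) / b = (i + b - 1) / b + if b ∣ i + b - 1 + 1 then 1 else 0 :=
    Nat.succ_div
  have h2 : i + b - 1 + 1 = i + b := by omega
  rw [h2, Nat.add_div_right _ (by omega)] at h1
  have h3 : b ∣ i + b ↔ b ∣ i := by
    rw [Nat.dvd_add_left (dvd_refl b)]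
  rw [h1]
  simp [hy, h3]

theorem run_eq {K l : ℕ} (hl : 1 ≤ l) (mk : X → Bool) (fx : X → A) (g : Tg → X → Bool)
    (dec : List Bool → Λ) {I : List (Item Tg)} (hI : I.Pairwise (fun i j => hi l i ≤ lo l j))
    (w : List X) (b : ℕ) (hw : Mk K b (w.map mk)) :
    ∀ n i : ℕ, i + n = w.length →
      seqOut (dl K l mk fx g dec I) ((i + b - 1) / b, buf l g w b I i) (w.drop i) =
        (List.range' i n).flatMap (outAt l fx g dec w b I) := by
  obtain ⟨hb, hw1, hw2, hw3⟩ := hw
  rw [List.length_map] at hw1 hw2 hw3
  intro n
  induction n with
  | zero =>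
    intro i hi
    rw [List.drop_eq_nil_of_le (by omega)]
    rfl
  | succ n ih =>
    intro i hi
    have hiN : i < w.length := by omega
    rw [List.drop_eq_getElem_cons hiN, List.range'_succ, List.flatMap_cons, ← ih (i + 1) (by omega)]
    have hmk : mk w[i] = decide (b ∣ i) := by
      have h := hw3 i hiN
      rw [List.getElem?_map, List.getElem?_eq_getElem hiN] at h
      simpa using h
    have hcnt := count_succ i b hb (mk w[i]) hmk
    have hlt : i / b < K + 1 := by
      rw [Nat.div_lt_iff_lt_mul (by omega)]
      have : (K + 1) * b = K * b + b := by ring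
      omega
    have hj : min ((i + b - 1) / b + if mk w[i] = true then 1 else 0) (K + 2) = i / b + 1 := by
      rw [hcnt]
      omega
    have hj2 : (i + 1 + b - 1) / b = i / b + 1 := by
      rw [show i + 1 + b - 1 = i + b by omega, Nat.add_div_right _ (by omega)]
    have key : dl K l mk fx g dec I ((i + b - 1) / b, buf l g w b I i) w[i] =
        ((i / b + 1, buf l g w b I (i + 1)), (outAt l fx g dec w b I i).head?) ∧
        (outAt l fx g dec w b I i).length ≤ 1 := by
      unfold dl
      simp only [hj, Nat.add_sub_cancel]
      rcases hlk : lk l I (i / b) with _ | (β | ⟨s, t⟩)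
      · rw [outAt_none hlk]
        simp only [buf, hlk]
        simp
      · rw [outAt_inl hlk]
        simp only [buf, hlk]
        simp [hiN]
      · rw [outAt_inr hlk]
        have hbuf := buf_eq g w b hb hI hlk
        have hlen : (buf l g w b I i).length = i % l := by
          rw [hbuf]
          simp only [List.length_drop, List.length_take, List.length_map]
          have := Nat.mod_le i l
          omega
        have happ : buf l g w b I i ++ [g t w[i]] =
            ((w.map (g t)).take (i + 1)).drop (i - i % l) := by
          rw [hbuf, List.take_succ_eq_append_getElem (by simpa using hiN),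
            List.drop_append_of_le_length]
          · simp
          · simp only [List.length_take, List.length_map]
            omega
        have hb1 : buf l g w b I (i + 1) =
            ((w.map (g t)).take (i + 1)).drop (i + 1 - (i + 1) % l) := by
          simp only [buf, hlk]
        simp only [hlen, happ, hb1]
        by_cases hc : i % l + 1 = l
        · have hc0 : (i + 1) % l = 0 := by
            rw [Nat.add_mod, ← Nat.add_mod, ← Nat.mod_add_mod, hc, Nat.mod_self]
          have hge : i % l ≤ i := Nat.mod_le i l
          rw [if_pos hc, if_pos hc0, hc0]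
          refine ⟨?_, by simp⟩
          have e1 : i - i % l = i + 1 - l := by omega
          have e2 : i + 1 - (i + 1 - l) = l := by omega
          rw [e1, List.drop_take, e2]
          simp
        · have hlt2 : i % l < l := Nat.mod_lt _ (by omega)
          have hc1 : (i + 1) % l = i % l + 1 := by
            rw [← Nat.mod_add_mod, Nat.mod_eq_of_lt (by omega)]
          rw [if_neg hc, if_neg (by omega), hc1]
          have e1 : i + 1 - (i % l + 1) = i - i % l := by omega
          rw [e1]
          simp
    have hout : ((outAt l fx g dec w b I i).head?).toList = outAt l fx g dec w b I i := by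
      rcases h : outAt l fx g dec w b I i with _ | ⟨y, ys⟩
      · rfl
      · have h2 := key.2
        rw [h] at h2
        simp only [List.length_cons] at h2
        have : ys = [] := List.eq_nil_of_length_eq_zero (by omega)
        rw [this]
        rfl
    show (dl K l mk fx g dec I ((i + b - 1) / b, buf l g w b I i) w[i]).2.toList ++
      seqOut _ (dl K l mk fx g dec I ((i + b - 1) / b, buf l g w b I i) w[i]).1 _ = _
    rw [key.1, hj2]
    simp only [hout]

end Scan_aux

open Scan_aux in
/-- SCANNING -/
theorem tScan : S_Scan := by
  intro X A Tg Λ K l mk fx g dec I hl hI hok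
  refine ⟨{q : ℕ × List Bool // ok K l q}, finite_ok K l,
    restr (dl K l mk fx g dec I) (ok K l) (fun q x h => ok_dl K l hl mk fx g dec I q x h),
    ⟨(0, []), by constructor <;> simp <;> omega⟩, ?_⟩
  intro w b hw
  rw [restr_out]
  have h1 := run_eq hl mk fx g dec hI w b hw w.length 0 (by omega)
  obtain ⟨hb, hw1, hw2, _⟩ := hw
  rw [List.length_map] at hw1 hw2
  have h2 := flatMap_outAt hl fx g dec w b hb hw1 hw2 I 0 hI hok (fun _ _ => Nat.zero_le _)
  have h3 : (0 + b - 1) / b = 0 := Nat.div_eq_of_lt (by omega)
  rw [h3, List.drop_zero] at h1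
  rw [Nat.zero_mul, Nat.sub_zero] at h2
  rw [← h2, ← h1]
  rfl

end MPdee884H3
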