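import Pool.Agent.Lib.MP_dee884_lc.H3.Spec

namespace MPdee884H3

open MPdee884H1 MPdee884H2 Pool.Agent.Lin

namespace Seg_aux

/-- the bounds -/
def rr (m D : ℕ) : ℕ → ℕ
  | 0 => 1
  | i + 1 => 16 * D * (2 * m * D * (16 * m * D + 1) ^ (rr m D i))

theorem rr_succ (m D i : ℕ) :
    rr m D (i + 1) = 16 * D * (2 * m * D * (16 * m * D + 1) ^ (rr m D i)) := rfl

theorem rr_pos {m D : ℕ} (hm : 1 ≤ m) (hD : 1 ≤ D) (i : ℕ) : 1 ≤ rr m D i := by
  cases i with
  | zero => exact le_rfl
  | succ i =>
    rw [rr_succ]
    have : 0 < (16 * m * D + 1) ^ (rr m D i) := by positivity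
    have h2 : 0 < 16 * D * (2 * m * D * (16 * m * D + 1) ^ (rr m D i)) := by positivity
    exact h2

theorem rr_le {m D : ℕ} (hm : 1 ≤ m) (hD : 1 ≤ D) (i : ℕ) : rr m D i ≤ rr m D (i + 1) := by
  rw [rr_succ]
  have h1 : rr m D i ≤ (16 * m * D + 1) ^ (rr m D i) := by
    refine (Nat.lt_pow_self ?_).le
    have : 0 < 16 * m * D := by positivity
    omega
  have h2 : 1 ≤ 16 * D * (2 * m * D) := by
    have : 0 < 16 * D * (2 * m * D) := by positivity
    exact this
  calc rr m D i ≤ (16 * m * D + 1) ^ (rr m D i) := h1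
    _ = 1 * (16 * m * D + 1) ^ (rr m D i) := (one_mul _).symm
    _ ≤ (16 * D * (2 * m * D)) * (16 * m * D + 1) ^ (rr m D i) := Nat.mul_le_mul_right _ h2
    _ = _ := by ring

theorem rr_mono {m D : ℕ} (hm : 1 ≤ m) (hD : 1 ≤ D) : Monotone (rr m D) :=
  monotone_nat_of_le_succ (rr_le hm hD)

/-- pigeonhole for the lengths -/
theorem pick {m N s : ℕ} (hs : 1 ≤ s) (E : Fin m → ℕ → ℕ → Prop)
    (h1 : ∀ i u w, E i u w → u < w ∧ w < N) (h2 : ∀ i u u' w, E i u w → E i u' w → u = u')
    (b : ℕ → ℕ) (hb : ∀ i j, i ≤ j → b j ≤ b i) :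
    ∃ j < s, ∃ T : Finset (Fin m × ℕ),
      (∀ p, p ∈ T ↔ ∃ u, E p.1 u p.2 ∧ b (j + 1) < p.2 - u ∧ p.2 - u ≤ b j) ∧
      s * T.card ≤ m * N := by
  classical
  let T : ℕ → Finset (Fin m × ℕ) := fun j =>
    ((Finset.univ : Finset (Fin m)) ×ˢ Finset.range N).filter
      (fun p => ∃ u, E p.1 u p.2 ∧ b (j + 1) < p.2 - u ∧ p.2 - u ≤ b j)
  have hT : ∀ j p, p ∈ T j ↔ ∃ u, E p.1 u p.2 ∧ b (j + 1) < p.2 - u ∧ p.2 - u ≤ b j := by
    intro j p
    simp only [T, Finset.mem_filter, Finset.mem_product, Finset.mem_univ, Finset.mem_range,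
      true_and]
    constructor
    · exact fun h => h.2
    · rintro ⟨u, hu, h3⟩
      exact ⟨(h1 _ _ _ hu).2, u, hu, h3⟩
  have hdis : ∀ i ∈ Finset.range s, ∀ j ∈ Finset.range s, i ≠ j → Disjoint (T i) (T j) := by
    have key : ∀ i j, i < j → Disjoint (T i) (T j) := by
      intro i j hij
      rw [Finset.disjoint_left]
      intro p hp hq
      obtain ⟨u, hu, a1, a2⟩ := (hT i p).1 hp
      obtain ⟨u', hu', a3, a4⟩ := (hT j p).1 hq
      have := h2 _ _ _ _ hu hu'
      subst this
      have := hb (i + 1) j hij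
      omega
    intro i _ j _ hij
    rcases Nat.lt_or_gt_of_ne hij with h | h
    · exact key i j h
    · exact (key j i h).symm
  have hsum : ∑ j ∈ Finset.range s, (T j).card ≤ m * N := by
    rw [← Finset.card_biUnion hdis]
    refine (Finset.card_le_card (t := (Finset.univ : Finset (Fin m)) ×ˢ Finset.range N) ?_).trans
      ?_
    · intro p hp
      rw [Finset.mem_biUnion] at hp
      obtain ⟨j, _, hj⟩ := hp
      exact (Finset.mem_filter.1 hj).1
    · rw [Finset.card_product, Finset.card_univ, Fintype.card_fin, Finset.card_range]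
  by_contra hcon
  push Not at hcon
  have h3 : ∀ j ∈ Finset.range s, m * N + 1 ≤ s * (T j).card := by
    intro j hj
    have := hcon j (Finset.mem_range.1 hj) (T j) (hT j)
    omega
  have h4 := Finset.sum_le_sum h3
  rw [Finset.sum_const, Finset.card_range, smul_eq_mul, ← Finset.mul_sum] at h4
  have h5 := Nat.mul_le_mul_left s hsum
  have h6 : s * (m * N + 1) ≤ s * (m * N) := h4.trans h5
  have h7 := Nat.le_of_mul_le_mul_left h6 hs
  omega

/-- positions with a small residue -/
theorem card_res (N B c : ℕ) :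
    ((Finset.range N).filter (fun w => w % B < c)).card ≤ (N / B + 1) * c := by
  have h1 : ((Finset.range N).filter (fun w => w % B < c)) ⊆
      (Finset.range (N / B + 1) ×ˢ Finset.range c).image (fun p => B * p.1 + p.2) := by
    intro w hw
    rw [Finset.mem_filter, Finset.mem_range] at hw
    rw [Finset.mem_image]
    refine ⟨(w / B, w % B), ?_, Nat.div_add_mod w B⟩
    rw [Finset.mem_product, Finset.mem_range, Finset.mem_range]
    exact ⟨Nat.lt_succ_of_le (Nat.div_le_div_right hw.1.le), hw.2⟩
  refine (Finset.card_le_card h1).trans (Finset.card_image_le.trans ?_)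
  rw [Finset.card_product, Finset.card_range, Finset.card_range]

/-- intervals with many predecessors -/
theorem card_many {N B G : ℕ} (hB : 1 ≤ B) (P : Finset (ℕ × ℕ)) :
    G * ((Finset.range N).filter
      (fun w => G < (P.filter (fun p => p.2 = w / B)).card)).card ≤ B * P.card := by
  classical
  set I := (P.image Prod.snd).filter (fun y => G < (P.filter (fun p => p.2 = y)).card) with hI
  have h1 : ((Finset.range N).filter
      (fun w => G < (P.filter (fun p => p.2 = w / B)).card)) ⊆
      (I ×ˢ Finset.range B).image (fun p => B * p.1 + p.2) := by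
    intro w hw
    rw [Finset.mem_filter] at hw
    rw [Finset.mem_image]
    refine ⟨(w / B, w % B), ?_, Nat.div_add_mod w B⟩
    rw [Finset.mem_product, Finset.mem_range, hI, Finset.mem_filter]
    refine ⟨⟨?_, hw.2⟩, Nat.mod_lt _ hB⟩
    have h2 : 0 < (P.filter (fun p => p.2 = w / B)).card := by
      have := hw.2
      omega
    obtain ⟨p, hp⟩ := Finset.card_pos.1 h2
    rw [Finset.mem_filter] at hp
    exact Finset.mem_image.2 ⟨p, hp.1, hp.2⟩
  have h2 := (Finset.card_le_card h1).trans Finset.card_image_le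
  rw [Finset.card_product, Finset.card_range] at h2
  have h3 : G * I.card ≤ P.card := by
    have e1 : P.card = ∑ y ∈ P.image Prod.snd, (P.filter (fun p => p.2 = y)).card :=
      Finset.card_eq_sum_card_fiberwise (fun x hx => Finset.mem_image_of_mem _ hx)
    rw [e1]
    have e2 : ∑ y ∈ I, (P.filter (fun p => p.2 = y)).card ≤
        ∑ y ∈ P.image Prod.snd, (P.filter (fun p => p.2 = y)).card :=
      Finset.sum_le_sum_of_subset (Finset.filter_subset _ _)
    refine le_trans ?_ e2
    have e3 : ∑ _y ∈ I, G ≤ ∑ y ∈ I, (P.filter (fun p => p.2 = y)).card := by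
      refine Finset.sum_le_sum (fun y hy => ?_)
      exact (Finset.mem_filter.1 hy).2.le
    rw [Finset.sum_const, smul_eq_mul, mul_comm] at e3
    exact e3
  calc G * _ ≤ G * (I.card * B) := Nat.mul_le_mul_left G h2
    _ = B * (G * I.card) := by ring
    _ ≤ B * P.card := Nat.mul_le_mul_left B h3

theorem zero_case (D : ℕ) (E : Fin 0 → ℕ → ℕ → Prop) (N : ℕ) (hN : D ≤ N) :
    ∃ J : Finset ℕ, (∀ u ∈ J, u < N) ∧ D * J.card ≤ N ∧ ∀ v, v < N →
    ∃ A : Finset ℕ, (∀ u, u ∈ A ↔ Anc (fun u w => ∃ i, E i u w) J v u) ∧ D * A.card ≤ N := by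
  refine ⟨∅, by simp, by simp, ?_⟩
  intro v _
  refine ⟨{v}, ?_, by simpa using hN⟩
  intro u
  rw [Finset.mem_singleton]
  constructor
  · rintro rfl
    exact Anc.self
  · intro h
    cases h with
    | self => rfl
    | step u w _ h2 _ =>
      obtain ⟨i, _⟩ := h2
      exact i.elim0

end Seg_aux

open Seg_aux in
theorem tSeg : S_Prs → S_Rch → S_Seg := by
  classical
  intro hPrs hRch m D hD
  rcases Nat.eq_zero_or_pos m with hm | hm
  · subst hm
    exact ⟨D, fun N hN E _ _ _ => zero_case D E N hN⟩
  · refine ⟨2 * rr m D (4 * m * D), ?_⟩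
    intro N hN E hE1 hE2 hE3
    have hs : 1 ≤ 4 * m * D := by
      have : 0 < 4 * m * D := by positivity
      exact this
    obtain ⟨j, hj, T, hT, hTc⟩ := pick hs E hE1 hE2 (fun i => N / rr m D i)
      (fun i j hij => Nat.div_le_div_left (rr_mono hm hD hij) (rr_pos hm hD i))
    set G := 16 * m * D with hG
    set r := rr m D j with hr
    set R := 2 * m * D * (G + 1) ^ r with hR
    have hr1 : 1 ≤ r := rr_pos hm hD j
    have hRpos : 0 < R := by positivity
    have hsucc : rr m D (j + 1) = 16 * D * R := rfl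
    have hRN : R ≤ N := by
      have h1 : rr m D (j + 1) ≤ rr m D (4 * m * D) := rr_mono hm hD hj
      have h2 : R ≤ 16 * D * R := Nat.le_mul_of_pos_left R (by positivity)
      omega
    rw [hsucc] at hT
    set B := N / R with hB
    have hB1 : 1 ≤ B := Nat.div_pos hRN hRpos
    have hRB : R * B ≤ N := Nat.mul_div_le N R
    have hNlt : N < R * (B + 1) := Nat.lt_mul_div_succ N hRpos
    have hBN : B ≤ N := Nat.div_le_self N R
    have hq1 : 1 ≤ N / B := Nat.div_pos hBN hB1
    have hq2 : N / B + 1 ≤ 2 * R := by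
      have : N / B < 2 * R := by
        rw [Nat.div_lt_iff_lt_mul hB1]
        nlinarith
      omega
    -- the pairs of intervals
    have hP : ∀ i : Fin m, ∃ P : Finset (ℕ × ℕ),
        (∀ p, p ∈ P ↔ p.1 < p.2 ∧ ∃ u w, E i u w ∧ u / B = p.1 ∧ w / B = p.2) ∧
        P.card ≤ 2 * (N / B + 1) := by
      intro i
      refine hPrs B N (N / B + 1) hB1 ?_ (E i) (hE1 i) (hE3 i)
      rw [mul_comm]
      exact (Nat.lt_mul_div_succ N hB1).le
    choose P hP1 hP2 using hP
    set PP := (Finset.univ : Finset (Fin m)).biUnion P with hPP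
    have hPPc : PP.card ≤ m * (2 * (N / B + 1)) := by
      refine (Finset.card_biUnion_le).trans ?_
      refine (Finset.sum_le_card_nsmul _ _ _ (fun i _ => hP2 i)).trans ?_
      rw [Finset.card_univ, Fintype.card_fin, smul_eq_mul]
    set c := N / (16 * D * R) with hc
    set J1 := T.image Prod.snd with hJ1
    set J2 := (Finset.range N).filter (fun w => w % B < c) with hJ2
    set J3 := (Finset.range N).filter
      (fun w => G < (PP.filter (fun p => p.2 = w / B)).card) with hJ3
    have hJ1c : 4 * D * J1.card ≤ N := by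
      have h1 : J1.card ≤ T.card := Finset.card_image_le
      have h2 : m * (4 * D * T.card) ≤ m * N := by
        calc m * (4 * D * T.card) = 4 * m * D * T.card := by ring
          _ ≤ m * N := hTc
      have h3 := Nat.le_of_mul_le_mul_left h2 hm
      exact (Nat.mul_le_mul_left _ h1).trans h3
    have hJ2c : 4 * D * J2.card ≤ N := by
      have h1 : J2.card ≤ (N / B + 1) * c := card_res N B c
      have h2 : J2.card ≤ 2 * R * c := h1.trans (Nat.mul_le_mul_right c hq2)
      calc 4 * D * J2.card ≤ 4 * D * (2 * R * c) := Nat.mul_le_mul_left _ h2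
        _ = 8 * D * R * c := by ring
        _ ≤ 16 * D * R * c := by
            refine Nat.mul_le_mul_right c ?_
            nlinarith [Nat.zero_le (D * R)]
        _ ≤ N := Nat.mul_div_le N _
    have hJ3c : 4 * D * J3.card ≤ N := by
      have h1 : G * J3.card ≤ B * PP.card := card_many hB1 PP
      have h2 : G * J3.card ≤ B * (m * (2 * (N / B + 1))) :=
        h1.trans (Nat.mul_le_mul_left B hPPc)
      have h3 : N / B + 1 ≤ 2 * (N / B) := by omega
      have h4 : B * (N / B) ≤ N := Nat.mul_div_le N B
      have h5 : (4 * m) * (4 * D * J3.card) ≤ (4 * m) * N := by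
        calc (4 * m) * (4 * D * J3.card) = G * J3.card := by rw [hG]; ring
          _ ≤ B * (m * (2 * (N / B + 1))) := h2
          _ ≤ B * (m * (2 * (2 * (N / B)))) :=
              Nat.mul_le_mul_left B (Nat.mul_le_mul_left m (Nat.mul_le_mul_left 2 h3))
          _ = (4 * m) * (B * (N / B)) := by ring
          _ ≤ (4 * m) * N := Nat.mul_le_mul_left _ h4
      exact Nat.le_of_mul_le_mul_left h5 (by positivity)
    refine ⟨J1 ∪ J2 ∪ J3, ?_, ?_, ?_⟩
    · intro u hu
      rw [Finset.mem_union, Finset.mem_union] at hu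
      rcases hu with (hu | hu) | hu
      · obtain ⟨p, hp, rfl⟩ := Finset.mem_image.1 hu
        obtain ⟨u', hu', _⟩ := (hT p).1 hp
        exact (hE1 _ _ _ hu').2
      · exact Finset.mem_range.1 (Finset.mem_filter.1 hu).1
      · exact Finset.mem_range.1 (Finset.mem_filter.1 hu).1
    · have h1 : (J1 ∪ J2 ∪ J3).card ≤ J1.card + J2.card + J3.card :=
        (Finset.card_union_le _ _).trans (Nat.add_le_add_right (Finset.card_union_le _ _) _)
      have h2 := Nat.mul_le_mul_left (4 * D) h1
      rw [Nat.mul_add, Nat.mul_add] at h2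
      have h3 : 4 * (D * (J1 ∪ J2 ∪ J3).card) ≤ 3 * N := by
        calc 4 * (D * (J1 ∪ J2 ∪ J3).card) = 4 * D * (J1 ∪ J2 ∪ J3).card := by ring
          _ ≤ _ := h2
          _ ≤ 3 * N := by omega
      omega
    · -- ancestors
      set J := J1 ∪ J2 ∪ J3 with hJ
      set E' : ℕ → ℕ → Prop := fun u w => (∃ i, E i u w) ∧ u ∉ J ∧ w ∉ J with hE'
      set Pd : ℕ → Finset ℕ := fun y =>
        if (PP.filter (fun p => p.2 = y)).card ≤ G then
          (PP.filter (fun p => p.2 = y)).image Prod.fst else ∅ with hPd
      have hPdc : ∀ y, (Pd y).card ≤ G := by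
        intro y
        simp only [hPd]
        split_ifs with h
        · exact Finset.card_image_le.trans h
        · simp
      have hrch := hRch B N (N / r + 1) G hB1 (Nat.succ_pos _) E' Pd hPdc
        (fun u w h => by
          obtain ⟨⟨i, hi⟩, _⟩ := h
          exact hE1 i u w hi)
        (by
          rintro u w ⟨⟨i, hi⟩, _, hw⟩
          rw [hJ, Finset.mem_union, Finset.mem_union, not_or, not_or] at hw
          obtain ⟨⟨hw1, hw2⟩, hw3⟩ := hw
          obtain ⟨huw, hwN⟩ := hE1 i u w hi
          by_cases heq : u / B = w / B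
          · exact Or.inl heq
          · right
            have hlt : u / B < w / B :=
              lt_of_le_of_ne (Nat.div_le_div_right huw.le) heq
            constructor
            · by_contra hcon
              have h1 : w - u ≤ N / r := by omega
              have h2 : ¬ (c < w - u) := by
                intro h2
                apply hw1
                rw [hJ1, Finset.mem_image]
                exact ⟨(i, w), (hT (i, w)).2 ⟨u, hi, h2, h1⟩, rfl⟩
              apply heq
              have h3 : c ≤ w % B := by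
                by_contra h3
                exact hw2 (Finset.mem_filter.2 ⟨Finset.mem_range.2 hwN, by omega⟩)
              have h4 : B * (w / B) + w % B = w := Nat.div_add_mod w B
              have h5 : B * (w / B) ≤ u := by omega
              have h6 : w / B ≤ u / B := by
                rw [Nat.le_div_iff_mul_le hB1, mul_comm]
                exact h5
              omega
            · have h1 : (PP.filter (fun p => p.2 = w / B)).card ≤ G := by
                by_contra h1
                exact hw3 (Finset.mem_filter.2 ⟨Finset.mem_range.2 hwN, by omega⟩)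
              simp only [hPd]
              rw [if_pos h1, Finset.mem_image]
              refine ⟨(u / B, w / B), ?_, rfl⟩
              rw [Finset.mem_filter]
              refine ⟨?_, rfl⟩
              rw [hPP, Finset.mem_biUnion]
              exact ⟨i, Finset.mem_univ i, (hP1 i _).2 ⟨hlt, u, w, hi, rfl, rfl⟩⟩)
      intro v hv
      have hAex : ∀ i : Fin m, ∃ A : Finset ℕ, (∀ u0, E i u0 v → ∀ u,
          Relation.ReflTransGen E' u u0 → u ∈ A) ∧ A.card ≤ B * (G + 1) ^ r := by
        intro i
        by_cases h : ∃ u0, E i u0 v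
        · obtain ⟨u0, hu0⟩ := h
          obtain ⟨A, hA1, hA2⟩ := hrch u0 ((hE1 i u0 v hu0).1.trans hv)
          refine ⟨A, ?_, hA2.trans ?_⟩
          · intro u1 hu1 u hu
            have := hE2 i u0 u1 v hu0 hu1
            subst this
            exact (hA1 u).2 hu
          · refine Nat.mul_le_mul_left B (Nat.pow_le_pow_right (Nat.succ_pos _) ?_)
            have : N / (N / r + 1) < r := by
              rw [Nat.div_lt_iff_lt_mul (Nat.succ_pos _)]
              exact Nat.lt_mul_div_succ N hr1
            exact this.le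
        · exact ⟨∅, fun u0 hu0 => absurd ⟨u0, hu0⟩ h, by simp⟩
      choose A hA1 hA2 using hAex
      set AA := insert v ((Finset.univ : Finset (Fin m)).biUnion A) with hAA
      refine ⟨AA.filter (fun u => Anc (fun u w => ∃ i, E i u w) J v u), ?_, ?_⟩
      · intro u
        rw [Finset.mem_filter]
        refine ⟨fun h => h.2, fun h => ⟨?_, h⟩⟩
        have key : u = v ∨ (u ∉ J ∧ ∃ i u0, E i u0 v ∧ Relation.ReflTransGen E' u u0) := by
          induction h with
          | self => exact Or.inl rfl
          | step u w _ h2 h3 ih =>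
            right
            refine ⟨h3, ?_⟩
            rcases ih with rfl | ⟨hw, i, u0, hu0, h4⟩
            · obtain ⟨i, hi⟩ := h2
              exact ⟨i, u, hi, Relation.ReflTransGen.refl⟩
            · exact ⟨i, u0, hu0, Relation.ReflTransGen.head ⟨h2, h3, hw⟩ h4⟩
        rw [hAA, Finset.mem_insert]
        rcases key with rfl | ⟨_, i, u0, hu0, h4⟩
        · exact Or.inl rfl
        · exact Or.inr (Finset.mem_biUnion.2 ⟨i, Finset.mem_univ i, hA1 i u0 hu0 u h4⟩)
      · have h1 : AA.card ≤ m * (B * (G + 1) ^ r) + 1 := by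
          refine (Finset.card_insert_le _ _).trans (Nat.add_le_add_right ?_ 1)
          refine (Finset.card_biUnion_le).trans ?_
          refine (Finset.sum_le_card_nsmul _ _ _ (fun i _ => hA2 i)).trans ?_
          rw [Finset.card_univ, Fintype.card_fin, smul_eq_mul]
        have h2 : 1 ≤ m * (B * (G + 1) ^ r) := by
          have : 0 < m * (B * (G + 1) ^ r) := by positivity
          exact this
        have h3 : AA.card ≤ 2 * (m * (B * (G + 1) ^ r)) := by omega
        calc D * _ ≤ D * AA.card := Nat.mul_le_mul_left D (Finset.card_filter_le _ _)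
          _ ≤ D * (2 * (m * (B * (G + 1) ^ r))) := Nat.mul_le_mul_left D h3
          _ = R * B := by rw [hR]; ring
          _ ≤ N := hRB

end MPdee884H3
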