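import Pool.Agent.Lib.MP_dee884_lc.H3.Spec

namespace MPdee884H3

open MPdee884H1 MPdee884H2 Pool.Agent.Lin

namespace Sep_aux

/-- the three kinds of edges for one head -/
def pg (N : ℕ) (g : ℕ → ℤ) (c : Fin 3) (u w : ℕ) : Prop :=
  w < N ∧ u < w ∧ ((c = 0 ∧ u + 1 = w) ∨
    (c = 1 ∧ g u = g w ∧ ∀ t, u < t → t < w → g w < g t) ∨
    (c = 2 ∧ g u = g w ∧ ∀ t, u < t → t < w → g t < g w))

theorem pg_fun {N : ℕ} {g : ℕ → ℤ} {c : Fin 3} {u u' w : ℕ} (h : pg N g c u w)
    (h' : pg N g c u' w) : u = u' := by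
  obtain ⟨h1, h2, h3⟩ := h
  obtain ⟨h1', h2', h3'⟩ := h'
  rcases h3 with ⟨rfl, h3⟩ | ⟨rfl, h3, h4⟩ | ⟨rfl, h3, h4⟩
  · rcases h3' with ⟨_, h3'⟩ | ⟨h, _⟩ | ⟨h, _⟩
    · omega
    · exact absurd h (by decide)
    · exact absurd h (by decide)
  · rcases h3' with ⟨h, _⟩ | ⟨_, h3', h4'⟩ | ⟨h, _⟩
    · exact absurd h (by decide)
    · rcases lt_trichotomy u u' with h | h | h
      · have := h4 u' h h2'
        omega
      · exact h
      · have := h4' u h h2
        omega
    · exact absurd h (by decide)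
  · rcases h3' with ⟨h, _⟩ | ⟨h, _⟩ | ⟨_, h3', h4'⟩
    · exact absurd h (by decide)
    · exact absurd h (by decide)
    · rcases lt_trichotomy u u' with h | h | h
      · have := h4 u' h h2'
        omega
      · exact h
      · have := h4' u h h2
        omega

theorem pg_cross {N : ℕ} {g : ℕ → ℤ} {c : Fin 3} {u w u' w' : ℕ} (h : pg N g c u w)
    (h' : pg N g c u' w') (a1 : u' < u) (a2 : u < w') : ¬ w' < w := by
  intro a3
  obtain ⟨h1, h2, h3⟩ := h
  obtain ⟨h1', h2', h3'⟩ := h'
  rcases h3 with ⟨rfl, h3⟩ | ⟨rfl, h3, h4⟩ | ⟨rfl, h3, h4⟩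
  · omega
  · rcases h3' with ⟨h, _⟩ | ⟨_, h3', h4'⟩ | ⟨h, _⟩
    · exact absurd h (by decide)
    · have e1 := h4 w' a2 a3
      have e2 := h4' u a1 a2
      omega
    · exact absurd h (by decide)
  · rcases h3' with ⟨h, _⟩ | ⟨h, _⟩ | ⟨_, h3', h4'⟩
    · exact absurd h (by decide)
    · exact absurd h (by decide)
    · have e1 := h4 w' a2 a3
      have e2 := h4' u a1 a2
      omega

theorem edge {N : ℕ} {g : ℕ → ℤ} (hg : ∀ w, w + 1 < N → |g (w + 1) - g w| ≤ 1) {e : Fin 3}
    {u w : ℕ} (hw : w < N) (h : IsPr g (sh (g w) e) u w) : ∃ c, pg N g c u w := by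
  obtain ⟨h1, h2, h3⟩ := h
  by_cases h4 : u + 1 = w
  · exact ⟨0, hw, h1, Or.inl ⟨rfl, h4⟩⟩
  · have h2' := abs_le.1 h2
    have hlast := le_abs.1 (h3 (w - 1) (by omega) (by omega))
    have hst := abs_le.1 (hg (w - 1) (by omega))
    rw [Nat.sub_add_cancel (by omega : 1 ≤ w)] at hst
    have he := e.2
    simp only [sh] at *
    by_cases h5 : e.1 = 0
    · rw [h5] at h2' hlast h3
      push_cast at h2' hlast h3
      have key : ∀ d t : ℕ, t + d + 1 = w → u < t → g w + 1 ≤ g t := by
        intro d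
        induction d with
        | zero =>
          intro t ht _
          have : t = w - 1 := by omega
          subst this
          omega
        | succ d ih =>
          intro t ht hu
          have i1 := ih (t + 1) (by omega) (by omega)
          have i2 := abs_le.1 (hg t (by omega))
          have i3 := le_abs.1 (h3 t hu (by omega))
          omega
      have h6 := key (w - (u + 1) - 1) (u + 1) (by omega) (by omega)
      have h7 := abs_le.1 (hg u (by omega))
      refine ⟨1, hw, h1, Or.inr (Or.inl ⟨rfl, by omega, fun t ht1 ht2 => ?_⟩)⟩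
      have := key (w - t - 1) t (by omega) ht1
      omega
    · by_cases h6 : e.1 = 1
      · rw [h6] at h2' hlast h3
        push_cast at h2' hlast h3
        omega
      · have h7 : e.1 = 2 := by omega
        rw [h7] at h2' hlast h3
        push_cast at h2' hlast h3
        have key : ∀ d t : ℕ, t + d + 1 = w → u < t → g t + 1 ≤ g w := by
          intro d
          induction d with
          | zero =>
            intro t ht _
            have : t = w - 1 := by omega
            subst this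
            omega
          | succ d ih =>
            intro t ht hu
            have i1 := ih (t + 1) (by omega) (by omega)
            have i2 := abs_le.1 (hg t (by omega))
            have i3 := le_abs.1 (h3 t hu (by omega))
            omega
        have h8 := key (w - (u + 1) - 1) (u + 1) (by omega) (by omega)
        have h9 := abs_le.1 (hg u (by omega))
        refine ⟨2, hw, h1, Or.inr (Or.inr ⟨rfl, by omega, fun t ht1 ht2 => ?_⟩)⟩
        have := key (w - t - 1) t (by omega) ht1
        omega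

end Sep_aux

theorem tSep : S_Seg → S_Sep := by
  classical
  intro hSeg κ D hD
  obtain ⟨N0, hN0⟩ := hSeg (κ * 3) D hD
  refine ⟨N0, ?_⟩
  intro N hN K _ hK h hh
  have hc : Nat.card (K × Fin 3) = κ * 3 := by
    rw [Nat.card_prod, hK, Nat.card_fin]
  let e := Finite.equivFinOfCardEq hc
  obtain ⟨J, hJ1, hJ2, hJ3⟩ := hN0 N hN
    (fun i u w => Sep_aux.pg N (h (e.symm i).1) (e.symm i).2 u w)
    (fun i u w hi => ⟨hi.2.1, hi.1⟩) (fun i u u' w h1 h2 => Sep_aux.pg_fun h1 h2)
    (fun i u w u' w' h1 h2 h3 h4 => Sep_aux.pg_cross h1 h2 h3 h4)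
  refine ⟨J, hJ1, hJ2, ?_⟩
  intro v hv
  obtain ⟨A, hA1, hA2⟩ := hJ3 v hv
  have hsub : ∀ u, Anc (Ed h) J v u → u < N ∧
      Anc (fun u w => ∃ i, Sep_aux.pg N (h (e.symm i).1) (e.symm i).2 u w) J v u := by
    intro u hu
    induction hu with
    | self => exact ⟨hv, Anc.self⟩
    | step u w _ h2 h3 ih =>
      obtain ⟨k, c, hkc⟩ := h2
      refine ⟨lt_trans hkc.1 ih.1, Anc.step u w ih.2 ?_ h3⟩
      obtain ⟨c', hc'⟩ := Sep_aux.edge (hh k) ih.1 hkc
      refine ⟨e (k, c'), ?_⟩
      simpa using hc'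
  refine ⟨A.filter (fun u => Anc (Ed h) J v u), ?_, ?_⟩
  · intro u
    rw [Finset.mem_filter, hA1]
    exact ⟨fun h => h.2, fun h => ⟨(hsub u h).2, h⟩⟩
  · exact (Nat.mul_le_mul_left D (Finset.card_filter_le _ _)).trans hA2

end MPdee884H3
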