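import Pool.Agent.Lib.MP_dee884_lc.H3.Spec3

/-! # MP_dee884_lc, H3: intersections and unions of the classes `Σ_j(k)` with `LINTIME` -/

namespace MPdee884H3

open MPdee884H1 MPdee884H2 Pool.Agent.Lin

theorem tSgCap : S_SgCap := by
  intro k j hk
  induction j with
  | zero =>
    intro A _ X V hV hX
    exact ⟨LINTIME.inter hX hV, LINTIME.union hX hV⟩
  | succ j ih =>
    intro A _ X V hV hX
    obtain ⟨M, hM, rfl⟩ := hX
    have hV1 : LINTIME {v : List (A × Fin k) | v.map Prod.fst ∈ V} := by
      have h1 := lin_inv (fun p : A × Fin k => [p.1]) hV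
      have h2 : {v : List (A × Fin k) | v.map Prod.fst ∈ V} =
          {u | u.flatMap (fun p : A × Fin k => [p.1]) ∈ V} := by
        ext v
        rw [Set.mem_ofPred_eq, Set.mem_ofPred_eq, flatMap_single]
      rw [h2]
      exact h1
    have h3 := ih (A := A × Fin k) M _ hV1.compl hM
    refine ⟨⟨_, h3.2, ?_⟩, ⟨_, h3.1, ?_⟩⟩
    · ext x
      constructor
      · rintro ⟨⟨v, hv, hvM⟩, hxV⟩
        refine ⟨v, hv, ?_⟩
        rintro (h | h)
        · exact hvM h
        · exact h (by rw [Set.mem_ofPred_eq, hv]; exact hxV)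
      · rintro ⟨v, hv, hvM⟩
        refine ⟨⟨v, hv, fun h => hvM (Or.inl h)⟩, ?_⟩
        by_contra h
        refine hvM (Or.inr fun h1 => h ?_)
        rw [Set.mem_ofPred_eq, hv] at h1
        exact h1
    · ext x
      constructor
      · rintro (⟨v, hv, hvM⟩ | hxV)
        · exact ⟨v, hv, fun h => hvM h.1⟩
        · have h4 : (x.map fun a => (a, (⟨0, hk⟩ : Fin k))).map Prod.fst = x := by
            rw [List.map_map]
            exact (List.map_congr_left fun a _ => rfl).trans (List.map_id x)
          refine ⟨x.map fun a => (a, (⟨0, hk⟩ : Fin k)), h4, fun h => h.2 ?_⟩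
          rw [Set.mem_ofPred_eq, h4]
          exact hxV
      · rintro ⟨v, hv, hvM⟩
        by_cases h : v ∈ M
        · right
          by_contra h1
          refine hvM ⟨h, fun h2 => h1 ?_⟩
          rw [Set.mem_ofPred_eq, hv] at h2
          exact h2
        · exact Or.inl ⟨v, hv, h⟩

end MPdee884H3
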