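import Pool.Agent.Lib.MP_dee884_lc.H3.Spec3

/-!
# MP_dee884_lc, H3: collapse of the hierarchy
-/

namespace MPdee884H3

open MPdee884H1 MPdee884H2 Pool.Agent.Lin

namespace SgColl_aux

theorem flat_inj {α : Type} (m : ℕ) (hm : 1 ≤ m) : ∀ (ws vs : List (List α)),
    (∀ u ∈ ws, u.length = m) → (∀ u ∈ vs, u.length = m) → ws.flatten = vs.flatten → ws = vs
  | [], [], _, _, _ => rfl
  | [], v :: vs, _, h2, h => by
    exfalso
    have h3 := h2 v List.mem_cons_self
    have h4 := congrArg List.length h
    rw [List.flatten_nil, List.flatten_cons, List.length_append, List.length_nil] at h4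
    omega
  | w :: ws, [], h1, _, h => by
    exfalso
    have h3 := h1 w List.mem_cons_self
    have h4 := congrArg List.length h
    rw [List.flatten_nil, List.flatten_cons, List.length_append, List.length_nil] at h4
    omega
  | w :: ws, v :: vs, h1, h2, h => by
    rw [List.flatten_cons, List.flatten_cons] at h
    have h3 := h1 w List.mem_cons_self
    have h4 := h2 v List.mem_cons_self
    obtain ⟨h5, h6⟩ := List.append_inj h (h3.trans h4.symm)
    rw [h5, flat_inj m hm ws vs (fun u hu => h1 u (List.mem_cons_of_mem _ hu))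
      (fun u hu => h2 u (List.mem_cons_of_mem _ hu)) h6]

/-- a block code -/
theorem exists_code (A : Type) [Finite A] : ∃ (m : ℕ) (code : A → List Bool), 1 ≤ m ∧
    Function.Injective code ∧ ∀ a, (code a).length = m := by
  obtain ⟨n, ⟨e⟩⟩ := Finite.exists_equiv_fin A
  refine ⟨n + 1, fun a => List.ofFn (fun p : Fin (n + 1) => decide (p.val = (e a).val)), by omega,
    ?_, fun a => List.length_ofFn⟩
  intro a b h
  have h1 := List.ofFn_injective h
  have h2 := congrFun h1 ⟨(e a).val, by omega⟩
  simp only [decide_true] at h2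
  have h3 : (e a).val = (e b).val := of_decide_eq_true h2.symm
  exact e.injective (Fin.ext h3)

theorem compl_closed (hInv : S_SgInv) (hPad : S_SgPad) (j : ℕ)
    (H : ∀ (K : ℕ) (L : Set (List Bool)), 1 ≤ K → Sg K j Bool L → ∃ K' : ℕ, 1 ≤ K' ∧ Sg K' j Bool Lᶜ)
    (K : ℕ) {A : Type} [Finite A] (X : Set (List A)) (hK : 1 ≤ K) (hX : Sg K j A X) :
    ∃ K' : ℕ, 1 ≤ K' ∧ Sg K' j A Xᶜ := by
  classical
  obtain ⟨m, code, hm, hcode, hlen⟩ := exists_code A
  let D : List Bool → Option A := fun u => if h : ∃ a, code a = u then some h.choose else none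
  have hD : ∀ a, D (code a) = some a := by
    intro a
    have h : ∃ a', code a' = code a := ⟨a, rfl⟩
    change (if h : ∃ a', code a' = code a then some h.choose else none) = some a
    rw [dif_pos h]
    exact congrArg some (hcode h.choose_spec)
  have hKm : K ≤ K ^ m := by
    calc K = K ^ 1 := (pow_one K).symm
      _ ≤ K ^ m := Nat.pow_le_pow_right hK hm
  obtain ⟨h1, -⟩ := hPad K K m j hm hK hK hKm D X hX
  obtain ⟨K', hK', h2⟩ := H K _ hK h1
  have h3 := hInv K' m j hK' code (fun c => (hlen c).le) _ h2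
  refine ⟨K' ^ m, Nat.one_le_pow _ _ hK', ?_⟩
  have h4 : {u : List A | u.flatMap code ∈ ({w | ∃ x ∈ X, Bd m D w x} : Set (List Bool))ᶜ} = Xᶜ := by
    ext u
    change (¬ ∃ x ∈ X, Bd m D (u.flatMap code) x) ↔ ¬ (u ∈ X)
    refine not_congr ⟨?_, ?_⟩
    · rintro ⟨x, hx, ws, hw1, hw2, hw3⟩
      have h5 : ws = u.map code := by
        refine flat_inj m hm ws (u.map code) hw2 ?_ ?_
        · intro v hv
          obtain ⟨a, -, rfl⟩ := List.mem_map.1 hv
          exact hlen a
        · rw [← hw1, List.flatMap_def]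
      rw [h5, List.map_map] at hw3
      have h6 : (D ∘ code) = some := funext hD
      rw [h6] at hw3
      have h7 : u = x := List.map_injective_iff.2 (Option.some_injective A) hw3
      rw [h7]
      exact hx
    · intro hu
      refine ⟨u, hu, u.map code, ?_, ?_, ?_⟩
      · rw [List.flatMap_def]
      · intro v hv
        obtain ⟨a, -, rfl⟩ := List.mem_map.1 hv
        exact hlen a
      · rw [List.map_map]
        have h6 : (D ∘ code) = some := funext hD
        rw [h6]
  rw [h4] at h3
  exact h3

end SgColl_aux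

open SgColl_aux

theorem tSgColl : S_SgInv → S_SgMono → S_SgPad → S_SgColl := by
  intro hInv hMono hPad j hj H i
  obtain ⟨hM1, hM2, -⟩ := hMono
  induction i with
  | zero =>
    intro K A _ X hK hX
    exact ⟨K, hK, hM2 K 0 j hK (Nat.zero_le _) X hX⟩
  | succ i ih =>
    intro K A _ X hK hX
    obtain ⟨M, hM, rfl⟩ := hX
    obtain ⟨K1, hK1, h1⟩ := ih K M hK hM
    obtain ⟨K2, hK2, h2⟩ := compl_closed hInv hPad j H K1 M hK1 h1
    obtain ⟨j', rfl⟩ : ∃ j', j = j' + 1 := ⟨j - 1, by omega⟩
    obtain ⟨N, hN, hN'⟩ := h2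
    let g : A × Fin (K * K2) → (A × Fin K) × Fin K2 := fun p =>
      ((p.1, (finProdFinEquiv.symm p.2).1), (finProdFinEquiv.symm p.2).2)
    let g' : (A × Fin K) × Fin K2 → A × Fin (K * K2) := fun q =>
      (q.1.1, finProdFinEquiv (q.1.2, q.2))
    have hg : ∀ q, g (g' q) = q := by
      rintro ⟨⟨a, b⟩, c⟩
      simp only [g, g', Equiv.symm_apply_apply]
    have h3 := hInv K2 1 j' hK2 (fun p : A × Fin (K * K2) => [g p]) (fun c => le_of_eq rfl) N hN
    rw [pow_one] at h3
    have hKK : 1 ≤ K * K2 := Nat.mul_pos hK hK2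
    have h4 := hM1 K2 (K * K2) j' hK2 (Nat.le_mul_of_pos_left K2 hK) _ h3
    refine ⟨K * K2, hKK, _, h4, ?_⟩
    have hfm : ∀ t : List (A × Fin (K * K2)), t.flatMap (fun p => [g p]) = t.map g := by
      intro t
      induction t with
      | nil => rfl
      | cons a t iht => rw [List.flatMap_cons, List.map_cons, iht, List.singleton_append]
    ext x
    constructor
    · rintro ⟨v, hv, hvM⟩
      have h5 : v ∈ Mᶜ := hvM
      rw [hN'] at h5
      obtain ⟨u, hu, huN⟩ := h5
      refine ⟨u.map g', ?_, ?_⟩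
      · rw [← hv, ← hu, List.map_map, List.map_map]
        rfl
      · intro h6
        change (u.map g').flatMap (fun p => [g p]) ∈ N at h6
        rw [hfm, List.map_map] at h6
        have h7 : (g ∘ g') = id := funext hg
        rw [h7, List.map_id] at h6
        exact huN h6
    · rintro ⟨t, ht, htN⟩
      refine ⟨(t.map g).map Prod.fst, ?_, ?_⟩
      · rw [← ht, List.map_map, List.map_map]
        rfl
      · have h5 : (t.map g).map Prod.fst ∈ Mᶜ := by
          rw [hN']
          refine ⟨t.map g, rfl, ?_⟩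
          intro h6
          apply htN
          change t.flatMap (fun p => [g p]) ∈ N
          rw [hfm]
          exact h6
        exact h5

end MPdee884H3
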