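import Pool.Agent.Lib.MP_dee884_lc.H3.Spec3

/-!
# MP_dee884_lc, H3, third part: inverse homomorphisms
-/

namespace MPdee884H3

open MPdee884H1 MPdee884H2 Pool.Agent.Lin

namespace SgInv_aux

/-- the homomorphism `e` with guesses -/
def ext {α γ : Type} {k m : ℕ} (e : γ → List α) (h : ∀ c, (e c).length ≤ m) :
    γ × Fin (k ^ m) → List (α × Fin k) := fun p =>
  List.ofFn fun i : Fin (e p.1).length =>
    ((e p.1).get i, finFunctionFinEquiv.symm p.2 (Fin.castLE (h p.1) i))

theorem ext_length {α γ : Type} {k m : ℕ} (e : γ → List α) (h : ∀ c, (e c).length ≤ m)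
    (p : γ × Fin (k ^ m)) : (ext (k := k) e h p).length = (e p.1).length := by
  unfold ext
  exact List.length_ofFn

theorem ext_fst {α γ : Type} {k m : ℕ} (e : γ → List α) (h : ∀ c, (e c).length ≤ m)
    (p : γ × Fin (k ^ m)) : (ext (k := k) e h p).map Prod.fst = e p.1 := by
  unfold ext
  rw [List.map_ofFn]
  exact List.ofFn_get (e p.1)

theorem ext_surj {α γ : Type} {k m : ℕ} (hk : 1 ≤ k) (e : γ → List α)
    (h : ∀ c, (e c).length ≤ m) (c : γ) (v : List (α × Fin k)) (hv : v.map Prod.fst = e c) :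
    ∃ i : Fin (k ^ m), ext (k := k) e h (c, i) = v := by
  have hlen : v.length = (e c).length := by rw [← hv, List.length_map]
  obtain ⟨f, hf⟩ : ∃ f : Fin m → Fin k, ∀ (p : Fin m) (hp : p.1 < v.length), f p = (v[p.1]).2 :=
    ⟨fun p => if hp : p.1 < v.length then (v[p.1]).2 else ⟨0, hk⟩, fun p hp => dif_pos hp⟩
  have hs : finFunctionFinEquiv.symm (finFunctionFinEquiv f) = f := Equiv.symm_apply_apply _ _
  refine ⟨finFunctionFinEquiv f, ?_⟩
  apply List.ext_getElem
  · exact (ext_length e h _).trans hlen.symm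
  · intro q h1 h2
    have h3 : (ext (k := k) e h (c, finFunctionFinEquiv f))[q] =
        ((e c).get ⟨q, hlen ▸ h2⟩,
          finFunctionFinEquiv.symm (finFunctionFinEquiv f)
            (Fin.castLE (h c) ⟨q, hlen ▸ h2⟩)) := List.getElem_ofFn _
    rw [h3, hs]
    refine Prod.ext ?_ ?_
    · show (e c).get ⟨q, _⟩ = _
      rw [List.get_eq_getElem]
      have h4 : (v.map Prod.fst)[q]'(by rw [List.length_map]; exact h2) = (v[q]).1 :=
        List.getElem_map _
      rw [← h4]
      exact List.getElem_of_eq hv.symm _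
    · exact hf (Fin.castLE (h c) ⟨q, hlen ▸ h2⟩) h2

theorem map_iff {α γ : Type} {k m : ℕ} (hk : 1 ≤ k) (e : γ → List α)
    (h : ∀ c, (e c).length ≤ m) (u : List γ) (v : List (α × Fin k)) :
    v.map Prod.fst = u.flatMap e ↔
      ∃ w : List (γ × Fin (k ^ m)), w.map Prod.fst = u ∧ w.flatMap (ext (k := k) e h) = v := by
  constructor
  · induction u generalizing v with
    | nil =>
      intro hv
      refine ⟨[], rfl, ?_⟩
      rw [List.flatMap_nil, List.map_eq_nil_iff] at hv
      rw [hv, List.flatMap_nil]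
    | cons c u ih =>
      intro hv
      rw [List.flatMap_cons, List.map_eq_append_iff] at hv
      obtain ⟨v1, v2, rfl, h1, h2⟩ := hv
      obtain ⟨w, hw, rfl⟩ := ih v2 h2
      obtain ⟨i, hi⟩ := ext_surj hk e h c v1 h1
      refine ⟨(c, i) :: w, ?_, ?_⟩
      · rw [List.map_cons, hw]
      · rw [List.flatMap_cons, hi]
  · rintro ⟨w, rfl, rfl⟩
    rw [List.map_flatMap, List.flatMap_map]
    exact congrArg (fun f => w.flatMap f) (funext fun p => ext_fst e h p)

theorem main (k m : ℕ) (hk : 1 ≤ k) : ∀ (j : ℕ) {α γ : Type} [Finite γ] (e : γ → List α),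
    (∀ c, (e c).length ≤ m) → ∀ X : Set (List α), Sg k j α X →
      Sg (k ^ m) j γ {u | u.flatMap e ∈ X} := by
  intro j
  induction j with
  | zero =>
    intro α γ _ e _ X hX
    exact lin_inv e hX
  | succ j ih =>
    intro α γ _ e h X hX
    obtain ⟨M, hM, rfl⟩ := hX
    refine ⟨_, ih (ext (k := k) e h) (fun c => ?_) M hM, ?_⟩
    · rw [ext_length]
      exact h c.1
    · ext u
      constructor
      · rintro ⟨v, hv, hvM⟩
        obtain ⟨w, hw, hwv⟩ := (map_iff hk e h u v).1 hv
        exact ⟨w, hw, fun hc => hvM (hwv ▸ hc)⟩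
      · rintro ⟨w, hw, hwM⟩
        exact ⟨w.flatMap (ext (k := k) e h), (map_iff hk e h u _).2 ⟨w, hw, rfl⟩, hwM⟩

end SgInv_aux

theorem tSgInv : S_SgInv := fun k m j hk _ _ _ e he X hX =>
  SgInv_aux.main k m hk j e he X hX

end MPdee884H3
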