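import Pool.Agent.Lib.MP_dee884_lc.H3.Spec3

/-!
# MP_dee884_lc, H3: monotonicity and complements for the classes `Sg k j`
-/

namespace MPdee884H3

open MPdee884H1 MPdee884H2 Pool.Agent.Lin

namespace SgMono_aux

lemma map_inv (h : S_SgInv) {k : ℕ} (j : ℕ) (hk : 1 ≤ k) {α γ : Type} [Finite γ] (f : γ → α)
    {X : Set (List α)} (hX : Sg k j α X) : Sg k j γ {u | u.map f ∈ X} := by
  have h1 := h k 1 j hk (fun c : γ => [f c]) (fun c => le_refl _) X hX
  rw [pow_one] at h1
  have h2 : {u : List γ | u.flatMap (fun c : γ => [f c]) ∈ X} = {u | u.map f ∈ X} := by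
    ext u
    have h3 : u.flatMap (fun c : γ => [f c]) = u.map f := by
      induction u with
      | nil => rfl
      | cons a u ih => simp [List.flatMap_cons, ih]
    rw [Set.mem_ofPred_eq, Set.mem_ofPred_eq, h3]
  rwa [h2] at h1

lemma mono_k (h : S_SgInv) {k K : ℕ} (hk : 1 ≤ k) (hK : k ≤ K) : ∀ (j : ℕ) {A : Type} [Finite A]
    (X : Set (List A)), Sg k j A X → Sg K j A X := by
  intro j
  induction j with
  | zero => intro A _ X hX; exact hX
  | succ j ih =>
    intro A _ X hX
    obtain ⟨M, hM, rfl⟩ := hX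
    let f : Fin K → Fin k := fun i => ⟨min i.1 (k - 1), by omega⟩
    let g : Fin k → Fin K := fun i => ⟨i.1, lt_of_lt_of_le i.2 hK⟩
    have hfg : ∀ i, f (g i) = i := by
      intro i
      apply Fin.ext
      change min i.1 (k - 1) = i.1
      have := i.2
      omega
    refine ⟨{v | v.map (fun p : A × Fin K => (p.1, f p.2)) ∈ M},
      ih _ (map_inv h j hk (fun p : A × Fin K => (p.1, f p.2)) hM), ?_⟩
    ext x
    rw [Set.mem_ofPred_eq, Set.mem_ofPred_eq]
    constructor
    · rintro ⟨v, hv, hvM⟩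
      refine ⟨v.map (fun p : A × Fin k => (p.1, g p.2)), ?_, ?_⟩
      · rw [← hv, List.map_map]
        rfl
      · rw [Set.mem_ofPred_eq, List.map_map]
        have h4 : ((fun p : A × Fin K => (p.1, f p.2)) ∘ fun p : A × Fin k => (p.1, g p.2)) = id := by
          funext p
          simp [hfg]
        rw [h4, List.map_id]
        exact hvM
    · rintro ⟨v, hv, hvM⟩
      refine ⟨v.map (fun p : A × Fin K => (p.1, f p.2)), ?_, hvM⟩
      rw [← hv, List.map_map]
      rfl

lemma compl_succ (h : S_SgInv) {k : ℕ} (j : ℕ) (hk : 1 ≤ k) {A : Type} [Finite A]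
    (X : Set (List A)) (hX : Sg k j A X) : Sg k (j + 1) A Xᶜ := by
  refine ⟨{v | v.map Prod.fst ∈ X}, map_inv h j hk (Prod.fst : A × Fin k → A) hX, ?_⟩
  ext x
  rw [Set.mem_ofPred_eq]
  constructor
  · intro hx
    refine ⟨x.map (fun a => (a, (⟨0, by omega⟩ : Fin k))), ?_, ?_⟩
    · rw [List.map_map]
      exact List.map_id _
    · rw [Set.mem_ofPred_eq, List.map_map]
      have h5 : (Prod.fst ∘ fun a : A => (a, (⟨0, by omega⟩ : Fin k))) = id := rfl
      rw [h5, List.map_id]
      exact hx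
  · rintro ⟨v, hv, hvM⟩ hx
    apply hvM
    rw [Set.mem_ofPred_eq, hv]
    exact hx

lemma mono_j (h : S_SgInv) {k : ℕ} (hk : 1 ≤ k) : ∀ (j : ℕ) {A : Type} [Finite A]
    (X : Set (List A)), Sg k j A X → Sg k (j + 1) A X := by
  intro j
  induction j with
  | zero =>
    intro A _ X hX
    have h1 := compl_succ h 0 hk Xᶜ (LINTIME.compl hX)
    rwa [compl_compl] at h1
  | succ j ih =>
    intro A _ X hX
    obtain ⟨M, hM, rfl⟩ := hX
    exact ⟨M, ih M hM, rfl⟩

end SgMono_aux

open SgMono_aux in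
theorem tSgMono : S_SgInv → S_SgMono := by
  intro h
  refine ⟨fun k K j hk hK A _ X hX => mono_k h hk hK j X hX, ?_,
    fun k j hk A _ X hX => compl_succ h j hk X hX⟩
  intro k i j hk hij A _ X hX
  induction j, hij using Nat.le_induction with
  | base => exact hX
  | succ j _ ih => exact mono_j h hk j X ih

end MPdee884H3
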