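import Pool.Agent.Lib.MP_dee884_lc.H3.Spec3

/-!
# MP_dee884_lc, H3, module SgPad: block codes on all levels
-/

namespace MPdee884H3

open MPdee884H1 MPdee884H2 Pool.Agent.Lin

namespace SgPad_aux

section blocks

variable {A A' : Type} {s : ℕ} {D : List A' → Option A}

private lemma bd_nil {w : List A'} (h : Bd s D w []) : w = [] := by
  obtain ⟨ws, rfl, _, h2⟩ := h
  rw [List.map_nil, List.map_eq_nil_iff] at h2
  rw [h2, List.flatten_nil]

private lemma bd_nil' : Bd s D [] [] := ⟨[], by simp, by simp, by simp⟩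

private lemma bd_cons {w : List A'} {a : A} {x : List A} (h : Bd s D w (a :: x)) :
    ∃ u w', w = u ++ w' ∧ u.length = s ∧ D u = some a ∧ Bd s D w' x := by
  obtain ⟨ws, rfl, h1, h2⟩ := h
  rw [List.map_cons, List.map_eq_cons_iff] at h2
  obtain ⟨u, ws', rfl, h3, h4⟩ := h2
  exact ⟨u, ws'.flatten, List.flatten_cons, h1 u List.mem_cons_self, h3, ws', rfl,
    fun v hv => h1 v (List.mem_cons_of_mem _ hv), h4⟩

private lemma bd_cons' {u w' : List A'} {a : A} {x : List A} (h1 : u.length = s)
    (h2 : D u = some a) (h3 : Bd s D w' x) : Bd s D (u ++ w') (a :: x) := by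
  obtain ⟨ws, rfl, h4, h5⟩ := h3
  refine ⟨u :: ws, List.flatten_cons.symm, ?_, ?_⟩
  · intro v hv
    rcases List.mem_cons.1 hv with rfl | hv
    · exact h1
    · exact h4 v hv
  · rw [List.map_cons, List.map_cons, h2, h5]

private lemma bd_unique (hs : 1 ≤ s) : ∀ (x : List A) (w : List A') (x' : List A),
    Bd s D w x → Bd s D w x' → x = x'
  | [], w, x', h, h' => by
    have h0 := bd_nil h
    subst h0
    rcases x' with _ | ⟨a, x'⟩
    · rfl
    · obtain ⟨u, w', h1, h2, _, _⟩ := bd_cons h'
      have h3 : u = [] := (List.append_eq_nil_iff.1 h1.symm).1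
      rw [h3] at h2
      simp at h2
      omega
  | a :: x, w, x', h, h' => by
    obtain ⟨u, w', rfl, h2, h3, h4⟩ := bd_cons h
    rcases x' with _ | ⟨a', x'⟩
    · have h5 := bd_nil h'
      have h6 : u = [] := (List.append_eq_nil_iff.1 h5).1
      rw [h6] at h2
      simp at h2
      omega
    · obtain ⟨u', w'', h5, h6, h7, h8⟩ := bd_cons h'
      obtain ⟨h9, h10⟩ := List.append_inj h5 (h2.trans h6.symm)
      subst h9
      subst h10
      rw [h3] at h7
      rw [Option.some_injective _ h7, bd_unique hs x w' x' h4 h8]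

end blocks

section base

variable {A A' : Type} {s : ℕ}

/-- the buffers -/
private abbrev Buf (A' : Type) (s : ℕ) : Type := {u : List A' // u.length < s}

/-- the output letter of a block -/
private def out : Option A → A ⊕ Unit
  | some a => Sum.inl a
  | none => Sum.inr ()

open Classical in
/-- the transducer -/
private noncomputable def tr (hs : 1 ≤ s) (D : List A' → Option A) (q : Buf A' s) (z : A') :
    Buf A' s × List (A ⊕ Unit) :=
  if h : (q.1 ++ [z]).length < s then (⟨q.1 ++ [z], h⟩, [])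
  else (⟨[], by simp; omega⟩, [out (D (q.1 ++ [z]))])

/-- the last output -/
private def lst (q : Buf A' s) : List (A ⊕ Unit) :=
  match q.1 with
  | [] => []
  | _ :: _ => [Sum.inr ()]

private lemma gout_iff (hs : 1 ≤ s) (D : List A' → Option A) : ∀ (w : List A') (q : Buf A' s)
    (x : List A), gout (tr hs D) (lst (A := A)) q w = x.map Sum.inl ↔ Bd s D (q.1 ++ w) x
  | [], ⟨[], h⟩, x => by
    have e : gout (tr hs D) (lst (A := A)) (⟨[], h⟩ : Buf A' s) [] = [] := rfl
    rw [e]
    constructor
    · intro h1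
      have h2 : x = [] := List.map_eq_nil_iff.1 h1.symm
      subst h2
      exact bd_nil'
    · intro h1
      rw [bd_unique hs _ _ _ h1 bd_nil', List.map_nil]
  | [], ⟨b :: u, h⟩, x => by
    have e : gout (tr hs D) (lst (A := A)) (⟨b :: u, h⟩ : Buf A' s) [] = [Sum.inr ()] := rfl
    rw [e]
    constructor
    · intro h1
      rcases x with _ | ⟨a, x⟩
      · simp at h1
      · simp at h1
    · intro h1
      rcases x with _ | ⟨a, x⟩
      · have h2 := bd_nil h1
        simp at h2
      · obtain ⟨u', w', h2, h3, _, _⟩ := bd_cons h1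
        have h4 : (b :: u).length = u'.length + w'.length := by
          rw [← List.length_append, ← h2, List.append_nil]
        have h5 : (b :: u).length < s := h
        omega
  | z :: w, q, x => by
    by_cases h : (q.1 ++ [z]).length < s
    · have e1 : tr hs D q z = (⟨q.1 ++ [z], h⟩, []) := by
        unfold tr
        rw [dif_pos h]
      have e2 : gout (tr hs D) (lst (A := A)) q (z :: w) =
          gout (tr hs D) (lst (A := A)) ⟨q.1 ++ [z], h⟩ w := by
        change (tr hs D q z).2 ++ gout (tr hs D) lst (tr hs D q z).1 w = _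
        rw [e1]
        rfl
      rw [e2, gout_iff hs D w ⟨q.1 ++ [z], h⟩ x]
      have e3 : q.1 ++ [z] ++ w = q.1 ++ z :: w := by simp
      change Bd s D (q.1 ++ [z] ++ w) x ↔ _
      rw [e3]
    · have h0 : ([] : List A').length < s := by simp; omega
      have e1 : tr hs D q z = (⟨[], h0⟩, [out (D (q.1 ++ [z]))]) := by
        unfold tr
        rw [dif_neg h]
      have e2 : gout (tr hs D) (lst (A := A)) q (z :: w) =
          out (D (q.1 ++ [z])) :: gout (tr hs D) (lst (A := A)) ⟨[], h0⟩ w := by
        change (tr hs D q z).2 ++ gout (tr hs D) lst (tr hs D q z).1 w = _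
        rw [e1]
        rfl
      have hl : (q.1 ++ [z]).length = s := by
        have h1 := q.2
        have h2 : (q.1 ++ [z]).length = q.1.length + 1 := by simp
        omega
      have e3 : q.1 ++ z :: w = (q.1 ++ [z]) ++ w := by simp
      rw [e2, e3]
      constructor
      · intro h1
        rcases x with _ | ⟨a, x⟩
        · simp at h1
        · rw [List.map_cons, List.cons.injEq] at h1
          obtain ⟨h2, h3⟩ := h1
          have h4 : D (q.1 ++ [z]) = some a := by
            rcases hD : D (q.1 ++ [z]) with _ | a'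
            · rw [hD] at h2
              simp [out] at h2
            · rw [hD] at h2
              simp only [out, Sum.inl.injEq] at h2
              rw [h2]
          exact bd_cons' hl h4 ((gout_iff hs D w ⟨[], h0⟩ x).1 h3)
      · intro h1
        rcases x with _ | ⟨a, x⟩
        · have h2 := bd_nil h1
          simp at h2
        · obtain ⟨u, w', h2, h3, h4, h5⟩ := bd_cons h1
          obtain ⟨h6, h7⟩ := List.append_inj h2 (hl.trans h3.symm)
          rw [← h6] at h4
          rw [h4, List.map_cons, (gout_iff hs D w ⟨[], h0⟩ x).2 (by rw [h7]; exact h5)]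
          rfl

private lemma base (hG : S_Gsm) (hs : 1 ≤ s) [Finite A] [Finite A'] (D : List A' → Option A)
    (X : Set (List A)) (hX : LINTIME X) : LINTIME {w | ∃ x ∈ X, Bd s D w x} := by
  have : Finite (Buf A' s) := (List.finite_length_lt A' s).to_subtype
  have h0 : ([] : List A').length < s := by simp; omega
  have h1 := hG (tr hs D) (lst (A := A)) (⟨[], h0⟩ : Buf A' s) (Inl Unit X) (lin_Inl hX)
  have e : {w | gout (tr hs D) (lst (A := A)) (⟨[], h0⟩ : Buf A' s) w ∈ Inl Unit X} =
      {w | ∃ x ∈ X, Bd s D w x} := by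
    ext w
    constructor
    · rintro ⟨x, hx, h⟩
      exact ⟨x, hx, (gout_iff hs D w ⟨[], h0⟩ x).1 h⟩
    · rintro ⟨x, hx, h⟩
      exact ⟨x, hx, (gout_iff hs D w ⟨[], h0⟩ x).2 h⟩
  rwa [e] at h1

end base

section step

variable {A A' : Type} {s k K : ℕ}

private lemma exists_code (hK : 1 ≤ K) (hKs : K ≤ k ^ s) : ∃ dec : List (Fin k) → Fin K,
    ∀ i, ∃ c : List (Fin k), c.length = s ∧ dec c = i := by
  have h1 : Fintype.card (Fin K) ≤ Fintype.card (Fin s → Fin k) := by
    simpa using hKs
  obtain ⟨f⟩ := Function.Embedding.nonempty_of_card_le h1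
  have : Nonempty (Fin K) := ⟨⟨0, hK⟩⟩
  have hinj : Function.Injective fun i : Fin K => List.ofFn (f i) := fun i j hij =>
    f.injective (List.ofFn_injective hij)
  refine ⟨Function.invFun fun i : Fin K => List.ofFn (f i), fun i => ⟨List.ofFn (f i), ?_, ?_⟩⟩
  · exact List.length_ofFn
  · exact Function.leftInverse_invFun hinj i

/-- the new decoding -/
private def D2 (D : List A' → Option A) (dec : List (Fin k) → Fin K) (u : List (A' × Fin k)) :
    Option (A × Fin K) :=
  (D (u.map Prod.fst)).map fun a => (a, dec (u.map Prod.snd))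

variable {D : List A' → Option A} {dec : List (Fin k) → Fin K}

private lemma proj : ∀ (v : List (A × Fin K)) (t : List (A' × Fin k)), Bd s (D2 D dec) t v →
    Bd s D (t.map Prod.fst) (v.map Prod.fst)
  | [], t, h => by
    rw [bd_nil h]
    exact bd_nil'
  | p :: v, t, h => by
    obtain ⟨u, t', rfl, h2, h3, h4⟩ := bd_cons h
    rw [List.map_append, List.map_cons]
    refine bd_cons' (by rw [List.length_map, h2]) ?_ (proj v t' h4)
    unfold D2 at h3
    rw [Option.map_eq_some_iff] at h3
    obtain ⟨a, h5, h6⟩ := h3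
    rw [h5, ← h6]

private lemma lift (hdec : ∀ i, ∃ c : List (Fin k), c.length = s ∧ dec c = i) :
    ∀ (v : List (A × Fin K)) (w : List A'), Bd s D w (v.map Prod.fst) →
      ∃ t : List (A' × Fin k), t.map Prod.fst = w ∧ Bd s (D2 D dec) t v
  | [], w, h => by
    rw [List.map_nil] at h
    rw [bd_nil h]
    exact ⟨[], rfl, bd_nil'⟩
  | p :: v, w, h => by
    rw [List.map_cons] at h
    obtain ⟨u, w', rfl, h2, h3, h4⟩ := bd_cons h
    obtain ⟨t', h5, h6⟩ := lift hdec v w' h4
    obtain ⟨c, h7, h8⟩ := hdec p.2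
    have h9 : (u.zip c).map Prod.fst = u := List.map_fst_zip (by omega)
    have h10 : (u.zip c).map Prod.snd = c := List.map_snd_zip (by omega)
    refine ⟨u.zip c ++ t', by rw [List.map_append, h9, h5], bd_cons' ?_ ?_ h6⟩
    · rw [List.length_zip]
      omega
    · unfold D2
      rw [h9, h10, h3, h8]
      rfl

private lemma lift2 : ∀ (x : List A) (t : List (A' × Fin k)), Bd s D (t.map Prod.fst) x →
    ∃ v : List (A × Fin K), v.map Prod.fst = x ∧ Bd s (D2 D dec) t v
  | [], t, h => by
    have h1 := bd_nil h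
    rw [List.map_eq_nil_iff] at h1
    rw [h1]
    exact ⟨[], rfl, bd_nil'⟩
  | a :: x, t, h => by
    obtain ⟨u, w', h1, h2, h3, h4⟩ := bd_cons h
    obtain ⟨t0, t', rfl, h5, h6⟩ := List.map_eq_append_iff.1 h1
    rw [← h6] at h4
    obtain ⟨v, h7, h8⟩ := lift2 x t' h4
    refine ⟨(a, dec (t0.map Prod.snd)) :: v, by rw [List.map_cons, h7], bd_cons' ?_ ?_ h8⟩
    · rw [← h2, ← h5, List.length_map]
    · unfold D2
      rw [h5, h3]
      rfl

end step

private lemma main (hG : S_Gsm) (k K s : ℕ) (hs : 1 ≤ s) (hk : 1 ≤ k) (hK : 1 ≤ K)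
    (hKs : K ≤ k ^ s) : ∀ (j : ℕ) {A A' : Type} [Finite A] [Finite A'] (D : List A' → Option A)
    (X : Set (List A)), Sg K j A X →
    Sg k j A' {w | ∃ x ∈ X, Bd s D w x} ∧ Sg k j A' {w | ∀ x, Bd s D w x → x ∈ X}
  | 0, A, A', _, _, D, X, hX => by
    have hX' : LINTIME X := hX
    refine ⟨base hG hs D X hX', ?_⟩
    have h1 := (base hG hs D Xᶜ hX'.compl).compl
    have e : {w : List A' | ∃ x ∈ Xᶜ, Bd s D w x}ᶜ = {w | ∀ x, Bd s D w x → x ∈ X} := by
      ext w
      constructor
      · intro h x hx
        by_contra hn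
        exact h ⟨x, hn, hx⟩
      · rintro h ⟨x, hn, hx⟩
        exact hn (h x hx)
    rw [e] at h1
    exact h1
  | j + 1, A, A', _, _, D, X, hX => by
    obtain ⟨M, hM, rfl⟩ := hX
    obtain ⟨dec, hdec⟩ := exists_code hK hKs
    obtain ⟨hN2, hN1⟩ := main hG k K s hs hk hK hKs j (D2 D dec) M hM
    refine ⟨⟨_, hN1, ?_⟩, ⟨_, hN2, ?_⟩⟩
    · ext w
      constructor
      · rintro ⟨x, ⟨v, rfl, hv⟩, hw⟩
        obtain ⟨t, ht, hb⟩ := lift hdec v w hw
        exact ⟨t, ht, fun h => hv (h v hb)⟩
      · rintro ⟨t, rfl, ht⟩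
        have h1 : ∃ v, Bd s (D2 D dec) t v ∧ v ∉ M := by
          by_contra hn
          refine ht fun v hv => ?_
          by_contra hm
          exact hn ⟨v, hv, hm⟩
        obtain ⟨v, hv, hm⟩ := h1
        exact ⟨v.map Prod.fst, ⟨v, rfl, hm⟩, proj v t hv⟩
    · ext w
      constructor
      · intro hw
        by_cases hx : ∃ x, Bd s D w x
        · obtain ⟨x, hx⟩ := hx
          obtain ⟨v, rfl, hv⟩ := hw x hx
          obtain ⟨t, ht, hb⟩ := lift hdec v w hx
          refine ⟨t, ht, ?_⟩
          rintro ⟨v', hv', hb'⟩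
          rw [bd_unique hs _ _ _ hb' hb] at hv'
          exact hv hv'
        · refine ⟨w.map fun a => (a, ⟨0, hk⟩), by simp [Function.comp_def], ?_⟩
          rintro ⟨v, _, hb⟩
          refine hx ⟨v.map Prod.fst, ?_⟩
          have h2 := proj v _ hb
          simpa [Function.comp_def] using h2
      · rintro ⟨t, rfl, ht⟩ x hx
        obtain ⟨v, hv, hb⟩ := lift2 (dec := dec) x t hx
        exact ⟨v, hv, fun hm => ht ⟨v, hm, hb⟩⟩

end SgPad_aux

theorem tSgPad : S_Gsm → S_SgPad := by
  intro hG k K s j hs hk hK hKs A A' _ _ D X hX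
  exact SgPad_aux.main hG k K s hs hk hK hKs j D X hX

end MPdee884H3
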