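import Pool.Agent.Lib.MP_dee884_lc.H3.Spec3

/-!
# MP_dee884_lc, H3: the first level of the linear-time hierarchy is Q
-/

set_option autoImplicit false

namespace MPdee884H3

open MPdee884H1 MPdee884H2 Pool.Agent.Lin

namespace SgQ_aux

/-- a word is not longer than its image under a non-erasing homomorphism -/
theorem len_le {α β : Type} (h : β → List α) (hh : ∀ b, h b ≠ []) (w : List β) :
    w.length ≤ (w.flatMap h).length := by
  induction w with
  | nil => simp
  | cons b w ih =>
    have h1 : 1 ≤ (h b).length := List.length_pos_iff.2 (hh b)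
    rw [List.flatMap_cons, List.length_append, List.length_cons]
    omega

/-- the letter with the number `i` -/
def dec {β : Type} {m : ℕ} (e : β ≃ Fin m) (i : Fin (m + 1)) : List β :=
  if h : i.1 < m then [e.symm ⟨i.1, h⟩] else []

/-- the number of a letter -/
def num {β : Type} {m : ℕ} (e : β ≃ Fin m) (b : β) : Fin (m + 1) := (e b).castSucc

theorem dec_num {β : Type} {m : ℕ} (e : β ≃ Fin m) (b : β) : dec e (num e b) = [b] := by
  unfold dec num
  rw [dif_pos (by rw [Fin.val_castSucc]; exact (e b).2)]
  simp

theorem dec_last {β : Type} {m : ℕ} (e : β ≃ Fin m) : dec e (Fin.last m) = [] := by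
  unfold dec
  rw [dif_neg]
  simp only [Fin.val_last]
  omega

/-- the track of numbers -/
def track {β : Type} {m : ℕ} (e : β ≃ Fin m) (w : List β) (n : ℕ) : List (Fin (m + 1)) :=
  w.map (num e) ++ List.replicate (n - w.length) (Fin.last m)

theorem track_len {β : Type} {m : ℕ} (e : β ≃ Fin m) (w : List β) (n : ℕ)
    (hn : w.length ≤ n) : (track e w n).length = n := by
  unfold track
  rw [List.length_append, List.length_map, List.length_replicate]
  omega

theorem track_dec {β : Type} {m : ℕ} (e : β ≃ Fin m) (w : List β) (n : ℕ) :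
    (track e w n).flatMap (dec e) = w := by
  unfold track
  rw [List.flatMap_append]
  have h1 : ∀ w : List β, (w.map (num e)).flatMap (dec e) = w := by
    intro w
    induction w with
    | nil => rfl
    | cons b w ih => rw [List.map_cons, List.flatMap_cons, dec_num, ih]; rfl
  have h2 : ∀ j : ℕ, (List.replicate j (Fin.last m)).flatMap (dec e) = [] := by
    intro j
    induction j with
    | zero => rfl
    | succ j ih => rw [List.replicate_succ, List.flatMap_cons, dec_last e, ih]; rfl
  rw [h1, h2, List.append_nil]

theorem sg_one {k : ℕ} {A : Type} {X : Set (List A)} : Sg k 1 A X ↔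
    ∃ M : Set (List (A × Fin k)), LINTIME M ∧
      X = {x | ∃ v : List (A × Fin k), v.map Prod.fst = x ∧ v ∉ M} := Iff.rfl

end SgQ_aux

open SgQ_aux in
theorem tSgQ : S_SgQ := by
  intro α _ X
  constructor
  · rintro ⟨β, hβ, L, h, hL, hh, hX⟩
    have e : β ≃ Fin (Nat.card β) := Finite.equivFin β
    have key : ∀ v : List (α × Fin (Nat.card β + 1)),
        v.flatMap (fun p => (dec e p.2).flatMap h) = (v.flatMap (fun p => dec e p.2)).flatMap h :=
      fun v => (List.flatMap_assoc).symm
    have hV : LINTIME ({v : List (α × Fin (Nat.card β + 1)) | v.flatMap (fun p => dec e p.2) ∈ L} ∩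
        {v | v.flatMap (fun p => (dec e p.2).flatMap h) = v.flatMap (fun p => [p.1])}) := by
      refine LINTIME.inter (lin_inv _ hL) ?_
      have h1 := lintime_eq (MP.hom (fun p : α × Fin (Nat.card β + 1) => (dec e p.2).flatMap h))
        (MP.hom (fun p : α × Fin (Nat.card β + 1) => [p.1]))
      simpa only [MP.hom_val] using h1
    refine ⟨Nat.card β + 1, Nat.le_add_left 1 _, sg_one.2 ⟨_, hV.compl, ?_⟩⟩
    ext x
    constructor
    · intro hx
      obtain ⟨w, hw, hwx⟩ := (hX x).1 hx
      have hlen : w.length ≤ x.length := by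
        rw [← hwx]
        exact len_le h hh w
      have hz := track_len e w x.length hlen
      have hfst : (x.zip (track e w x.length)).map Prod.fst = x :=
        List.map_fst_zip (by rw [hz])
      have hsnd : (x.zip (track e w x.length)).map Prod.snd = track e w x.length :=
        List.map_snd_zip (by rw [hz])
      have hd : (x.zip (track e w x.length)).flatMap (fun p => dec e p.2) = w := by
        have h2 := track_dec e w x.length
        rw [← hsnd, List.flatMap_map] at h2
        exact h2
      refine ⟨x.zip (track e w x.length), hfst, fun hc => hc ⟨?_, ?_⟩⟩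
      · rw [Set.mem_ofPred_eq, hd]
        exact hw
      · rw [Set.mem_ofPred_eq, key, hd, hwx, flatMap_single, hfst]
    · rintro ⟨v, hv, hvM⟩
      obtain ⟨hv1, hv2⟩ := Set.notMem_compl_iff.1 hvM
      rw [Set.mem_ofPred_eq] at hv1 hv2
      refine (hX x).2 ⟨_, hv1, ?_⟩
      rw [← key, hv2, flatMap_single, hv]
  · rintro ⟨K, hK, hS⟩
    obtain ⟨M, hM, hX⟩ := sg_one.1 hS
    refine ⟨α × Fin K, inferInstance, Mᶜ, fun p => [p.1], hM.compl, fun b => by simp, ?_⟩
    intro x
    rw [hX, Set.mem_ofPred_eq]
    constructor
    · rintro ⟨v, hv, hvM⟩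
      exact ⟨v, hvM, by rw [flatMap_single, hv]⟩
    · rintro ⟨v, hvM, hv⟩
      exact ⟨v, by rw [← hv, flatMap_single], hvM⟩

end MPdee884H3
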