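import Pool.Agent.Lib.MP_dee884_lc.H3.Spec3

/-!
# MP_dee884_lc, H3: `Rud` is the union of the classes `Σ_j(k)` (helper50)
-/

set_option autoImplicit false

namespace MPdee884H3

open MPdee884H1 MPdee884H2 Pool.Agent.Lin

namespace SgRud_aux

theorem toL {α β : Type} (x : List β) (o : List (Option α)) (h : o.length = x.length) :
    (List.zip x o).flatMap (fun p => p.2.toList) = o.flatMap Option.toList := by
  have h1 : (List.zip x o).map Prod.snd = o := List.map_snd_zip (by omega)
  conv_rhs => rw [← h1, List.flatMap_map]

theorem flat_some {α : Type} (w : List α) : (w.map some).flatMap Option.toList = w := by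
  induction w with
  | nil => rfl
  | cons a w ih => rw [List.map_cons, List.flatMap_cons, ih]; rfl

theorem flat_none {α : Type} (n : ℕ) :
    (List.replicate n (none : Option α)).flatMap Option.toList = [] := by
  induction n with
  | zero => rfl
  | succ n ih => rw [List.replicate_succ, List.flatMap_cons, ih]; rfl

theorem some_none {α : Type} (w : List α) (n : ℕ) :
    (w.map some ++ List.replicate n none).flatMap Option.toList = w := by
  rw [List.flatMap_append, flat_some, flat_none, List.append_nil]

theorem len_le {α β : Type} (h : α → List β) (hh : ∀ a, h a ≠ []) (w : List α) :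
    w.length ≤ (w.flatMap h).length := by
  induction w with
  | nil => simp
  | cons a w ih =>
    have := List.length_pos_iff.2 (hh a)
    rw [List.flatMap_cons, List.length_append, List.length_cons]
    omega

theorem exists_surj {A : Type} [Finite A] (K : ℕ) (hK : Nat.card (Option A) ≤ K) :
    ∃ (f : Fin K → Option A) (g : Option A → Fin K), ∀ o, f (g o) = o := by
  classical
  let e := Finite.equivFin (Option A)
  refine ⟨fun i => if h : i.1 < Nat.card (Option A) then e.symm ⟨i.1, h⟩ else none,
    fun o => ⟨(e o).1, (e o).2.trans_le hK⟩, fun o => ?_⟩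
  show (if h : (e o).1 < Nat.card (Option A) then e.symm ⟨(e o).1, h⟩ else none) = o
  rw [dif_pos (e o).2]
  exact e.symm_apply_apply o

/-- from the levels to `Rud` -/
theorem back (K : ℕ) : ∀ (j : ℕ) (α : Type) [Finite α] (L : Set (List α)), Sg K j α L → Rud α L
  | 0, _, _, _, h => Rud.lin h
  | j + 1, α, _, L, h => by
    obtain ⟨M, hM, rfl⟩ := h
    have h1 := Rud.hom (fun p : α × Fin K => [p.1]) (fun _ => List.cons_ne_nil _ _)
      (Rud.compl (back K j (α × Fin K) M hM))
    refine h1.congr fun w => ?_
    simp only [Set.mem_ofPred_eq, flatMap_single, Set.mem_compl_iff]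
    exact ⟨fun ⟨v, h2, h3⟩ => ⟨v, h3, h2⟩, fun ⟨v, h2, h3⟩ => ⟨v, h3, h2⟩⟩

end SgRud_aux

open SgRud_aux

theorem tSgRud : S_SgInv → S_SgMono → S_SgCap → S_SgRud := by
  intro hInv hMono hCap
  refine ⟨fun α L hL => ?_, fun K j α _ L h => back K j α L h⟩
  induction hL with
  | @lin α inst L h => exact ⟨inst, 1, 0, le_rfl, h⟩
  | @compl α L h ih =>
    obtain ⟨hf, K, j, hK, hS⟩ := ih
    exact ⟨hf, K, j + 1, hK, hMono.2.2 K j hK L hS⟩
  | @hom α β instα instβ h hh L hL ih =>
    obtain ⟨_, K, j, hK, hS⟩ := ih
    have hY1 : Sg K j (β × Option α)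
        {u | u.flatMap (fun p : β × Option α => p.2.toList) ∈ L} := by
      have h1 := hInv K 1 j hK (fun p : β × Option α => p.2.toList) (by
        rintro ⟨b, _ | a⟩
        · exact Nat.zero_le _
        · exact le_rfl) L hS
      rwa [pow_one] at h1
    have hY2 : LINTIME {u : List (β × Option α) |
        (u.flatMap (fun p : β × Option α => p.2.toList)).flatMap h = u.map Prod.fst} := by
      have h1 := lintime_eq (MP.hom fun p : β × Option α => p.2.toList.flatMap h)
        (MP.hom fun p : β × Option α => [p.1])
      simp only [MP.hom_val, flatMap_single] at h1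
      simp only [List.flatMap_assoc]
      exact h1
    have hY := (hCap K j hK _ _ hY2 hY1).1
    set Y : Set (List (β × Option α)) :=
      {u | u.flatMap (fun p : β × Option α => p.2.toList) ∈ L} ∩
      {u : List (β × Option α) |
        (u.flatMap (fun p : β × Option α => p.2.toList)).flatMap h = u.map Prod.fst} with hYdef
    have hYc := hMono.2.2 K j hK Y hY
    set K' : ℕ := max K (Nat.card (Option α)) with hK'
    have hK1 : 1 ≤ K' := hK.trans (le_max_left _ _)
    have hYc' := hMono.1 K K' (j + 1) hK (le_max_left _ _) Yᶜ hYc
    obtain ⟨f, g, hfg⟩ := exists_surj K' (le_max_right K (Nat.card (Option α)))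
    have hM := hInv K' 1 (j + 1) hK1 (fun p : β × Fin K' => [(p.1, f p.2)])
      (fun _ => le_rfl) Yᶜ hYc'
    rw [pow_one] at hM
    refine ⟨instβ, K', j + 1 + 1, hK1, _, hM, ?_⟩
    ext x
    simp only [Set.mem_ofPred_eq, Set.mem_compl_iff, not_not, flatMap_single]
    constructor
    · rintro ⟨w, hw, rfl⟩
      have hlen := len_le h hh w
      set x := w.flatMap h with hx
      set o : List (Option α) := w.map some ++ List.replicate (x.length - w.length) none with ho
      have hol : o.length = x.length := by
        rw [ho, List.length_append, List.length_map, List.length_replicate]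
        omega
      have hz : ((List.zip x o).map fun p => (p.1, g p.2)).map
          (fun p : β × Fin K' => (p.1, f p.2)) = List.zip x o := by
        rw [List.map_map]
        conv_rhs => rw [← List.map_id (List.zip x o)]
        refine List.map_congr_left fun p _ => ?_
        show (p.1, f (g p.2)) = p
        rw [hfg]
      refine ⟨(List.zip x o).map fun p => (p.1, g p.2), ?_, ?_⟩
      · rw [List.map_map]
        exact List.map_fst_zip (by omega)
      · rw [hz, hYdef]
        refine ⟨?_, ?_⟩
        · show (List.zip x o).flatMap (fun p : β × Option α => p.2.toList) ∈ L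
          rw [toL x o hol, ho, some_none]
          exact hw
        · show ((List.zip x o).flatMap (fun p : β × Option α => p.2.toList)).flatMap h =
            (List.zip x o).map Prod.fst
          have hz2 : (List.zip x o).map Prod.fst = x := List.map_fst_zip (by omega)
          rw [toL x o hol, hz2, ho, some_none]
    · rintro ⟨v, rfl, hv⟩
      rw [hYdef] at hv
      refine ⟨_, hv.1, ?_⟩
      have h2 : ((v.map fun p : β × Fin K' => (p.1, f p.2)).flatMap
          (fun p : β × Option α => p.2.toList)).flatMap h =
          (v.map fun p : β × Fin K' => (p.1, f p.2)).map Prod.fst := hv.2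
      rw [h2, List.map_map]
      rfl

end MPdee884H3
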