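import Pool.Agent.Lib.MP_dee884_lc.H3.Spec

/-!
# MP_dee884_lc, H3: a machine with one work tape which checks the simulation of one tape
-/

set_option autoImplicit false

namespace MPdee884H3

open MPdee884H1 MPdee884H2 Pool.Agent.Lin

namespace SimL_aux

/-- the states -/
inductive St
  | W0 | W1 | B | S | L | C | F
  deriving DecidableEq, Fintype

/-- the tape symbols -/
abbrev Cl (G : Type) : Type := Option G × Bool

/-- the letters -/
abbrev Al (G : Type) : Type := (Option G × Bool) ⊕ (Op G ⊕ (Option G × Bool))

variable {G : Type}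

/-- the transitions -/
inductive Tr : St → Option (Al G) → Option (Cl G) → St → Option (Cl G) → Dir → Prop
  | w0f (a : Option G) (g : Option (Cl G)) :
      Tr St.W0 (some (Sum.inl (a, false))) g St.W0 (some (a, false)) Dir.right
  | w0t (a : Option G) (g : Option (Cl G)) :
      Tr St.W0 (some (Sum.inl (a, true))) g St.W1 (some (a, true)) Dir.right
  | w1 (a : Option G) (g : Option (Cl G)) :
      Tr St.W1 (some (Sum.inl (a, false))) g St.W1 (some (a, false)) Dir.right
  | w1e (g : Option (Cl G)) : Tr St.W1 none g St.B g Dir.left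
  | b (a : Option G) : Tr St.B none (some (a, false)) St.B (some (a, false)) Dir.left
  | bs (a : Option G) : Tr St.B none (some (a, true)) St.S (some (a, false)) Dir.stay
  | s (a b : Option G) (d : Dir) :
      Tr St.S (some (Sum.inr (Sum.inl (a, b, d)))) (some (a, false)) St.S (some (b, false)) d
  | sl (a : Option G) : Tr St.S none (some (a, false)) St.L (some (a, true)) Dir.stay
  | l (x : Cl G) : Tr St.L none (some x) St.L (some x) Dir.left
  | lc : Tr St.L none none St.C none Dir.right
  | c (x : Cl G) : Tr St.C (some (Sum.inr (Sum.inr x))) (some x) St.C (some x) Dir.right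
  | cf : Tr St.C none none St.F none Dir.stay

/-- the machine -/
def Ma (G : Type) [Finite G] : NTM (Al G) where
  S := St
  G := Cl G
  finS := inferInstance
  finG := inferInstance
  start := St.W0
  acc := fun q => q = St.F
  tr := Tr

/-- the tape with the word `s` in the cells `0, 1, …` -/
def tpp (s : List (Cl G)) : ℤ → Option (Cl G) := fun i => if 0 ≤ i then s[i.toNat]? else none

theorem tpp_nat (s : List (Cl G)) (j : ℕ) : tpp s (j : ℤ) = s[j]? := by
  simp [tpp]

theorem tpp_nil : tpp ([] : List (Cl G)) = fun _ => none := by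
  funext i; simp [tpp]

theorem tpp_some {s : List (Cl G)} {p : ℤ} {x : Cl G} (h : tpp s p = some x) :
    ∃ j : ℕ, p = j ∧ ∃ hj : j < s.length, s[j] = x := by
  unfold tpp at h
  by_cases h0 : 0 ≤ p
  · rw [if_pos h0] at h
    obtain ⟨h1, h2⟩ := List.getElem?_eq_some_iff.1 h
    exact ⟨p.toNat, by omega, h1, h2⟩
  · rw [if_neg h0] at h
    exact absurd h (by simp)

theorem tpp_set (s : List (Cl G)) (j : ℕ) (x : Cl G) (hj : j < s.length) :
    Function.update (tpp s) (j : ℤ) (some x) = tpp (s.set j x) := by
  funext i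
  by_cases h : i = (j : ℤ)
  · subst h
    rw [Function.update_self, tpp_nat, List.getElem?_set_self hj]
  · rw [Function.update_of_ne h]
    unfold tpp
    by_cases h0 : 0 ≤ i
    · rw [if_pos h0, if_pos h0, List.getElem?_set_ne (by omega)]
    · rw [if_neg h0, if_neg h0]

theorem tpp_app (s : List (Cl G)) (x : Cl G) :
    Function.update (tpp s) (s.length : ℤ) (some x) = tpp (s ++ [x]) := by
  funext i
  by_cases h : i = (s.length : ℤ)
  · subst h
    rw [Function.update_self, tpp_nat]
    simp
  · rw [Function.update_of_ne h]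
    unfold tpp
    by_cases h0 : 0 ≤ i
    · rw [if_pos h0, if_pos h0]
      rcases lt_or_ge i.toNat s.length with h1 | h1
      · rw [List.getElem?_append_left h1]
      · have h2 : s.length < i.toNat := by omega
        rw [List.getElem?_eq_none h1, List.getElem?_eq_none (by simp; omega)]
    · rw [if_neg h0, if_neg h0]

/-- all flags are `false` -/
def uf (g : List (Option G)) : List (Cl G) := g.map fun a => (a, false)

theorem uf_len (g : List (Option G)) : (uf g).length = g.length := by simp [uf]

theorem flag_len (g : List (Option G)) (p : ℕ) : (flag g p).length = g.length := by simp [flag]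

theorem flag_get (g : List (Option G)) (p j : ℕ) :
    (flag g p)[j]? = g[j]?.map (fun a => (a, decide (j = p))) := by
  unfold flag
  rw [List.getElem?_mapIdx]

theorem uf_get (g : List (Option G)) (j : ℕ) :
    (uf g)[j]? = g[j]?.map (fun a => (a, false)) := by
  unfold uf
  rw [List.getElem?_map]

theorem uf_set (g : List (Option G)) (j : ℕ) (b : Option G) :
    (uf g).set j (b, false) = uf (g.set j b) := by
  unfold uf
  rw [List.map_set]

theorem uf_flag (g : List (Option G)) (j : ℕ) (a : Option G) (h : g[j]? = some a) :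
    (uf g).set j (a, true) = flag g j := by
  refine List.ext_getElem? fun i => ?_
  rw [flag_get]
  by_cases hi : i = j
  · subst hi
    have h1 : i < (uf g).length := by
      rw [uf_len]; exact (List.getElem?_eq_some_iff.1 h).1
    rw [List.getElem?_set_self h1, h]
    simp
  · rw [List.getElem?_set_ne (Ne.symm hi), uf_get]
    simp [hi]

theorem flag_uf (g : List (Option G)) (j : ℕ) (a : Option G) (h : g[j]? = some a) :
    (flag g j).set j (a, false) = uf g := by
  refine List.ext_getElem? fun i => ?_
  rw [uf_get]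
  by_cases hi : i = j
  · subst hi
    have h1 : i < (flag g i).length := by
      rw [flag_len]; exact (List.getElem?_eq_some_iff.1 h).1
    rw [List.getElem?_set_self h1, h]
    simp
  · rw [List.getElem?_set_ne (Ne.symm hi), flag_get]
    simp [hi]

theorem flag_app (g l : List (Option G)) (p : ℕ) (h : p < g.length) :
    flag (g ++ l) p = flag g p ++ uf l := by
  refine List.ext_getElem? fun i => ?_
  rw [flag_get]
  rcases lt_or_ge i g.length with h1 | h1
  · rw [List.getElem?_append_left h1, List.getElem?_append_left (by rw [flag_len]; exact h1),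
      flag_get]
  · rw [List.getElem?_append_right h1, List.getElem?_append_right (by rw [flag_len]; exact h1),
      uf_get, flag_len]
    have : i ≠ p := by omega
    simp [this]

theorem flag_mid (g l : List (Option G)) (a : Option G) :
    flag (g ++ a :: l) g.length = uf g ++ (a, true) :: uf l := by
  refine List.ext_getElem? fun i => ?_
  rw [flag_get]
  rcases lt_trichotomy i g.length with h1 | h1 | h1
  · rw [List.getElem?_append_left h1, List.getElem?_append_left (by rw [uf_len]; exact h1),
      uf_get]
    simp [h1.ne]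
  · subst h1
    rw [List.getElem?_append_right (le_refl _), List.getElem?_append_right (by rw [uf_len]),
      uf_len]
    simp
  · rw [List.getElem?_append_right h1.le, List.getElem?_append_right (by rw [uf_len]; exact h1.le),
      uf_len]
    obtain ⟨k, hk⟩ : ∃ k, i - g.length = k + 1 := ⟨i - g.length - 1, by omega⟩
    rw [hk, List.getElem?_cons_succ, List.getElem?_cons_succ, uf_get]
    simp [h1.ne']

theorem uf_snoc (g : List (Option G)) (a : Option G) : uf g ++ [(a, false)] = uf (g ++ [a]) := by
  simp [uf]

/-- the letters -/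
abbrev f0 (x : Cl G) : Al G := Sum.inl x
/-- the letters -/
abbrev f1 (x : Op G) : Al G := Sum.inr (Sum.inl x)
/-- the letters -/
abbrev fC (x : Cl G) : Al G := Sum.inr (Sum.inr x)

variable [Finite G]

/-- acceptance -/
def AM (n : ℕ) (x : List (Al G)) (q : St) (p : ℤ) (t : ℤ → Option (Cl G)) : Prop :=
  NTM.Acc (Ma G) n x q p t

omit [Finite G] in
theorem inv0 {A : Type} (M : NTM A) {n : ℕ} {x : List A} {q : M.S} {p : ℤ}
    {t : ℤ → Option M.G} (h : NTM.Acc M n x q p t) : (n = 0 ∧ x = [] ∧ M.acc q) ∨
      ∃ (m : ℕ) (a : Option A) (y : List A) (q' : M.S) (b : Option M.G) (d : Dir),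
        n = m + 1 ∧ x = a.toList ++ y ∧ M.tr q a (t p) q' b d ∧
        NTM.Acc M m y q' (p + d.toInt) (Function.update t p b) := by
  cases h with
  | done _ _ _ h1 => exact Or.inl ⟨rfl, rfl, h1⟩
  | step m a y _ q' _ _ b d h1 h2 => exact Or.inr ⟨m, a, y, q', b, d, rfl, rfl, h1, h2⟩

theorem inv {n : ℕ} {x : List (Al G)} {q : St} {p : ℤ} {t : ℤ → Option (Cl G)}
    (h : AM n x q p t) : (n = 0 ∧ x = [] ∧ q = St.F) ∨
      ∃ (m : ℕ) (a : Option (Al G)) (y : List (Al G)) (q' : St) (b : Option (Cl G)) (d : Dir),
        n = m + 1 ∧ x = a.toList ++ y ∧ Tr q a (t p) q' b d ∧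
        AM m y q' (p + d.toInt) (Function.update t p b) :=
  inv0 (Ma G) h

theorem sndF {n : ℕ} {x : List (Al G)} {p : ℤ} {t : ℤ → Option (Cl G)}
    (h : AM n x St.F p t) : x = [] := by
  rcases inv h with ⟨_, h1, _⟩ | ⟨m, a, y, q', b, d, _, _, h1, _⟩
  · exact h1
  · cases h1

theorem sndC : ∀ (n : ℕ) (x : List (Al G)) (s : List (Cl G)) (j : ℕ), j ≤ s.length →
    AM n x St.C (j : ℤ) (tpp s) → x = (s.drop j).map fC := by
  intro n
  induction n with
  | zero =>
    intro x s j hj h
    rcases inv h with ⟨_, _, h1⟩ | ⟨m, a, y, q', b, d, h1, _⟩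
    · cases h1
    · omega
  | succ n ih =>
    intro x s j hj h
    rcases inv h with ⟨h1, _⟩ | ⟨m, a, y, q', b, d, h1, h2, h3, h4⟩
    · omega
    · obtain rfl : m = n := by omega
      generalize hg : tpp s (j : ℤ) = g at h3
      cases h3 with
      | c x0 =>
        rw [← hg, Function.update_eq_self] at h4
        rw [tpp_nat] at hg
        obtain ⟨h5, h6⟩ := List.getElem?_eq_some_iff.1 hg
        have h7 := ih y s (j + 1) h5 (by simpa [Dir.toInt] using h4)
        rw [h2, h7, List.drop_eq_getElem_cons h5, h6]
        rfl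
      | cf =>
        rw [tpp_nat] at hg
        have h5 := List.getElem?_eq_none_iff.1 hg
        rw [h2, sndF h4, List.drop_eq_nil_of_le h5]
        rfl

theorem sndL : ∀ (n : ℕ) (x : List (Al G)) (s : List (Cl G)) (p : ℤ), -1 ≤ p → p < s.length →
    AM n x St.L p (tpp s) → x = s.map fC := by
  intro n
  induction n with
  | zero =>
    intro x s j _ _ h
    rcases inv h with ⟨_, _, h1⟩ | ⟨m, a, y, q', b, d, h1, _⟩
    · cases h1
    · omega
  | succ n ih =>
    intro x s p hp0 hp h
    rcases inv h with ⟨h1, _⟩ | ⟨m, a, y, q', b, d, h1, h2, h3, h4⟩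
    · omega
    · obtain rfl : m = n := by omega
      generalize hg : tpp s p = g at h3
      cases h3 with
      | l x0 =>
        rw [← hg, Function.update_eq_self] at h4
        obtain ⟨j, hj, _⟩ := tpp_some hg
        rw [h2]
        exact ih y s _ (by simp only [Dir.toInt]; omega) (by simp only [Dir.toInt]; omega) h4
      | lc =>
        rw [← hg, Function.update_eq_self] at h4
        have h5 : p = -1 := by
          by_contra h6
          obtain ⟨j, rfl⟩ : ∃ j : ℕ, p = j := ⟨p.toNat, by omega⟩
          rw [tpp_nat, List.getElem?_eq_none_iff] at hg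
          omega
        subst h5
        have h6 := sndC m y s 0 (Nat.zero_le _) (by simpa [Dir.toInt] using h4)
        rw [h2, h6]
        simp

theorem sndS : ∀ (n : ℕ) (x : List (Al G)) (g : List (Option G)) (p : ℤ),
    AM n x St.S p (tpp (uf g)) → ∃ j : ℕ, p = j ∧ ∃ (R : List (Op G))
      (g' : List (Option G)) (j' : ℕ), x = R.map f1 ++ (flag g' j').map fC ∧
        SimR R g j g' j' := by
  intro n
  induction n with
  | zero =>
    intro x g p h
    rcases inv h with ⟨_, _, h1⟩ | ⟨m, a, y, q', b, d, h1, _⟩
    · cases h1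
    · omega
  | succ n ih =>
    intro x g p h
    rcases inv h with ⟨h1, _⟩ | ⟨m, a, y, q', b, d, h1, h2, h3, h4⟩
    · omega
    · obtain rfl : m = n := by omega
      generalize hg : tpp (uf g) p = g0 at h3
      cases h3 with
      | s a b d =>
        obtain ⟨j, rfl, hj, _⟩ := tpp_some hg
        rw [tpp_set _ _ _ hj, uf_set] at h4
        obtain ⟨j1, hj1, R, g', j', h5, h6⟩ := ih y (g.set j b) _ h4
        rw [tpp_nat, uf_get, Option.map_eq_some_iff] at hg
        obtain ⟨a', ha', ha''⟩ := hg
        obtain rfl : a' = a := by simpa using ha''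
        refine ⟨j, rfl, (a', b, d) :: R, g', j', ?_, SimR.cons a' b d R g g' j j1 j' ha' hj1.symm h6⟩
        rw [h2, h5]
        rfl
      | sl a =>
        obtain ⟨j, rfl, hj, _⟩ := tpp_some hg
        rw [tpp_nat, uf_get, Option.map_eq_some_iff] at hg
        obtain ⟨a', ha', ha''⟩ := hg
        obtain rfl : a' = a := by simpa using ha''
        rw [tpp_set _ _ _ hj, uf_flag g j a' ha'] at h4
        rw [uf_len] at hj
        refine ⟨j, rfl, [], g, j, ?_, SimR.nil g j hj⟩
        have h5 := sndL m y (flag g j) _ (by simp only [Dir.toInt]; omega)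
          (by rw [flag_len]; simp only [Dir.toInt]; omega) h4
        rw [h2, h5]
        rfl

theorem sndB : ∀ (n : ℕ) (x : List (Al G)) (g : List (Option G)) (p j : ℕ), p ≤ j →
    j < g.length → AM n x St.B (j : ℤ) (tpp (flag g p)) → ∃ (R : List (Op G))
      (e : List (Cl G)), x = R.map f1 ++ e.map fC ∧ SimW (flag g p) R e := by
  intro n
  induction n with
  | zero =>
    intro x g p j _ _ h
    rcases inv h with ⟨_, _, h1⟩ | ⟨m, a, y, q', b, d, h1, _⟩
    · cases h1
    · omega
  | succ n ih =>
    intro x g p j hpj hj h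
    rcases inv h with ⟨h1, _⟩ | ⟨m, a, y, q', b, d, h1, h2, h3, h4⟩
    · omega
    · obtain rfl : m = n := by omega
      generalize hg : tpp (flag g p) (j : ℤ) = g0 at h3
      cases h3 with
      | b a =>
        rw [← hg, Function.update_eq_self] at h4
        rw [tpp_nat, flag_get, Option.map_eq_some_iff] at hg
        obtain ⟨a', ha', ha''⟩ := hg
        have h5 : j ≠ p := by
          simp only [Prod.mk.injEq, decide_eq_false_iff_not] at ha''
          exact ha''.2
        rw [h2]
        refine ih y g p (j - 1) (by omega) (by omega) ?_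
        have h6 : (j : ℤ) + Dir.left.toInt = ((j - 1 : ℕ) : ℤ) := by
          simp only [Dir.toInt]; omega
        rw [← h6]
        exact h4
      | bs a =>
        rw [tpp_nat, flag_get, Option.map_eq_some_iff] at hg
        obtain ⟨a', ha', ha''⟩ := hg
        simp only [Prod.mk.injEq, decide_eq_true_eq] at ha''
        obtain ⟨rfl, rfl⟩ := ha''
        rw [tpp_set _ _ _ (by rw [flag_len]; exact hj), flag_uf g j a' ha'] at h4
        obtain ⟨j1, hj1, R, g', j', h5, h6⟩ := sndS m y g _ h4
        have h7 : j = j1 := by simp only [Dir.toInt] at hj1; omega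
        subst h7
        exact ⟨R, flag g' j', by rw [h2, h5]; rfl, g, g', j, j', rfl, rfl, h6⟩

theorem sndW1 : ∀ (n : ℕ) (x : List (Al G)) (g : List (Option G)) (p : ℕ), p < g.length →
    AM n x St.W1 (g.length : ℤ) (tpp (flag g p)) → ∃ (l : List (Option G))
      (R : List (Op G)) (e : List (Cl G)), x = (uf l).map f0 ++ (R.map f1 ++ e.map fC) ∧
        SimW (flag (g ++ l) p) R e := by
  intro n
  induction n with
  | zero =>
    intro x g p _ h
    rcases inv h with ⟨_, _, h1⟩ | ⟨m, a, y, q', b, d, h1, _⟩
    · cases h1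
    · omega
  | succ n ih =>
    intro x g p hp h
    rcases inv h with ⟨h1, _⟩ | ⟨m, a, y, q', b, d, h1, h2, h3, h4⟩
    · omega
    · obtain rfl : m = n := by omega
      generalize hg : tpp (flag g p) (g.length : ℤ) = g0 at h3
      cases h3 with
      | w1 a =>
        rw [← flag_len g p, tpp_app, flag_len] at h4
        have h5 : flag g p ++ [(a, false)] = flag (g ++ [a]) p := by
          rw [flag_app g [a] p hp]; rfl
        rw [h5] at h4
        obtain ⟨l, R, e, h6, h7⟩ := ih y (g ++ [a]) p (by simp; omega)
          (by simpa [Dir.toInt] using h4)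
        refine ⟨a :: l, R, e, ?_, ?_⟩
        · rw [h2, h6]; rfl
        · rw [List.append_assoc] at h7; exact h7
      | w1e =>
        rw [← hg, Function.update_eq_self] at h4
        have h6 : (g.length : ℤ) + Dir.left.toInt = ((g.length - 1 : ℕ) : ℤ) := by
          simp only [Dir.toInt]; omega
        rw [h6] at h4
        obtain ⟨R, e, h7, h8⟩ := sndB m y g p (g.length - 1) (by omega) (by omega) h4
        refine ⟨[], R, e, ?_, by rw [List.append_nil]; exact h8⟩
        rw [h2, h7]; rfl

theorem sndW0 : ∀ (n : ℕ) (x : List (Al G)) (g : List (Option G)),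
    AM n x St.W0 (g.length : ℤ) (tpp (uf g)) → ∃ (s : List (Cl G))
      (R : List (Op G)) (e : List (Cl G)), x = s.map f0 ++ (R.map f1 ++ e.map fC) ∧
        SimW (uf g ++ s) R e := by
  intro n
  induction n with
  | zero =>
    intro x g h
    rcases inv h with ⟨_, _, h1⟩ | ⟨m, a, y, q', b, d, h1, _⟩
    · cases h1
    · omega
  | succ n ih =>
    intro x g h
    rcases inv h with ⟨h1, _⟩ | ⟨m, a, y, q', b, d, h1, h2, h3, h4⟩
    · omega
    · obtain rfl : m = n := by omega
      generalize hg : tpp (uf g) (g.length : ℤ) = g0 at h3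
      cases h3 with
      | w0f a =>
        rw [← uf_len g, tpp_app, uf_len, uf_snoc] at h4
        obtain ⟨s, R, e, h6, h7⟩ := ih y (g ++ [a]) (by simpa [Dir.toInt] using h4)
        refine ⟨(a, false) :: s, R, e, ?_, ?_⟩
        · rw [h2, h6]; rfl
        · rw [← uf_snoc, List.append_assoc] at h7; exact h7
      | w0t a =>
        rw [← uf_len g, tpp_app, uf_len] at h4
        have h5 : uf g ++ [(a, true)] = flag (g ++ [a]) g.length := by
          rw [flag_mid]; rfl
        rw [h5] at h4
        obtain ⟨l, R, e, h6, h7⟩ := sndW1 m y (g ++ [a]) g.length (by simp)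
          (by simpa [Dir.toInt] using h4)
        refine ⟨(a, true) :: uf l, R, e, ?_, ?_⟩
        · rw [h2, h6]; rfl
        · rw [List.append_assoc] at h7
          have h8 : g ++ ([a] ++ l) = g ++ a :: l := rfl
          rw [h8, flag_mid] at h7
          exact h7

/-! ### completeness -/

/-- one step -/
theorem stp1 {n : ℕ} {a : Option (Al G)} {y : List (Al G)} {q q' : St} {p : ℤ}
    {t : ℤ → Option (Cl G)} {b : Option (Cl G)} {d : Dir} (h : Tr q a (t p) q' b d)
    (h' : AM n y q' (p + d.toInt) (Function.update t p b)) :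
    AM (n + 1) (a.toList ++ y) q p t :=
  NTM.Acc.step (M := Ma G) n a y q q' p t b d h h'

theorem cC : ∀ (k : ℕ) (s : List (Cl G)) (j : ℕ), s.length = j + k →
    AM (k + 1) ((s.drop j).map fC) St.C (j : ℤ) (tpp s) := by
  intro k
  induction k with
  | zero =>
    intro s j h
    rw [List.drop_eq_nil_of_le (by omega)]
    have h1 : tpp s (j : ℤ) = none := by rw [tpp_nat, List.getElem?_eq_none_iff]; omega
    refine stp1 (a := none) (y := []) (by rw [h1]; exact Tr.cf) ?_
    exact NTM.Acc.done (M := Ma G) _ _ _ rfl
  | succ k ih =>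
    intro s j h
    have h1 : j < s.length := by omega
    have h2 : tpp s (j : ℤ) = some s[j] := by rw [tpp_nat]; exact List.getElem?_eq_getElem h1
    rw [List.drop_eq_getElem_cons h1]
    refine stp1 (a := some (fC s[j])) (by rw [h2]; exact Tr.c _) ?_
    rw [← h2, Function.update_eq_self]
    have h3 : (j : ℤ) + Dir.right.toInt = ((j + 1 : ℕ) : ℤ) := by simp [Dir.toInt]
    rw [h3]
    exact ih s (j + 1) (by omega)

theorem cL : ∀ (j : ℕ) (s : List (Cl G)), j ≤ s.length →
    AM (j + (s.length + 2)) (s.map fC) St.L ((j : ℤ) - 1) (tpp s) := by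
  intro j
  induction j with
  | zero =>
    intro s _
    have h1 : tpp s ((0 : ℕ) - 1 : ℤ) = none := by simp [tpp]
    have h3 := cC s.length s 0 (by omega)
    rw [List.drop_zero] at h3
    have h4 : 0 + (s.length + 2) = (s.length + 1) + 1 := by omega
    rw [h4]
    refine stp1 (a := none) (by rw [h1]; exact Tr.lc) ?_
    rw [← h1, Function.update_eq_self]
    simpa [Dir.toInt] using h3
  | succ j ih =>
    intro s hj
    have h1 : j < s.length := by omega
    have h2 : tpp s (((j + 1 : ℕ) : ℤ) - 1) = some s[j] := by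
      have : (((j + 1 : ℕ) : ℤ) - 1) = (j : ℤ) := by push_cast; ring
      rw [this, tpp_nat]; exact List.getElem?_eq_getElem h1
    have h3 := ih s (by omega)
    have h4 : j + 1 + (s.length + 2) = (j + (s.length + 2)) + 1 := by omega
    rw [h4]
    refine stp1 (a := none) (by rw [h2]; exact Tr.l _) ?_
    rw [← h2, Function.update_eq_self]
    have h5 : (((j + 1 : ℕ) : ℤ) - 1) + Dir.left.toInt = (j : ℤ) - 1 := by
      simp only [Dir.toInt]; push_cast; ring
    rw [h5]
    exact h3

theorem cS {R : List (Op G)} {g g' : List (Option G)} {p p' : ℕ} (h : SimR R g p g' p') :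
    p < g.length ∧ g'.length = g.length ∧ ∃ n ≤ R.length + (2 * g.length + 4),
      AM n (R.map f1 ++ (flag g' p').map fC) St.S (p : ℤ) (tpp (uf g)) := by
  induction h with
  | nil g p hp =>
    refine ⟨hp, rfl, (p + 1 + ((flag g p).length + 2)) + 1, ?_, ?_⟩
    · rw [flag_len, List.length_nil]; omega
    · have h1 := cL (p + 1) (flag g p) (by rw [flag_len]; omega)
      obtain ⟨a, ha⟩ : ∃ a, g[p]? = some a := ⟨_, List.getElem?_eq_getElem hp⟩
      have h2 : tpp (uf g) (p : ℤ) = some (a, false) := by rw [tpp_nat, uf_get, ha]; rfl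
      refine stp1 (a := none) (by rw [h2]; exact Tr.sl a) ?_
      rw [tpp_set _ _ _ (by rw [uf_len]; exact hp), uf_flag g p a ha]
      simpa [Dir.toInt] using h1
  | cons a b d R g g' p p1 p' h1 h2 _ ih =>
    obtain ⟨h3, h4, n, h5, h6⟩ := ih
    have h7 : p < g.length := (List.getElem?_eq_some_iff.1 h1).1
    rw [List.length_set] at h4 h5
    refine ⟨h7, h4, n + 1, by rw [List.length_cons]; omega, ?_⟩
    have h8 : tpp (uf g) (p : ℤ) = some (a, false) := by rw [tpp_nat, uf_get, h1]; rfl
    refine stp1 (a := some (f1 (a, b, d))) (by rw [h8]; exact Tr.s a b d) ?_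
    rw [tpp_set _ _ _ (by rw [uf_len]; exact h7), uf_set, ← h2]
    exact h6

theorem cB : ∀ (k : ℕ) (n : ℕ) (x : List (Al G)) (g : List (Option G)) (p : ℕ),
    p + k < g.length → AM n x St.S (p : ℤ) (tpp (uf g)) →
    AM (n + k + 1) x St.B ((p + k : ℕ) : ℤ) (tpp (flag g p)) := by
  intro k
  induction k with
  | zero =>
    intro n x g p hp h
    obtain ⟨a, ha⟩ : ∃ a, g[p]? = some a := ⟨_, List.getElem?_eq_getElem hp⟩
    have h2 : tpp (flag g p) ((p + 0 : ℕ) : ℤ) = some (a, true) := by
      rw [tpp_nat, flag_get, Nat.add_zero, ha]; simp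
    refine stp1 (a := none) (by rw [h2]; exact Tr.bs a) ?_
    rw [Nat.add_zero, tpp_set _ _ _ (by rw [flag_len]; exact hp), flag_uf g p a ha]
    simpa [Dir.toInt] using h
  | succ k ih =>
    intro n x g p hp h
    obtain ⟨a, ha⟩ : ∃ a, g[p + (k + 1)]? = some a := ⟨_, List.getElem?_eq_getElem hp⟩
    have h2 : tpp (flag g p) ((p + (k + 1) : ℕ) : ℤ) = some (a, false) := by
      rw [tpp_nat, flag_get, ha]; simp
    refine stp1 (a := none) (by rw [h2]; exact Tr.b a) ?_
    rw [← h2, Function.update_eq_self]
    have h5 : ((p + (k + 1) : ℕ) : ℤ) + Dir.left.toInt = ((p + k : ℕ) : ℤ) := by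
      simp only [Dir.toInt]; push_cast; ring
    rw [h5]
    exact ih n x g p (by omega) h

theorem cW1 : ∀ (l g : List (Option G)) (p : ℕ) (n : ℕ) (x : List (Al G)), p < g.length →
    AM n x St.S (p : ℤ) (tpp (uf (g ++ l))) →
    AM (n + (g ++ l).length + l.length + 1 - p) ((uf l).map f0 ++ x) St.W1
      (g.length : ℤ) (tpp (flag g p)) := by
  intro l
  induction l with
  | nil =>
    intro g p n x hp h
    rw [List.append_nil] at h ⊢
    have h1 := cB (g.length - 1 - p) n x g p (by omega) h
    have h2 : n + g.length + ([] : List (Option G)).length + 1 - p =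
        (n + (g.length - 1 - p) + 1) + 1 := by rw [List.length_nil]; omega
    rw [h2]
    refine stp1 (a := none) (Tr.w1e _) ?_
    rw [Function.update_eq_self]
    have h5 : (g.length : ℤ) + Dir.left.toInt = ((p + (g.length - 1 - p) : ℕ) : ℤ) := by
      simp only [Dir.toInt]; omega
    rw [h5]
    exact h1
  | cons a l ih =>
    intro g p n x hp h
    have h0 : g ++ a :: l = g ++ [a] ++ l := by simp
    rw [h0] at h ⊢
    have h1 := ih (g ++ [a]) p n x (by simp; omega) h
    have h2 : n + (g ++ [a] ++ l).length + (a :: l).length + 1 - p =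
        (n + (g ++ [a] ++ l).length + l.length + 1 - p) + 1 := by
      simp only [List.length_append, List.length_cons, List.length_nil]; omega
    rw [h2]
    refine stp1 (a := some (f0 (a, false))) (y := (uf l).map f0 ++ x) (Tr.w1 a _) ?_
    rw [← flag_len g p, tpp_app, flag_len]
    have h5 : flag g p ++ [(a, false)] = flag (g ++ [a]) p := by
      rw [flag_app g [a] p hp]; rfl
    rw [h5]
    simpa [Dir.toInt] using h1

theorem cW0 : ∀ (l g : List (Option G)) (a : Option G) (r : List (Option G)) (n : ℕ)
    (x : List (Al G)), AM n x St.S ((g ++ l).length : ℤ) (tpp (uf (g ++ l ++ a :: r))) →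
    AM (n + l.length + 2 * r.length + 3) ((uf l ++ (a, true) :: uf r).map f0 ++ x) St.W0
      (g.length : ℤ) (tpp (uf g)) := by
  intro l
  induction l with
  | nil =>
    intro g a r n x h
    rw [List.append_nil] at h
    have h0 : g ++ a :: r = g ++ [a] ++ r := by simp
    rw [h0] at h
    have h1 := cW1 r (g ++ [a]) g.length n x (by simp) h
    have h2 : n + ([] : List (Option G)).length + 2 * r.length + 3 =
        (n + (g ++ [a] ++ r).length + r.length + 1 - g.length) + 1 := by
      simp only [List.length_append, List.length_cons, List.length_nil]; omega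
    rw [h2]
    refine stp1 (a := some (f0 (a, true))) (y := (uf r).map f0 ++ x) (Tr.w0t a _) ?_
    rw [← uf_len g, tpp_app, uf_len]
    have h5 : uf g ++ [(a, true)] = flag (g ++ [a]) g.length := by
      rw [flag_mid]; rfl
    rw [h5]
    simpa [Dir.toInt] using h1
  | cons c l ih =>
    intro g a r n x h
    have h0 : g ++ c :: l = g ++ [c] ++ l := by simp
    rw [h0] at h
    have h1 := ih (g ++ [c]) a r n x h
    have h2 : n + (c :: l).length + 2 * r.length + 3 =
        (n + l.length + 2 * r.length + 3) + 1 := by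
      simp only [List.length_cons]; omega
    rw [h2]
    refine stp1 (a := some (f0 (c, false))) (y := (uf l ++ (a, true) :: uf r).map f0 ++ x)
      (Tr.w0f c _) ?_
    rw [← uf_len g, tpp_app, uf_len, uf_snoc]
    simpa [Dir.toInt] using h1

end SimL_aux

open SimL_aux in
theorem tSimL : S_SimL := by
  intro G _
  refine ⟨Ma G, 8, ?_, ?_⟩
  · rintro x ⟨s, R, e, hx, g, g', p, p', hs, he, hR⟩
    obtain ⟨h1, h2, n, h3, h4⟩ := cS hR
    obtain ⟨l, a, r, hg, hl⟩ : ∃ (l : List (Option G)) (a : Option G) (r : List (Option G)),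
        g = l ++ a :: r ∧ l.length = p := by
      refine ⟨g.take p, g[p], g.drop (p + 1), ?_, by simp; omega⟩
      rw [← List.drop_eq_getElem_cons h1, List.take_append_drop]
    have h5 : AM n (R.map f1 ++ (flag g' p').map fC) St.S
        ((([] : List (Option G)) ++ l).length : ℤ) (tpp (uf ([] ++ l ++ a :: r))) := by
      rw [List.nil_append, ← hg, hl]
      exact h4
    have h6 := cW0 l [] a r n _ h5
    have h7 : x = (uf l ++ (a, true) :: uf r).map f0 ++ (R.map f1 ++ (flag g' p').map fC) := by
      rw [← flag_mid, ← hg, hl, ← hs, hx, he]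
    refine ⟨n + l.length + 2 * r.length + 3, ?_, ?_⟩
    · rw [h7]
      have h8 : g.length = l.length + 1 + r.length := by rw [hg]; simp; omega
      simp only [List.length_append, List.length_map, List.length_cons, uf_len, flag_len]
      omega
    · rw [h7]
      have h9 : tpp (uf ([] : List (Option G))) = fun _ => none := tpp_nil
      rw [h9] at h6
      exact h6
  · intro n x h
    have h9 : tpp (uf ([] : List (Option G))) = fun _ => none := tpp_nil
    have h1 : AM n x St.W0 ((([] : List (Option G)).length : ℕ) : ℤ)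
        (tpp (uf ([] : List (Option G)))) := by
      rw [h9]
      exact h
    obtain ⟨s, R, e, h2, h3⟩ := sndW0 n x [] h1
    exact ⟨s, R, e, h2, h3⟩

end MPdee884H3
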