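import Pool.Agent.Lib.MP_dee884_lc.H3.Spec

namespace MPdee884H3

open MPdee884H1 MPdee884H2 Pool.Agent.Lin

namespace SimS_aux

theorem seqOut_fm {X Y : Type} (φ : X → Option Y) (w : List X) :
    seqOut (fun (_ : Unit) x => ((), φ x)) () w = w.flatMap (fun x => (φ x).toList) := by
  induction w with
  | nil => rfl
  | cons a w ih => simp only [seqOut, List.flatMap_cons, ih]

theorem fm_nil {A B : Type} (v : List A) : v.flatMap (fun _ => ([] : List B)) = [] := by
  induction v with
  | nil => rfl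
  | cons a v ih => rw [List.flatMap_cons, ih]; rfl

theorem dec_inj {A B : Type} {s s' : List A} {R R' : List B} {e e' : List A}
    (h : s.map (Sum.inl : A → A ⊕ (B ⊕ A)) ++ (R.map (fun r => Sum.inr (Sum.inl r)) ++
      e.map (fun r => Sum.inr (Sum.inr r))) = s'.map (Sum.inl : A → A ⊕ (B ⊕ A)) ++
      (R'.map (fun r => Sum.inr (Sum.inl r)) ++ e'.map (fun r => Sum.inr (Sum.inr r)))) :
    s = s' ∧ R = R' ∧ e = e' := by
  let f1 : A ⊕ (B ⊕ A) → List A := fun y => match y with
    | Sum.inl a => [a]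
    | _ => []
  let f2 : A ⊕ (B ⊕ A) → List B := fun y => match y with
    | Sum.inr (Sum.inl a) => [a]
    | _ => []
  let f3 : A ⊕ (B ⊕ A) → List A := fun y => match y with
    | Sum.inr (Sum.inr a) => [a]
    | _ => []
  have h1 := congrArg (List.flatMap f1) h
  have h2 := congrArg (List.flatMap f2) h
  have h3 := congrArg (List.flatMap f3) h
  simp only [List.flatMap_append, List.flatMap_map, f1, f2, f3] at h1 h2 h3
  simp only [fm_nil, List.nil_append, List.append_nil] at h1 h2 h3
  simp at h1 h2 h3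
  exact ⟨h1, h2, h3⟩

end SimS_aux

theorem tSimS : S_TR → S_SimL → S_Scan → S_SimS := by
  intro hTR hSim hScan X Λ G _ K l mk f dec cell op s hl hs hK
  have hlt : ∀ i j : Fin 7, i < j → (s i + 1) * l ≤ s j * l := fun i j hij =>
    Nat.mul_le_mul_right l (hs hij)
  have hok : ∀ i : Fin 7, (s i + 1) * l ≤ K := fun i =>
    (Nat.mul_le_mul_right l (Nat.succ_le_succ (hs.monotone (by omega)))).trans hK
  obtain ⟨Q', hQ', δ', q0', hδ⟩ := hScan (X := X) (A := Unit) (Tg := Fin 3) (Λ := Λ) K l mk
    (fun _ => ()) (fun _ => f) dec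
    [Sum.inr (s 0, 0), Sum.inr (s 1, 0), Sum.inr (s 2, 0), Sum.inr (s 3, 1), Sum.inr (s 4, 2),
      Sum.inr (s 5, 2), Sum.inr (s 6, 2)] hl (by
      simp only [List.pairwise_cons, List.mem_cons, List.not_mem_nil, or_false, forall_eq_or_imp,
        forall_eq, hi, lo, false_imp_iff, implies_true, List.Pairwise.nil, and_true]
      refine ⟨⟨?_, ?_, ?_, ?_, ?_, ?_⟩, ⟨?_, ?_, ?_, ?_, ?_⟩, ⟨?_, ?_, ?_, ?_⟩, ⟨?_, ?_, ?_⟩,
        ⟨?_, ?_⟩, ?_⟩ <;> exact hlt _ _ (by decide)) (by
      intro i hi
      simp only [List.mem_cons, List.not_mem_nil, or_false] at hi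
      rcases hi with rfl | rfl | rfl | rfl | rfl | rfl | rfl <;> exact hok _)
  let φ : Unit ⊕ (Fin 3 × Λ) → Option ((Option G × Bool) ⊕ (Op G ⊕ (Option G × Bool))) :=
    fun y => match y with
      | Sum.inl _ => none
      | Sum.inr (t, a) => some (if t = 0 then Sum.inl (cell a) else
          if t = 1 then Sum.inr (Sum.inl (op a)) else Sum.inr (Sum.inr (cell a)))
  refine ⟨{w | seqOut δ' q0' w ∈ {v : List (Unit ⊕ (Fin 3 × Λ)) |
    seqOut (fun (_ : Unit) x => ((), φ x)) () v ∈ SimL G}},
    hTR δ' q0' _ (hTR _ () _ (hSim G)), ?_⟩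
  intro w b hw
  have h1 := hδ w b hw
  simp only [Set.mem_ofPred_eq]
  rw [h1, SimS_aux.seqOut_fm]
  have h2 : (List.flatMap (outIt l (fun _ => ()) (fun _ => f) dec w b)
      [Sum.inr (s 0, 0), Sum.inr (s 1, 0), Sum.inr (s 2, 0), Sum.inr (s 3, 1), Sum.inr (s 4, 2),
      Sum.inr (s 5, 2), Sum.inr (s 6, 2)]).flatMap (fun x => (φ x).toList) =
      ((slot l dec (w.map f) b (s 0) ++ slot l dec (w.map f) b (s 1) ++
        slot l dec (w.map f) b (s 2)).map cell).map Sum.inl ++
      (((slot l dec (w.map f) b (s 3)).map op).map (fun r => Sum.inr (Sum.inl r)) ++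
      ((slot l dec (w.map f) b (s 4) ++ slot l dec (w.map f) b (s 5) ++
        slot l dec (w.map f) b (s 6)).map cell).map (fun r => Sum.inr (Sum.inr r))) := by
    simp only [List.flatMap_cons, List.flatMap_nil, List.append_nil, outIt, List.flatMap_append,
      List.flatMap_map, List.map_append, List.map_map, List.append_assoc]
    have e0 : ∀ v : List Λ, v.flatMap (fun a => (φ (Sum.inr (0, a))).toList) =
        v.map (Sum.inl ∘ cell) := by
      intro v
      induction v with
      | nil => rfl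
      | cons a v ih => rw [List.flatMap_cons, ih]; rfl
    have e1 : ∀ v : List Λ, v.flatMap (fun a => (φ (Sum.inr (1, a))).toList) =
        v.map ((fun r => Sum.inr (Sum.inl r)) ∘ op) := by
      intro v
      induction v with
      | nil => rfl
      | cons a v ih => rw [List.flatMap_cons, ih]; rfl
    have e2 : ∀ v : List Λ, v.flatMap (fun a => (φ (Sum.inr (2, a))).toList) =
        v.map ((fun r => Sum.inr (Sum.inr r)) ∘ cell) := by
      intro v
      induction v with
      | nil => rfl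
      | cons a v ih => rw [List.flatMap_cons, ih]; rfl
    simp only [e0, e1, e2]
  rw [h2]
  constructor
  · rintro ⟨s', R', e', h3, h4⟩
    obtain ⟨rfl, rfl, rfl⟩ := SimS_aux.dec_inj h3
    exact h4
  · intro h3
    exact ⟨_, _, _, rfl, h3⟩

end MPdee884H3
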