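import Pool.Agent.Lib.MP_dee884_lc.H3.Spec

namespace MPdee884H3

open MPdee884H1 MPdee884H2 Pool.Agent.Lin

namespace Snd_aux

theorem sh0 (g : ℤ) : sh g 0 = g - 1 := by simp [sh]

theorem sh1 (g : ℤ) : sh g 1 = g := by simp [sh]

theorem sh2 (g : ℤ) : sh g 2 = g + 1 := by
  have : ((2 : Fin 3) : ℕ) = 2 := rfl
  simp only [sh, this]
  push_cast
  ring

theorem ex_sh (g β : ℤ) (h : |g - β| ≤ 1) : ∃ e : Fin 3, sh g e = β := by
  rw [abs_le] at h
  have h1 : β = g - 1 ∨ β = g ∨ β = g + 1 := by omega
  rcases h1 with rfl | rfl | rfl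
  · exact ⟨0, sh0 g⟩
  · exact ⟨1, sh1 _⟩
  · exact ⟨2, sh2 g⟩

theorem div_eq {b h x : ℤ} (hb : 0 < b) (h1 : h * b ≤ x) (h2 : x < (h + 1) * b) : x / b = h :=
  le_antisymm (Int.lt_add_one_iff.1 (Int.ediv_lt_of_lt_mul hb h2)) (Int.le_ediv_of_mul_le hb h1)

theorem pr_or (g : ℕ → ℤ) (β : ℤ) (w : ℕ) : (∃ u, IsPr g β u w) ∨ NoPr g β w := by
  induction w with
  | zero => exact Or.inr (fun t ht => absurd ht (Nat.not_lt_zero _))
  | succ w ih =>
    by_cases h : |g w - β| ≤ 1
    · exact Or.inl ⟨w, Nat.lt_succ_self w, h, fun t h1 h2 => by omega⟩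
    · have h' : 2 ≤ |g w - β| := by omega
      rcases ih with ⟨u, h1, h2, h3⟩ | h1
      · refine Or.inl ⟨u, by omega, h2, fun t h4 h5 => ?_⟩
        rcases Nat.lt_succ_iff_lt_or_eq.1 h5 with h6 | h6
        · exact h3 t h4 h6
        · rw [h6]
          exact h'
      · refine Or.inr (fun t h5 => ?_)
        rcases Nat.lt_succ_iff_lt_or_eq.1 h5 with h6 | h6
        · exact h1 t h6
        · rw [h6]
          exact h'

theorem simR_lt {G : Type} {R : List (Op G)} {g g' : List (Option G)} {p p' : ℕ}
    (h : SimR R g p g' p') : p < g.length := by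
  cases h with
  | nil _ _ h => exact h
  | cons a b d R g g' p p1 p' h1 _ _ =>
    rw [List.getElem?_eq_some_iff] at h1
    exact h1.1

theorem flag_get {G : Type} (g : List (Option G)) (p i : ℕ) :
    ((flag g p)[i]?).map Prod.snd = (g[i]?).map (fun _ => decide (i = p)) := by
  unfold flag
  rw [List.getElem?_mapIdx]
  cases g[i]? with
  | none => rfl
  | some a => rfl

theorem pos {G : Type} {b : ℕ} {s0 s1 s2 : List (Option G × Bool)} {R : List (Op G)}
    {e : List (Option G × Bool)} (l0 : s0.length = b) (l1 : s1.length = b) (l2 : s2.length = b)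
    (f0 : ∀ a ∈ s0, a.2 = false) (f2 : ∀ a ∈ s2, a.2 = false) (h : SimW (s0 ++ s1 ++ s2) R e) :
    ∃ o < b, ∀ i < b, (s1[i]?).map Prod.snd = some (decide (i = o)) := by
  obtain ⟨g, g', p, p', h1, _, h3⟩ := h
  have hp := simR_lt h3
  have hlen : g.length = 3 * b := by
    have := congrArg List.length h1
    simp only [flag, List.length_append, List.length_mapIdx, l0, l1, l2] at this
    omega
  have hsome : ∀ i < 3 * b, ((s0 ++ s1 ++ s2)[i]?).map Prod.snd = some (decide (i = p)) := by
    intro i hi
    rw [h1, flag_get]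
    obtain ⟨a, ha⟩ : ∃ a, g[i]? = some a := ⟨g[i], List.getElem?_eq_getElem (by omega)⟩
    rw [ha]
    rfl
  have hs1 : ∀ i < b, (s0 ++ s1 ++ s2)[b + i]? = s1[i]? := by
    intro i hi
    rw [List.getElem?_append_left (by rw [List.length_append]; omega),
      List.getElem?_append_right (by omega), l0, Nat.add_sub_cancel_left]
  have hpb : b ≤ p := by
    by_contra hcon
    have h4 := hsome p (by omega)
    rw [List.getElem?_append_left (by rw [List.length_append]; omega),
      List.getElem?_append_left (by omega), List.getElem?_eq_getElem (by omega)] at h4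
    have h5 := f0 _ (List.getElem_mem (l := s0) (n := p) (by omega))
    simp only [Option.map_some, decide_true, Option.some.injEq] at h4
    rw [h5] at h4
    exact absurd h4 (by decide)
  have hpb2 : p < 2 * b := by
    by_contra hcon
    have h4 := hsome p (by omega)
    rw [List.getElem?_append_right (by rw [List.length_append]; omega), List.length_append,
      l0, l1, List.getElem?_eq_getElem (by omega)] at h4
    have h5 := f2 _ (List.getElem_mem (l := s2) (n := p - (b + b)) (by omega))
    simp only [Option.map_some, decide_true, Option.some.injEq] at h4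
    rw [h5] at h4
    exact absurd h4 (by decide)
  refine ⟨p - b, by omega, ?_⟩
  intro i hi
  rw [← hs1 i hi, hsome (b + i) (by omega)]
  have : (b + i = p) ↔ (i = p - b) := by omega
  simp only [this]

theorem pair_ext {A B : Type} : ∀ (l1 l2 : List (A × B)), l1.map Prod.fst = l2.map Prod.fst →
    l1.map Prod.snd = l2.map Prod.snd → l1 = l2
  | [], [], _, _ => rfl
  | [], b :: l2, h, _ => by simp at h
  | a :: l1, [], h, _ => by simp at h
  | a :: l1, b :: l2, h1, h2 => by
    simp only [List.map_cons, List.cons.injEq] at h1 h2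
    rw [pair_ext l1 l2 h1.2 h2.2, Prod.ext h1.1 h2.1]

theorem map_false {A : Type} {l : List (A × Bool)} (h : ∀ a ∈ l, a.2 = false) :
    l.map Prod.snd = List.replicate l.length false := by
  rw [List.eq_replicate_iff]
  refine ⟨by rw [List.length_map], ?_⟩
  intro x hx
  obtain ⟨a, ha, rfl⟩ := List.mem_map.1 hx
  exact h a ha

section

variable {K : Type} {Γ : K → Type} {M : TM K Γ}

theorem bc_len (c : AC M) (k : K) (b : ℕ) (β : ℤ) : (bc c k b β).length = b := by
  simp [bc]

theorem bc_get (c : AC M) (k : K) (b : ℕ) (β : ℤ) {i : ℕ} (hi : i < b) :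
    (bc c k b β)[i]? = some (cel c k (β * b + i)) := by
  simp only [bc, List.getElem?_map]
  rw [List.getElem?_eq_getElem (by rw [List.length_range]; exact hi)]
  simp

theorem run_succ (τ : (k : K) → ℤ → Option (Γ k)) (b w : ℕ) :
    (astep M)^[b] (run M τ (w * b)) = run M τ ((w + 1) * b) := by
  unfold run
  rw [← Function.iterate_add_apply]
  congr 1
  ring_nf

theorem app3 {A : Type} {b : ℕ} {a0 a1 a2 c0 c1 c2 : List A} (h0 : a0.length = b)
    (h1 : a1.length = b) (h0' : c0.length = b) (h1' : c1.length = b)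
    (h : a0 ++ a1 ++ a2 = c0 ++ c1 ++ c2) : a0 = c0 ∧ a1 = c1 ∧ a2 = c2 := by
  obtain ⟨e1, e2⟩ := List.append_inj h (by simp only [List.length_append, h0, h1, h0', h1'])
  obtain ⟨e3, e4⟩ := List.append_inj e1 (by rw [h0, h0'])
  exact ⟨e3, e4, e2⟩

end

end Snd_aux

open Snd_aux in
theorem tSnd : S_Mov → S_Win → S_Snd := by
  classical
  intro hMov hWin K Γ _ M τ b N h q J Y hb hN h0 hst hq0 hGood
  obtain ⟨m1, m2, m3, m4⟩ := hMov M τ b hb
  have hbz : (0 : ℤ) < b := by exact_mod_cast hb
  have hpred : ∀ k w, w + 1 < N → IsPr (h k) (sh (h k (w + 1)) 1) w (w + 1) := by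
    intro k w hw
    refine ⟨Nat.lt_succ_self w, ?_, fun t h1 h2 => by omega⟩
    rw [sh1, abs_sub_comm]
    exact hst k w hw
  have hpath : ∀ n w, w + n + 1 = N → ∃ v, v < N ∧ (v ∈ J ∨ v + 1 = N) ∧ Anc (Ed h) J v w := by
    intro n
    induction n with
    | zero =>
      intro w hw
      exact ⟨w, by omega, Or.inr (by omega), Anc.self⟩
    | succ n ih =>
      intro w hw
      by_cases hj : w ∈ J
      · exact ⟨w, by omega, Or.inl hj, Anc.self⟩
      · obtain ⟨v, hv1, hv2, hv3⟩ := ih (w + 1) (by omega)
        refine ⟨v, hv1, hv2, Anc.step w (w + 1) hv3 ?_ hj⟩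
        obtain ⟨k⟩ := ‹Nonempty K›
        exact ⟨k, 1, hpred k w (by omega)⟩
  have hpath' : ∀ w, w < N → ∃ v d, Good M τ b h q J Y d v ∧ Anc (Ed h) J v w := by
    intro w hw
    obtain ⟨v, hv1, hv2, hv3⟩ := hpath (N - 1 - w) w (by omega)
    obtain ⟨d, hd⟩ := hGood v hv1 hv2
    exact ⟨v, d, hd, hv3⟩
  have claim : ∀ w, w < N → (∀ k, h k w = hd M τ b k w) ∧ q w = (run M τ (w * b)).1 ∧
      (∀ v d, Good M τ b h q J Y d v → Anc (Ed h) J v w →
        (∀ k e, d.ec w k e = bc (run M τ ((w + 1) * b)) k b (sh (h k w) e)) ∧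
        q (w + 1) = (run M τ ((w + 1) * b)).1) ∧
      (w ∈ J → ∀ k e, Y w k e = bc (run M τ ((w + 1) * b)) k b (sh (h k w) e)) := by
    intro w
    induction w using Nat.strong_induction_on with
    | _ w ih =>
    intro hw
    -- predecessors
    have hpr : ∀ v d, Good M τ b h q J Y d v → Anc (Ed h) J v w → ∀ k e u,
        IsPr (h k) (sh (h k w) e) u w →
        d.sc w k e = bc (run M τ ((u + 1) * b)) k b (sh (h k w) e) := by
      intro v d hd hA k e u hu
      obtain ⟨e', he'⟩ := ex_sh (h k u) (sh (h k w) e) hu.2.1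
      have iu := ih u hu.1 (hu.1.trans hw)
      by_cases hj : u ∈ J
      · rw [(hd.loc w hA).prY k e u hu hj e' he', iu.2.2.2 hj k e', he']
      · rw [(hd.loc w hA).prE k e u hu hj e' he',
          (iu.2.2.1 v d hd (Anc.step u w hA ⟨k, e, hu⟩ hj)).1 k e', he']
    have hfl : ∀ v d, Good M τ b h q J Y d v → Anc (Ed h) J v w → ∀ k,
        ∃ o < b, ∀ i < b, ((d.sc w k 1)[i]?).map Prod.snd = some (decide (i = o)) := by
      intro v d hd hA k
      have hl := hd.loc w hA
      exact pos (hl.lsc k 0) (hl.lsc k 1) (hl.lsc k 2) (hl.fl0 k) (hl.fl2 k) (hl.sim k)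
    -- (a)
    have ha : ∀ k, h k w = hd M τ b k w ∧ h k w * b ≤ (run M τ (w * b)).2.2 k ∧
        (run M τ (w * b)).2.2 k < (h k w + 1) * b := by
      intro k
      rcases Nat.eq_zero_or_pos w with h1 | h1
      · subst h1
        have e1 : (run M τ (0 * b)).2.2 k = 0 := by
          rw [Nat.zero_mul]
          rfl
        rw [e1, h0 k]
        refine ⟨(m1 k).symm, by simp, by simpa using hbz⟩
      · obtain ⟨v, d, hd, hA⟩ := hpath' w hw
        have hp := hpred k (w - 1) (by omega)
        rw [Nat.sub_add_cancel h1] at hp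
        have e1 := hpr v d hd hA k 1 (w - 1) hp
        rw [Nat.sub_add_cancel h1, sh1] at e1
        obtain ⟨o, ho, hfo⟩ := hfl v d hd hA k
        have e2 := hfo o ho
        rw [e1, bc_get _ _ _ _ ho] at e2
        simp only [Option.map_some, decide_true, Option.some.injEq, cel, decide_eq_true_eq] at e2
        have ho' : (o : ℤ) < b := by exact_mod_cast ho
        have a1 : h k w * b ≤ (run M τ (w * b)).2.2 k := by rw [e2]; omega
        have a2 : (run M τ (w * b)).2.2 k < (h k w + 1) * b := by rw [e2, add_mul]; omega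
        exact ⟨(div_eq hbz a1 a2).symm, a1, a2⟩
    -- (b)
    have hbq : q w = (run M τ (w * b)).1 := by
      rcases Nat.eq_zero_or_pos w with h1 | h1
      · subst h1
        rw [hq0, Nat.zero_mul]
        rfl
      · obtain ⟨v, d, hd, hA⟩ := hpath' (w - 1) (by omega)
        have e1 := ((ih (w - 1) (by omega) (by omega)).2.2.1 v d hd hA).2
        rw [Nat.sub_add_cancel h1] at e1
        exact e1
    -- the blocks at the beginning
    have hsc : ∀ v d, Good M τ b h q J Y d v → Anc (Ed h) J v w → ∀ k e,
        d.sc w k e = bc (run M τ (w * b)) k b (sh (h k w) e) := by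
      intro v d hd hA k e
      have hl := hd.loc w hA
      rcases pr_or (h k) (sh (h k w) e) w with ⟨u, hu⟩ | hno
      · rw [hpr v d hd hA k e u hu]
        refine m3 k _ u w hu.1 (fun t h1 h2 => ?_)
        rw [← (ih t h2 (h2.trans hw)).1 k]
        exact hu.2.2 t h1 h2
      · have hno' : NoPr (MPdee884H3.hd M τ b k) (sh (h k w) e) w := by
          intro t ht
          rw [← (ih t ht (ht.trans hw)).1 k]
          exact hno t ht
        refine pair_ext _ _ ((hl.prI k e hno).trans (m4 k _ w hno').symm) ?_
        obtain ⟨_, a1, a2⟩ := ha k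
        have hcase : e = 0 ∨ e = 1 ∨ e = 2 := by
          revert e
          intro e _ _
          have := e.2
          have h3 : e.1 = 0 ∨ e.1 = 1 ∨ e.1 = 2 := by omega
          rcases h3 with h3 | h3 | h3
          · exact Or.inl (Fin.ext h3)
          · exact Or.inr (Or.inl (Fin.ext h3))
          · exact Or.inr (Or.inr (Fin.ext h3))
        rcases hcase with rfl | rfl | rfl
        · rw [map_false (hl.fl0 k), map_false, hl.lsc, bc_len]
          intro a haa
          simp only [bc, List.mem_map, List.mem_range] at haa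
          obtain ⟨o, ho, rfl⟩ := haa
          have ho' : (o : ℤ) < b := by exact_mod_cast ho
          simp only [cel, decide_eq_false_iff_not]
          rw [sh0, sub_mul]
          omega
        · rcases Nat.eq_zero_or_pos w with h1 | h1
          · subst h1
            obtain ⟨o, ho, hfo⟩ := hfl v d hd hA k
            have e1 := hl.fl1 rfl k
            rw [hfo 0 (by omega)] at e1
            simp only [Option.some.injEq, decide_eq_true_eq] at e1
            subst e1
            refine List.ext_getElem? (fun i => ?_)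
            by_cases hi : i < b
            · rw [List.getElem?_map, List.getElem?_map, hfo i hi, bc_get _ _ _ _ hi]
              have e2 : (run M τ 0).2.2 k = 0 := rfl
              simp only [Option.map_some, cel, Option.some.injEq, e2, sh1, h0 k,
                zero_mul, zero_add]
              rw [decide_eq_decide]
              omega
            · rw [List.getElem?_eq_none (by rw [List.length_map, hl.lsc]; omega),
                List.getElem?_eq_none (by rw [List.length_map, bc_len]; omega)]
          · exfalso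
            have e1 := hno (w - 1) (by omega)
            have e2 := hst k (w - 1) (by omega)
            rw [Nat.sub_add_cancel h1] at e2
            rw [sh1, abs_sub_comm] at e1
            omega
        · rw [map_false (hl.fl2 k), map_false, hl.lsc, bc_len]
          intro a haa
          simp only [bc, List.mem_map, List.mem_range] at haa
          obtain ⟨o, ho, rfl⟩ := haa
          simp only [cel, decide_eq_false_iff_not]
          rw [sh2]
          omega
    -- (c)
    have hcc : ∀ v d, Good M τ b h q J Y d v → Anc (Ed h) J v w →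
        (∀ k e, d.ec w k e = bc (run M τ ((w + 1) * b)) k b (sh (h k w) e)) ∧
        q (w + 1) = (run M τ ((w + 1) * b)).1 := by
      intro v d hd hA
      have hl := hd.loc w hA
      have hwin := (hWin M b (run M τ (w * b)) (fun k => h k w) hb
        (fun k => ⟨(ha k).2.1, (ha k).2.2⟩) (d.rc w) (q (w + 1))
        (fun k => d.ec w k 0 ++ d.ec w k 1 ++ d.ec w k 2) (hl.lrc)).1 (by
          refine ⟨by rw [← hbq]; exact hl.chn, fun k => ?_⟩
          have e1 : win (run M τ (w * b)) k b (h k w) =
              d.sc w k 0 ++ d.sc w k 1 ++ d.sc w k 2 := by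
            rw [hsc v d hd hA k 0, hsc v d hd hA k 1, hsc v d hd hA k 2, sh0, sh1, sh2]
            rfl
          rw [e1]
          exact hl.sim k)
      rw [run_succ] at hwin
      obtain ⟨_, w2, w3⟩ := hwin
      refine ⟨fun k e => ?_, w2⟩
      obtain ⟨e0, e1, e2⟩ := app3 (hl.lec k 0) (hl.lec k 1) (bc_len _ _ _ _) (bc_len _ _ _ _)
        (w3 k)
      have h3 : e.1 = 0 ∨ e.1 = 1 ∨ e.1 = 2 := by omega
      rcases h3 with h3 | h3 | h3
      · have : e = 0 := Fin.ext h3
        subst this
        rw [sh0]
        exact e0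
      · have : e = 1 := Fin.ext h3
        subst this
        rw [sh1]
        exact e1
      · have : e = 2 := Fin.ext h3
        subst this
        rw [sh2]
        exact e2
    refine ⟨fun k => (ha k).1, hbq, hcc, ?_⟩
    intro hj k e
    obtain ⟨d, hd⟩ := hGood w hw (Or.inl hj)
    rw [← hd.top hj k e]
    exact (hcc w d hd Anc.self).1 k e
  obtain ⟨d, hd⟩ := hGood (N - 1) (by omega) (Or.inr (by omega))
  have e1 := ((claim (N - 1) (by omega)).2.2.1 (N - 1) d hd Anc.self).2
  rw [Nat.sub_add_cancel hN] at e1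
  exact e1

end MPdee884H3
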