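import Pool.Agent.Lib.MP_dee884_lc.H3.Spec

/-!
# MP_dee884_lc, H3: inverse images of one-tape languages by transducers
-/

set_option autoImplicit false

namespace MPdee884H3

open MPdee884H1 MPdee884H2 Pool.Agent.Lin

namespace TR_aux

variable {Q X Y : Type}

/-- the transitions of the product machine -/
inductive Tr (δ : Q → X → Q × Option Y) (M : NTM Y) :
    Q × M.S → Option X → Option M.G → Q × M.S → Option M.G → Dir → Prop
  | eps (q : Q) (s s' : M.S) (g g' : Option M.G) (d : Dir) : M.tr s none g s' g' d →
      Tr δ M (q, s) none g (q, s') g' d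
  | out (q : Q) (x : X) (y : Y) (s s' : M.S) (g g' : Option M.G) (d : Dir) :
      (δ q x).2 = some y → M.tr s (some y) g s' g' d →
      Tr δ M (q, s) (some x) g ((δ q x).1, s') g' d
  | sil (q : Q) (x : X) (s : M.S) (g : Option M.G) : (δ q x).2 = none →
      Tr δ M (q, s) (some x) g ((δ q x).1, s) g Dir.stay

/-- the product machine -/
def PM [Finite Q] (δ : Q → X → Q × Option Y) (q0 : Q) (M : NTM Y) : NTM X where
  S := Q × M.S
  G := M.G
  finS := by
    haveI := M.finS
    infer_instance
  finG := M.finG
  start := (q0, M.start)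
  acc s := M.acc s.2
  tr := Tr δ M

theorem seqOut_length (δ : Q → X → Q × Option Y) (w : List X) :
    ∀ q, (seqOut δ q w).length ≤ w.length := by
  induction w with
  | nil => intro q; simp [seqOut]
  | cons x w ih =>
    intro q
    rw [seqOut, List.length_append, List.length_cons]
    have h1 := ih (δ q x).1
    have h2 : (δ q x).2.toList.length ≤ 1 := by
      cases (δ q x).2 <;> simp
    omega

theorem sil_step [Finite Q] (δ : Q → X → Q × Option Y) (q0 : Q) (M : NTM Y) (n : ℕ) (x : X)
    (w : List X) (q : Q) (s : M.S) (p : ℤ) (t : ℤ → Option M.G) (h : (δ q x).2 = none)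
    (hA : (PM δ q0 M).Acc n w ((δ q x).1, s) p t) : (PM δ q0 M).Acc (n + 1) (x :: w) (q, s) p t := by
  have h1 := NTM.Acc.step (M := PM δ q0 M) n (some x) w (q, s) ((δ q x).1, s) p t (t p) Dir.stay
    (Tr.sil q x s (t p) h) (by
      have h2 : p + Dir.stay.toInt = p := by
        simp [Dir.toInt]
      have h3 : Function.update t p (t p) = t := Function.update_eq_self p t
      rw [h2]
      exact Eq.subst (motive := fun t' => (PM δ q0 M).Acc n w ((δ q x).1, s) p t') h3.symm hA)
  exact h1

theorem complete [Finite Q] (δ : Q → X → Q × Option Y) (q0 : Q) (M : NTM Y) (n : ℕ) (v : List Y)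
    (s : M.S) (p : ℤ) (t : ℤ → Option M.G) (h : M.Acc n v s p t) :
    ∀ (w : List X) (q : Q), seqOut δ q w = v →
      ∃ n' ≤ n + w.length, (PM δ q0 M).Acc n' w (q, s) p t := by
  induction h with
  | done s p t hs =>
    intro w
    induction w with
    | nil =>
      intro q _
      exact ⟨0, Nat.zero_le _, NTM.Acc.done (M := PM δ q0 M) (q, s) p t hs⟩
    | cons x w ih =>
      intro q hq
      rw [seqOut, List.append_eq_nil_iff] at hq
      obtain ⟨n', hn', hA⟩ := ih _ hq.2
      have hx : (δ q x).2 = none := by
        cases hx : (δ q x).2 with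
        | none => rfl
        | some y =>
          rw [hx] at hq
          simp at hq
      refine ⟨n' + 1, ?_, sil_step δ q0 M n' x w q s p t hx hA⟩
      rw [List.length_cons]
      omega
  | step n a v s s' p t b d htr _ ih =>
    cases a with
    | none =>
      intro w q hq
      obtain ⟨n', hn', hA⟩ := ih w q hq
      refine ⟨n' + 1, by omega, ?_⟩
      exact NTM.Acc.step (M := PM δ q0 M) n' none w (q, s) (q, s') p t b d
        (Tr.eps q s s' (t p) b d htr) hA
    | some y =>
      intro w
      induction w with
      | nil =>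
        intro q hq
        simp [seqOut] at hq
      | cons x w ihw =>
        intro q hq
        rw [seqOut] at hq
        cases hx : (δ q x).2 with
        | none =>
          rw [hx] at hq
          obtain ⟨n', hn', hA⟩ := ihw (δ q x).1 hq
          refine ⟨n' + 1, ?_, sil_step δ q0 M n' x w q s p t hx hA⟩
          rw [List.length_cons]
          omega
        | some y' =>
          rw [hx] at hq
          have h1 : y' = y ∧ seqOut δ (δ q x).1 w = v := by
            simpa using hq
          obtain ⟨n', hn', hA⟩ := ih w (δ q x).1 h1.2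
          refine ⟨n' + 1, ?_, ?_⟩
          · rw [List.length_cons]
            omega
          · exact NTM.Acc.step (M := PM δ q0 M) n' (some x) w (q, s) ((δ q x).1, s') p t b d
              (Tr.out q x y s s' (t p) b d (by rw [hx, h1.1]) htr) hA

theorem sound [Finite Q] (δ : Q → X → Q × Option Y) (q0 : Q) (M : NTM Y) (n : ℕ) (w : List X)
    (σ : (PM δ q0 M).S) (p : ℤ) (t : ℤ → Option (PM δ q0 M).G) (h : (PM δ q0 M).Acc n w σ p t) :
    ∃ m, M.Acc m (seqOut δ (Prod.fst (α := Q) (β := M.S) σ) w) (Prod.snd (α := Q) (β := M.S) σ) p t := by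
  induction h with
  | done σ p t hs => exact ⟨0, NTM.Acc.done _ _ _ hs⟩
  | step n a w σ σ' p t b d htr _ ih =>
    obtain ⟨m, hm⟩ := ih
    have htr' : Tr δ M σ a (t p) σ' b d := htr
    generalize hg : t p = g at htr'
    cases htr' with
    | eps q s s' g g' d h =>
      refine ⟨m + 1, ?_⟩
      exact NTM.Acc.step m none (seqOut δ q w) s s' p t b d (by rw [hg]; exact h) hm
    | out q x y s s' g g' d hx h =>
      refine ⟨m + 1, ?_⟩
      have h1 := NTM.Acc.step m (some y) (seqOut δ (δ q x).1 w) s s' p t b d (by rw [hg]; exact h) hm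
      have h2 : seqOut δ q ((some x).toList ++ w) = (some y).toList ++ seqOut δ (δ q x).1 w := by
        change (δ q x).2.toList ++ seqOut δ (δ q x).1 w = _
        rw [hx]
      rw [h2]
      exact h1
    | sil q x s g hx =>
      refine ⟨m, ?_⟩
      have h2 : seqOut δ q ((some x).toList ++ w) = seqOut δ (δ q x).1 w := by
        change (δ q x).2.toList ++ _ = _
        rw [hx]
        rfl
      rw [h2]
      have h3 : p + Dir.stay.toInt = p := by
        simp [Dir.toInt]
      rw [← hg, h3] at hm
      have h4 : Function.update t p (t p) = t := Function.update_eq_self p t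
      rw [h4] at hm
      exact hm

end TR_aux

open TR_aux in
theorem tTR : S_TR := by
  intro Q X Y _ δ q0 V hV
  obtain ⟨M, c, h1, h2⟩ := hV
  refine ⟨PM δ q0 M, c + 1, ?_, ?_⟩
  · intro w hw
    rw [Set.mem_ofPred_eq] at hw
    obtain ⟨n, hn, hA⟩ := h1 _ hw
    obtain ⟨n', hn', hA'⟩ := complete δ q0 M n _ _ _ _ hA w q0 rfl
    refine ⟨n', ?_, hA'⟩
    have h3 := seqOut_length δ w q0
    have h4 : c * ((seqOut δ q0 w).length + 1) ≤ c * (w.length + 1) :=
      Nat.mul_le_mul_left c (by omega)
    calc n' ≤ n + w.length := hn'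
      _ ≤ c * (w.length + 1) + (w.length + 1) := by omega
      _ = (c + 1) * (w.length + 1) := by ring
  · intro n w hA
    rw [Set.mem_ofPred_eq]
    obtain ⟨m, hm⟩ := sound δ q0 M n w _ _ _ hA
    exact h2 m _ hm

end MPdee884H3
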