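import Pool.Agent.Lib.MP_dee884_lc.H3.Spec

/-!
# MP_dee884_lc, H3: one segment
-/

set_option autoImplicit false

namespace MPdee884H3

open MPdee884H1 MPdee884H2 Pool.Agent.Lin

namespace Win_aux

variable {K : Type} {Γ : K → Type}

/-! ### flags -/

theorem flag_get {G : Type} (g : List (Option G)) (p i : ℕ) :
    (flag g p)[i]? = (g[i]?).map (fun a => (a, decide (i = p))) := by
  rw [flag, List.getElem?_mapIdx]

theorem flag_inj {G : Type} {g g2 : List (Option G)} {p p2 : ℕ} (h : flag g p = flag g2 p2)
    (hp : p < g.length) : g = g2 ∧ p = p2 := by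
  have h1 : ∀ i : ℕ, (g[i]?).map (fun a => (a, decide (i = p))) =
      (g2[i]?).map (fun a => (a, decide (i = p2))) := by
    intro i
    rw [← flag_get, ← flag_get, h]
  have hg : g = g2 := by
    refine List.ext_getElem? fun i => ?_
    have h2 := congrArg (Option.map Prod.fst) (h1 i)
    rw [Option.map_map, Option.map_map] at h2
    have h3 : ∀ q : ℕ, (Prod.fst ∘ fun a : Option G => (a, decide (i = q))) = id := by
      intro q
      rfl
    rw [h3, h3, Option.map_id, id, id] at h2
    exact h2
  refine ⟨hg, ?_⟩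
  have h2 := h1 p
  rw [← hg, List.getElem?_eq_getElem hp] at h2
  simp only [Option.map_some, Option.some.injEq, Prod.mk.injEq, true_and] at h2
  by_contra hne
  simp [hne] at h2

/-! ### operations -/

theorem simR_lt {G : Type} {R : List (Op G)} {g g' : List (Option G)} {p p' : ℕ}
    (h : SimR R g p g' p') : p < g.length := by
  cases h with
  | nil _ _ h => exact h
  | cons a b d R g g' p p1 p' h1 h2 h3 =>
    by_contra hcon
    rw [List.getElem?_eq_none (by omega)] at h1
    cases h1

theorem simR_nil {G : Type} {g g' : List (Option G)} {p p' : ℕ} :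
    SimR [] g p g' p' ↔ g' = g ∧ p' = p ∧ p < g.length := by
  constructor
  · intro h
    cases h with
    | nil _ _ h => exact ⟨rfl, rfl, h⟩
  · rintro ⟨rfl, rfl, h⟩
    exact SimR.nil _ _ h

theorem simR_cons {G : Type} {x y : Option G} {d : Dir} {R : List (Op G)}
    {g g' : List (Option G)} {p p' : ℕ} :
    SimR ((x, y, d) :: R) g p g' p' ↔ g[p]? = some x ∧
      ∃ p1 : ℕ, (p1 : ℤ) = p + d.toInt ∧ SimR R (g.set p y) p1 g' p' := by
  constructor
  · intro h
    cases h with
    | cons a b d R g g' p p1 p' h1 h2 h3 => exact ⟨h1, p1, h2, h3⟩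
  · rintro ⟨h1, p1, h2, h3⟩
    exact SimR.cons _ _ _ _ _ _ _ _ _ h1 h2 h3

/-! ### windows -/

/-- the window which begins in the cell `a`, of length `n` -/
def wn {M : TM K Γ} (c : AC M) (k : K) (a : ℤ) (n : ℕ) : List (Option (Γ k) × Bool) :=
  (List.range n).map (fun o : ℕ => cel c k (a + o))

/-- the symbols of the window -/
def sy {M : TM K Γ} (c : AC M) (k : K) (a : ℤ) (n : ℕ) : List (Option (Γ k)) :=
  (List.range n).map (fun o : ℕ => c.2.1 k (a + o))

theorem sy_get {M : TM K Γ} (c : AC M) (k : K) (a : ℤ) (n i : ℕ) :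
    (sy c k a n)[i]? = if i < n then some (c.2.1 k (a + i)) else none := by
  rw [sy, List.getElem?_map]
  by_cases h : i < n
  · rw [if_pos h, List.getElem?_range h]
    rfl
  · rw [if_neg h, List.getElem?_eq_none (by rw [List.length_range]; omega)]
    rfl

theorem wn_get {M : TM K Γ} (c : AC M) (k : K) (a : ℤ) (n i : ℕ) :
    (wn c k a n)[i]? = if i < n then some (cel c k (a + i)) else none := by
  rw [wn, List.getElem?_map]
  by_cases h : i < n
  · rw [if_pos h, List.getElem?_range h]
    rfl
  · rw [if_neg h, List.getElem?_eq_none (by rw [List.length_range]; omega)]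
    rfl

theorem sy_length {M : TM K Γ} (c : AC M) (k : K) (a : ℤ) (n : ℕ) : (sy c k a n).length = n := by
  rw [sy, List.length_map, List.length_range]

theorem wn_flag {M : TM K Γ} (c : AC M) (k : K) (a : ℤ) (n : ℕ) (h : a ≤ c.2.2 k) :
    wn c k a n = flag (sy c k a n) (c.2.2 k - a).toNat := by
  refine List.ext_getElem? fun i => ?_
  rw [wn_get, flag_get, sy_get]
  by_cases hi : i < n
  · rw [if_pos hi, if_pos hi, Option.map_some, cel]
    have : decide (c.2.2 k = a + i) = decide (i = (c.2.2 k - a).toNat) := by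
      apply decide_eq_decide.2
      omega
    rw [this]
  · rw [if_neg hi, if_neg hi]
    rfl

theorem win_eq {M : TM K Γ} (c : AC M) (k : K) (b : ℕ) (β : ℤ) :
    win c k b β = wn c k ((β - 1) * b) (b + b + b) := by
  rw [win, wn, List.range_add, List.range_add, List.map_append, List.map_append, List.map_map,
    List.map_map, bc, bc, bc]
  congr 2
  · refine List.map_congr_left fun o _ => ?_
    simp only [Function.comp]
    congr 1
    push_cast
    ring
  · funext o
    simp only [Function.comp]
    congr 1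
    push_cast
    ring

theorem simW_iff {M : TM K Γ} (c : AC M) (k : K) (a : ℤ) (n : ℕ) (h : a ≤ c.2.2 k)
    (R : List (Op (Γ k))) (e : List (Option (Γ k) × Bool)) :
    SimW (wn c k a n) R e ↔ ∃ (g' : List (Option (Γ k))) (p' : ℕ), e = flag g' p' ∧
      SimR R (sy c k a n) (c.2.2 k - a).toNat g' p' := by
  rw [wn_flag c k a n h]
  constructor
  · rintro ⟨g, g', p, p', h1, h2, h3⟩
    obtain ⟨h4, h5⟩ := flag_inj h1.symm (simR_lt h3)
    rw [h4, h5] at h3
    exact ⟨g', p', h2, h3⟩
  · rintro ⟨g', p', h2, h3⟩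
    exact ⟨_, g', _, p', rfl, h2, h3⟩

theorem sy_step {M : TM K Γ} (c : AC M) (k : K) (a : ℤ) (n : ℕ) (h : a ≤ c.2.2 k) :
    sy (astep M c) k a n =
      (sy c k a n).set (c.2.2 k - a).toNat ((stp M c.1 (scn c)).2 k).1 := by
  refine List.ext_getElem? fun i => ?_
  rw [sy_get, List.getElem?_set, sy_get, sy_length]
  change (if i < n then some (Function.update (c.2.1 k) (c.2.2 k)
    ((stp M c.1 (scn c)).2 k).1 (a + i)) else none) = _
  rw [Function.update_apply]
  by_cases hi : i < n
  · by_cases h2 : (c.2.2 k - a).toNat = i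
    · rw [if_pos hi, if_pos h2, if_pos (by omega), if_pos (by omega)]
    · rw [if_pos hi, if_neg h2, if_neg (by omega), if_pos hi]
  · by_cases h2 : (c.2.2 k - a).toNat = i
    · rw [if_neg hi, if_pos h2, if_neg (by omega)]
    · rw [if_neg hi, if_neg h2, if_neg hi]

theorem dir_abs (d : Dir) : d.toInt = -1 ∨ d.toInt = 0 ∨ d.toInt = 1 := by
  cases d <;> simp [Dir.toInt]

/-- one operation on a window -/
theorem simW_cons {M : TM K Γ} (c : AC M) (k : K) (a : ℤ) (n : ℕ) (h : a + 1 ≤ c.2.2 k)
    (h' : c.2.2 k < a + n) (r : RL M) (R : List (Op (Γ k)))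
    (e : List (Option (Γ k) × Bool)) :
    SimW (wn c k a n) (opk M k r :: R) e → r.2 k = scn c k := by
  rw [simW_iff c k a n (by omega)]
  rintro ⟨g', p', h2, h3⟩
  rw [opk, simR_cons] at h3
  have h4 := h3.1
  rw [sy_get, if_pos (by omega)] at h4
  have h5 : a + (((c.2.2 k - a).toNat : ℕ) : ℤ) = c.2.2 k := by omega
  rw [h5] at h4
  exact (Option.some.inj h4).symm

theorem simW_step {M : TM K Γ} (c : AC M) (k : K) (a : ℤ) (n : ℕ) (h : a + 1 ≤ c.2.2 k)
    (h' : c.2.2 k < a + n) (R : List (Op (Γ k))) (e : List (Option (Γ k) × Bool)) :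
    SimW (wn c k a n) (opk M k (c.1, scn c) :: R) e ↔ SimW (wn (astep M c) k a n) R e := by
  have hd := dir_abs ((stp M c.1 (scn c)).2 k).2
  have hm : (astep M c).2.2 k = c.2.2 k + ((stp M c.1 (scn c)).2 k).2.toInt := rfl
  rw [simW_iff c k a n (by omega), simW_iff (astep M c) k a n (by omega)]
  refine exists_congr fun g' => exists_congr fun p' => and_congr_right fun _ => ?_
  rw [opk, simR_cons, sy_step c k a n (by omega), hm]
  have h5 : a + (((c.2.2 k - a).toNat : ℕ) : ℤ) = c.2.2 k := by omega
  constructor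
  · rintro ⟨h1, p1, h2, h3⟩
    have h6 : (c.2.2 k + ((stp M c.1 (scn c)).2 k).2.toInt - a).toNat = p1 := by
      simp only at h2
      omega
    rw [h6]
    exact h3
  · intro h3
    refine ⟨?_, _, ?_, h3⟩
    · rw [sy_get, if_pos (by omega), h5]
      rfl
    · simp only
      omega

theorem foldl_none {M : TM K Γ} (R : List (RL M)) : R.foldl (chD M) none = none := by
  induction R with
  | nil => rfl
  | cons r R ih =>
    have h1 : chD M none r = none := by
      rw [chD, if_neg (by simp)]
    rw [List.foldl_cons, h1, ih]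

theorem trc_succ {M : TM K Γ} (c : AC M) (m : ℕ) :
    trc M c (m + 1) = (c.1, scn c) :: trc M (astep M c) m := by
  rw [trc, List.range_succ_eq_map, List.map_cons, List.map_map, trc]
  rfl

theorem main {M : TM K Γ} (a : K → ℤ) (n : ℕ) (q' : M.S)
    (e : (k : K) → List (Option (Γ k) × Bool)) (R : List (RL M)) :
    ∀ (c : AC M), (∀ k, a k + R.length ≤ c.2.2 k ∧ c.2.2 k + R.length < a k + n) →
    ((R.foldl (chD M) (some c.1) = some q' ∧
      ∀ k, SimW (wn c k (a k) n) (R.map (opk M k)) (e k)) ↔
    (R = trc M c R.length ∧ q' = ((astep M)^[R.length] c).1 ∧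
      ∀ k, e k = wn ((astep M)^[R.length] c) k (a k) n)) := by
  induction R with
  | nil =>
    intro c hc
    have h1 : ∀ k, (SimW (wn c k (a k) n) (([] : List (RL M)).map (opk M k)) (e k) ↔
        e k = wn c k (a k) n) := by
      intro k
      obtain ⟨h2, h3⟩ := hc k
      simp only [List.length_nil, Nat.cast_zero, add_zero] at h2 h3
      rw [List.map_nil, simW_iff c k (a k) n h2, wn_flag c k (a k) n h2]
      constructor
      · rintro ⟨g', p', h4, h5⟩
        rw [simR_nil] at h5
        rw [h4, h5.1, h5.2.1]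
      · intro h4
        refine ⟨_, _, h4, simR_nil.2 ⟨rfl, rfl, ?_⟩⟩
        rw [sy_length]
        omega
    constructor
    · rintro ⟨h2, h3⟩
      refine ⟨rfl, (Option.some.inj h2).symm, fun k => (h1 k).1 (h3 k)⟩
    · rintro ⟨_, h2, h3⟩
      refine ⟨?_, fun k => (h1 k).2 (h3 k)⟩
      rw [h2]
      rfl
  | cons r R ih =>
    intro c hc
    have hb : ∀ k, a k + 1 ≤ c.2.2 k ∧ c.2.2 k < a k + n := by
      intro k
      obtain ⟨h2, h3⟩ := hc k
      rw [List.length_cons] at h2 h3
      push_cast at h2 h3
      omega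
    have hc' : ∀ k, a k + R.length ≤ (astep M c).2.2 k ∧
        (astep M c).2.2 k + R.length < a k + n := by
      intro k
      obtain ⟨h2, h3⟩ := hc k
      rw [List.length_cons] at h2 h3
      push_cast at h2 h3
      have hd := dir_abs ((stp M c.1 (scn c)).2 k).2
      have hm : (astep M c).2.2 k = c.2.2 k + ((stp M c.1 (scn c)).2 k).2.toInt := rfl
      omega
    have hi := ih (astep M c) hc'
    rw [List.length_cons, Function.iterate_succ_apply, trc_succ, List.foldl_cons]
    have key : r = (c.1, scn c) →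
        ((R.foldl (chD M) (chD M (some c.1) r) = some q' ∧
          ∀ k, SimW (wn c k (a k) n) ((r :: R).map (opk M k)) (e k)) ↔
        (R.foldl (chD M) (some (astep M c).1) = some q' ∧
          ∀ k, SimW (wn (astep M c) k (a k) n) (R.map (opk M k)) (e k))) := by
      intro hr
      have h1 : chD M (some c.1) r = some (astep M c).1 := by
        rw [hr, chD, if_pos rfl]
        rfl
      rw [h1]
      refine and_congr_right fun _ => forall_congr' fun k => ?_
      rw [List.map_cons, hr]
      exact simW_step c k (a k) n (hb k).1 (hb k).2 _ _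
    constructor
    · rintro ⟨h1, h2⟩
      have h3 : r.1 = c.1 := by
        by_contra hcon
        have h4 : chD M (some c.1) r = none := by
          rw [chD, if_neg]
          intro h5
          exact hcon (Option.some.inj h5).symm
        rw [h4, foldl_none] at h1
        cases h1
      have h4 : r = (c.1, scn c) := by
        refine Prod.ext h3 ?_
        funext k
        exact simW_cons c k (a k) n (hb k).1 (hb k).2 r _ _ (h2 k)
      obtain ⟨h5, h6, h7⟩ := hi.1 ((key h4).1 ⟨h1, h2⟩)
      exact ⟨by rw [h4, ← h5], h6, h7⟩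
    · rintro ⟨h1, h2, h3⟩
      obtain ⟨h4, h5⟩ := List.cons.inj h1
      exact (key h4).2 (hi.2 ⟨h5, h2, h3⟩)

end Win_aux

open Win_aux

theorem tWin : S_Win := by
  intro K Γ M b c h hb hh R q' e hR
  have h1 := main (M := M) (fun k => (h k - 1) * b) (b + b + b) q' e R c (by
    intro k
    obtain ⟨h2, h3⟩ := hh k
    rw [hR]
    have h4 : (h k - 1) * (b : ℤ) = h k * b - b := by ring
    have h5 : (h k + 1) * (b : ℤ) = h k * b + b := by ring
    rw [h5] at h3
    rw [h4]
    push_cast
    omega)
  rw [hR] at h1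
  simp only [win_eq]
  exact h1


end MPdee884H3
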