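import Pool.Agent.Lib.MP_dee884_lc.H3.Spec

/-!
# MP_dee884_lc, H3: comparison of a slot and a raw block
-/

set_option autoImplicit false

namespace MPdee884H3

open MPdee884H1 MPdee884H2 Pool.Agent.Lin

namespace XS_aux

theorem split {A B : Type} (u u' : List A) (v v' : List B)
    (h : u.map (Sum.inl : A → A ⊕ B) ++ v.map Sum.inr = u'.map Sum.inl ++ v'.map Sum.inr) :
    u = u' ∧ v = v' := by
  induction u generalizing u' with
  | nil =>
    cases u' with
    | nil =>
      simp only [List.map_nil, List.nil_append] at h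
      exact ⟨rfl, (List.map_injective_iff.2 Sum.inr_injective) h⟩
    | cons a u' =>
      cases v with
      | nil => simp at h
      | cons b v => simp at h
  | cons a u ih =>
    cases u' with
    | nil =>
      cases v' with
      | nil => simp at h
      | cons b v => simp at h
    | cons a' u' =>
      simp only [List.map_cons, List.cons_append, List.cons.injEq, Sum.inl.injEq] at h
      obtain ⟨h1, h2⟩ := ih u' h.2
      exact ⟨by rw [h.1, h1], h2⟩

theorem mem_PairLe {Y1 Y2 : Type} (ρ : Y1 → Y2 → Prop) (ρe : Y1 → Prop) (u : List Y1)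
    (v : List Y2) : u.map Sum.inl ++ v.map Sum.inr ∈ PairLe ρ ρe ↔ v.length ≤ u.length ∧
      (∀ (i : ℕ) (a : Y1) (b : Y2), u[i]? = some a → v[i]? = some b → ρ a b) ∧
      ∀ (i : ℕ) (a : Y1), v.length ≤ i → u[i]? = some a → ρe a := by
  constructor
  · rintro ⟨u', v', h, h1, h2, h3⟩
    obtain ⟨rfl, rfl⟩ := split u u' v v' h
    exact ⟨h1, h2, h3⟩
  · rintro ⟨h1, h2, h3⟩
    exact ⟨u, v, rfl, h1, h2, h3⟩

/-- relabelling by a transducer with one state -/
theorem seqOut_map {X Y : Type} (φ : X → Y) (w : List X) :
    seqOut (fun (_ : Unit) (x : X) => ((), some (φ x))) () w = w.map φ := by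
  induction w with
  | nil => rfl
  | cons a w ih =>
    rw [seqOut, ih]
    rfl

theorem slot_get {Λ : Type} (l : ℕ) (dec : List Bool → Λ) (u : List Bool) (b s i : ℕ)
    (h : i < b) : (slot l dec u b s)[i]? = some (lt l dec u (s * b + i)) := by
  unfold slot
  rw [List.getElem?_map, List.getElem?_range h]
  rfl

theorem slot_len {Λ : Type} (l : ℕ) (dec : List Bool → Λ) (u : List Bool) (b s : ℕ) :
    (slot l dec u b s).length = b := by
  simp [slot]

theorem raw_get {A : Type} (w : List A) (n b i : ℕ) (h : i < b) :
    ((w.drop n).take b)[i]? = w[n + i]? := by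
  rw [List.getElem?_take_of_lt h, List.getElem?_drop]

end XS_aux

open XS_aux

theorem tXS1 : S_TR → S_Pair → S_Scan → S_XS1 := by
  intro hTR hP hS X A Λ _ K l mk f fx dec ρ β s hl hβ hs
  have hβK : β < K := by
    have : s * l ≤ (s + 1) * l := Nat.mul_le_mul_right l (Nat.le_succ s)
    omega
  obtain ⟨Q, hQ, δ, q0, hδ⟩ := hS (X := X) (A := A) (Tg := Unit) (Λ := Λ) K l mk fx (fun _ => f) dec
    [Sum.inl β, Sum.inr (s, ())] hl
    (by
      rw [List.pairwise_cons]
      refine ⟨?_, List.pairwise_singleton _ _⟩
      intro j hj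
      rw [List.mem_singleton] at hj
      subst hj
      exact hβ)
    (by
      intro i hi
      rw [List.mem_cons, List.mem_singleton] at hi
      rcases hi with rfl | rfl
      · exact hβK.le
      · exact hs)
  refine ⟨_, hTR δ q0 _ (hP (Y1 := A) (Y2 := Unit × Λ) (fun a x => ρ (some a) x.2)
    (fun _ => False)), ?_⟩
  intro w b hb
  rw [Set.mem_ofPred_eq, hδ w b hb]
  have e : [Sum.inl β, Sum.inr (s, ())].flatMap (outIt l fx (fun _ => f) dec w b) =
      (((w.map fx).drop (β * b)).take b).map Sum.inl ++
        ((slot l dec (w.map f) b s).map (fun a => ((), a))).map Sum.inr := by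
    rw [List.flatMap_cons, List.flatMap_cons, List.flatMap_nil, List.append_nil, List.map_map]
    rfl
  rw [e, mem_PairLe]
  obtain ⟨hb1, hb2, -⟩ := hb
  rw [List.length_map] at hb2
  have h1 : β * b + b ≤ w.length := by
    have : (β + 1) * b ≤ K * b := Nat.mul_le_mul_right b hβK
    rw [Nat.add_mul, Nat.one_mul] at this
    omega
  have h2 : (((w.map fx).drop (β * b)).take b).length = b := by
    rw [List.length_take, List.length_drop, List.length_map]
    omega
  have h3 : ∀ i < b, (((slot l dec (w.map f) b s).map (fun a => ((), a)))[i]?) =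
      some ((), lt l dec (w.map f) (s * b + i)) := by
    intro i hi
    rw [List.getElem?_map, slot_get _ _ _ _ _ _ hi]
    rfl
  constructor
  · rintro ⟨-, h4, -⟩ i hi
    have h5 : β * b + i < (w.map fx).length := by
      rw [List.length_map]
      omega
    have h6 := h4 i ((w.map fx)[β * b + i]) ((), lt l dec (w.map f) (s * b + i))
      (by rw [raw_get _ _ _ _ hi, List.getElem?_eq_getElem h5]) (h3 i hi)
    rw [List.getElem?_eq_getElem h5]
    exact h6
  · intro h
    refine ⟨?_, ?_, ?_⟩
    · rw [h2, List.length_map, slot_len]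
    · intro i a x ha hx
      have hi : i < b := by
        have := (List.getElem?_eq_some_iff.1 ha).1
        omega
      rw [raw_get _ _ _ _ hi] at ha
      rw [h3 i hi] at hx
      obtain rfl := Option.some.inj hx
      have h4 := h i hi
      rw [ha] at h4
      exact h4
    · intro i a hi ha
      rw [List.length_map, slot_len] at hi
      have := (List.getElem?_eq_some_iff.1 ha).1
      omega

theorem tXS2 : S_TR → S_Pair → S_Scan → S_XS2 := by
  intro hTR hP hS X A Λ _ K l mk f fx dec ρ β s hl hβ hK
  obtain ⟨Q, hQ, δ, q0, hδ⟩ := hS (X := X) (A := A) (Tg := Unit) (Λ := Λ) K l mk fx (fun _ => f) dec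
    [Sum.inr (s, ()), Sum.inl β] hl
    (by
      rw [List.pairwise_cons]
      refine ⟨?_, List.pairwise_singleton _ _⟩
      intro j hj
      rw [List.mem_singleton] at hj
      subst hj
      exact hβ)
    (by
      intro i hi
      rw [List.mem_cons, List.mem_singleton] at hi
      rcases hi with rfl | rfl
      · exact hβ.trans hK
      · exact hK)
  refine ⟨_, hTR δ q0 _ (hTR (fun (_ : Unit) (x : A ⊕ (Unit × Λ)) => ((), some (Sum.swap x))) ()
    _ (hP (Y1 := Unit × Λ) (Y2 := A) (fun x a => ρ (some a) x.2) (fun x => ρ none x.2))), ?_⟩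
  intro w b hb
  rw [Set.mem_ofPred_eq, hδ w b hb, Set.mem_ofPred_eq, seqOut_map]
  have e : ([Sum.inr (s, ()), Sum.inl β].flatMap (outIt l fx (fun _ => f) dec w b)).map Sum.swap =
      ((slot l dec (w.map f) b s).map (fun a => ((), a))).map Sum.inl ++
        (((w.map fx).drop (β * b)).take b).map Sum.inr := by
    rw [List.flatMap_cons, List.flatMap_cons, List.flatMap_nil, List.append_nil, List.map_append,
      List.map_map]
    unfold outIt
    rw [List.map_map, List.map_map]
    rfl
  rw [e, mem_PairLe]
  have h2 : (((w.map fx).drop (β * b)).take b).length ≤ b := by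
    rw [List.length_take]
    exact min_le_left _ _
  have h3 : ∀ i < b, (((slot l dec (w.map f) b s).map (fun a => ((), a)))[i]?) =
      some ((), lt l dec (w.map f) (s * b + i)) := by
    intro i hi
    rw [List.getElem?_map, slot_get _ _ _ _ _ _ hi]
    rfl
  have h3' : ∀ (i : ℕ) (x : Unit × Λ),
      ((slot l dec (w.map f) b s).map (fun a => ((), a)))[i]? = some x → i < b := by
    intro i x hx
    have := (List.getElem?_eq_some_iff.1 hx).1
    rw [List.length_map, slot_len] at this
    exact this
  constructor
  · rintro ⟨-, h4, h5⟩ i hi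
    rcases hc : (w.map fx)[β * b + i]? with _ | a
    · refine h5 i ((), lt l dec (w.map f) (s * b + i)) ?_ (h3 i hi)
      rw [← List.getElem?_eq_none_iff, raw_get _ _ _ _ hi]
      exact hc
    · exact h4 i ((), lt l dec (w.map f) (s * b + i)) a (h3 i hi)
        (by rw [raw_get _ _ _ _ hi]; exact hc)
  · intro h
    refine ⟨?_, ?_, ?_⟩
    · rw [List.length_map, slot_len]
      exact h2
    · intro i x a hx ha
      have hi := h3' i x hx
      rw [raw_get _ _ _ _ hi] at ha
      rw [h3 i hi] at hx
      obtain rfl := Option.some.inj hx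
      have h4 := h i hi
      rw [ha] at h4
      exact h4
    · intro i x hl2 hx
      have hi := h3' i x hx
      rw [h3 i hi] at hx
      obtain rfl := Option.some.inj hx
      have h4 := h i hi
      rw [← List.getElem?_eq_none_iff, raw_get _ _ _ _ hi] at hl2
      rw [hl2] at h4
      exact h4

end MPdee884H3
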