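import Pool.Agent.Lib.MP_dee884_lc.H2.Wcf
import Pool.Agent.Lib.MP_dee884_lc.H2.Lvl
import Pool.Agent.Lib.MP_dee884_lc.H2.Lab
import Pool.Agent.Lib.MP_dee884_lc.H2.Sh
import Pool.Agent.Lib.MP_dee884_lc.H2.ParCF
import Pool.Agent.Lib.MP_dee884_lc.H2.Sound
import Pool.Agent.Lib.MP_dee884_lc.H2.Cnt
import Pool.Agent.Lib.MP_dee884_lc.H2.Comp
import Pool.Agent.Lib.MP_dee884_lc.H2.RudInv
import Pool.Agent.Lib.MP_dee884_lc.H2.Fold
import Pool.Agent.Lib.MP_dee884_lc.H3.Main3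
import Pool.Agent.Lib.MP_dee884_lc.H3.TR
import Pool.Agent.Lib.MP_dee884_lc.H3.Pair
import Pool.Agent.Lib.MP_dee884_lc.H3.SimL
import Pool.Agent.Lib.MP_dee884_lc.H3.RegL
import Pool.Agent.Lib.MP_dee884_lc.H3.MkL
import Pool.Agent.Lib.MP_dee884_lc.H3.Scan
import Pool.Agent.Lib.MP_dee884_lc.H3.EqS
import Pool.Agent.Lib.MP_dee884_lc.H3.XS
import Pool.Agent.Lib.MP_dee884_lc.H3.SimS
import Pool.Agent.Lib.MP_dee884_lc.H3.RegS
import Pool.Agent.Lib.MP_dee884_lc.H3.Code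
import Pool.Agent.Lib.MP_dee884_lc.H3.Run
import Pool.Agent.Lib.MP_dee884_lc.H3.Mov
import Pool.Agent.Lib.MP_dee884_lc.H3.Win
import Pool.Agent.Lib.MP_dee884_lc.H3.Snd
import Pool.Agent.Lib.MP_dee884_lc.H3.Cpl
import Pool.Agent.Lib.MP_dee884_lc.H3.Prs
import Pool.Agent.Lib.MP_dee884_lc.H3.Rch
import Pool.Agent.Lib.MP_dee884_lc.H3.Seg
import Pool.Agent.Lib.MP_dee884_lc.H3.Sep
import Pool.Agent.Lib.MP_dee884_lc.H3.Gsm
import Pool.Agent.Lib.MP_dee884_lc.H3.Desc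
import Pool.Agent.Lib.MP_dee884_lc.H3.SgInv
import Pool.Agent.Lib.MP_dee884_lc.H3.SgMono
import Pool.Agent.Lib.MP_dee884_lc.H3.SgPad
import Pool.Agent.Lib.MP_dee884_lc.H3.SgCap
import Pool.Agent.Lib.MP_dee884_lc.H3.SgRud
import Pool.Agent.Lib.MP_dee884_lc.H3.SgColl
import Pool.Agent.Lib.MP_dee884_lc.H3.SgQ

/-!
# MP_dee884_lc, H3: the theorems
-/

namespace MPdee884H3

open MPdee884H1 MPdee884H2 Pool.Agent.Lin

/-- each linear-time language is in the level 4 over one work tape -/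
theorem lintime_cls {ρ : Type} {B : ρ → Type} (E : (i : ρ) → Set (List (B i × Bool))) {k : ℕ}
    (hk : 2 ≤ k) {A : Type} {L : Set (List A)} (hL : LINTIME L) : Cls E k 4 A L :=
  inc (tXS1 tTR tPair tScan) (tXS2 tTR tPair tScan) (tEqS tTR tPair tScan) tCode
    (tRegS tTR tRegL tScan) (tSimS tTR tSimL tScan) tRegL (tMkL tTR tPair tRegL) tRun tMov
    (tSnd tMov tWin) (tCpl tMov tWin) (tSep (tSeg tPrs tRch)) E hk hL

/-- RUD is not captured with bounded quantifiers over linear time -/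
theorem rud_clsL {ρ : Type} [Finite ρ] {B : ρ → Type} [∀ i, Finite (B i)]
    (E : (i : ρ) → Set (List (B i × Bool))) (hE : ∀ i, Rud (B i × Bool) (E i)) (k j : ℕ)
    (hk : 2 ≤ k) :
    ∃ U : Set (List Bool), Rud Bool U ∧ ∀ L : Set (List Bool), ClsL E k j Bool L →
      ∃ w : List Bool, ∀ r : List Bool, w ++ r ∈ U ↔ w ++ r ∉ L := by
  obtain ⟨U, hU, h⟩ := MPdee884H2.main tWcf tLvl tLab tSh (tParCF tWcf) tSound (tComp tCnt)
    (tFold tRudInv) E hE k (j + 4)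
  exact ⟨U, hU, fun L hL => h L (clsL_cls (fun hL => lintime_cls E hk hL) hL)⟩

/-- the same without a family `E` -/
theorem rud_diag (k j : ℕ) (hk : 2 ≤ k) :
    ∃ U : Set (List Bool), Rud Bool U ∧ ∀ L : Set (List Bool),
      ClsL (fun i : Empty => (i.elim : Set (List (Unit × Bool)))) k j Bool L →
      ∃ w : List Bool, ∀ r : List Bool, w ++ r ∈ U ↔ w ++ r ∉ L :=
  rud_clsL (ρ := Empty) (B := fun _ => Unit) (fun i => i.elim) (fun i => i.elim) k j hk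

/-- for all `j, k ≥ 1` the complements of the languages of `Σ_j(k + 1)` are not all in `Σ_j(k)` -/
theorem co_sg (j k : ℕ) (hj : 1 ≤ j) (hk : 1 ≤ k) :
    ∃ L : Set (List Bool), Sg (k + 1) j Bool L ∧ ¬ Sg k j Bool Lᶜ :=
  coS (tSgPad tGsm) tSgInv (tSgMono tSgInv) tDesc (tSgRud tSgInv (tSgMono tSgInv) tSgCap)
    (tSgColl tSgInv (tSgMono tSgInv) (tSgPad tGsm)) _ rud_diag j k hj hk

/-- if `Σ_j(k + 1) = Σ_j(k)` for some `k ≥ 1` then RUD is not the `j`-th level -/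
theorem strict_sg (j k : ℕ) (hk : 1 ≤ k)
    (hR : ∀ L : Set (List Bool), Rud Bool L → ∃ K : ℕ, 1 ≤ K ∧ Sg K j Bool L) :
    ∃ L : Set (List Bool), Sg (k + 1) j Bool L ∧ ¬ Sg k j Bool L :=
  strictS (tSgPad tGsm) tSgInv (tSgMono tSgInv) tDesc _ rud_diag j k hk hR

/-- Q is the union of the classes `Σ_1(k)` -/
theorem inQ_sg {α : Type} [Finite α] (X : Set (List α)) :
    InQ X ↔ ∃ K : ℕ, 1 ≤ K ∧ Sg K 1 α X := tSgQ X

/-- RUD is the union of the classes `Σ_j(k)` -/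
theorem rud_sg {α : Type} [Finite α] (X : Set (List α)) :
    Rud α X ↔ ∃ K j : ℕ, 1 ≤ K ∧ Sg K j α X := by
  have h := tSgRud tSgInv (tSgMono tSgInv) tSgCap
  constructor
  · intro hX
    exact (h.1 α X hX).2
  · rintro ⟨K, j, _, hX⟩
    exact h.2 K j α X hX

end MPdee884H3
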