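import Pool.Agent.Lib.MP_dee884_lc.H3.Rec

/-!
# MP_dee884_lc, H3: linear time is in a fixed level over one work tape
-/

namespace MPdee884H3

open MPdee884H1 MPdee884H2 Pool.Agent.Lin

/-! ### data written on tracks -/

section

variable {K : Type} {Γ : K → Type} {M : TM K Γ} {l : ℕ} {dec : List Bool → Ltr M}

theorem exY (hC : S_Code) (hl : 1 ≤ l) (enc : Ltr M → List Bool)
    (henc : ∀ a, (enc a).length = l) (hdec : ∀ a, dec (enc a) = a) (p : Prm K) (J : Finset ℕ)
    (hJc : J.card * (3 * p.κ) ≤ p.P0) (b n : ℕ) (hn : 2 * p.P0 * b * l ≤ n)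
    (Y : ℕ → (k : K) → Fin 3 → List (Option (Γ k) × Bool))
    (hY : ∀ u ∈ J, ∀ k e, (Y u k e).length = b) :
    ∃ u : List Bool, u.length = n ∧ ∀ t ∈ J, ∀ k e, Y t k e = ofY M p l dec J u b t k e := by
  obtain ⟨u, h1, h2⟩ := hC (I := {u // u ∈ J} × (K × Fin 3)) l dec enc hl henc hdec b (2 * p.P0)
    n hn (p.yI J) (p.yI_inj J) (fun i => by
      have := p.yS_lt hJc i.1.2 i.2.1 i.2.2
      unfold Prm.yI
      omega) (fun i => (Y i.1.1 i.2.1 i.2.2).map (mkCell M i.2.1)) (fun i => by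
      rw [List.length_map]
      exact hY i.1.1 i.1.2 i.2.1 i.2.2)
  refine ⟨u, h1, ?_⟩
  intro t ht k e
  have h3 := h2 (⟨t, ht⟩, (k, e))
  have h4 : slot l dec u b (p.yS J t k e) = (Y t k e).map (mkCell M k) := h3
  unfold ofY
  rw [h4, List.map_map]
  conv_lhs => rw [← List.map_id (Y t k e)]
  refine List.map_congr_left ?_
  intro a _
  exact (asCell_mkCell M k a).symm

theorem exZ (hC : S_Code) (hl : 1 ≤ l) (enc : Ltr M → List Bool)
    (henc : ∀ a, (enc a).length = l) (hdec : ∀ a, dec (enc a) = a) (p : Prm K) (A : Finset ℕ)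
    (hAc : A.card * (6 * p.κ + 1) ≤ p.P0) (b n : ℕ) (hn : 2 * p.P0 * b * l ≤ n) (d : Dat M)
    (hd : ∀ w ∈ A, (∀ k e, (d.sc w k e).length = b) ∧ (d.rc w).length = b ∧
      ∀ k e, (d.ec w k e).length = b) :
    ∃ u : List Bool, u.length = n ∧ ∀ w ∈ A,
      (∀ k e, d.sc w k e = (ofZ M p l dec A u b).sc w k e) ∧
      d.rc w = (ofZ M p l dec A u b).rc w ∧
      ∀ k e, d.ec w k e = (ofZ M p l dec A u b).ec w k e := by
  let W : {w // w ∈ A} × ((K × Fin 3) ⊕ (Unit ⊕ (K × Fin 3))) → List (Ltr M) := fun i =>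
    match i with
    | (w, Sum.inl (k, e)) => (d.sc w.1 k e).map (mkCell M k)
    | (w, Sum.inr (Sum.inl _)) => (d.rc w.1).map mkRec
    | (w, Sum.inr (Sum.inr (k, e))) => (d.ec w.1 k e).map (mkCell M k)
  have hW : ∀ i, (W i).length = b := by
    rintro ⟨w, ⟨k, e⟩ | ⟨⟨⟩⟩ | ⟨k, e⟩⟩
    · simp only [W, List.length_map]
      exact (hd w.1 w.2).1 k e
    · simp only [W, List.length_map]
      exact (hd w.1 w.2).2.1
    · simp only [W, List.length_map]
      exact (hd w.1 w.2).2.2 k e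
  obtain ⟨u, h1, h2⟩ := hC l dec enc hl henc hdec b (2 * p.P0)
    n hn (p.zI A) (p.zI_inj A) (p.zI_lt hAc) W hW
  have cellm : ∀ (k : K) (L : List (Option (Γ k) × Bool)),
      L = (L.map (mkCell M k)).map (asCell k) := by
    intro k L
    rw [List.map_map]
    conv_lhs => rw [← List.map_id L]
    refine List.map_congr_left ?_
    intro a _
    exact (asCell_mkCell M k a).symm
  refine ⟨u, h1, ?_⟩
  intro w hw
  refine ⟨?_, ?_, ?_⟩
  · intro k e
    have h4 : slot l dec u b (p.zS A w k e) = (d.sc w k e).map (mkCell M k) :=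
      h2 (⟨w, hw⟩, Sum.inl (k, e))
    unfold ofZ
    simp only
    rw [h4]
    exact cellm k _
  · have h4 : slot l dec u b (p.zR A w) = (d.rc w).map mkRec :=
      h2 (⟨w, hw⟩, Sum.inr (Sum.inl ()))
    unfold ofZ
    simp only
    rw [h4, List.map_map]
    conv_lhs => rw [← List.map_id (d.rc w)]
    rfl
  · intro k e
    have h4 : slot l dec u b (p.zE A w k e) = (d.ec w k e).map (mkCell M k) :=
      h2 (⟨w, hw⟩, Sum.inr (Sum.inr (k, e)))
    unfold ofZ
    simp only
    rw [h4]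
    exact cellm k _

end

/-! ### the inclusion -/

theorem card_bound {c l κ P0 KK t : ℕ} (hP : 1 ≤ P0) (hKK : KK = l * (2 * P0))
    (h : 4 * (c + 1) * (l + 1) * (6 * κ + 1) * t ≤ (c + 1) * (KK + 2)) :
    t * (6 * κ + 1) ≤ P0 := by
  have h1 : (c + 1) * (4 * (l + 1) * (t * (6 * κ + 1))) ≤ (c + 1) * (KK + 2) := by
    calc (c + 1) * (4 * (l + 1) * (t * (6 * κ + 1))) =
        4 * (c + 1) * (l + 1) * (6 * κ + 1) * t := by ring
      _ ≤ _ := h
  have h2 := Nat.le_of_mul_le_mul_left h1 (Nat.succ_pos c)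
  by_contra h3
  have h4 : P0 + 1 ≤ t * (6 * κ + 1) := by omega
  have h5 : 4 * (l + 1) * (P0 + 1) ≤ 4 * (l + 1) * (t * (6 * κ + 1)) :=
    Nat.mul_le_mul_left _ h4
  rw [hKK] at h2
  have h6 : 4 * (l + 1) * (P0 + 1) = 2 * (l * (2 * P0)) + (4 * l + 4 * P0 + 4) := by ring
  omega

theorem abs_le_of_steps {g : ℕ → ℤ} (h0 : g 0 = 0) (hs : ∀ w, |g (w + 1) - g w| ≤ 1) (t : ℕ) :
    |g t| ≤ t := by
  induction t with
  | zero => simp [h0]
  | succ t ih =>
    have h1 := abs_le.mp (hs t)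
    have h2 := abs_le.mp ih
    rw [abs_le]
    push_cast
    constructor <;> omega

/-- THEOREM: each linear-time language is in the level 4 over one work tape. -/
theorem inc (hX1 : S_XS1) (hX2 : S_XS2) (hEq : S_EqS) (hC : S_Code) (hReg : S_RegS)
    (hSim : S_SimS) (hR : S_RegL) (hMk : S_MkL) (hRun : S_Run) (hMov : S_Mov) (hSnd : S_Snd)
    (hCpl : S_Cpl) (hSep : S_Sep) {ρ : Type} {B : ρ → Type}
    (E : (i : ρ) → Set (List (B i × Bool))) {m : ℕ} (hm : 2 ≤ m) {A : Type} {L : Set (List A)}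
    (hL : LINTIME L) : Cls E m 4 A L := by
  classical
  obtain ⟨K, hK, Γ, hΓ, k0, emb, hemb, M, c, hM⟩ := hL
  have hMS := M.fin
  have hAf : Finite A := Finite.of_injective emb hemb
  have hne : Nonempty (Ltr M) := ⟨(M.start, fun _ => none, false)⟩
  obtain ⟨l, dec, enc, hl, henc, hdec⟩ := codes (Ltr M)
  obtain ⟨κ, ⟨f⟩⟩ := Finite.exists_equiv_fin K
  have hcard : Nat.card K = κ := by
    rw [Nat.card_congr f, Nat.card_fin]
  obtain ⟨N0, hN0⟩ := hSep κ (4 * (c + 1) * (l + 1) * (6 * κ + 1)) (Nat.succ_le_of_lt (by positivity))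
  let p : Prm K := ⟨κ, N0 + 1, fun k => (f k).1, fun k => (f k).2,
    fun a b h => f.injective (Fin.ext h)⟩
  have hpκ : p.κ = κ := rfl
  have hpP : p.P0 = N0 + 1 := rfl
  have hP0 : 1 ≤ p.P0 := by omega
  obtain ⟨KK, hKK⟩ : ∃ KK, KK = l * (2 * p.P0) := ⟨_, rfl⟩
  have hKK2 : 2 * p.P0 ≤ KK := by
    rw [hKK]
    exact Nat.le_mul_of_pos_left _ hl
  have hKK1 : 1 ≤ KK := by omega
  obtain ⟨N, hN⟩ : ∃ N, N = (c + 1) * (KK + 2) := ⟨_, rfl⟩
  have hN2 : KK + 2 ≤ N := by
    rw [hN]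
    exact Nat.le_mul_of_pos_left _ (Nat.succ_pos c)
  have hNN : N0 ≤ N := by omega
  have hN1 : 1 ≤ N := by omega
  -- acceptance
  have acc : ∀ (x : List A) (b : ℕ), 1 ≤ b → x.length ≤ KK * b + b →
      (M.out (run M (inp k0 (x.map emb)) (N * b)).1 = some true ↔ x ∈ L) := by
    intro x b hb hx
    obtain ⟨n, hn, τ', b', hr, hb'⟩ := hM x
    have h1 : n ≤ N * b := by
      have h2 : x.length + 1 ≤ (KK + 2) * b := by
        have : (KK + 2) * b = KK * b + b + b := by ring
        omega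
      calc n ≤ c * (x.length + 1) := hn
        _ ≤ (c + 1) * ((KK + 2) * b) := Nat.mul_le_mul (Nat.le_succ c) h2
        _ = N * b := by rw [hN]; ring
    rw [hRun M (inp k0 (x.map emb)) τ' n b' hr (N * b) h1, ← hb']
    simp
  -- guesses
  let Sg : Type := (Fin (N + 1) → M.S) × (K → Fin N → Fin (2 * N + 1))
  let qf : Sg → ℕ → M.S := fun σ t => if h : t < N + 1 then σ.1 ⟨t, h⟩ else M.start
  let hf : Sg → K → ℕ → ℤ := fun σ k t => if h : t < N then ((σ.2 k ⟨t, h⟩).1 : ℤ) - N else 0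
  let valid : Sg → Prop := fun σ => (∀ k, hf σ k 0 = 0) ∧
    (∀ k w, w + 1 < N → |hf σ k (w + 1) - hf σ k w| ≤ 1) ∧ qf σ 0 = M.start ∧
    M.out (qf σ N) = some true
  have hJ : ∀ σ : Sg, ∃ J : Finset ℕ, valid σ → (∀ u ∈ J, u < N) ∧
      J.card * (6 * p.κ + 1) ≤ p.P0 ∧ ∀ v, v < N → ∃ A : Finset ℕ,
        (∀ u, u ∈ A ↔ Anc (Ed (hf σ)) J v u) ∧ A.card * (6 * p.κ + 1) ≤ p.P0 := by
    intro σ
    by_cases hv : valid σ
    · obtain ⟨J, h1, h2, h3⟩ := hN0 N hNN K hcard (hf σ) hv.2.1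
      refine ⟨J, fun _ => ⟨h1, ?_, ?_⟩⟩
      · rw [hN] at h2
        exact card_bound hP0 hKK h2
      · intro v hvN
        obtain ⟨A, h4, h5⟩ := h3 v hvN
        rw [hN] at h5
        exact ⟨A, h4, card_bound hP0 hKK h5⟩
    · exact ⟨∅, fun h => absurd h hv⟩
  choose J hJ using hJ
  have hAn : ∀ (σ : Sg) (v : ℕ), ∃ A : Finset ℕ, valid σ → v < N →
      (∀ u, u ∈ A ↔ Anc (Ed (hf σ)) (J σ) v u) ∧ A.card * (6 * p.κ + 1) ≤ p.P0 := by
    intro σ v
    by_cases hv : valid σ
    · by_cases hvN : v < N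
      · obtain ⟨A, hA⟩ := (hJ σ hv).2.2 v hvN
        exact ⟨A, fun _ _ => hA⟩
      · exact ⟨∅, fun _ h => absurd h hvN⟩
    · exact ⟨∅, fun h => absurd h hv⟩
  choose An hAn using hAn
  have hJc : ∀ σ, valid σ → (J σ).card * (3 * p.κ) ≤ p.P0 := by
    intro σ hv
    refine le_trans (Nat.mul_le_mul_left _ ?_) (hJ σ hv).2.1
    omega
  -- the conditions
  have g1 : ∀ (σ : Sg) (v : ℕ), valid σ → v < N →
      RgC E m 1 KK (fun q : ((A × Fin m) × Fin m) × Fin m => bit q.1.1.2) (fun w b =>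
        Good M (inp k0 (w.map (fun q => emb q.1.1.1))) b (hf σ) (qf σ) (J σ)
          (ofY M p l dec (J σ) (w.map (fun q => bit q.1.2)) b)
          (ofZ M p l dec (An σ v) (w.map (fun q => bit q.2)) b) v) := by
    intro σ v hv hvN
    rw [hKK]
    exact rgGood hX1 hX2 hEq hC hReg hSim hR hm hl enc henc hdec p hP0 k0 _ _ _ (hf σ) (qf σ)
      (J σ) (An σ v) v (hAn σ v hv hvN).1 (hJc σ hv) (hAn σ v hv hvN).2
  have g2 : RgC E m 2 KK (fun q : (A × Fin m) × Fin m => bit q.1.2) (fun w b => ∃ σ : Sg,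
      valid σ ∧ ∀ v : Fin N, (v.1 ∈ J σ ∨ v.1 + 1 = N) →
        ∃ z : List (((A × Fin m) × Fin m) × Fin m), z.map Prod.fst = w ∧
          Good M (inp k0 (z.map (fun q => emb q.1.1.1))) b (hf σ) (qf σ) (J σ)
            (ofY M p l dec (J σ) (z.map (fun q => bit q.1.2)) b)
            (ofZ M p l dec (An σ v.1) (z.map (fun q => bit q.2)) b) v.1) := by
    refine RgC.some hR fun σ => RgC.andc hR fun hv => RgC.all hR fun v => RgC.imp hR fun _ => ?_
    exact RgC.ex (g1 σ v.1 hv v.2)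
  have g3 := RgC.ex (mk := fun q : A × Fin m => bit q.2) g2
  obtain ⟨V, hV1, hV2⟩ := g3
  obtain ⟨ι, hι, W, hW1, hW2⟩ := hMk KK (fun q : A × Fin m => bit q.2) hKK1
  have hU : Cls E m 4 A {x | ∃ v : List (A × Fin m), v.map Prod.fst = x ∧
      v ∈ V ∩ {w | ∀ i, w ∈ W i}} :=
    Cls.ex _ (cls_inter hV1 (cls_iInter hR W (fun i => Cls.tape _ (hW1 i))))
  have hF := Cls.union _ _ hU (cls_short (E := E) (k := m) hR 4 L (KK * KK))
  have e : {x | ∃ v : List (A × Fin m), v.map Prod.fst = x ∧ v ∈ V ∩ {w | ∀ i, w ∈ W i}} ∪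
      {x | x ∈ L ∧ x.length < KK * KK} = L := by
    ext x
    constructor
    · rintro (⟨v1, hv1, hvV, hvW⟩ | ⟨h1, _⟩)
      · obtain ⟨b, hb⟩ := (hW2 v1).mpr hvW
        obtain ⟨y, hy1, σ, hσ, hy2⟩ := (hV2 v1 b hb).mp hvV
        have hlen : x.length ≤ KK * b + b := by
          have h1 := hb.2.2.1
          rw [List.length_map] at h1
          rw [← hv1, List.length_map]
          exact h1
        rw [← acc x b hb.1 hlen]
        have hne2 : Nonempty K := ⟨k0⟩
        have h2 := hSnd M (inp k0 (x.map emb)) b N (hf σ) (qf σ) (J σ)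
          (ofY M p l dec (J σ) (y.map (fun q => bit q.2)) b) hb.1 hN1 hσ.1 hσ.2.1 hσ.2.2.1 (by
            intro v hvN hvJ
            obtain ⟨z, hz1, hz2⟩ := hy2 ⟨v, hvN⟩ hvJ
            have e1 : z.map (fun q => emb q.1.1.1) = x.map emb := by
              rw [← hv1, ← hy1, ← hz1, List.map_map, List.map_map, List.map_map]
              rfl
            have e2 : z.map (fun q => bit q.1.2) = y.map (fun q => bit q.2) := by
              rw [← hz1, List.map_map]
              rfl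
            rw [e1, e2] at hz2
            exact ⟨_, hz2⟩)
        rw [← h2]
        exact hσ.2.2.2
      · exact h1
    · intro hx
      rcases Nat.lt_or_ge x.length (KK * KK) with h1 | h1
      · exact Or.inr ⟨hx, h1⟩
      · left
        obtain ⟨b, mks, hm1, hm2⟩ := marks KK x.length hKK1 h1
        obtain ⟨v1, hv1, hv2⟩ := track hm x mks hm1
        have hb := hm2.1
        have hmk : Mk KK b (v1.map (fun q => bit q.2)) := by
          rw [hv2]
          exact hm2
        have hlen : x.length ≤ KK * b + b := by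
          rw [← hm1]
          exact hm2.2.2.1
        have hlen2 : 2 * p.P0 * b * l ≤ x.length := by
          have h2 := hm2.2.1
          rw [hm1, hKK] at h2
          have h3 : 2 * p.P0 * b * l = l * (2 * p.P0) * b := by ring
          omega
        obtain ⟨mv0, mv1, _, _⟩ := hMov M (inp k0 (x.map emb)) b hb
        have hab : ∀ k t, |hd M (inp k0 (x.map emb)) b k t| ≤ t :=
          fun k t => abs_le_of_steps (mv0 k) (mv1 k) t
        let σ : Sg := (fun t => (run M (inp k0 (x.map emb)) (t.1 * b)).1,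
          fun k t => ⟨(hd M (inp k0 (x.map emb)) b k t.1 + N).toNat, by
            have h2 := abs_le.mp (hab k t.1)
            have h3 := t.2
            omega⟩)
        have hhf : ∀ k t, t < N → hd M (inp k0 (x.map emb)) b k t = hf σ k t := by
          intro k t ht
          have h2 := abs_le.mp (hab k t)
          simp only [hf, σ, dif_pos ht]
          omega
        have hqf : ∀ t, t ≤ N → (run M (inp k0 (x.map emb)) (t * b)).1 = qf σ t := by
          intro t ht
          simp only [qf, σ, dif_pos (Nat.lt_succ_of_le ht)]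
        have hval : valid σ := by
          refine ⟨?_, ?_, ?_, ?_⟩
          · intro k
            rw [← hhf k 0 hN1]
            exact mv0 k
          · intro k w hw
            rw [← hhf k w (by omega), ← hhf k (w + 1) hw]
            exact mv1 k w
          · rw [← hqf 0 (Nat.zero_le N), Nat.zero_mul]
            rfl
          · rw [← hqf N le_rfl, acc x b hb hlen]
            exact hx
        obtain ⟨Y, hY⟩ := hCpl M (inp k0 (x.map emb)) b hb (J σ)
        have hYl : ∀ u ∈ J σ, ∀ k e, (Y u k e).length = b := by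
          intro u hu k e
          obtain ⟨d, hd⟩ := hY u
          rw [← hd.top hu k e]
          exact (hd.loc u Anc.self).lec k e
        obtain ⟨uy, hy1, hy2⟩ := exY hC hl enc henc hdec p (J σ) (hJc σ hval) b x.length hlen2 Y
          hYl
        have hv1l : v1.length = x.length := by
          rw [← hv1, List.length_map]
        obtain ⟨y, hy3, hy4⟩ := track hm v1 uy (by rw [hy1, hv1l])
        have hyl : y.length = x.length := by
          rw [← hv1l, ← hy3, List.length_map]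
        refine ⟨v1, hv1, (hV2 v1 b hmk).mpr ⟨y, hy3, σ, hval, ?_⟩, (hW2 v1).mp ⟨b, hmk⟩⟩
        intro v _
        obtain ⟨d, hgd⟩ := hY v.1
        have hA1 := (hAn σ v.1 hval v.2).1
        have hA2 := (hAn σ v.1 hval v.2).2
        have hanc : ∀ w, Anc (Ed (hd M (inp k0 (x.map emb)) b)) (J σ) v.1 w → w ∈ An σ v.1 := by
          intro w hw
          rw [hA1]
          exact anc_congr v.2 hhf hw
        have hanc2 : ∀ w ∈ An σ v.1, Anc (Ed (hd M (inp k0 (x.map emb)) b)) (J σ) v.1 w := by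
          intro w hw
          rw [hA1] at hw
          exact anc_congr v.2 (fun k t ht => (hhf k t ht).symm) hw
        obtain ⟨uz, hz1, hz2⟩ := exZ hC hl enc henc hdec p (An σ v.1) hA2 b x.length hlen2 d
          (by
            intro w hw
            have hloc := hgd.loc w (hanc2 w hw)
            exact ⟨hloc.lsc, hloc.lrc, hloc.lec⟩)
        obtain ⟨z, hz3, hz4⟩ := track hm y uz (by rw [hz1, hyl])
        refine ⟨z, hz3, ?_⟩
        have e1 : z.map (fun q => emb q.1.1.1) = x.map emb := by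
          rw [← hv1, ← hy3, ← hz3, List.map_map, List.map_map, List.map_map]
          rfl
        have e2 : z.map (fun q => bit q.1.2) = uy := by
          rw [← hy4, ← hz3, List.map_map]
          rfl
        rw [e1, e2, hz4]
        exact good_congr v.2 hhf hqf hy2 (fun w hw => hz2 w (hanc w hw)) hgd
  rw [e] at hF
  exact hF

end MPdee884H3
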