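import Pool.Agent.Lib.MP_dee884_lc.H3.Spec

/-!
# MP_dee884_lc, H3, module InvQ: the class Q is closed under inverse homomorphisms
-/

namespace MPdee884H3

open MPdee884H1 MPdee884H2 Pool.Agent.Lin

namespace InvQ_aux

/-- a word of length at most `m |x|` is cut into `|x|` pieces of length at most `m` -/
theorem cut {α β : Type} (m : ℕ) : ∀ (x : List α) (w : List β), w.length ≤ m * x.length →
    ∃ v : List (α × {u : List β // u.length ≤ m}), v.flatMap (fun p => [p.1]) = x ∧
      v.flatMap (fun p => p.2.1) = w
  | [], w, hw => by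
    have h0 : w = [] := by
      apply List.eq_nil_of_length_eq_zero
      simpa using hw
    exact ⟨[], by simp, by simp [h0]⟩
  | a :: x, w, hw => by
    have h1 : (w.drop m).length ≤ m * x.length := by
      rw [List.length_drop]
      rw [List.length_cons, Nat.mul_succ] at hw
      omega
    obtain ⟨v, h2, h3⟩ := cut m x (w.drop m) h1
    refine ⟨(a, ⟨w.take m, by simp⟩) :: v, ?_, ?_⟩
    · rw [List.flatMap_cons, h2]
      rfl
    · rw [List.flatMap_cons, h3]
      exact List.take_append_drop m w

theorem len_le {β γ : Type} (h : β → List γ) (hh : ∀ b, h b ≠ []) (w : List β) :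
    w.length ≤ (w.flatMap h).length := by
  induction w with
  | nil => simp
  | cons b w ih =>
    have h1 : 1 ≤ (h b).length := List.length_pos_iff.mpr (hh b)
    rw [List.flatMap_cons, List.length_append, List.length_cons]
    omega

theorem le_len {α γ : Type} (code : α → List γ) (m : ℕ) (hm : ∀ a, (code a).length ≤ m)
    (x : List α) : (x.flatMap code).length ≤ m * x.length := by
  induction x with
  | nil => simp
  | cons a x ih =>
    have h1 := hm a
    rw [List.flatMap_cons, List.length_append, List.length_cons, Nat.mul_succ]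
    omega

theorem map_flat {β γ δ : Type} (g : β → γ) (code : γ → List δ) (v : List β) :
    (v.flatMap (fun p => [g p])).flatMap code = v.flatMap (fun p => code (g p)) := by
  rw [List.flatMap_assoc]
  simp

end InvQ_aux

open InvQ_aux in
theorem tInvQ : S_InvQ := by
  intro α _ code X hX
  obtain ⟨β, hβ, L, h, hL, hh, hx⟩ := hX
  obtain ⟨m, hm⟩ := Finite.exists_le (fun a => (code a).length)
  have hfin : Finite {u : List β // u.length ≤ m} := (List.finite_length_le β m).to_subtype
  let γ : Type := α × {u : List β // u.length ≤ m}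
  have hγ : Finite γ := inferInstanceAs (Finite (α × {u : List β // u.length ≤ m}))
  have l1 : LINTIME {v : List γ | v.flatMap (fun p => p.2.1) ∈ L} := lin_inv (fun p : γ => p.2.1) hL
  have l2 := lintime_eq (α := γ) (β := Bool) (MP.hom (fun p => (p.2.1).flatMap h))
    (MP.hom (fun p => code p.1))
  refine ⟨γ, hγ, _, fun p => [p.1], l1.inter l2, by simp, ?_⟩
  intro x
  simp only [Set.mem_inter_iff, Set.mem_ofPred_eq, MP.hom_val]
  rw [hx]
  constructor
  · rintro ⟨w, hw, e⟩
    have h1 : w.length ≤ m * x.length := by
      have h2 := len_le h hh w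
      have h3 := le_len code m hm x
      rw [e] at h2
      omega
    obtain ⟨v, h4, h5⟩ := cut m x w h1
    refine ⟨v, ⟨?_, ?_⟩, h4⟩
    · rw [h5]
      exact hw
    · rw [← List.flatMap_assoc, h5, e, ← h4]
      exact map_flat (fun p : γ => p.1) code v
  · rintro ⟨v, ⟨h1, h2⟩, h3⟩
    refine ⟨v.flatMap (fun p => p.2.1), h1, ?_⟩
    rw [List.flatMap_assoc, h2, ← h3, List.flatMap_assoc]
    simp

end MPdee884H3
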