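import Pool.Agent.Lib.MP_dee884_lc.H3.Inc
import Pool.Agent.Lib.MP_dee884_lc.H2.Main
import Pool.Agent.Lib.MP_dee884_lc.H3.ClsLDef

/-!
# MP_dee884_lc, H3: the classes with linear time, the main theorems from the modules
-/

namespace MPdee884H3

open MPdee884H1 MPdee884H2 Pool.Agent.Lin

theorem clsL_cls {ρ : Type} {B : ρ → Type} {E : (i : ρ) → Set (List (B i × Bool))} {k : ℕ}
    (hinc : ∀ {A : Type} {L : Set (List A)}, LINTIME L → Cls E k 4 A L) {j : ℕ} {A : Type}
    {L : Set (List A)} (h : ClsL E k j A L) : Cls E k (j + 4) A L := by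
  induction h with
  | cf L h => exact Cls.cf L h
  | tape L h => exact Cls.tape L h
  | lin L h => exact cls_le (hinc h) (by omega)
  | slice i f u => exact Cls.slice i f u
  | compl L _ ih => exact Cls.compl _ ih
  | union L M _ _ ih1 ih2 => exact Cls.union _ _ ih1 ih2
  | @ex j A M _ ih =>
    have h := Cls.ex M ih
    have e : j + 4 + 1 = j + 1 + 4 := by omega
    rwa [e] at h

theorem inQk_inQ {α : Type} {k : ℕ} {X : Set (List α)} (h : InQk k X) : InQ X := by
  obtain ⟨β, hβ, L, h, _, h1, h2, h3⟩ := h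
  exact ⟨β, hβ, L, h, h1, h2, h3⟩

/-- there is no bound for the alphabets of the complements -/
theorem coQ (hB : S_BA) (hQ : S_RudQ) {ρ : Type} {B : ρ → Type}
    (E : (i : ρ) → Set (List (B i × Bool))) (k : ℕ)
    (hdiag : ∃ U : Set (List Bool), Rud Bool U ∧ ∀ L, ClsL E (k + 2) 1 Bool L →
      ∃ w : List Bool, ∀ r : List Bool, w ++ r ∈ U ↔ w ++ r ∉ L) :
    ∃ L : Set (List Bool), InQ L ∧ ¬ InQk k Lᶜ := by
  by_contra hcon
  have hcon2 : ∀ L : Set (List Bool), InQ L → InQk k Lᶜ := by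
    intro L hL
    by_contra h
    exact hcon ⟨L, hL, h⟩
  obtain ⟨U, hU, hd⟩ := hdiag
  have h3 : InQ Uᶜ := hQ (fun L hL => inQk_inQ (hcon2 L hL)) Bool Uᶜ (Rud.compl hU)
  have h4 : InQk k U := by
    have h := hcon2 _ h3
    rwa [compl_compl] at h
  obtain ⟨V, hV, hUV⟩ := hB k U h4
  have h5 : ClsL E (k + 2) 1 Bool U := by
    rw [hUV]
    exact ClsL.ex V (ClsL.lin V hV)
  obtain ⟨w, hw⟩ := hd U h5
  have h6 := hw []
  by_cases h7 : w ++ [] ∈ U
  · exact (h6.mp h7) h7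
  · exact h7 (h6.mpr h7)

end MPdee884H3
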