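import Pool.Agent.Lib.MP_dee884_lc.H3.Spec

/-!
# MP_dee884_lc, H3, second part: guesses of a fixed number of letters per position
-/

namespace MPdee884H3

open MPdee884H1 MPdee884H2 Pool.Agent.Lin

/-- The class `T_k`: the languages `{x : (x, y) ∈ V for some y ∈ [k]^|x|}` with `V` in `LINTIME` (the
pair `(x, y)` is a word over `A × [k]`). -/
def Tk (k : ℕ) {A : Type} (X : Set (List A)) : Prop :=
  ∃ V : Set (List (A × Fin k)), LINTIME V ∧
    X = {x | ∃ v : List (A × Fin k), v.map Prod.fst = x ∧ v ∈ V}

/-- the output of a sequential transducer, `fin q` is printed at the end -/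
def gout {Q X Y : Type} (δ : Q → X → Q × List Y) (fin : Q → List Y) : Q → List X → List Y
  | q, [] => fin q
  | q, a :: w => (δ q a).2 ++ gout δ fin (δ q a).1 w

/-- each letter is written `s` times -/
def rep {A : Type} (s : ℕ) (x : List A) : List A := x.flatMap (fun a => List.replicate s a)

/-- LINEAR TIME AND TRANSDUCERS. Proof: follow Pool/Agent/Lib/MP_dee884_lc/Pass.lean and Init.lean
(tools: `GI`, `joinT`, `tp_write`, `tp_right`, `tp_head`, `wm_stay`, `Steps.trans`, `Runs.bind`,
`Runs.liftR`, `rew_inr`, `decE_bind`). Let `V` be decided by `(K, Γ, k0, emb, M, c)`. The new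
machine has the tapes `Unit ⊕ K` with the alphabets `GI X Γ`, the input is on the tape `inl ()` with
the embedding `fun a => a`. Phase 1: a machine like `pass` with a state `q` of the transducer: states
`Q ⊕ ((Q × Option X × Fin (N + 1)) ⊕ Unit)`; in the state `inl q` remember the scanned letter `o`
(`inr (inl (q, o, 0))`, no move), then print the word `(δ q a).2` (for `o = some a`), `fin q` (for
`o = none`), mapped by `emb`, on the tape `k0` in `N` steps (`N` bounds the lengths of these words:
`Finite.exists_le`), then for `o = some a` move right on the input tape and go to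
`inl (δ q a).1`, for `o = none` stop. By induction on the rest of the input the tape `k0` contains
`(gout δ fin q0 w).map emb` at the end. Phase 2: rewind the tape `k0` (`rew_inr`). Phase 3: `M.liftR`.
Time: `(N + 2) (|w| + 1)`, the output has length at most `N (|w| + 1)`. -/
def S_Gsm : Prop := ∀ {Q X Y : Type} [Finite Q] [Finite X] (δ : Q → X → Q × List Y)
  (fin : Q → List Y) (q0 : Q) (V : Set (List Y)), LINTIME V → LINTIME {w | gout δ fin q0 w ∈ V}

/-- PADDING (use `S_Gsm`). Proof: `X = {x : ∃ v, v.map fst = x, v ∈ V}`, `V` in `LINTIME` over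
`Bool × Fin K`. Let `dec : List (Fin (k + 1)) → Fin K` be such that every `i : Fin K` is `dec u` for
some `u` with `|u| = s` (exists as `K ≤ (k + 1) ^ s`: `(Fin s → Fin (k + 1))` has `(k + 1) ^ s`
elements, `List.ofFn`). Transducer: the state is a buffer (a list over `Bool × Fin (k + 1)` of
length `< s`; finite by `List.finite_length_lt`); on the letter `z` the buffer `u` becomes
`u ++ [z]` if `|u| + 1 < s`, without output; if `|u| + 1 = s` the buffer becomes empty, the output is one
letter of `(Bool × Fin K) ⊕ Unit`: `inl (a, dec (second components of u ++ [z]))` if the first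
components of `u ++ [z]` are all equal to `a`, `inr ()` otherwise. At the end: `fin [] = []`,
`fin u = [inr ()]` for `u ≠ []`. So the output is `v.map inl` iff the input is a concatenation of
blocks of length `s`, the block number `i` has first components `v_i.1` and the second components
`u_i`, `dec u_i = v_i.2`. Kernel: `{w : gout δ fin [] w ∈ Inl Unit V}` (`lin_Inl`, H1/Rud.lean; the
set of the words `v.map inl` with `v ∈ V`) over `Bool × Fin (k + 1)`. If `x ∈ X`, take `v` and for each
letter `v_i = (a, i)` the block `(a, u_0), .., (a, u_(s-1))`. Induction on `v` and (for the converse)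
on the length of the input, `List.take s`, `List.drop s`. -/
def S_Pad : Prop := ∀ (k s K : ℕ), 1 ≤ s → 1 ≤ K → K ≤ (k + 1) ^ s → ∀ X : Set (List Bool),
  Tk K X → Tk (k + 1) {w | ∃ x ∈ X, w = rep s x}

/-- REMOVING THE PADDING. Proof: `X = {x : ∃ v, v.map fst = x, v ∈ V}`. With
`e : Fin (k ^ s) ≃ (Fin s → Fin k)` (`finFunctionFinEquiv.symm`) let
`g (a, i) = (List.finRange s).map (fun j => (a, e i j))`, new kernel `{v : v.flatMap g ∈ V}`
(`lin_inv`, H1/Rud.lean). `(v.flatMap g).map fst = rep s (v.map fst)`. Conversely a word `u` over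
`Bool × Fin k` with `u.map fst = rep s x` is `v.flatMap g` for some `v` with `v.map fst = x`
(induction on `x`, `u = take s u ++ drop s u`). -/
def S_Unp : Prop := ∀ (k s : ℕ), ∀ X : Set (List Bool), Tk k X →
  Tk (k ^ s) {x | rep s x ∈ X}

/-- NUMBERS. Proof: for `s ≥ k * k + 1` we have `k ^ s ≤ (k + 1) ^ (s - 1)`:
`(1 + 1 / k) ^ (s - 1) ≥ 1 + (s - 1) / k ≥ k` (`one_add_mul_le_pow`). Let
`K0 = (k + 1) ^ (k * k + 1) + 2`; for `K > K0` let `s` be the least number with `K ≤ (k + 1) ^ s`; then
`s > k * k + 1` and `(k + 1) ^ (s - 1) < K`. -/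
def S_Desc : Prop := ∀ k : ℕ, 1 ≤ k → ∃ K0 : ℕ, 2 ≤ K0 ∧ ∀ K : ℕ, K0 < K →
  ∃ s : ℕ, 1 ≤ s ∧ K ≤ (k + 1) ^ s ∧ k ^ s < K

/-- MONOTONICITY. Proof: let `f : Fin K → Fin k` be surjective (`i ↦ min i (k - 1)`), kernel
`{v : v.map (fun p => (p.1, f p.2)) ∈ V}` (`lin_inv` with `[(p.1, f p.2)]`). -/
def S_Tmono : Prop := ∀ (k K : ℕ), 1 ≤ k → k ≤ K → ∀ {A : Type} [Finite A] (X : Set (List A)),
  Tk k X → Tk K X

end MPdee884H3
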