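import Pool.Agent.Lib.MP_dee884_lc.H3.Main
import Pool.Agent.Lib.MP_dee884_lc.H3.Spec2

/-!
# MP_dee884_lc, H3, second part: the theorems on the classes `T_k` from the modules
-/

namespace MPdee884H3

open MPdee884H1 MPdee884H2 Pool.Agent.Lin

theorem rep_inj {A : Type} {s : ℕ} (hs : 1 ≤ s) : Function.Injective (rep s : List A → List A) := by
  intro x
  induction x with
  | nil =>
    intro y h
    cases y with
    | nil => rfl
    | cons b y =>
      have h1 := congrArg List.length h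
      simp only [rep, List.flatMap_nil, List.flatMap_cons, List.length_append,
        List.length_replicate, List.length_nil] at h1
      omega
  | cons a x ih =>
    intro y h
    cases y with
    | nil =>
      have h1 := congrArg List.length h
      simp only [rep, List.flatMap_nil, List.flatMap_cons, List.length_append,
        List.length_replicate, List.length_nil] at h1
      omega
    | cons b y =>
      have h1 : List.replicate s a ++ rep s x = List.replicate s b ++ rep s y := h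
      obtain ⟨h2, h3⟩ := List.append_inj h1 (by simp)
      have h4 : a = b := by
        have h5 : a ∈ List.replicate s b := by
          rw [← h2]
          exact List.mem_replicate.mpr ⟨by omega, rfl⟩
        exact List.eq_of_mem_replicate h5
      rw [h4, ih h3]

theorem tk_inQ {A : Type} [Finite A] {k : ℕ} {X : Set (List A)} (h : Tk k X) : InQ X := by
  obtain ⟨V, hV, rfl⟩ := h
  refine ⟨A × Fin k, inferInstance, V, fun p => [p.1], hV, by simp, ?_⟩
  intro x
  constructor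
  · rintro ⟨v, h1, h2⟩
    refine ⟨v, h2, ?_⟩
    rw [flatMap_single]
    exact h1
  · rintro ⟨v, h1, h2⟩
    refine ⟨v, ?_, h1⟩
    rw [flatMap_single] at h2
    exact h2

theorem inQ_tk (hB : S_BA) {X : Set (List Bool)} (h : InQ X) : ∃ K : ℕ, 1 ≤ K ∧ Tk K X := by
  obtain ⟨β, hβ, L, g, h1, h2, h3⟩ := h
  obtain ⟨V, hV, e⟩ := hB (Nat.card β) X ⟨β, hβ, L, g, le_rfl, h1, h2, h3⟩
  exact ⟨Nat.card β + 2, by omega, V, hV, e⟩

theorem tk_cls {ρ : Type} {B : ρ → Type} {E : (i : ρ) → Set (List (B i × Bool))} {k : ℕ}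
    {X : Set (List Bool)} (h : Tk k X) : ClsL E k 1 Bool X := by
  obtain ⟨V, hV, rfl⟩ := h
  exact ClsL.ex V (ClsL.lin V hV)

/-- some `U` in RUD is not in `T_k` -/
theorem rud_not_tk {ρ : Type} {B : ρ → Type} (E : (i : ρ) → Set (List (B i × Bool))) {k : ℕ}
    (hdiag : ∃ U : Set (List Bool), Rud Bool U ∧ ∀ L, ClsL E k 1 Bool L →
      ∃ w : List Bool, ∀ r : List Bool, w ++ r ∈ U ↔ w ++ r ∉ L) :
    ∃ U : Set (List Bool), Rud Bool U ∧ ¬ Tk k U := by
  obtain ⟨U, hU, hd⟩ := hdiag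
  refine ⟨U, hU, fun h => ?_⟩
  obtain ⟨w, hw⟩ := hd U (tk_cls h)
  have h6 := hw []
  by_cases h7 : w ++ [] ∈ U
  · exact (h6.mp h7) h7
  · exact h7 (h6.mpr h7)

/-- the descent, for a class operation `c` (the identity or the complement) -/
theorem down (hPad : S_Pad) (hUnp : S_Unp) (hTm : S_Tmono) {k K s : ℕ} (hk : 1 ≤ k)
    (hs : 1 ≤ s) (hK : 1 ≤ K) (h1 : K ≤ (k + 1) ^ s) (h2 : k ^ s < K)
    (c : Set (List Bool) → Set (List Bool))
    (hc : ∀ L : Set (List Bool), {x | rep s x ∈ c {w | ∃ x ∈ L, w = rep s x}} = c L)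
    (H : ∀ L : Set (List Bool), Tk (k + 1) L → Tk k (c L)) (L : Set (List Bool))
    (hL : Tk K L) : Tk (K - 1) (c L) := by
  have h3 := hPad k s K hs hK h1 L hL
  have h4 := hUnp k s _ (H _ h3)
  rw [hc] at h4
  exact hTm (k ^ s) (K - 1) (Nat.one_le_pow s k hk) (by omega) _ h4

theorem rep_id {s : ℕ} (hs : 1 ≤ s) (L : Set (List Bool)) :
    {x | rep s x ∈ ({w | ∃ x ∈ L, w = rep s x} : Set (List Bool))} = L := by
  ext x
  constructor
  · rintro ⟨y, hy, e⟩
    rw [rep_inj hs e]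
    exact hy
  · intro hx
    exact ⟨x, hx, rfl⟩

theorem rep_compl {s : ℕ} (hs : 1 ≤ s) (L : Set (List Bool)) :
    {x | rep s x ∈ ({w | ∃ x ∈ L, w = rep s x}ᶜ : Set (List Bool))} = Lᶜ := by
  ext x
  constructor
  · intro h hx
    exact h ⟨x, hx, rfl⟩
  · rintro h ⟨y, hy, e⟩
    rw [rep_inj hs e] at h
    exact h hy

/-- THEOREM: for every `k ≥ 1` the complements of the languages of `T_(k+1)` are not all in `T_k`. -/
theorem coT (hPad : S_Pad) (hUnp : S_Unp) (hDesc : S_Desc) (hTm : S_Tmono) (hB : S_BA)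
    (hQ : S_RudQ) {ρ : Type} {B : ρ → Type} (E : (i : ρ) → Set (List (B i × Bool)))
    (hdiag : ∀ k : ℕ, 2 ≤ k → ∃ U : Set (List Bool), Rud Bool U ∧ ∀ L, ClsL E k 1 Bool L →
      ∃ w : List Bool, ∀ r : List Bool, w ++ r ∈ U ↔ w ++ r ∉ L) (k : ℕ) (hk : 1 ≤ k) :
    ∃ L : Set (List Bool), Tk (k + 1) L ∧ ¬ Tk k Lᶜ := by
  by_contra hcon
  have H : ∀ L : Set (List Bool), Tk (k + 1) L → Tk k Lᶜ := by
    intro L hL
    by_contra h
    exact hcon ⟨L, hL, h⟩
  obtain ⟨K0, hK0, hd⟩ := hDesc k hk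
  have down1 : ∀ K, K0 < K → ∀ L : Set (List Bool), Tk K L → Tk (K - 1) Lᶜ := by
    intro K hK L hL
    obtain ⟨s, hs, h1, h2⟩ := hd K hK
    exact down hPad hUnp hTm hk hs (by omega) h1 h2 (fun L => Lᶜ) (rep_compl hs) H L hL
  have down2 : ∀ K, K0 < K → ∀ L : Set (List Bool), Tk K L → Tk (K - 1) L := by
    intro K hK L hL
    have h1 := hTm (K - 1) K (by omega) (by omega) _ (down1 K hK L hL)
    have h2 := down1 K hK _ h1
    rwa [compl_compl] at h2
  have all : ∀ (d : ℕ) (L : Set (List Bool)), Tk (K0 + d) L → Tk K0 L := by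
    intro d
    induction d with
    | zero => intro L hL; exact hL
    | succ d ih =>
      intro L hL
      exact ih L (down2 (K0 + (d + 1)) (by omega) L hL)
  have all2 : ∀ (K : ℕ) (L : Set (List Bool)), 1 ≤ K → Tk K L → Tk K0 L := by
    intro K L hK hL
    exact all K L (hTm K (K0 + K) hK (by omega) L hL)
  have hcomp : ∀ L : Set (List Bool), InQ L → InQ Lᶜ := by
    intro L hL
    obtain ⟨K, hK, h1⟩ := inQ_tk hB hL
    have h2 := hTm K0 (K0 + 1) (by omega) (by omega) _ (all2 K L hK h1)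
    exact tk_inQ (down1 (K0 + 1) (by omega) L h2)
  obtain ⟨U, hU, hnU⟩ := rud_not_tk E (hdiag K0 hK0)
  obtain ⟨K, hK, h1⟩ := inQ_tk hB (hQ hcomp Bool U hU)
  exact hnU (all2 K U hK h1)

/-- THEOREM: if `T_(k+1) = T_k` for some `k ≥ 1` then RUD is not contained in Q. -/
theorem strictT (hPad : S_Pad) (hUnp : S_Unp) (hDesc : S_Desc) (hTm : S_Tmono) (hB : S_BA)
    {ρ : Type} {B : ρ → Type} (E : (i : ρ) → Set (List (B i × Bool)))
    (hdiag : ∀ k : ℕ, 2 ≤ k → ∃ U : Set (List Bool), Rud Bool U ∧ ∀ L, ClsL E k 1 Bool L →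
      ∃ w : List Bool, ∀ r : List Bool, w ++ r ∈ U ↔ w ++ r ∉ L)
    (hRQ : ∀ L : Set (List Bool), Rud Bool L → InQ L) (k : ℕ) (hk : 1 ≤ k) :
    ∃ L : Set (List Bool), Tk (k + 1) L ∧ ¬ Tk k L := by
  by_contra hcon
  have H : ∀ L : Set (List Bool), Tk (k + 1) L → Tk k L := by
    intro L hL
    by_contra h
    exact hcon ⟨L, hL, h⟩
  obtain ⟨K0, hK0, hd⟩ := hDesc k hk
  have down2 : ∀ K, K0 < K → ∀ L : Set (List Bool), Tk K L → Tk (K - 1) L := by
    intro K hK L hL
    obtain ⟨s, hs, h1, h2⟩ := hd K hK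
    exact down hPad hUnp hTm hk hs (by omega) h1 h2 (fun L => L) (rep_id hs) H L hL
  have all : ∀ (d : ℕ) (L : Set (List Bool)), Tk (K0 + d) L → Tk K0 L := by
    intro d
    induction d with
    | zero => intro L hL; exact hL
    | succ d ih =>
      intro L hL
      exact ih L (down2 (K0 + (d + 1)) (by omega) L hL)
  obtain ⟨U, hU, hnU⟩ := rud_not_tk E (hdiag K0 hK0)
  obtain ⟨K, hK, h1⟩ := inQ_tk hB (hRQ U hU)
  exact hnU (all K U (hTm K (K0 + K) hK (by omega) U h1))

end MPdee884H3
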