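import Pool.Agent.Lib.MP_dee884_lc.Defs

/-!
# MP_dee884_lc: the linear-time hierarchy with guesses of fixed rate
-/

namespace MPdee884H3

open Pool.Agent.Lin

/-- The class `Σ_j(k)` of languages over `A`: `Σ_0(k)` is `LINTIME`, `Σ_(j+1)(k)` consists of the
languages `{x : (x, y) ∉ M for some y ∈ [k]^|x|}` with `M` in `Σ_j(k)` over `A × [k]`. -/
def Sg (k : ℕ) : ℕ → (A : Type) → Set (List A) → Prop
  | 0, _, X => LINTIME X
  | j + 1, A, X => ∃ M : Set (List (A × Fin k)), Sg k j (A × Fin k) M ∧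
      X = {x | ∃ v : List (A × Fin k), v.map Prod.fst = x ∧ v ∉ M}

end MPdee884H3
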