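import Pool.Agent.Lib.MP_dee884_lc.H3.Spec2
import Pool.Agent.Lib.MP_dee884_lc.H3.SgDef

/-!
# MP_dee884_lc, H3, third part: the linear-time hierarchy with guesses of fixed rate
-/

namespace MPdee884H3

open MPdee884H1 MPdee884H2 Pool.Agent.Lin

/-- the word `w` consists of blocks of length `s` which are decoded by `D` to the letters of `x` -/
def Bd {A' A : Type} (s : ℕ) (D : List A' → Option A) (w : List A') (x : List A) : Prop :=
  ∃ ws : List (List A'), w = ws.flatten ∧ (∀ u ∈ ws, u.length = s) ∧ ws.map D = x.map some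

/-- INVERSE HOMOMORPHISMS. Proof: induction on `j` (`m` is fixed, all alphabets). `j = 0`: `lin_inv`
(H1/Rud.lean). `j + 1`: `X = {x : ∃ v, v.map fst = x, v ∉ M}`; with
`d : Fin (k ^ m) ≃ (Fin m → Fin k)` (`finFunctionFinEquiv.symm`) let `e' (c, i)` be the word of length
`|e c|` with the letters `((e c)[p], d i p)`, `p < |e c| ≤ m` (e.g. `List.ofFn`); the words `v` with
`v.map fst = u.flatMap e` are exactly the words `u'.flatMap e'` with `u'.map fst = u` (induction on `u`,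
`v = take |e c| v ++ drop |e c| v`, extend a function on `{p < |e c|}` to `Fin m` by the letter `0`, `k ≥ 1`);
the lengths of the `e' (c, i)` are at most `m`, induction hypothesis for `M`, `e'`. -/
def S_SgInv : Prop := ∀ (k m j : ℕ), 1 ≤ k → ∀ {α γ : Type} [Finite γ] (e : γ → List α),
  (∀ c, (e c).length ≤ m) → ∀ X : Set (List α), Sg k j α X →
    Sg (k ^ m) j γ {u | u.flatMap e ∈ X}

/-- MONOTONICITY (use `S_SgInv` with `m = 1`, `pow_one`: inverse images under letter maps). (1) in `k`: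
induction on `j` (all alphabets): `f : Fin K → Fin k` surjective (`i ↦ min i (k - 1)`),
`M' = {v : v.map (fun p => (p.1, f p.2)) ∈ M}`. (2) in `j`: induction on `j`; for `j = 0`:
`X = {x : ∃ v, v.map fst = x, v ∉ M}` with `M = {v : v.map fst ∈ Xᶜ}` (`k ≥ 1`,
`LINTIME.compl`). (3) complements: `Xᶜ = {x : ∃ v, v.map fst = x, v ∉ M}`,
`M = {v : v.map fst ∈ X}`. -/
def S_SgMono : Prop :=
  (∀ (k K j : ℕ), 1 ≤ k → k ≤ K → ∀ {A : Type} [Finite A] (X : Set (List A)),
    Sg k j A X → Sg K j A X) ∧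
  (∀ (k i j : ℕ), 1 ≤ k → i ≤ j → ∀ {A : Type} [Finite A] (X : Set (List A)),
    Sg k i A X → Sg k j A X) ∧
  (∀ (k j : ℕ), 1 ≤ k → ∀ {A : Type} [Finite A] (X : Set (List A)),
    Sg k j A X → Sg k (j + 1) A Xᶜ)

/-- BLOCK CODES (use `S_Gsm`). Proof: induction on `j` (all `A`, `A'`, `D`). `s ≥ 1`: the word `w`
determines the blocks `ws`, so it determines `x`. The second set for `X` is the complement of the
first set for `Xᶜ`. `j = 0`: transducer with a buffer (a list over `A'` of length `< s`, finite by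
`List.finite_length_lt`): on the letter `z` the buffer `u` becomes `u ++ [z]` without output if
`|u| + 1 < s`, and if `|u| + 1 = s` it becomes empty, the output is the letter of `A ⊕ Unit` given by
`D (u ++ [z])` (`inr ()` for `none`); `fin [] = []`, `fin u = [inr ()]` otherwise. The output is
`x.map inl` iff `Bd s D w x`; kernel `{w : gout δ fin [] w ∈ Inl Unit X}` (`lin_Inl`, H1/Rud.lean).
`j + 1`: `X = {x : ∃ v, v.map fst = x, v ∉ M}`, `M` over `A × Fin K`. As `1 ≤ K ≤ k ^ s` there is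
`dec : List (Fin k) → Fin K` such that each `i` is `dec c` for some `c` of length `s`. Let
`D' : List (A' × Fin k) → Option (A × Fin K)`,
`D' u = (D (u.map fst)).map (fun a => (a, dec (u.map snd)))`. (a) The first set is
`{w : ∃ t, t.map fst = w, t ∉ {t : ∀ v, Bd s D' t v → v ∈ M}}`: given `x ∈ X`, `v`, and blocks
`ws` of `w`, zip the block number `i` with a code of the second component of `v_i`; conversely
`Bd s D' t v` implies `Bd s D (t.map fst) (v.map fst)`. (b) The second set is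
`{w : ∃ t, t.map fst = w, t ∉ {t : ∃ v ∈ M, Bd s D' t v}}`: if no `x` satisfies `Bd s D w x` take any `t`
over `w` (`k ≥ 1`); if `Bd s D w x` with `x ∈ X` take `v` over `x`, `v ∉ M`, and the `t` as in (a), `v`
is determined by `t`; conversely if `t` is given and `Bd s D w x` then `Bd s D' t v` for a `v` with
`v.map fst = x` and so `v ∉ M`. -/
def S_SgPad : Prop := ∀ (k K s j : ℕ), 1 ≤ s → 1 ≤ k → 1 ≤ K → K ≤ k ^ s →
  ∀ {A A' : Type} [Finite A] [Finite A'] (D : List A' → Option A) (X : Set (List A)), Sg K j A X →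
    Sg k j A' {w | ∃ x ∈ X, Bd s D w x} ∧ Sg k j A' {w | ∀ x, Bd s D w x → x ∈ X}

/-- INTERSECTIONS AND UNIONS WITH `LINTIME`. Proof: simultaneous induction on `j` (all alphabets).
`j = 0`: `LINTIME.inter`, `LINTIME.union`. `j + 1`: `X = {x : ∃ v, v.map fst = x, v ∉ M}`,
`V' = {v : v.map fst ∈ V}` (`lin_inv`): `X ∩ V = {x : ∃ v, v.map fst = x, v ∉ M ∪ V'ᶜ}` and
`X ∪ V = {x : ∃ v, v.map fst = x, v ∉ M ∩ V'ᶜ}` (`k ≥ 1`: each `x` is `v.map fst` for some `v`). -/
def S_SgCap : Prop := ∀ (k j : ℕ), 1 ≤ k → ∀ {A : Type} [Finite A] (X V : Set (List A)),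
  LINTIME V → Sg k j A X → Sg k j A (X ∩ V) ∧ Sg k j A (X ∪ V)

/-- RUD IS THE UNION OF THE LEVELS (use `S_SgInv`, `S_SgMono`, `S_SgCap`). Proof of `→`: induction on
`Rud`. `lin`: `Sg 1 0`. `compl`: `S_SgMono` (3). `hom` for `h : α → List β`: let
`Y1 = {u : u.flatMap (fun p => p.2.toList) ∈ L}` over `β × Option α` (`S_SgInv`, `m = 1`),
`Y2 = {u : (u.flatMap (fun p => p.2.toList)).flatMap h = u.map fst}` in `LINTIME` (`lintime_eq`, `MP.hom`,
`List.flatMap_assoc`); `Y = Y1 ∩ Y2` (`S_SgCap`), `Yᶜ` is in `Sg K (j + 1)`; with `K'` = the maximum of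
`K` and the number of the elements of `Option α`, `f : Fin K' → Option α` surjective,
`M = {v : v.map (fun p => (p.1, f p.2)) ∈ Yᶜ}` (`S_SgInv`, `m = 1`, `S_SgMono` (1)):
`h(L) = {x : ∃ v, v.map fst = x, v ∉ M}` in `Sg K' (j + 2)`: if `x = h(w)` with `w ∈ L`, `|w| ≤ |x|` as
`h a ≠ []`, write the letters of `w` on the first positions of `x` and `none` on the others. Proof
of `←`: induction on `j`: `Rud.lin`, `Rud.compl`, `Rud.hom` with `[p.1]` (`flatMap_single`). -/
def S_SgRud : Prop := (∀ (α : Type) (L : Set (List α)), Rud α L →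
    Finite α ∧ ∃ K j : ℕ, 1 ≤ K ∧ Sg K j α L) ∧
  ∀ (K j : ℕ) (α : Type) [Finite α] (L : Set (List α)), Sg K j α L → Rud α L

/-- COLLAPSE (use `S_SgInv`, `S_SgMono`, `S_SgPad`). Proof. (a) `Σ_j` is closed under complement over
each finite alphabet `A`: let `code : A → List Bool` be injective with all lengths equal to
`m ≥ 1`, `D u = some a` if `u = code a`, `none` if there is no such `a`. If `X` is in `Sg K j A` then
`X' = {w : ∃ x ∈ X, Bd m D w x}` is in `Sg K j Bool` (`S_SgPad`, `K ≤ K ^ m`), its complement in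
`Sg K' j Bool`, and `Xᶜ = {x : x.flatMap code ∈ X'ᶜ}` (`x.flatMap code` is decoded to `x` only), `S_SgInv`.
(b) `i ≤ j`: `S_SgMono`. (c) `i + 1 > j`: `X = {x : ∃ v, v.map fst = x, v ∉ M}` with `M` in `Sg K i`, so
in `Sg K1 j` by induction, `Mᶜ` in `Sg K2 j` by (a):
`Mᶜ = {v : ∃ u, u.map fst = v, u ∉ N}`, `N` in `Sg K2 (j - 1)` over `(A × Fin K) × Fin K2`; so
`X = {x : ∃ t, t.map fst = x, t ∉ N'}` with `t` over `A × Fin (K * K2)`, `N'` the inverse image of `N`
under the bijection `Fin (K * K2) ≃ Fin K × Fin K2` (`finProdFinEquiv`) (`S_SgInv` with `m = 1`), and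
`N'` is in `Sg (K * K2) (j - 1)` by `S_SgMono` (1). -/
def S_SgColl : Prop := ∀ j : ℕ, 1 ≤ j →
  (∀ (K : ℕ) (L : Set (List Bool)), 1 ≤ K → Sg K j Bool L → ∃ K' : ℕ, 1 ≤ K' ∧ Sg K' j Bool Lᶜ) →
  ∀ (i K : ℕ) {A : Type} [Finite A] (X : Set (List A)), 1 ≤ K → Sg K i A X →
    ∃ K' : ℕ, 1 ≤ K' ∧ Sg K' j A X

/-- THE FIRST LEVEL IS Q. Proof of `→`: `S_BA`-like (H3/BA.lean has the case of `{0,1}`): `X = h(L)`,
`L` in `LINTIME` over `β`, number the letters of `β` by `e : β ≃ Fin m`, `g (a, i) = [e.symm i]` for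
`i < m`, `[]` for `i = m`; `V` = the words `v` over `α × Fin (m + 1)` with `v.flatMap g ∈ L` and
`v.flatMap (fun p => (g p).flatMap h) = v.flatMap (fun p => [p.1])` (`lin_inv`, `lintime_eq`,
`LINTIME.inter`); `M = Vᶜ`. Proof of `←`: homomorphism `[p.1]` (`flatMap_single`). -/
def S_SgQ : Prop := ∀ {α : Type} [Finite α] (X : Set (List α)),
  InQ X ↔ ∃ K : ℕ, 1 ≤ K ∧ Sg K 1 α X

end MPdee884H3
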