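import Pool.Agent.Lib.MP_dee884_lc.H3.Main2
import Pool.Agent.Lib.MP_dee884_lc.H3.Spec3

/-!
# MP_dee884_lc, H3, third part: the theorems on the classes `Σ_j(k)` from the modules
-/

namespace MPdee884H3

open MPdee884H1 MPdee884H2 Pool.Agent.Lin

/-- decoding of blocks of `s` equal letters -/
def rdec (s : ℕ) (u : List Bool) : Option Bool :=
  if u = List.replicate s true then some true
  else if u = List.replicate s false then some false else none

theorem rdec_eq {s : ℕ} {u : List Bool} {a : Bool} (h : rdec s u = some a) :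
    u = List.replicate s a := by
  unfold rdec at h
  by_cases h1 : u = List.replicate s true
  · rw [if_pos h1] at h
    obtain rfl := Option.some_injective _ h
    exact h1
  · rw [if_neg h1] at h
    by_cases h2 : u = List.replicate s false
    · rw [if_pos h2] at h
      obtain rfl := Option.some_injective _ h
      exact h2
    · rw [if_neg h2] at h
      simp at h

theorem rdec_rep {s : ℕ} (hs : 1 ≤ s) (a : Bool) : rdec s (List.replicate s a) = some a := by
  unfold rdec
  cases a with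
  | true => rw [if_pos rfl]
  | false =>
    rw [if_neg, if_pos rfl]
    intro h
    have h5 : false ∈ List.replicate s true := by
      rw [← h]
      exact List.mem_replicate.mpr ⟨by omega, rfl⟩
    have h6 := List.eq_of_mem_replicate h5
    simp at h6

theorem bd_rep {s : ℕ} (hs : 1 ≤ s) (w x : List Bool) :
    Bd s (rdec s) w x ↔ w = rep s x := by
  constructor
  · rintro ⟨ws, rfl, hws, h⟩
    clear hws
    induction x generalizing ws with
    | nil =>
      have h1 : ws = [] := by simpa using h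
      rw [h1]
      rfl
    | cons a x ih =>
      cases ws with
      | nil => simp at h
      | cons u ws =>
        rw [List.map_cons, List.map_cons, List.cons.injEq] at h
        have h1 := ih ws h.2
        rw [List.flatten_cons, h1, rdec_eq h.1]
        rfl
  · rintro rfl
    refine ⟨x.map (fun a => List.replicate s a), ?_, ?_, ?_⟩
    · rw [rep, List.flatMap_def]
    · intro u hu
      obtain ⟨a, _, rfl⟩ := List.mem_map.mp hu
      simp
    · rw [List.map_map]
      refine List.map_congr_left ?_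
      intro a _
      exact rdec_rep hs a

theorem sg_cls {ρ : Type} {B : ρ → Type} {E : (i : ρ) → Set (List (B i × Bool))} {k : ℕ} :
    ∀ (j : ℕ) {A : Type} {X : Set (List A)}, Sg k j A X → ClsL E k j A X := by
  intro j
  induction j with
  | zero =>
    intro A X h
    exact ClsL.lin X h
  | succ j ih =>
    intro A X h
    obtain ⟨M, hM, rfl⟩ := h
    exact ClsL.ex Mᶜ (ClsL.compl M (ih hM))

/-- some `U` in RUD is not in `Σ_j(k)` -/
theorem rud_not_sg {ρ : Type} {B : ρ → Type} (E : (i : ρ) → Set (List (B i × Bool))) {k j : ℕ}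
    (hdiag : ∃ U : Set (List Bool), Rud Bool U ∧ ∀ L, ClsL E k j Bool L →
      ∃ w : List Bool, ∀ r : List Bool, w ++ r ∈ U ↔ w ++ r ∉ L) :
    ∃ U : Set (List Bool), Rud Bool U ∧ ¬ Sg k j Bool U := by
  obtain ⟨U, hU, hd⟩ := hdiag
  refine ⟨U, hU, fun h => ?_⟩
  obtain ⟨w, hw⟩ := hd U (sg_cls j h)
  have h6 := hw []
  by_cases h7 : w ++ [] ∈ U
  · exact (h6.mp h7) h7
  · exact h7 (h6.mpr h7)

/-- the descent, for a class operation `c` (the identity or the complement) -/
theorem sg_down (hPad : S_SgPad) (hInv : S_SgInv) (hMono : S_SgMono) {j k K s : ℕ} (hk : 1 ≤ k)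
    (hs : 1 ≤ s) (hK : 1 ≤ K) (h1 : K ≤ (k + 1) ^ s) (h2 : k ^ s < K)
    (c : Set (List Bool) → Set (List Bool))
    (hc : ∀ L : Set (List Bool), {x | rep s x ∈ c {w | ∃ x ∈ L, w = rep s x}} = c L)
    (H : ∀ L : Set (List Bool), Sg (k + 1) j Bool L → Sg k j Bool (c L)) (L : Set (List Bool))
    (hL : Sg K j Bool L) : Sg (K - 1) j Bool (c L) := by
  have h3 := (hPad (k + 1) K s j hs (by omega) hK h1 (rdec s) L hL).1
  simp only [bd_rep hs] at h3
  have h4 := hInv k s j hk (fun a : Bool => List.replicate s a) (by simp) _ (H _ h3)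
  have e : {u : List Bool | u.flatMap (fun a => List.replicate s a) ∈
      c {w | ∃ x ∈ L, w = rep s x}} = c L := hc L
  rw [e] at h4
  exact hMono.1 (k ^ s) (K - 1) j (Nat.one_le_pow s k hk) (by omega) _ h4

/-- THEOREM: for all `j, k ≥ 1` the complements of the languages of `Σ_j(k + 1)` are not all in
`Σ_j(k)`. -/
theorem coS (hPad : S_SgPad) (hInv : S_SgInv) (hMono : S_SgMono) (hDesc : S_Desc)
    (hRud : S_SgRud) (hColl : S_SgColl) {ρ : Type} {B : ρ → Type}
    (E : (i : ρ) → Set (List (B i × Bool)))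
    (hdiag : ∀ k j : ℕ, 2 ≤ k → ∃ U : Set (List Bool), Rud Bool U ∧ ∀ L, ClsL E k j Bool L →
      ∃ w : List Bool, ∀ r : List Bool, w ++ r ∈ U ↔ w ++ r ∉ L) (j k : ℕ) (hj : 1 ≤ j)
    (hk : 1 ≤ k) :
    ∃ L : Set (List Bool), Sg (k + 1) j Bool L ∧ ¬ Sg k j Bool Lᶜ := by
  by_contra hcon
  have H : ∀ L : Set (List Bool), Sg (k + 1) j Bool L → Sg k j Bool Lᶜ := by
    intro L hL
    by_contra h
    exact hcon ⟨L, hL, h⟩
  obtain ⟨K0, hK0, hd⟩ := hDesc k hk
  have down1 : ∀ K, K0 < K → ∀ L : Set (List Bool), Sg K j Bool L → Sg (K - 1) j Bool Lᶜ := by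
    intro K hK L hL
    obtain ⟨s, hs, h1, h2⟩ := hd K hK
    exact sg_down hPad hInv hMono hk hs (by omega) h1 h2 (fun L => Lᶜ) (rep_compl hs) H L hL
  have down2 : ∀ K, K0 < K → ∀ L : Set (List Bool), Sg K j Bool L → Sg (K - 1) j Bool L := by
    intro K hK L hL
    have h1 := hMono.1 (K - 1) K j (by omega) (by omega) _ (down1 K hK L hL)
    have h2 := down1 K hK _ h1
    rwa [compl_compl] at h2
  have all : ∀ (d : ℕ) (L : Set (List Bool)), Sg (K0 + d) j Bool L → Sg K0 j Bool L := by
    intro d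
    induction d with
    | zero => intro L hL; exact hL
    | succ d ih =>
      intro L hL
      exact ih L (down2 (K0 + (d + 1)) (by omega) L hL)
  have all2 : ∀ (K : ℕ) (L : Set (List Bool)), 1 ≤ K → Sg K j Bool L → Sg K0 j Bool L := by
    intro K L hK hL
    exact all K L (hMono.1 K (K0 + K) j hK (by omega) L hL)
  have hcomp : ∀ (K : ℕ) (L : Set (List Bool)), 1 ≤ K → Sg K j Bool L →
      ∃ K' : ℕ, 1 ≤ K' ∧ Sg K' j Bool Lᶜ := by
    intro K L hK h1
    have h2 := hMono.1 K0 (K0 + 1) j (by omega) (by omega) _ (all2 K L hK h1)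
    exact ⟨K0, by omega, down1 (K0 + 1) (by omega) L h2⟩
  obtain ⟨U, hU, hnU⟩ := rud_not_sg E (hdiag K0 j hK0)
  obtain ⟨_, K, i, hK, h1⟩ := hRud.1 Bool U hU
  obtain ⟨K', hK', h2⟩ := hColl j hj hcomp i K U hK h1
  exact hnU (all2 K' U hK' h2)

/-- THEOREM: if `Σ_j(k + 1) = Σ_j(k)` over `{0, 1}` for some `k ≥ 1` then RUD is not contained in the
union of the classes `Σ_j(K)`. -/
theorem strictS (hPad : S_SgPad) (hInv : S_SgInv) (hMono : S_SgMono) (hDesc : S_Desc)
    {ρ : Type} {B : ρ → Type} (E : (i : ρ) → Set (List (B i × Bool)))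
    (hdiag : ∀ k j : ℕ, 2 ≤ k → ∃ U : Set (List Bool), Rud Bool U ∧ ∀ L, ClsL E k j Bool L →
      ∃ w : List Bool, ∀ r : List Bool, w ++ r ∈ U ↔ w ++ r ∉ L) (j k : ℕ) (hk : 1 ≤ k)
    (hR : ∀ L : Set (List Bool), Rud Bool L → ∃ K : ℕ, 1 ≤ K ∧ Sg K j Bool L) :
    ∃ L : Set (List Bool), Sg (k + 1) j Bool L ∧ ¬ Sg k j Bool L := by
  by_contra hcon
  have H : ∀ L : Set (List Bool), Sg (k + 1) j Bool L → Sg k j Bool L := by
    intro L hL
    by_contra h
    exact hcon ⟨L, hL, h⟩
  obtain ⟨K0, hK0, hd⟩ := hDesc k hk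
  have down2 : ∀ K, K0 < K → ∀ L : Set (List Bool), Sg K j Bool L → Sg (K - 1) j Bool L := by
    intro K hK L hL
    obtain ⟨s, hs, h1, h2⟩ := hd K hK
    exact sg_down hPad hInv hMono hk hs (by omega) h1 h2 (fun L => L) (rep_id hs) H L hL
  have all : ∀ (d : ℕ) (L : Set (List Bool)), Sg (K0 + d) j Bool L → Sg K0 j Bool L := by
    intro d
    induction d with
    | zero => intro L hL; exact hL
    | succ d ih =>
      intro L hL
      exact ih L (down2 (K0 + (d + 1)) (by omega) L hL)
  obtain ⟨U, hU, hnU⟩ := rud_not_sg E (hdiag K0 j hK0)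
  obtain ⟨K, hK, h1⟩ := hR U hU
  exact hnU (all K U (hMono.1 K (K0 + K) j hK (by omega) U h1))

end MPdee884H3
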