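import Pool.Agent.Lib.MP_dee884_lc.H3.Dat

/-!
# MP_dee884_lc, H3: the conditions on the data of the segments are recognised
-/

namespace MPdee884H3

open MPdee884H1 MPdee884H2 Pool.Agent.Lin

/-! ### conditions on slots -/

section

variable {ρ : Type} {B : ρ → Type} {E : (i : ρ) → Set (List (B i × Bool))} {m j : ℕ}
  {X Λ : Type} {KK l : ℕ} {mk : X → Bool} {dec : List Bool → Λ}

theorem foldl_and (P : Λ → Prop) [DecidablePred P] (L : List Λ) (q : Bool) :
    L.foldl (fun (q : Bool) a => q && decide (P a)) q = true ↔ q = true ∧ ∀ a ∈ L, P a := by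
  induction L generalizing q with
  | nil => simp
  | cons a L ih =>
    rw [List.foldl_cons, ih]
    simp only [Bool.and_eq_true, decide_eq_true_eq, List.mem_cons, forall_eq_or_imp]
    tauto

theorem foldl_first (g : Λ → Bool) (L : List Λ) :
    L.foldl (fun (q : Option Bool) a => if q = none then some (g a) else q) none =
      (L[0]?).map g := by
  have key : ∀ (L : List Λ) (b : Bool),
      L.foldl (fun (q : Option Bool) a => if q = none then some (g a) else q) (some b) =
        some b := by
    intro L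
    induction L with
    | nil => intro b; rfl
    | cons a L ih =>
      intro b
      rw [List.foldl_cons]
      simpa using ih b
  cases L with
  | nil => rfl
  | cons a L =>
    rw [List.foldl_cons]
    simp only [if_true]
    rw [key]
    simp

theorem rgAll (hReg : S_RegS) (hl : 1 ≤ l) (f : X → Bool) (P : Λ → Prop) (s : ℕ)
    (hs : (s + 1) * l ≤ KK) :
    RgC E m j KK mk (fun w b => ∀ a ∈ slot l dec (w.map f) b s, P a) := by
  classical
  have h := hReg KK l mk f dec (fun (q : Bool) a => q && decide (P a)) true {true} s hl hs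
  refine (RgC.of h).congr ?_
  intro w b _
  rw [Set.mem_singleton_iff, foldl_and]
  simp

theorem rgFirst (hReg : S_RegS) (hl : 1 ≤ l) (f : X → Bool) (g : Λ → Bool) (s : ℕ)
    (hs : (s + 1) * l ≤ KK) :
    RgC E m j KK mk (fun w b => ((slot l dec (w.map f) b s)[0]?).map g = some true) := by
  classical
  have h := hReg KK l mk f dec (fun (q : Option Bool) a => if q = none then some (g a) else q)
    none {some true} s hl hs
  refine (RgC.of h).congr ?_
  intro w b _
  rw [Set.mem_singleton_iff, foldl_first]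

theorem rgX (hX1 : S_XS1) (hX2 : S_XS2) (hEq : S_EqS) (hC : S_Code) (hm : 2 ≤ m) [Finite Λ]
    {G : Type} [Finite G] (hl : 1 ≤ l) (enc : Λ → List Bool) (henc : ∀ a, (enc a).length = l)
    (hdec : ∀ a, dec (enc a) = a) (fx : X → G) (f : X → Bool) (r : Option G → Λ → Prop)
    (β s : ℕ) (hs : 1 ≤ s) (hs2 : (s + 1) * l ≤ KK) (hβ : β ≤ KK) :
    RgC E m 1 KK mk (fun w b => ∀ i < b, r ((w.map fx)[β * b + i]?)
      (lt l dec (w.map f) (s * b + i))) := by
  rcases Nat.lt_or_ge β (s * l) with h | h
  · exact RgC.of (hX1 KK l mk f fx dec r β s hl h hs2)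
  · have hls : l ≤ s * l := Nat.le_mul_of_pos_left l hs
    have hls2 : l ≤ KK := by
      have : l ≤ (s + 1) * l := Nat.le_mul_of_pos_left l (Nat.succ_pos s)
      omega
    have c1 := hEq (X := X × Fin m) KK l (fun p => mk p.1) (fun p => bit p.2) (fun p => f p.1) dec
      (fun a a' => a = a') 0 s hl (by omega) hs2
    have c2 := hX2 (X := X × Fin m) KK l (fun p => mk p.1) (fun p => bit p.2) (fun p => fx p.1)
      dec r β 0 hl (by omega) hβ
    have h3 := RgC.ex (E := E) (j := 0) ((RgC.of c1).and (RgC.of c2))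
    refine h3.congr ?_
    intro w b hw
    constructor
    · intro h1
      have hlen : 1 * b * l ≤ w.length := by
        have h4 := hw.2.1
        rw [List.length_map] at h4
        have h5 : b * l ≤ KK * b := by
          rw [Nat.mul_comm]
          exact Nat.mul_le_mul_right b hls2
        rw [Nat.one_mul]
        omega
      obtain ⟨u, hu1, hu2⟩ := hC (I := Unit) l dec enc hl henc hdec b 1 w.length hlen
        (fun _ => 0) (fun _ _ _ => rfl) (fun _ => Nat.one_pos)
        (fun _ => slot l dec (w.map f) b s) (fun _ => slot_length _ _ _ _ _)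
      obtain ⟨v, hv1, hv2⟩ := track hm w u hu1
      have e1 : v.map (fun p => f p.1) = w.map f := by
        rw [← hv1, List.map_map]
        rfl
      have e2 : v.map (fun p => fx p.1) = w.map fx := by
        rw [← hv1, List.map_map]
        rfl
      have h4 := (slot_eq_iff l dec _ _ b 0 s).mp (hu2 ())
      refine ⟨v, hv1, ?_, ?_⟩
      · intro i hi
        rw [hv2, e1]
        exact h4 i hi
      · intro i hi
        rw [hv2, e2, h4 i hi]
        exact h1 i hi
    · rintro ⟨v, hv1, h1, h2⟩ i hi
      have e1 : v.map (fun p => f p.1) = w.map f := by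
        rw [← hv1, List.map_map]
        rfl
      have e2 : v.map (fun p => fx p.1) = w.map fx := by
        rw [← hv1, List.map_map]
        rfl
      have h3 := h1 i hi
      have h4 := h2 i hi
      rw [e1] at h3
      rw [e2, h3] at h4
      exact h4

end

/-! ### the data of a segment -/

section

variable {ρ : Type} {B : ρ → Type} {E : (i : ρ) → Set (List (B i × Bool))} {m : ℕ}
  {X : Type} {K : Type} {Γ : K → Type} {M : TM K Γ} {KK l : ℕ} {mk : X → Bool}
  {dec : List Bool → Ltr M}

theorem rgEq (hEq : S_EqS) [Finite K] [∀ k, Finite (Γ k)] {j : ℕ} (hl : 1 ≤ l)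
    (f1 f2 : X → Bool) (k : K) (s1 s2 : ℕ) (h : s1 < s2) (hs : (s2 + 1) * l ≤ KK) :
    RgC E m j KK mk (fun w b => (slot l dec (w.map f2) b s2).map (asCell k) =
      (slot l dec (w.map f1) b s1).map (asCell k)) := by
  have := M.fin
  have h1 := hEq KK l mk f1 f2 dec (fun a a' => asCell k a' = asCell k a) s1 s2 hl h hs
  refine (RgC.of h1).congr ?_
  intro w b _
  unfold slot
  rw [List.map_map, List.map_map, range_map_eq]
  rfl

theorem rgBlank (hReg : S_RegS) {j : ℕ} (hl : 1 ≤ l) (f : X → Bool) (k : K) (s : ℕ)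
    (hs : (s + 1) * l ≤ KK) :
    RgC E m j KK mk (fun w b => ((slot l dec (w.map f) b s).map (asCell k)).map Prod.fst =
      (List.range b).map (fun _ => none)) := by
  refine (rgAll (dec := dec) hReg hl f (fun a => (asCell k a).1 = none) s hs).congr ?_
  intro w b _
  unfold slot
  rw [List.map_map, List.map_map, range_map_eq]
  constructor
  · intro h a ha
    obtain ⟨i, hi, rfl⟩ := List.mem_map.mp ha
    exact h i (List.mem_range.mp hi)
  · intro h i hi
    exact h _ (List.mem_map.mpr ⟨i, List.mem_range.mpr hi, rfl⟩)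

theorem rgInit (hX1 : S_XS1) (hX2 : S_XS2) (hEq : S_EqS) (hC : S_Code) (hReg : S_RegS)
    (hm : 2 ≤ m) [Finite K] [∀ k, Finite (Γ k)] (hl : 1 ≤ l) (enc : Ltr M → List Bool)
    (henc : ∀ a, (enc a).length = l) (hdec : ∀ a, dec (enc a) = a) (k0 : K) (fx : X → Γ k0)
    (f : X → Bool) (k : K) (β : ℤ) (s : ℕ) (hs : 1 ≤ s) (hs2 : (s + 1) * l ≤ KK) :
    RgC E m 1 KK mk (fun w b => ((slot l dec (w.map f) b s).map (asCell k)).map Prod.fst =
      (List.range b).map (fun o : ℕ => inp k0 (w.map fx) k (β * b + o))) := by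
  have := M.fin
  by_cases hk : k = k0
  · subst hk
    rcases lt_or_ge β 0 with hβ | hβ
    · refine (rgBlank (dec := dec) hReg hl f k s hs2).congr ?_
      intro w b hw
      have e : (List.range b).map (fun o : ℕ => inp k (w.map fx) k (β * b + o)) =
          (List.range b).map (fun _ => none) := by
        rw [range_map_eq]
        intro i hi
        rw [inp_self]
        unfold tapeOf
        have h1 : β * (b : ℤ) ≤ (-1) * (b : ℤ) :=
          mul_le_mul_of_nonneg_right (by omega) (Int.natCast_nonneg b)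
        rw [if_neg (by omega)]
      rw [e]
    · obtain ⟨β', rfl⟩ := Int.eq_ofNat_of_zero_le hβ
      have key : ∀ (w : List X) (b i : ℕ), inp k (w.map fx) k ((β' : ℤ) * b + i) =
          (w.map fx)[β' * b + i]? := by
        intro w b i
        rw [inp_self]
        unfold tapeOf
        have e1 : ((β' : ℤ) * b + i) = ((β' * b + i : ℕ) : ℤ) := by push_cast; rfl
        rw [e1, if_pos (Int.natCast_nonneg _), Int.toNat_natCast]
      rcases Nat.lt_or_ge KK β' with h1 | h1
      · refine (rgBlank (dec := dec) hReg hl f k s hs2).congr ?_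
        intro w b hw
        have e : (List.range b).map (fun o : ℕ => inp k (w.map fx) k ((β' : ℤ) * b + o)) =
            (List.range b).map (fun _ => none) := by
          rw [range_map_eq]
          intro i hi
          rw [key]
          refine List.getElem?_eq_none ?_
          have h2 := hw.2.2.1
          rw [List.length_map] at h2
          rw [List.length_map]
          have h3 := mul_step KK β' b h1
          omega
        rw [e]
      · refine (rgX (dec := dec) hX1 hX2 hEq hC hm hl enc henc hdec fx f (fun o a => (asCell k a).1 = o)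
          β' s hs hs2 h1).congr ?_
        intro w b _
        unfold slot
        rw [List.map_map, List.map_map, range_map_eq]
        refine forall_congr' fun i => forall_congr' fun _ => ?_
        rw [key]
        rfl
  · refine (rgBlank (dec := dec) hReg hl f k s hs2).congr ?_
    intro w b _
    have e : (List.range b).map (fun o : ℕ => inp k0 (w.map fx) k (β * b + o)) =
        (List.range b).map (fun _ => none) := by
      rw [range_map_eq]
      intro i _
      rw [inp_ne _ _ _ hk]
      unfold tapeOf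
      simp
    rw [e]

theorem rgSim (hSim : S_SimS) [Finite K] [∀ k, Finite (Γ k)] {j : ℕ} (hl : 1 ≤ l)
    (f : X → Bool) (k : K) (s : Fin 7 → ℕ) (hs : StrictMono s) (hs2 : (s 6 + 1) * l ≤ KK) :
    RgC E m j KK mk (fun w b => SimW
      ((slot l dec (w.map f) b (s 0)).map (asCell k) ++
        (slot l dec (w.map f) b (s 1)).map (asCell k) ++
        (slot l dec (w.map f) b (s 2)).map (asCell k))
      (((slot l dec (w.map f) b (s 3)).map asRec).map (opk M k))
      ((slot l dec (w.map f) b (s 4)).map (asCell k) ++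
        (slot l dec (w.map f) b (s 5)).map (asCell k) ++
        (slot l dec (w.map f) b (s 6)).map (asCell k))) := by
  have h := hSim (X := X) (G := Γ k) KK l mk f dec (asCell k) (fun a => opk M k (asRec a)) s hl hs
    hs2
  refine (RgC.of h).congr ?_
  intro w b _
  rw [List.map_append, List.map_append, List.map_append, List.map_append, List.map_map]
  rfl

theorem rgChn (hReg : S_RegS) {j : ℕ} (hl : 1 ≤ l) (f : X → Bool) (a a' : M.S) (s : ℕ)
    (hs : (s + 1) * l ≤ KK) :
    RgC E m j KK mk (fun w b => ((slot l dec (w.map f) b s).map asRec).foldl (chD M) (some a) =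
      some a') := by
  have := M.fin
  have h := hReg KK l mk f dec (fun (q : Option M.S) r => chD M q (asRec r)) (some a) {some a'}
    s hl hs
  refine (RgC.of h).congr ?_
  intro w b _
  rw [Set.mem_singleton_iff, List.foldl_map]

end

/-! ### all conditions -/

section

variable {ρ : Type} {B : ρ → Type} {E : (i : ρ) → Set (List (B i × Bool))} {m : ℕ}
  {X : Type} {K : Type} {Γ : K → Type} {M : TM K Γ} {KK l : ℕ} {mk : X → Bool}
  {dec : List Bool → Ltr M}

theorem mul_slot {P0 s l : ℕ} (h : s < 2 * P0) : (s + 1) * l ≤ l * (2 * P0) := by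
  rw [Nat.mul_comm]
  exact Nat.mul_le_mul_left l h

/-- the conditions on the data of the node `v` are recognised -/
theorem rgGood (hX1 : S_XS1) (hX2 : S_XS2) (hEq : S_EqS) (hC : S_Code) (hReg : S_RegS)
    (hSim : S_SimS) (hR : S_RegL) (hm : 2 ≤ m) [Finite K] [∀ k, Finite (Γ k)] (hl : 1 ≤ l)
    (enc : Ltr M → List Bool) (henc : ∀ a, (enc a).length = l) (hdec : ∀ a, dec (enc a) = a)
    (p : Prm K) (hP0 : 1 ≤ p.P0) (k0 : K) (fx : X → Γ k0) (fy fz : X → Bool)
    (h : K → ℕ → ℤ) (q : ℕ → M.S) (J A : Finset ℕ) (v : ℕ)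
    (hA : ∀ w, w ∈ A ↔ Anc (Ed h) J v w) (hJc : J.card * (3 * p.κ) ≤ p.P0)
    (hAc : A.card * (6 * p.κ + 1) ≤ p.P0) :
    RgC E m 1 (l * (2 * p.P0)) mk (fun w b => Good M (inp k0 (w.map fx)) b h q J
      (ofY M p l dec J (w.map fy) b) (ofZ M p l dec A (w.map fz) b) v) := by
  -- bounds
  have bE : ∀ w ∈ A, ∀ (k : K) (e : Fin 3), p.zE A w k e < 2 * p.P0 := by
    intro w hw k e
    have h1 := p.zB_lt hAc hw
    have h2 := p.hidx k
    have h3 := e.2
    unfold Prm.zE
    omega
  have bS : ∀ w ∈ A, ∀ (k : K) (e : Fin 3), p.zS A w k e < 2 * p.P0 := by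
    intro w hw k e
    have h1 := p.zB_lt hAc hw
    have h2 := p.hidx k
    have h3 := e.2
    unfold Prm.zS
    omega
  have bR : ∀ w ∈ A, p.zR A w < 2 * p.P0 := by
    intro w hw
    have h1 := p.zB_lt hAc hw
    unfold Prm.zR
    omega
  have gS : ∀ w (k : K) (e : Fin 3), p.P0 ≤ p.zS A w k e := by
    intro w k e
    have h1 := p.zB_ge A w
    unfold Prm.zS
    omega
  have gE : ∀ w (k : K) (e : Fin 3), p.P0 ≤ p.zE A w k e := by
    intro w k e
    have h1 := p.zB_ge A w
    unfold Prm.zE
    omega
  -- the local conditions of one segment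
  have hLoc : ∀ w ∈ A, RgC E m 1 (l * (2 * p.P0)) mk (fun x b => Loc M (inp k0 (x.map fx)) b h q J
      (ofY M p l dec J (x.map fy) b) (ofZ M p l dec A (x.map fz) b) w) := by
    intro w hw
    have c1 : RgC E m 1 (l * (2 * p.P0)) mk (fun x b => ∀ k, SimW
        ((ofZ M p l dec A (x.map fz) b).sc w k 0 ++ (ofZ M p l dec A (x.map fz) b).sc w k 1 ++
          (ofZ M p l dec A (x.map fz) b).sc w k 2)
        (((ofZ M p l dec A (x.map fz) b).rc w).map (opk M k))
        ((ofZ M p l dec A (x.map fz) b).ec w k 0 ++ (ofZ M p l dec A (x.map fz) b).ec w k 1 ++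
          (ofZ M p l dec A (x.map fz) b).ec w k 2)) := by
      refine RgC.all hR fun k => ?_
      refine rgSim hSim hl fz k ![p.zS A w k 0, p.zS A w k 1, p.zS A w k 2, p.zR A w,
        p.zE A w k 0, p.zE A w k 1, p.zE A w k 2] ?_ (mul_slot (bE w hw k 2))
      rw [Fin.strictMono_iff_lt_succ]
      intro i
      have h2 := p.hidx k
      fin_cases i <;> simp [Prm.zS, Prm.zR, Prm.zE] <;> omega
    have c2 : RgC E m 1 (l * (2 * p.P0)) mk (fun x b => ∀ k,
        ∀ a ∈ (ofZ M p l dec A (x.map fz) b).sc w k 0, a.2 = false) := by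
      refine RgC.all hR fun k => ?_
      refine (rgAll (dec := dec) hReg hl fz (fun a => (asCell k a).2 = false) (p.zS A w k 0)
        (mul_slot (bS w hw k 0))).congr ?_
      intro x b _
      exact List.forall_mem_map
    have c3 : RgC E m 1 (l * (2 * p.P0)) mk (fun x b => ∀ k,
        ∀ a ∈ (ofZ M p l dec A (x.map fz) b).sc w k 2, a.2 = false) := by
      refine RgC.all hR fun k => ?_
      refine (rgAll (dec := dec) hReg hl fz (fun a => (asCell k a).2 = false) (p.zS A w k 2)
        (mul_slot (bS w hw k 2))).congr ?_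
      intro x b _
      exact List.forall_mem_map
    have c4 : RgC E m 1 (l * (2 * p.P0)) mk (fun x b => w = 0 → ∀ k,
        (((ofZ M p l dec A (x.map fz) b).sc w k 1)[0]?).map Prod.snd = some true) := by
      refine RgC.imp hR fun _ => RgC.all hR fun k => ?_
      refine (rgFirst (dec := dec) hReg hl fz (fun a => (asCell k a).2) (p.zS A w k 1)
        (mul_slot (bS w hw k 1))).congr ?_
      intro x b _
      show ((((slot l dec (x.map fz) b (p.zS A w k 1)).map (asCell k))[0]?).map Prod.snd =
        some true) ↔ _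
      rw [List.getElem?_map, Option.map_map]
      rfl
    have c5 : RgC E m 1 (l * (2 * p.P0)) mk (fun x b =>
        ((ofZ M p l dec A (x.map fz) b).rc w).foldl (chD M) (some (q w)) = some (q (w + 1))) :=
      rgChn hReg hl fz (q w) (q (w + 1)) (p.zR A w) (mul_slot (bR w hw))
    have c6 : RgC E m 1 (l * (2 * p.P0)) mk (fun x b => ∀ (k : K) (e : Fin 3) (u : Fin w),
        IsPr (h k) (sh (h k w) e) u.1 w → u.1 ∈ J → ∀ e' : Fin 3,
        sh (h k u.1) e' = sh (h k w) e → (ofZ M p l dec A (x.map fz) b).sc w k e =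
          ofY M p l dec J (x.map fy) b u.1 k e') := by
      refine RgC.all hR fun k => RgC.all hR fun e => RgC.all hR fun u => RgC.imp hR fun hu =>
        RgC.imp hR fun huJ => RgC.all hR fun e' => RgC.imp hR fun _ => ?_
      refine rgEq hEq hl fy fz k (p.yS J u.1 k e') (p.zS A w k e) ?_ (mul_slot (bS w hw k e))
      exact lt_of_lt_of_le (p.yS_lt hJc huJ k e') (gS w k e)
    have c7 : RgC E m 1 (l * (2 * p.P0)) mk (fun x b => ∀ (k : K) (e : Fin 3) (u : Fin w),
        IsPr (h k) (sh (h k w) e) u.1 w → u.1 ∉ J → ∀ e' : Fin 3,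
        sh (h k u.1) e' = sh (h k w) e → (ofZ M p l dec A (x.map fz) b).sc w k e =
          (ofZ M p l dec A (x.map fz) b).ec u.1 k e') := by
      refine RgC.all hR fun k => RgC.all hR fun e => RgC.all hR fun u => RgC.imp hR fun hu =>
        RgC.imp hR fun huJ => RgC.all hR fun e' => RgC.imp hR fun _ => ?_
      have huA : u.1 ∈ A := (hA u.1).mpr (Anc.step u.1 w ((hA w).mp hw) ⟨k, e, hu⟩ huJ)
      refine rgEq hEq hl fz fz k (p.zE A u.1 k e') (p.zS A w k e) ?_ (mul_slot (bS w hw k e))
      have h1 := p.zB_mono huA u.2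
      have h2 := p.hidx k
      have h3 := e'.2
      unfold Prm.zE Prm.zS
      omega
    have c8 : RgC E m 1 (l * (2 * p.P0)) mk (fun x b => ∀ (k : K) (e : Fin 3),
        NoPr (h k) (sh (h k w) e) w → ((ofZ M p l dec A (x.map fz) b).sc w k e).map Prod.fst =
        (List.range b).map (fun o : ℕ => inp k0 (x.map fx) k (sh (h k w) e * b + o))) := by
      refine RgC.all hR fun k => RgC.all hR fun e => RgC.imp hR fun _ => ?_
      exact rgInit hX1 hX2 hEq hC hReg hm hl enc henc hdec k0 fx fz k (sh (h k w) e)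
        (p.zS A w k e) (by have := gS w k e; omega) (mul_slot (bS w hw k e))
    refine (c1.and (c2.and (c3.and (c4.and (c5.and (c6.and (c7.and c8))))))).congr ?_
    intro x b _
    constructor
    · intro L
      exact ⟨L.sim, L.fl0, L.fl2, L.fl1, L.chn, fun k e u => L.prY k e u.1,
        fun k e u => L.prE k e u.1, L.prI⟩
    · rintro ⟨d1, d2, d3, d4, d5, d6, d7, d8⟩
      refine ⟨?_, ?_, ?_, d1, d2, d3, d4, d5, ?_, ?_, d8⟩
      · intro k e
        simp [ofZ, slot_length]
      · simp [ofZ, slot_length]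
      · intro k e
        simp [ofZ, slot_length]
      · intro k e u hu
        exact d6 k e ⟨u, hu.1⟩ hu
      · intro k e u hu
        exact d7 k e ⟨u, hu.1⟩ hu
  -- all segments
  have hv : v ∈ A := (hA v).mpr Anc.self
  have g1 : RgC E m 1 (l * (2 * p.P0)) mk (fun x b => ∀ w : {w // w ∈ A},
      Loc M (inp k0 (x.map fx)) b h q J
      (ofY M p l dec J (x.map fy) b) (ofZ M p l dec A (x.map fz) b) w.1) :=
    RgC.all hR fun w => hLoc w.1 w.2
  have g2 : RgC E m 1 (l * (2 * p.P0)) mk (fun x b => v ∈ J → ∀ (k : K) (e : Fin 3),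
      (ofZ M p l dec A (x.map fz) b).ec v k e = ofY M p l dec J (x.map fy) b v k e) := by
    refine RgC.imp hR fun hvJ => RgC.all hR fun k => RgC.all hR fun e => ?_
    refine rgEq hEq hl fy fz k (p.yS J v k e) (p.zE A v k e) ?_ (mul_slot (bE v hv k e))
    exact lt_of_lt_of_le (p.yS_lt hJc hvJ k e) (gE v k e)
  refine (g1.and g2).congr ?_
  intro x b _
  constructor
  · intro G
    exact ⟨fun w => G.loc w.1 ((hA w.1).mp w.2), G.top⟩
  · rintro ⟨h1, h2⟩
    exact ⟨fun w hw => h1 ⟨w, (hA w).mpr hw⟩, h2⟩

end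

end MPdee884H3
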