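import Pool.Agent.Lib.MP_dee884_lc.H3.Spec

/-!
# MP_dee884_lc, H3, module RudQ: if Q over the alphabet Bool is closed under complement then Q = RUD
-/

namespace MPdee884H3

open MPdee884H1 MPdee884H2 Pool.Agent.Lin

namespace RudQ_aux

/-- composition of homomorphisms -/
theorem comp {α β : Type} (h : α → List β) (hh : ∀ a, h a ≠ []) {L : Set (List α)} (hL : InQ L) :
    InQ {w | ∃ v ∈ L, v.flatMap h = w} := by
  obtain ⟨γ, hγ, M, g, hM, hg, hx⟩ := hL
  refine ⟨γ, hγ, M, fun c => (g c).flatMap h, hM, ?_, ?_⟩
  · intro c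
    obtain ⟨a, u, hu⟩ : ∃ a u, g c = a :: u := List.exists_cons_of_ne_nil (hg c)
    intro h0
    have h1 : (g c).flatMap h = [] := h0
    rw [hu, List.flatMap_cons] at h1
    exact hh a (List.append_eq_nil_iff.mp h1).1
  · intro x
    simp only [Set.mem_ofPred_eq]
    constructor
    · rintro ⟨v, hv, e⟩
      obtain ⟨w, hw, e2⟩ := (hx v).mp hv
      refine ⟨w, hw, ?_⟩
      rw [← List.flatMap_assoc, e2, e]
    · rintro ⟨w, hw, e⟩
      refine ⟨w.flatMap g, (hx _).mpr ⟨w, hw, rfl⟩, ?_⟩
      rw [List.flatMap_assoc, e]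

theorem inj {α : Type} (code : α → List Bool) (hc : Function.Injective code) (m : ℕ) (hm : 1 ≤ m)
    (hl : ∀ a, (code a).length = m) : ∀ x y : List α, x.flatMap code = y.flatMap code → x = y
  | [], [], _ => rfl
  | [], b :: y, h => by
    have h1 := congrArg List.length h
    rw [List.flatMap_cons, List.length_append, hl b] at h1
    simp at h1
    omega
  | a :: x, [], h => by
    have h1 := congrArg List.length h
    rw [List.flatMap_cons, List.length_append, hl a] at h1
    simp at h1
    omega
  | a :: x, b :: y, h => by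
    rw [List.flatMap_cons, List.flatMap_cons] at h
    obtain ⟨h1, h2⟩ := List.append_inj h (by rw [hl a, hl b])
    rw [hc h1, inj code hc m hm hl x y h2]

theorem exCode (α : Type) [Finite α] : ∃ (m : ℕ) (code : α → List Bool), 1 ≤ m ∧
    Function.Injective code ∧ ∀ a, (code a).length = m := by
  obtain ⟨n, ⟨e⟩⟩ := Finite.exists_equiv_fin α
  refine ⟨n + 1, fun a => List.ofFn (fun i : Fin (n + 1) => decide ((i : ℕ) = (e a : ℕ))), by omega,
    ?_, by simp⟩
  intro a b hab
  have h1 := List.ofFn_injective hab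
  have h2 := congrFun h1 (e a).castSucc
  have h3 : ((e a).castSucc : ℕ) = (e b : ℕ) := by
    simpa using h2
  exact e.injective (Fin.ext h3)

end RudQ_aux

open RudQ_aux in
theorem tRudQ : S_InvQ → S_RudQ := by
  intro hInv hcomp α L hL
  induction hL with
  | @lin α _ L h =>
    refine ⟨α, inferInstance, L, fun a => [a], h, by simp, ?_⟩
    intro x
    constructor
    · intro hx
      exact ⟨x, hx, by simp⟩
    · rintro ⟨w, hw, e⟩
      have e2 : w = x := by simpa using e
      rwa [← e2]
  | @compl α L h0 ih =>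
    have hfin : Finite α := h0.finite
    obtain ⟨m, code, hm, hc, hl⟩ := exCode α
    have hne : ∀ a, code a ≠ [] := by
      intro a h
      have h1 := hl a
      rw [h] at h1
      simp at h1
      omega
    have h1 := hInv code _ (hcomp _ (comp code hne ih))
    have e : {x : List α | x.flatMap code ∈ {w | ∃ v ∈ L, v.flatMap code = w}ᶜ} = Lᶜ := by
      ext x
      simp only [Set.mem_ofPred_eq, Set.mem_compl_iff]
      constructor
      · intro h2 h3
        exact h2 ⟨x, h3, rfl⟩
      · rintro h2 ⟨v, hv, e⟩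
        exact h2 ((inj code hc m hm hl v x e) ▸ hv)
    rwa [e] at h1
  | @hom α β _ _ h hh L _ ih =>
    exact comp h hh ih

end MPdee884H3
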