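import Pool.Agent.Lib.MP_dee884_lc.H3.Defs
import Pool.Agent.Lib.MP_dee884_lc.H1.Rud

/-!
# MP_dee884_lc, H3: the statements of the modules

Each module `X.lean` in this folder proves `theorem tX : S_X` (or with other `S_Y` as hypotheses,
where the docstring says so). All proofs are elementary.
-/

namespace MPdee884H3

open MPdee884H1 MPdee884H2 Pool.Agent.Lin

/-! ### one-tape languages -/

/-- TRANSDUCERS. Proof: machine with the states `Q × M.S` and the tape alphabet of `M`; a move of `M`
which reads nothing keeps `q`; reading `x` in the state `q`: if `(δ q x).2 = some y`, make a move of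
`M` which reads `y`; if `(δ q x).2 = none`, keep the state of `M`, print the scanned symbol, do not
move (`Function.update_eq_self`, `p + 0 = p`); new `Q`-state `(δ q x).1`. Accepting iff `M` is.
Completeness: `M.Acc n (seqOut δ q w) s p t → ∃ n' ≤ n + w.length, N.Acc n' w (q, s) p t`, induction
on `Acc` and inside induction on `w` to peel off the letters without output (nonempty output:
the first letter of `w` with output). Soundness: induction on the run of the product machine.
The number of steps is at most `(c + 1) (|w| + 1)` as the output is not longer than `w`. -/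
def S_TR : Prop := ∀ {Q X Y : Type} [Finite Q] (δ : Q → X → Q × Option Y) (q0 : Q)
  (V : Set (List Y)), OneTape V → OneTape {w | seqOut δ q0 w ∈ V}

/-- PAIRS. Proof: tape alphabet `Y1`, states `W, L, C, E, F`, start `W`, accepting `F`.
`W`: read `inl y`, print `some y`, move right, stay in `W`. `W`: no letter, print the scanned symbol,
move left, go to `L`. `L`: scanned `some y`: print it, move left, stay in `L`; scanned `none`: print
it, move right, go to `C`. `C`: scanned `some y`, read `inr y'` with `ρ y y'`: print `some y`, move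
right. `C`: no letter, no move, go to `E`. `E`: scanned `some y` with `ρe y`: print it, move right;
scanned `none`: go to `F` without moving. The tape with `u` in the cells `0, .., |u| - 1` is
`fun i => if 0 ≤ i then u[i.toNat]? else none`. At most `4 (|w| + 2)` steps. -/
def S_Pair : Prop := ∀ {Y1 Y2 : Type} [Finite Y1] (ρ : Y1 → Y2 → Prop) (ρe : Y1 → Prop),
  OneTape (PairLe ρ ρe)

/-- SIMULATION OF ONE TAPE. Proof: tape alphabet `Option G × Bool`, states `W0, W1, B, S, L, C, F`,
start `W0`, accepting `F`. `W0`: read `inl (a, f)`, print `some (a, f)`, move right, go to `W1` if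
`f = true`, stay in `W0` otherwise. `W1`: read `inl (a, false)`, print it, move right. `W1`: no letter,
print the scanned symbol, move left, go to `B`. `B`: scanned `some (a, false)`: print it, move left;
scanned `some (a, true)`: print `some (a, false)`, no move, go to `S`. `S`: scanned `some (a, f)`, read
`inr (inl (a, b, d))` (same `a`): print `some (b, f)`, move in the direction `d`. `S`: no letter, scanned
`some (a, f)`: print `some (a, true)`, no move, go to `L`. `L`: scanned `some x`: print it, move left;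
scanned `none`: print it, move right, go to `C`. `C`: scanned `some (a, f)`, read `inr (inr (a, f))`:
print it, move right. `C`: no letter, scanned `none`: go to `F`, no move. -/
def S_SimL : Prop := ∀ (G : Type) [Finite G], OneTape (SimL G)

/-- REGULAR LANGUAGES. The machine which does not move and does not print. -/
def S_RegL : Prop := ∀ {X Q : Type} [Finite Q] (δ : Q → X → Q) (q0 : Q) (F : Set Q),
  OneTape {w : List X | w.foldl δ q0 ∈ F}

/-- MARKED WORDS (use `S_TR`, `S_Pair`, `S_RegL`). Proof: `ι` = one regular condition (the first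
letter is marked, the number of marks is `K` or `K + 1`; by `S_RegL` with a counter up to `K + 2`) and
for each `j < K` the condition on the lengths of the blocks number `j` and `j + 1` (a block starts at a
mark; the transducer counts the marks, prints `inl ()` in the block `j`, `inr ()` in the block `j + 1`,
nothing elsewhere): `PairLe (fun _ _ => True) (fun _ => False)` (equal lengths) for `j + 1 < K`, and
`PairLe (fun _ _ => True) (fun _ => True)` for `j + 1 = K` (the rest is not longer than the last
block; the rest is empty if there are only `K` marks). Then `b` is the length of the block `0`. -/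
def S_MkL : Prop := ∀ {X : Type} (K : ℕ) (mk : X → Bool), 1 ≤ K →
  ∃ (ι : Type) (_ : Finite ι) (V : ι → Set (List X)), (∀ i, OneTape (V i)) ∧
    ∀ w : List X, (∃ b, Mk K b (w.map mk)) ↔ ∀ i, w ∈ V i

/-! ### scanning marked words -/

/-- items which can be scanned: the raw block `β` (of marks), or the slot `s` with the tag `t` -/
abbrev Item (Tg : Type) : Type := ℕ ⊕ (ℕ × Tg)

/-- the first block of marks of an item -/
def lo {Tg : Type} (l : ℕ) : Item Tg → ℕ
  | Sum.inl β => β
  | Sum.inr (s, _) => s * l

/-- the end of an item -/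
def hi {Tg : Type} (l : ℕ) : Item Tg → ℕ
  | Sum.inl β => β + 1
  | Sum.inr (s, _) => (s + 1) * l

/-- the largest possible end of an item: the raw block `K` is the rest -/
def okIt {Tg : Type} (K l : ℕ) : Item Tg → Prop
  | Sum.inl β => β ≤ K
  | Sum.inr (s, _) => (s + 1) * l ≤ K

/-- what is printed when an item is scanned -/
def outIt {X A Tg Λ : Type} (l : ℕ) (fx : X → A) (g : Tg → X → Bool) (dec : List Bool → Λ)
    (w : List X) (b : ℕ) : Item Tg → List (A ⊕ (Tg × Λ))
  | Sum.inl β => (((w.map fx).drop (β * b)).take b).map Sum.inl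
  | Sum.inr (s, t) => (slot l dec (w.map (g t)) b s).map (fun a => Sum.inr (t, a))

/-- SCANNING. Proof: states: (number of marks seen, up to `K + 1`) and a buffer of less than `l` bits.
On the letter `x` the counter `j` becomes `j + 1` if `x` is marked; the present block is `j - 1`. If it
belongs to no item: no output. Raw item: print `inl (fx x)`. Slot with the tag `t`: add the bit `g t x` to
the buffer; if its length is `l` now, print `inr (t, dec buffer)` and empty the buffer. In a word with
`Mk K b` the letter number `i` is in the block `i / b` (also in the rest, up to its end). A slot `s`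
consists of the `l` blocks `s l, .., s l + l - 1`, i.e. of the positions `s l b, .., (s + 1) l b - 1`
(all inside the word as `(s + 1) l ≤ K`), whose bits are decoded in groups of `l`, the buffer is empty
at both ends; letter `i` of the slot: `dec` of the bits number `(s b + i) l, .., (s b + i) l + l - 1`.
Write `w` as the concatenation of the blocks `0, .., K` (`drop`, `take`) and compute the output block by
block, `I` is sorted (`List.Pairwise`, induction on `I`, generalising the first block). -/
def S_Scan : Prop := ∀ {X A Tg Λ : Type} (K l : ℕ) (mk : X → Bool) (fx : X → A)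
  (g : Tg → X → Bool) (dec : List Bool → Λ) (I : List (Item Tg)), 1 ≤ l →
  I.Pairwise (fun i j => hi l i ≤ lo l j) → (∀ i ∈ I, okIt K l i) →
  ∃ (Q : Type) (_ : Finite Q) (δ : Q → X → Q × Option (A ⊕ (Tg × Λ))) (q0 : Q),
    ∀ (w : List X) (b : ℕ), Mk K b (w.map mk) →
      seqOut δ q0 w = I.flatMap (outIt l fx g dec w b)

/-- EQUALITY OF SLOTS (use `S_TR`, `S_Pair`, `S_Scan`). Items `[inr (s1, false), inr (s2, true)]`,
relabel the output `inr (false, a)`, `inr (true, a)` by `inl a`, `inr a` (a transducer with one state),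
language `PairLe ρ (fun _ => True)`; both words have length `b`. -/
def S_EqS : Prop := ∀ {X Λ : Type} [Finite Λ] (K l : ℕ) (mk f1 f2 : X → Bool)
  (dec : List Bool → Λ) (ρ : Λ → Λ → Prop) (s1 s2 : ℕ), 1 ≤ l → s1 < s2 → (s2 + 1) * l ≤ K →
  Rg K mk (fun w b => ∀ i < b, ρ (lt l dec (w.map f1) (s1 * b + i))
    (lt l dec (w.map f2) (s2 * b + i)))

/-- COMPARISON WITH A RAW BLOCK BEFORE THE SLOT (use `S_TR`, `S_Pair`, `S_Scan`). Items
`[inl β, inr (s, ())]`; the raw block is full, as `β < K`; `PairLe (fun a x => ρ (some a) x) _`. -/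
def S_XS1 : Prop := ∀ {X A Λ : Type} [Finite A] (K l : ℕ) (mk f : X → Bool) (fx : X → A)
  (dec : List Bool → Λ) (ρ : Option A → Λ → Prop) (β s : ℕ), 1 ≤ l → β < s * l →
  (s + 1) * l ≤ K → Rg K mk (fun w b => ∀ i < b, ρ ((w.map fx)[β * b + i]?)
    (lt l dec (w.map f) (s * b + i)))

/-- COMPARISON WITH A RAW BLOCK AFTER THE SLOT (use `S_TR`, `S_Pair`, `S_Scan`). Items
`[inr (s, ()), inl β]`; the raw block may be shorter than `b` (if `β = K`), then the missing letters
are `none`: `PairLe (fun x a => ρ (some a) x) (fun x => ρ none x)`; the raw block is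
`((w.map fx).drop (β * b)).take b`, its letter `i < b` is `(w.map fx)[β * b + i]?`. -/
def S_XS2 : Prop := ∀ {X A Λ : Type} [Finite Λ] (K l : ℕ) (mk f : X → Bool) (fx : X → A)
  (dec : List Bool → Λ) (ρ : Option A → Λ → Prop) (β s : ℕ), 1 ≤ l → (s + 1) * l ≤ β → β ≤ K →
  Rg K mk (fun w b => ∀ i < b, ρ ((w.map fx)[β * b + i]?) (lt l dec (w.map f) (s * b + i)))

/-- SIMULATION (use `S_TR`, `S_SimL`, `S_Scan`). Seven slot items with the tags `0,0,0,1,2,2,2`
(`Tg = Fin 3`), relabel by `cell`, `op`, language `SimL G`; the decomposition of the word is unique. -/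
def S_SimS : Prop := ∀ {X Λ G : Type} [Finite G] (K l : ℕ) (mk f : X → Bool)
  (dec : List Bool → Λ) (cell : Λ → Option G × Bool) (op : Λ → Op G) (s : Fin 7 → ℕ), 1 ≤ l →
  StrictMono s → (s 6 + 1) * l ≤ K →
  Rg K mk (fun w b => SimW
    ((slot l dec (w.map f) b (s 0) ++ slot l dec (w.map f) b (s 1) ++
      slot l dec (w.map f) b (s 2)).map cell)
    ((slot l dec (w.map f) b (s 3)).map op)
    ((slot l dec (w.map f) b (s 4) ++ slot l dec (w.map f) b (s 5) ++
      slot l dec (w.map f) b (s 6)).map cell))

/-- REGULAR CONDITIONS ON A SLOT (use `S_TR`, `S_RegL`, `S_Scan`). -/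
def S_RegS : Prop := ∀ {X Λ Q : Type} [Finite Q] (K l : ℕ) (mk f : X → Bool)
  (dec : List Bool → Λ) (δ : Q → Λ → Q) (q0 : Q) (F : Set Q) (s : ℕ), 1 ≤ l → (s + 1) * l ≤ K →
  Rg K mk (fun w b => (slot l dec (w.map f) b s).foldl δ q0 ∈ F)

/-- EXISTENCE OF TRACKS. Proof: the letter number `m < P b` is `(W i)[m % b]` if `idx i = m / b`,
`dec []` if there is no such `i`; `u` is the concatenation of their codes and some `false`. -/
def S_Code : Prop := ∀ {Λ I : Type} (l : ℕ) (dec : List Bool → Λ) (enc : Λ → List Bool), 1 ≤ l →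
  (∀ a, (enc a).length = l) → (∀ a, dec (enc a) = a) → ∀ (b P n : ℕ), P * b * l ≤ n →
  ∀ (idx : I → ℕ), Function.Injective idx → (∀ i, idx i < P) → ∀ (W : I → List Λ),
  (∀ i, (W i).length = b) → ∃ u : List Bool, u.length = n ∧ ∀ i, slot l dec u b (idx i) = W i

/-! ### computations -/

/-- ABSOLUTE TAPES. Proof: `rel c = (c.1, fun k i => c.2.1 k (i + c.2.2 k))`; if `M.out c.1 = none` then
`M.next (rel c) = rel (astep M c)` (`wm`, `Function.update`), if `M.out c.1 ≠ none` then
`astep M c = c` (`Function.update_eq_self`). Induction on `Steps`. -/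
def S_Run : Prop := ∀ {K : Type} {Γ : K → Type} (M : TM K Γ) (τ τ' : (k : K) → Tp (Γ k))
  (n : ℕ) (b : Bool), Runs M τ n τ' b → ∀ T : ℕ, n ≤ T → M.out (run M τ T).1 = some b

/-- MOVEMENT. A head moves at most one cell per step (`Dir.toInt`), so in `b` steps the block changes at
most by one; a block at distance `≥ 2` from the block of the head at the beginning of a segment is
not visited in the segment (heads stay within `b` cells), and it is also at distance `≥ 1` from the
block of the head at the end. Cells which are not visited keep their symbols. (If `u + 1 = w` the third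
claim is trivial.) -/
def S_Mov : Prop := ∀ {K : Type} {Γ : K → Type} (M : TM K Γ) (τ : (k : K) → ℤ → Option (Γ k))
  (b : ℕ), 1 ≤ b →
  (∀ k, hd M τ b k 0 = 0) ∧ (∀ k w, |hd M τ b k (w + 1) - hd M τ b k w| ≤ 1) ∧
  (∀ (k : K) (β : ℤ) (u w : ℕ), u < w → (∀ t : ℕ, u < t → t < w → 2 ≤ |hd M τ b k t - β|) →
    bc (run M τ ((u + 1) * b)) k b β = bc (run M τ (w * b)) k b β) ∧
  (∀ (k : K) (β : ℤ) (w : ℕ), NoPr (hd M τ b k) β w →
    (bc (run M τ (w * b)) k b β).map Prod.fst =
      (List.range b).map (fun o : ℕ => τ k (β * b + o)))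

/-- ONE SEGMENT. Proof: the first cell of the window of the tape `k` is `(h k - 1) b`, the window is
`flag g p` with `g` the list of the `3b` symbols and `p = c.2.2 k - (h k - 1) b`, `b ≤ p < 2b`; `flag` is
injective on pairs with `p < g.length` (the flag exists and is unique). Generalise to records of length
`m` and windows in which every head has distance `≥ m` from the left end and more than `m` from the
right end, induction on `m`: the first operation `opk M k r` reads `r.2 k`, so `r.2 = scn c`, `r.1 = c.1`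
(by `chD`), and the window of `astep M c` is `flag (g.set p _) p1`. -/
def S_Win : Prop := ∀ {K : Type} {Γ : K → Type} (M : TM K Γ) (b : ℕ) (c : AC M) (h : K → ℤ),
  1 ≤ b → (∀ k, h k * b ≤ c.2.2 k ∧ c.2.2 k < (h k + 1) * b) →
  ∀ (R : List (RL M)) (q' : M.S) (e : (k : K) → List (Option (Γ k) × Bool)), R.length = b →
  ((R.foldl (chD M) (some c.1) = some q' ∧
      ∀ k, SimW (win c k b (h k)) (R.map (opk M k)) (e k)) ↔
    (R = trc M c b ∧ q' = ((astep M)^[b] c).1 ∧ ∀ k, e k = win ((astep M)^[b] c) k b (h k)))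

/-- SOUNDNESS (use `S_Mov`, `S_Win`). Proof. PATHS: for `w < N` let `v` be the least number `≥ w` with
`v ∈ J` or `v + 1 = N`; then `Anc (Ed h) J v w` (edges `t → t + 1` exist: `IsPr (h k) (h k (t + 1)) t (t + 1)`,
`sh _ 1`, as `K` is nonempty). CLAIM, by strong induction on `w < N`: (a) `h k w = hd M τ b k w`;
(b) `q w = (run M τ (w b)).1`; (c) for all `v`, `d` with `Good .. d v` and `Anc (Ed h) J v w`:
`d.sc w k e = bc (run (w b)) k b (sh (h k w) e)`, `d.ec w k e = bc (run ((w + 1) b)) k b (sh (h k w) e)`,
`q (w + 1) = (run ((w + 1) b)).1`; (d) if `w ∈ J`: `Y w k e = bc (run ((w + 1) b)) k b (sh (h k w) e)`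
(from `top` for `v = w`). Step: for `w > 0` the block `h k w` has the predecessor `w - 1`, so
`d.sc w k 1 = bc (run (w b)) k b (h k w)` by (c), (d) for `w - 1` (if `w - 1 ∉ J` then
`Anc (Ed h) J v (w - 1)`); by `sim` the list `sc 0 ++ sc 1 ++ sc 2` is `flag g p` with `p < g.length`
(the record is not empty), by `fl0`, `fl2` the flag is in `sc 1`, so the head is in the block `h k w`:
(a). (b): (c) for `w - 1`. (c): if `IsPr (h k) (sh (h k w) e) u w` then there is `e'` with
`sh (h k u) e' = sh (h k w) e`, use (c) or (d) for `u` and `S_Mov` (with (a) for the `t < w`); if there is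
no predecessor (then `NoPr`; classical), `prI` and `S_Mov` give the symbols, the flags are given by
`fl0`, `fl2`, (a) for `e = 0, 2`; for `e = 1` there is no predecessor only if `w = 0`, then `fl1` and
the uniqueness of the flag. Now `S_Win` gives the record and the end (`List.append` with equal lengths
`b`). Finally (c) for `w = N - 1`, `v = N - 1`. -/
def S_Snd : Prop := ∀ {K : Type} {Γ : K → Type} [Nonempty K] (M : TM K Γ)
  (τ : (k : K) → ℤ → Option (Γ k)) (b N : ℕ) (h : K → ℕ → ℤ) (q : ℕ → M.S) (J : Finset ℕ)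
  (Y : ℕ → (k : K) → Fin 3 → List (Option (Γ k) × Bool)), 1 ≤ b → 1 ≤ N → (∀ k, h k 0 = 0) →
  (∀ k w, w + 1 < N → |h k (w + 1) - h k w| ≤ 1) → q 0 = M.start →
  (∀ v, v < N → (v ∈ J ∨ v + 1 = N) → ∃ d, Good M τ b h q J Y d v) →
  q N = (run M τ (N * b)).1

/-- COMPLETENESS (use `S_Mov`, `S_Win`). Proof: `Y u k e = bc (run ((u + 1) b)) k b (sh (hd .. k u) e)`,
`d.sc w k e = bc (run (w b)) k b (sh (hd .. k w) e)`, `d.rc w = trc M (run (w b)) b`, `d.ec = Y`. The head is
in the block `hd k w` (floor division), so there are no flags in the blocks `hd k w ± 1`. -/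
def S_Cpl : Prop := ∀ {K : Type} {Γ : K → Type} (M : TM K Γ)
  (τ : (k : K) → ℤ → Option (Γ k)) (b : ℕ), 1 ≤ b → ∀ J : Finset ℕ,
  ∃ Y : ℕ → (k : K) → Fin 3 → List (Option (Γ k) × Bool), ∀ v : ℕ, ∃ d : Dat M,
    Good M τ b (hd M τ b) (fun w => (run M τ (w * b)).1) J Y d v

/-! ### segregators -/

/-- NONCROSSING PAIRS. `E u w` are arcs `u < w < N`, not crossing; intervals of length `B`. The number
of pairs of intervals which are joined by an arc is at most `2 R`. Proof: call a pair `(i, j)`, `i < j`, of
type 1 if `i` is the least number with `(i, j)` joined, of type 2 otherwise. `(i, j) ↦ j` is injective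
on type 1; `(i, j) ↦ i` is injective on type 2: if `(i, j)`, `(i, j')`, `j < j'`, are of type 2 take
`i1 < i` with `(i1, j)` joined: arcs `u1 → w1` (`u1` in `i1`, `w1` in `j`) and `u → w'` (`u` in `i`, `w'` in
`j'`), `u1 < u < w1 < w'`: crossing. Both images lie in `{0, .., R - 1}`. -/
def S_Prs : Prop := ∀ (B N R : ℕ), 1 ≤ B → N ≤ R * B → ∀ E : ℕ → ℕ → Prop,
  (∀ u w, E u w → u < w ∧ w < N) →
  (∀ u w u' w', E u w → E u' w' → u' < u → u < w' → ¬ w' < w) →
  ∃ P : Finset (ℕ × ℕ), (∀ p, p ∈ P ↔ p.1 < p.2 ∧ ∃ u w, E u w ∧ u / B = p.1 ∧ w / B = p.2) ∧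
    P.card ≤ 2 * R

/-- REACHABILITY. Edges `E u w`, `u < w < N`, which stay in an interval of length `B` or are long,
`u + L ≤ w`, and come from one of the at most `G` intervals of `Pd (w / B)`. Then every `v` has at most
`B (G + 1) ^ (N / L)` ancestors (`v` included). Proof: the set `S j` of intervals which are reached from
`v / B` backwards with at most `j` long edges has at most `(G + 1) ^ j` elements; a path to `v < N` has at
most `N / L` long edges. -/
def S_Rch : Prop := ∀ (B N L G : ℕ), 1 ≤ B → 1 ≤ L → ∀ (E : ℕ → ℕ → Prop) (Pd : ℕ → Finset ℕ),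
  (∀ i, (Pd i).card ≤ G) → (∀ u w, E u w → u < w ∧ w < N) →
  (∀ u w, E u w → u / B = w / B ∨ (u + L ≤ w ∧ u / B ∈ Pd (w / B))) → ∀ v, v < N →
  ∃ A : Finset ℕ, (∀ u, u ∈ A ↔ Relation.ReflTransGen E u v) ∧ A.card ≤ B * (G + 1) ^ (N / L)

/-- SEGREGATORS (use `S_Prs`, `S_Rch`). Proof. If `m = 0` take `J = ∅`, `N0 = D`. Let `m ≥ 1`,
`G = 16 m D`, `s = 4 m D`, `r 0 = 1`, `R i = 2 m D (G + 1) ^ (r i)`, `r (i + 1) = 16 D (R i)`,
`N0 = 2 (r s)`; so `2 (R i) ≤ N` for `i < s`. Put `b i = N / r i` (so `b 0 = N`) and `B = N / R i ≥ 1`.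
There are at most `m N` edges, the length of an edge `(u, w)` is `w - u < N`; for some `i < s` at most
`m N / s` edges (pairs (page, w)) have length in `(b (i + 1), b i]`. Fix it. `J` consists of
(1) the heads `w` of these edges: `4 D |J1| ≤ N`; (2) all `w < N` with `w % B < b (i + 1)`: at most
`(N / B + 1) b (i + 1) ≤ 2 (N / B) b (i + 1) ≤ 4 (R i) (N / r (i + 1))`, so `4 D |J2| ≤ N`
(`B ≥ N / (2 R i)` as real numbers); (3) all `w < N` such that more than `G` intervals are joined (by an
edge of any page) to the interval `w / B` from the left: by `S_Prs` (with `N / B + 1 ≤ 2 N / B`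
intervals) there are at most `2 m (N / B + 1) / G` such intervals, at most `B` nodes in each:
`4 D |J3| ≤ N`. So `D |J| ≤ N`. For `w ∉ J` an edge `(u, w)` has length `≤ b (i + 1)` and then stays
in its interval by (2), or length `≥ L = b i + 1`, where `N / L ≤ r i`, and comes from one of at most
`G` intervals. By `S_Rch` (edges between nodes not in `J`) the set of ancestors in the complement of `J`
of `u ∉ J` has at most `B (G + 1) ^ (r i)` elements. The ancestors of `v` are `v` and the ancestors of
the at most `m` predecessors `u ∉ J` of `v`: at most `1 + m B (G + 1) ^ (r i) ≤ 2 m B (G + 1) ^ (r i)`,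
times `D` at most `N`. -/
def S_Seg : Prop := ∀ m D : ℕ, 1 ≤ D → ∃ N0 : ℕ, ∀ N : ℕ, N0 ≤ N →
  ∀ E : Fin m → ℕ → ℕ → Prop, (∀ i u w, E i u w → u < w ∧ w < N) →
  (∀ i u u' w, E i u w → E i u' w → u = u') →
  (∀ i u w u' w', E i u w → E i u' w' → u' < u → u < w' → ¬ w' < w) →
  ∃ J : Finset ℕ, (∀ u ∈ J, u < N) ∧ D * J.card ≤ N ∧ ∀ v, v < N →
    ∃ A : Finset ℕ, (∀ u, u ∈ A ↔ Anc (fun u w => ∃ i, E i u w) J v u) ∧ D * A.card ≤ N

/-- SEGREGATORS OF THE GRAPH OF THE SEGMENTS (use `S_Seg`). Proof: pages `(k, 0)`: `u + 1 = w`;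
`(k, 1)`: `u < w`, `h k u = h k w` and `h k w < h k t` for `u < t < w`; `(k, 2)`: the same with
`h k t < h k w`; always `w < N`. Each page has at most one `u` for each `w` and no crossing. An edge
`IsPr (h k) β u w`, `β = sh (h k w) e`, with `u + 1 < w`: `|h k (w - 1) - β| ≥ 2` and
`|h k w - β| ≤ 1`, so `h k w = β ± 1`, and by the steps of size `≤ 1` all `h k t` are on the same side of
`β`, `h k u = h k w`: it is in the page 1 or 2. `m = 3 (Nat.card K)`; monotonicity of `Anc` in the relation
(for `v < N` only `w < N` occur). -/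
def S_Sep : Prop := ∀ κ D : ℕ, 1 ≤ D → ∃ N0 : ℕ, ∀ N : ℕ, N0 ≤ N → ∀ (K : Type) [Finite K],
  Nat.card K = κ → ∀ h : K → ℕ → ℤ, (∀ k w, w + 1 < N → |h k (w + 1) - h k w| ≤ 1) →
  ∃ J : Finset ℕ, (∀ u ∈ J, u < N) ∧ D * J.card ≤ N ∧ ∀ v, v < N →
    ∃ A : Finset ℕ, (∀ u, u ∈ A ↔ Anc (Ed h) J v u) ∧ D * A.card ≤ N

/-! ### the class Q with bounded alphabets -/

/-- `X = h(L)` with `L` in `LINTIME` over an alphabet with at most `k` letters, `h` non-erasing -/
def InQk {α : Type} (k : ℕ) (X : Set (List α)) : Prop :=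
  ∃ (β : Type) (_ : Finite β) (L : Set (List β)) (h : β → List α), Nat.card β ≤ k ∧
    LINTIME L ∧ (∀ b, h b ≠ []) ∧ ∀ x, x ∈ X ↔ ∃ w ∈ L, w.flatMap h = x

/-- BOUNDED ALPHABETS AND TRACKS. Proof: number the letters of `β` by `e : β ≃ Fin m`, `m ≤ k`,
`g (a, i) = [e.symm i]` for `i < m`, `[]` otherwise; `V` = the words `v` with `v.flatMap g ∈ L` and
`v.flatMap (fun p => (g p).flatMap h) = v.flatMap (fun p => [p.1])`; it is in `LINTIME` by `lin_inv`
(H1/Rud.lean), `lintime_eq`, `LINTIME.inter` (Lin.lean). Given `w ∈ L` with `w.flatMap h = x` (so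
`|w| ≤ |x|`) write the letters of `w` on the first positions and the number `k + 1` on the others. -/
def S_BA : Prop := ∀ (k : ℕ) (X : Set (List Bool)), InQk k X →
  ∃ V : Set (List (Bool × Fin (k + 2))), LINTIME V ∧
    X = {x | ∃ v : List (Bool × Fin (k + 2)), v.map Prod.fst = x ∧ v ∈ V}

/-- INVERSE HOMOMORPHISMS. Proof: `X = h(V)`, `V` over `β`; let `m` bound the lengths of the words
`code a` (`α` is finite). The new alphabet is `α × {u : List β // u.length ≤ m}` (finite), the new
language: `v.flatMap (·.2) ∈ V` and `(v.flatMap (·.2)).flatMap h = v.flatMap (fun p => code p.1)` (in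
`LINTIME` by `lin_inv`, `lintime_eq`, `LINTIME.inter`), homomorphism `p ↦ [p.1]`. If `w ∈ V`,
`w.flatMap h = x.flatMap code` then `|w| ≤ m |x|`, cut `w` into `|x|` pieces of length `≤ m`. -/
def S_InvQ : Prop := ∀ {α : Type} [Finite α] (code : α → List Bool) (X : Set (List Bool)),
  InQ X → InQ {x : List α | x.flatMap code ∈ X}

/-- IF Q OVER {0,1} IS CLOSED UNDER COMPLEMENT THEN Q = RUD (use `S_InvQ`). Proof: induction on `Rud`
for `Finite α ∧ InQ L`. `LINTIME` is in Q (`h a = [a]`). Images under `h : α → List β`: compose the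
homomorphisms (`h b ≠ []`, so the flatMap of a nonempty word is not empty). Complement: let
`code : α → List Bool` be injective with all lengths `m ≥ 1` equal; `L' = {x.flatMap code : x ∈ L}` is in Q
(compose the homomorphisms), so its complement is, and `Lᶜ = {x : x.flatMap code ∈ L'ᶜ}` as
`x ↦ x.flatMap code` is injective; `S_InvQ`. -/
def S_RudQ : Prop := (∀ L : Set (List Bool), InQ L → InQ Lᶜ) →
  ∀ (α : Type) (L : Set (List α)), Rud α L → InQ L

end MPdee884H3
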