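import Pool.Agent.Lib.MP_dee884_lc.H3.Spec2

namespace MPdee884H3

open MPdee884H1 MPdee884H2 Pool.Agent.Lin

theorem tTmono : S_Tmono := by
  rintro k K hk hkK A _ X ⟨V, hV, rfl⟩
  let f : Fin K → Fin k := fun i => ⟨min i.1 (k - 1), by omega⟩
  have hf : ∀ i : Fin k, f (Fin.castLE hkK i) = i := by
    intro i
    apply Fin.ext
    simp only [f, Fin.val_castLE]
    omega
  refine ⟨{v : List (A × Fin K) | v.flatMap (fun p => [(p.1, f p.2)]) ∈ V}, lin_inv _ hV, ?_⟩
  ext x
  simp only [Set.mem_ofPred_eq, flatMap_single]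
  constructor
  · rintro ⟨v, rfl, hv⟩
    refine ⟨v.map (fun p => (p.1, Fin.castLE hkK p.2)), ?_, ?_⟩
    · rw [List.map_map]
      rfl
    · rw [List.map_map]
      have : ((fun p : A × Fin K => (p.1, f p.2)) ∘ fun p : A × Fin k =>
          (p.1, Fin.castLE hkK p.2)) = id := by
        funext p
        simp only [Function.comp_apply, hf, id]
      rw [this, List.map_id]
      exact hv
  · rintro ⟨v, rfl, hv⟩
    refine ⟨v.map (fun p => (p.1, f p.2)), ?_, hv⟩
    rw [List.map_map]
    rfl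

end MPdee884H3
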